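import Pool.Agent.H949Z.Fu.Stm

set_option autoImplicit false

namespace Pool.Agent.H949Z.Fu

theorem alg_m {a b A B : ℝ} (ha : |a| ≤ A) (hb : |b| ≤ B) : |a * b| ≤ A * B := by
  rw [abs_mul]
  exact mul_le_mul ha hb (abs_nonneg _) ((abs_nonneg _).trans ha)

theorem alg_a {a b A B : ℝ} (ha : |a| ≤ A) (hb : |b| ≤ B) : |a + b| ≤ A + B :=
  (abs_add_le a b).trans (add_le_add ha hb)

theorem alg_p {a A : ℝ} (ha : |a| ≤ A) (k : ℕ) : |a ^ k| ≤ A ^ k := by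
  rw [abs_pow]
  exact pow_le_pow_left₀ (abs_nonneg _) ha k

theorem alg_c {a : ℝ} (ha : 0 ≤ a) : |a| ≤ a := (abs_of_nonneg ha).le

theorem alg_n (k : ℕ) : |(k : ℝ)| ≤ k := alg_c (Nat.cast_nonneg k)

/-- first coefficient -/
def alg_c1 (u z : ℝ) : ℝ := (u ^ 2 + z ^ 2) ^ 2 * (7 * u ^ 2 + z ^ 2)
/-- second coefficient -/
def alg_c2 (u z : ℝ) : ℝ := (u ^ 2 + z ^ 2) ^ 2 * (12 * u * z)
/-- third coefficient -/
def alg_c3 (u z : ℝ) : ℝ := (u ^ 2 + z ^ 2) ^ 2 * (u ^ 2 + 7 * z ^ 2)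
/-- fourth coefficient -/
def alg_c4 (u z : ℝ) : ℝ := -6 * (u ^ 2 + z ^ 2) ^ 3

theorem alg_Pl (A u z a1 a2 b2 : ℝ) : Pl (A * u) (A * z) a1 a2 b2 =
    A ^ 6 * (alg_c1 u z * a1 + alg_c2 u z * a2 + alg_c3 u z * b2 + alg_c4 u z * (A * z)) := by
  unfold Pl alg_c1 alg_c2 alg_c3 alg_c4
  ring

theorem alg_coef (s X z : ℝ) (hs0 : 0 ≤ s) (hs : s ≤ 1 / 10) (hX : |X| ≤ s ^ 2)
    (hz : |z| ≤ 2 * s) :
    |alg_c1 (1 + X) z - 7| ≤ 2000 * s ^ 2 ∧ |alg_c2 (1 + X) z| ≤ 2000 * s ∧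
      |alg_c3 (1 + X) z| ≤ 2000 ∧ |alg_c4 (1 + X) z| ≤ 2000 ∧ alg_c4 (1 + X) z ≤ -5 := by
  have hX1 : |X| ≤ 1 / 100 := hX.trans (by nlinarith)
  obtain ⟨u, hu⟩ : ∃ u, u = 1 + X := ⟨_, rfl⟩
  have hXu : X = u - 1 := by linarith
  have hu2 : |u| ≤ 2 := by
    rw [abs_le] at hX1 ⊢; constructor <;> linarith [hX1.1, hX1.2]
  have hz1 : |z| ≤ 1 := by linarith
  have o : |(1 : ℝ)| ≤ 1 := by simp
  have hN : |u ^ 2 + z ^ 2| ≤ 2 ^ 2 + 1 ^ 2 := alg_a (alg_p hu2 2) (alg_p hz1 2)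
  rw [← hu]
  refine ⟨?_, ?_, ?_, ?_, ?_⟩
  · have e : alg_c1 u z - 7 = (7 : ℕ) * X * (u ^ 5 + u ^ 4 + u ^ 3 + u ^ 2 + u + 1) +
        z ^ 2 * ((15 : ℕ) * u ^ 4 + (9 : ℕ) * u ^ 2 * z ^ 2 + z ^ 4) := by
      rw [hXu]; unfold alg_c1; push_cast; ring
    rw [e]
    refine (alg_a (alg_m (alg_m (alg_n 7) hX) (alg_a (alg_a (alg_a (alg_a (alg_a (alg_p hu2 5)
      (alg_p hu2 4)) (alg_p hu2 3)) (alg_p hu2 2)) hu2) o)) (alg_m (alg_p hz 2)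
      (alg_a (alg_a (alg_m (alg_n 15) (alg_p hu2 4)) (alg_m (alg_m (alg_n 9) (alg_p hu2 2))
        (alg_p hz1 2))) (alg_p hz1 4)))).trans ?_
    push_cast
    nlinarith [sq_nonneg s]
  · have e : alg_c2 u z = (u ^ 2 + z ^ 2) ^ 2 * ((12 : ℕ) * u * z) := by
      unfold alg_c2; push_cast; ring
    rw [e]
    refine (alg_m (alg_p hN 2) (alg_m (alg_m (alg_n 12) hu2) hz)).trans ?_
    push_cast
    linarith
  · have e : alg_c3 u z = (u ^ 2 + z ^ 2) ^ 2 * (u ^ 2 + (7 : ℕ) * z ^ 2) := by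
      unfold alg_c3; push_cast; ring
    rw [e]
    refine (alg_m (alg_p hN 2) (alg_a (alg_p hu2 2) (alg_m (alg_n 7) (alg_p hz1 2)))).trans ?_
    push_cast
    norm_num
  · have e : alg_c4 u z = -((6 : ℕ) * (u ^ 2 + z ^ 2) ^ 3) := by
      unfold alg_c4; push_cast; ring
    rw [e, abs_neg]
    refine (alg_m (alg_n 6) (alg_p hN 3)).trans ?_
    push_cast
    norm_num
  · have h1 : 99 / 100 ≤ u := by linarith [(abs_le.1 hX1).1]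
    have h2 : 49 / 50 ≤ u ^ 2 + z ^ 2 := by nlinarith [sq_nonneg z]
    have h3 : (49 / 50 : ℝ) ^ 3 ≤ (u ^ 2 + z ^ 2) ^ 3 := pow_le_pow_left₀ (by norm_num) h2 3
    unfold alg_c4
    norm_num at h3
    linarith

theorem alg_diff (s X z β : ℝ) (hs0 : 0 ≤ s) (hs : s ≤ 1 / 10) (hX : |X| ≤ s ^ 2)
    (hz : |z| ≤ 2 * s) (hβ : |β| ≤ s) :
    ∃ d1 e1 d2 e2 d3 e3 d4 e4 : ℝ,
      alg_c1 (1 + X) z = alg_c1 1 β + X * d1 + (z - β) * e1 ∧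
      alg_c2 (1 + X) z = alg_c2 1 β + X * d2 + (z - β) * e2 ∧
      alg_c3 (1 + X) z = alg_c3 1 β + X * d3 + (z - β) * e3 ∧
      alg_c4 (1 + X) z = alg_c4 1 β - X * d4 - (z - β) * e4 ∧
      |d1 - 42| ≤ 2000 * s ^ 2 ∧ |e1| ≤ 2000 * s ∧ |d2| ≤ 2000 * s ∧ |e2| ≤ 2000 ∧
      |d3| ≤ 2000 ∧ |e3| ≤ 2000 ∧ |d4| ≤ 2000 ∧ |e4| ≤ 2000 := by
  have hX1 : |X| ≤ 1 / 100 := hX.trans (by nlinarith)
  obtain ⟨u, hu⟩ : ∃ u, u = 1 + X := ⟨_, rfl⟩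
  have hXu : X = u - 1 := by linarith
  have hu2 : |u| ≤ 2 := by
    rw [abs_le] at hX1 ⊢; constructor <;> linarith [hX1.1, hX1.2]
  have hz1 : |z| ≤ 1 := by linarith
  have hb1 : |β| ≤ 1 := by linarith
  have o : |(1 : ℝ)| ≤ 1 := by simp
  have U2 : |u + 1| ≤ 3 := (alg_a hu2 o).trans (by norm_num)
  have U3 : |u ^ 2 + (u + 1)| ≤ 7 := (alg_a (alg_p hu2 2) U2).trans (by norm_num)
  have U4 : |u ^ 3 + (u ^ 2 + (u + 1))| ≤ 15 := (alg_a (alg_p hu2 3) U3).trans (by norm_num)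
  have U5 : |u ^ 4 + (u ^ 3 + (u ^ 2 + (u + 1)))| ≤ 31 :=
    (alg_a (alg_p hu2 4) U4).trans (by norm_num)
  have U6 : |u ^ 5 + (u ^ 4 + (u ^ 3 + (u ^ 2 + (u + 1))))| ≤ 63 :=
    (alg_a (alg_p hu2 5) U5).trans (by norm_num)
  have z2 : |z ^ 2| ≤ 1 := (alg_p hz1 2).trans (by norm_num)
  have z4 : |z ^ 4| ≤ 1 := (alg_p hz1 4).trans (by norm_num)
  have A1 : |z + β| ≤ 3 * s := (alg_a hz hβ).trans (by linarith)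
  have A1' : |z + β| ≤ 2 := (alg_a hz1 hb1).trans (by norm_num)
  have A2 : |z ^ 2 + β ^ 2| ≤ 2 := (alg_a z2 (alg_p hb1 2)).trans (by norm_num)
  have A4 : |z ^ 4 + z ^ 2 * β ^ 2 + β ^ 4| ≤ 3 :=
    (alg_a (alg_a z4 (alg_m z2 (alg_p hb1 2))) (alg_p hb1 4)).trans (by norm_num)
  have A3 : |z ^ 2 + β ^ 2 + z * β| ≤ 3 := (alg_a A2 (alg_m hz1 hb1)).trans (by norm_num)
  have A5 : |z ^ 4 + z ^ 2 * β ^ 2 + β ^ 4 + z * β * (z ^ 2 + β ^ 2)| ≤ 5 :=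
    (alg_a A4 (alg_m (alg_m hz1 hb1) A2)).trans (by norm_num)
  rw [← hu]
  refine ⟨42 + ((7 : ℕ) * X * ((u ^ 4 + (u ^ 3 + (u ^ 2 + (u + 1)))) + (u ^ 3 + (u ^ 2 + (u + 1)))
      + (u ^ 2 + (u + 1)) + (u + 1) + 1) +
      z ^ 2 * ((15 : ℕ) * (u ^ 3 + (u ^ 2 + (u + 1))) + (9 : ℕ) * (u + 1) * z ^ 2)),
    (z + β) * ((15 : ℕ) + (9 : ℕ) * (z ^ 2 + β ^ 2) + (z ^ 4 + z ^ 2 * β ^ 2 + β ^ 4)),
    z * ((12 : ℕ) * (u ^ 4 + (u ^ 3 + (u ^ 2 + (u + 1)))) + (24 : ℕ) * (u ^ 2 + (u + 1)) * z ^ 2 +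
      (12 : ℕ) * z ^ 4),
    (12 : ℕ) + (24 : ℕ) * (z ^ 2 + β ^ 2 + z * β) +
      (12 : ℕ) * (z ^ 4 + z ^ 2 * β ^ 2 + β ^ 4 + z * β * (z ^ 2 + β ^ 2)),
    (u ^ 5 + (u ^ 4 + (u ^ 3 + (u ^ 2 + (u + 1))))) + (9 : ℕ) * (u ^ 3 + (u ^ 2 + (u + 1))) * z ^ 2
      + (15 : ℕ) * (u + 1) * z ^ 4,
    (z + β) * ((9 : ℕ) + (15 : ℕ) * (z ^ 2 + β ^ 2) + (7 : ℕ) * (z ^ 4 + z ^ 2 * β ^ 2 + β ^ 4)),
    (6 : ℕ) * ((u ^ 5 + (u ^ 4 + (u ^ 3 + (u ^ 2 + (u + 1))))) +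
      (3 : ℕ) * (u ^ 3 + (u ^ 2 + (u + 1))) * z ^ 2 + (3 : ℕ) * (u + 1) * z ^ 4),
    (6 : ℕ) * (z + β) * ((3 : ℕ) + (3 : ℕ) * (z ^ 2 + β ^ 2) + (z ^ 4 + z ^ 2 * β ^ 2 + β ^ 4)),
    ?_, ?_, ?_, ?_, ?_, ?_, ?_, ?_, ?_, ?_, ?_, ?_⟩
  · rw [hXu]; unfold alg_c1; push_cast; ring
  · rw [hXu]; unfold alg_c2; push_cast; ring
  · rw [hXu]; unfold alg_c3; push_cast; ring
  · rw [hXu]; unfold alg_c4; push_cast; ring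
  · rw [add_sub_cancel_left]
    refine (alg_a (alg_m (alg_m (alg_n 7) hX) (alg_a (alg_a (alg_a (alg_a U5 U4) U3) U2) o))
      (alg_m (alg_p hz 2) (alg_a (alg_m (alg_n 15) U4) (alg_m (alg_m (alg_n 9) U2) z2)))).trans ?_
    push_cast
    nlinarith [sq_nonneg s]
  · refine (alg_m A1 (alg_a (alg_a (alg_n 15) (alg_m (alg_n 9) A2)) A4)).trans ?_
    push_cast
    linarith
  · refine (alg_m hz (alg_a (alg_a (alg_m (alg_n 12) U5) (alg_m (alg_m (alg_n 24) U3) z2))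
      (alg_m (alg_n 12) z4))).trans ?_
    push_cast
    linarith
  · refine (alg_a (alg_a (alg_n 12) (alg_m (alg_n 24) A3)) (alg_m (alg_n 12) A5)).trans ?_
    push_cast
    norm_num
  · refine (alg_a (alg_a U6 (alg_m (alg_m (alg_n 9) U4) z2))
      (alg_m (alg_m (alg_n 15) U2) z4)).trans ?_
    push_cast
    norm_num
  · refine (alg_m A1' (alg_a (alg_a (alg_n 9) (alg_m (alg_n 15) A2))
      (alg_m (alg_n 7) A4))).trans ?_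
    push_cast
    norm_num
  · refine (alg_m (alg_n 6) (alg_a (alg_a U6 (alg_m (alg_m (alg_n 3) U4) z2))
      (alg_m (alg_m (alg_n 3) U2) z4))).trans ?_
    push_cast
    norm_num
  · refine (alg_m (alg_m (alg_n 6) A1') (alg_a (alg_a (alg_n 3) (alg_m (alg_n 3) A2))
      A4)).trans ?_
    push_cast
    norm_num

theorem alg_le {a A B : ℝ} (h : |a| ≤ A) (h2 : A ≤ B) : a ≤ B := (le_abs_self a).trans (h.trans h2)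

theorem alg_D (c K σ κ δ ι p at' g1 g2 w1 x x1 x2 y' y2 c1 c2 c3 c4 d1 e1 d2 e2 d3 e3 d4 e4 : ℝ)
    (hK : 1 ≤ K) (hσ : 0 < σ) (hσ1 : σ ≤ 1) (hδ : 0 < δ) (hδ1 : δ ≤ 1) (hι : 1 ≤ 3 * ι)
    (hδι : δ * ι ≤ 1) (hc : 0 < c) (hp : |p| ≤ 8 * ι) (hat : |at'| ≤ σ) (hg1 : |g1| ≤ 1)
    (hg2 : |g2| ≤ 1) (hw1 : c ≤ w1)
    (hx : |x| ≤ K * δ * ι ^ 2) (hx1 : |x1| ≤ K * ι ^ 2) (hx2 : |x2| ≤ K * σ * ι ^ 2)
    (hy' : |y'| ≤ K * σ * δ * ι ^ 2) (hy2 : |y2| ≤ K * σ ^ 2 * ι ^ 2)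
    (hy : |6 * σ * w1 + y'| ≤ 19 * K * σ * ι)
    (hm : x1 + 6 * p * x ≤ δ ^ 4 * (K * δ - 2 * κ * ι ^ 4 + κ * K))
    (b1 : |c1 - 7| ≤ 2000 * (σ * δ ^ 2 * ι) ^ 2) (b2 : |c2| ≤ 2000 * (σ * δ ^ 2 * ι))
    (b3 : |c3| ≤ 2000) (b4 : |c4| ≤ 2000) (b5 : c4 ≤ -5)
    (f1 : |d1 - 42| ≤ 2000 * (σ * δ ^ 2 * ι) ^ 2) (f2 : |e1| ≤ 2000 * (σ * δ ^ 2 * ι))
    (f3 : |d2| ≤ 2000 * (σ * δ ^ 2 * ι)) (f4 : |e2| ≤ 2000) (f5 : |d3| ≤ 2000)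
    (f6 : |e3| ≤ 2000) (f7 : |d4| ≤ 2000) (f8 : |e4| ≤ 2000) :
    c1 * x1 + c2 * x2 * δ ^ 2 + c3 * y2 * δ ^ 4 + c4 * (6 * σ * w1 + y') * δ ^ 4 + d1 * x * p +
      e1 * (6 * σ * w1 + y') * p * δ ^ 2 + d2 * x * at' * (δ ^ 2 * ι) +
      e2 * (6 * σ * w1 + y') * at' * (δ ^ 4 * ι) + d3 * x * g2 * (σ ^ 2 * δ ^ 4 * ι) +
      e3 * (6 * σ * w1 + y') * g2 * (σ ^ 2 * δ ^ 6 * ι) + d4 * x * g1 * (σ * δ ^ 4 * ι) +
      e4 * (6 * σ * w1 + y') * g1 * (σ * δ ^ 6 * ι) ≤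
    δ ^ 4 * (7 * (K * δ - 2 * κ * ι ^ 4 + κ * K) - 30 * σ * c +
      2000000 * (K * σ ^ 2 * ι ^ 4) + 24000 * (K * σ * δ * ι ^ 4)) := by
  have hι0 : 0 < ι := by linarith
  have hK0 : 0 < K := by linarith
  obtain ⟨y, hyd⟩ : ∃ y, y = 6 * σ * w1 + y' := ⟨_, rfl⟩
  rw [← hyd] at hy ⊢
  have hι2 : 1 ≤ (3 * ι) ^ 2 := one_le_pow₀ hι
  have hδ2 : δ ^ 2 ≤ 1 := pow_le_one₀ hδ.le hδ1
  obtain ⟨Q, hQ⟩ : ∃ Q, Q = δ ^ 4 * (K * σ ^ 2 * ι ^ 4) := ⟨_, rfl⟩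
  obtain ⟨R, hR⟩ : ∃ R, R = δ ^ 4 * (K * σ * δ * ι ^ 4) := ⟨_, rfl⟩
  have hQ0 : 0 ≤ Q := by rw [hQ]; positivity
  have q3 : δ ^ 4 * (K * σ ^ 2 * ι ^ 3) ≤ 3 * Q := by
    have := le_mul_of_one_le_right (a := δ ^ 4 * (K * σ ^ 2 * ι ^ 3)) (by positivity) hι
    rw [hQ]; linarith
  have q2 : δ ^ 4 * (K * σ ^ 2 * ι ^ 2) ≤ 9 * Q := by
    have := le_mul_of_one_le_right (a := δ ^ 4 * (K * σ ^ 2 * ι ^ 2)) (by positivity) hι2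
    rw [hQ]; linarith
  have r3 : δ ^ 4 * (K * σ * δ * ι ^ 3) ≤ 3 * R := by
    have := le_mul_of_one_le_right (a := δ ^ 4 * (K * σ * δ * ι ^ 3)) (by positivity) hι
    rw [hR]; linarith
  have r2 : δ ^ 4 * (K * σ * δ * ι ^ 2) ≤ 9 * R := by
    have := le_mul_of_one_le_right (a := δ ^ 4 * (K * σ * δ * ι ^ 2)) (by positivity) hι2
    rw [hR]; linarith
  have q1 : Q * (δ * ι) ≤ Q := mul_le_of_le_one_right hQ0 hδι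
  have q1' : Q * δ ≤ Q := mul_le_of_le_one_right hQ0 hδ1
  have q4 : δ ^ 4 * (K * σ ^ 2 * ι ^ 2) * (δ * ι) ≤ δ ^ 4 * (K * σ ^ 2 * ι ^ 2) :=
    mul_le_of_le_one_right (by positivity) hδι
  have q5 : δ ^ 4 * (K * σ ^ 2 * ι ^ 2) * δ ^ 2 ≤ δ ^ 4 * (K * σ ^ 2 * ι ^ 2) :=
    mul_le_of_le_one_right (by positivity) hδ2
  have q6 : δ ^ 4 * (K * σ ^ 2 * ι ^ 2) * δ ^ 2 * σ ≤ δ ^ 4 * (K * σ ^ 2 * ι ^ 2) * δ ^ 2 :=
    mul_le_of_le_one_right (by positivity) hσ1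
  have t0 : (c1 - 7) * x1 ≤ 2000 * Q := alg_le (alg_m b1 hx1) (by rw [hQ]; linarith)
  have t1 : (d1 - 42) * x * p ≤ 16000 * Q :=
    alg_le (alg_m (alg_m f1 hx) hp) (by rw [hQ] at q1 ⊢; linarith)
  have t2 : c2 * x2 * δ ^ 2 ≤ 6000 * Q :=
    alg_le (alg_m (alg_m b2 hx2) (alg_c (by positivity))) (by linarith)
  have t3 : c3 * y2 * δ ^ 4 ≤ 18000 * Q :=
    alg_le (alg_m (alg_m b3 hy2) (alg_c (by positivity))) (by linarith)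
  have t4 : c4 * y' * δ ^ 4 ≤ 18000 * R :=
    alg_le (alg_m (alg_m b4 hy') (alg_c (by positivity))) (by linarith)
  have t4' : c4 * (6 * σ * w1) * δ ^ 4 ≤ δ ^ 4 * (-30 * σ * c) := by
    have h1 : c4 * w1 ≤ -5 * c := by nlinarith
    have h2 := mul_le_mul_of_nonneg_left h1 (show 0 ≤ 6 * σ * δ ^ 4 by positivity)
    linarith
  have t5 : e1 * y * p * δ ^ 2 ≤ 912000 * Q :=
    alg_le (alg_m (alg_m (alg_m f2 hy) hp) (alg_c (by positivity))) (by linarith)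
  have t6 : d2 * x * at' * (δ ^ 2 * ι) ≤ 2000 * Q :=
    alg_le (alg_m (alg_m (alg_m f3 hx) hat) (alg_c (by positivity)))
      (by rw [hQ] at q1' ⊢; linarith)
  have t7 : e2 * y * at' * (δ ^ 4 * ι) ≤ 342000 * Q :=
    alg_le (alg_m (alg_m (alg_m f4 hy) hat) (alg_c (by positivity))) (by linarith)
  have t8 : d3 * x * g2 * (σ ^ 2 * δ ^ 4 * ι) ≤ 18000 * Q :=
    alg_le (alg_m (alg_m (alg_m f5 hx) hg2) (alg_c (by positivity))) (by linarith)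
  have t9 : e3 * y * g2 * (σ ^ 2 * δ ^ 6 * ι) ≤ 342000 * Q :=
    alg_le (alg_m (alg_m (alg_m f6 hy) hg2) (alg_c (by positivity))) (by linarith)
  have t10 : d4 * x * g1 * (σ * δ ^ 4 * ι) ≤ 6000 * R :=
    alg_le (alg_m (alg_m (alg_m f7 hx) hg1) (alg_c (by positivity))) (by linarith)
  have t11 : e4 * y * g1 * (σ * δ ^ 6 * ι) ≤ 342000 * Q :=
    alg_le (alg_m (alg_m (alg_m f8 hy) hg1) (alg_c (by positivity))) (by linarith)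
  have e : c4 * y * δ ^ 4 = c4 * (6 * σ * w1) * δ ^ 4 + c4 * y' * δ ^ 4 := by rw [hyd]; ring
  have e2 : δ ^ 4 * (7 * (K * δ - 2 * κ * ι ^ 4 + κ * K) - 30 * σ * c +
      2000000 * (K * σ ^ 2 * ι ^ 4) + 24000 * (K * σ * δ * ι ^ 4)) =
      7 * (δ ^ 4 * (K * δ - 2 * κ * ι ^ 4 + κ * K)) + δ ^ 4 * (-30 * σ * c) + 2000000 * Q +
        24000 * R := by rw [hQ, hR]; ring
  rw [e, e2]
  linarith

theorem alg_fin (δ α K μ g0 w0 ε P D : ℝ) (hδ : 0 < δ) (hα : 0 < α) (hK0 : 0 < K)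
    (hσm0 : 0 ≤ μ) (hμ : μ ≤ 1) (hδ10 : δ ≤ 1 / 100) (hδK : 100000000 * (K * δ) ≤ μ)
    (hg0 : |g0| ≤ 1) (hw0 : |w0| ≤ K) (hε2 : ε * ε = 1) (hεa : |ε| ≤ 1) (hP : |P| ≤ 22000 * δ)
    (hD3 : D ≤ δ ^ 4 * (-20 * μ)) :
    ε * ((δ ^ 4 * α) ^ 6 * (P + ε * δ ^ 8 * D) * (1 + δ ^ 6 * g0) ^ 7 -
      (δ ^ 4 * α) ^ 6 * P * (1 + (δ ^ 6 * g0 + ε * (δ ^ 12 * w0))) ^ 7) ≤ 0 := by
  have hδ1 : δ ≤ 1 := by linarith
  obtain ⟨v, hv⟩ : ∃ v, v = 1 + δ ^ 6 * g0 := ⟨_, rfl⟩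
  obtain ⟨t, ht⟩ : ∃ t, t = ε * (δ ^ 12 * w0) := ⟨_, rfl⟩
  have hδ6 : δ ^ 6 ≤ δ := pow_le_of_le_one hδ.le hδ1 (by norm_num)
  have hδ12 : δ ^ 12 ≤ δ := pow_le_of_le_one hδ.le hδ1 (by norm_num)
  have hg : |δ ^ 6 * g0| ≤ 1 / 100 := (alg_m (alg_c (by positivity)) hg0).trans (by linarith)
  have hta : |t| ≤ 1 / 2 := by
    rw [ht]
    refine (alg_m hεa (alg_m (alg_c (by positivity)) hw0)).trans ?_
    have := mul_le_mul_of_nonneg_right hδ12 hK0.le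
    linarith
  have hv1 : 1 / 2 ≤ v := by rw [hv]; linarith [(abs_le.1 hg).1]
  have hv2 : v ≤ 3 / 2 := by rw [hv]; linarith [(abs_le.1 hg).2]
  have hva : |v| ≤ 2 := by rw [abs_le]; constructor <;> linarith
  have hvt : |v + t| ≤ 2 := by
    rw [abs_le]; constructor <;> linarith [(abs_le.1 hta).1, (abs_le.1 hta).2]
  obtain ⟨S, hSd⟩ : ∃ S, S = (v + t) ^ 6 + (v + t) ^ 5 * v + (v + t) ^ 4 * v ^ 2 +
      (v + t) ^ 3 * v ^ 3 + (v + t) ^ 2 * v ^ 4 + (v + t) * v ^ 5 + v ^ 6 := ⟨_, rfl⟩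
  have hS : |S| ≤ 448 := by
    rw [hSd]
    exact (alg_a (alg_a (alg_a (alg_a (alg_a (alg_a (alg_p hvt 6) (alg_m (alg_p hvt 5) hva))
      (alg_m (alg_p hvt 4) (alg_p hva 2))) (alg_m (alg_p hvt 3) (alg_p hva 3)))
      (alg_m (alg_p hvt 2) (alg_p hva 4))) (alg_m hvt (alg_p hva 5))) (alg_p hva 6)).trans
      (by norm_num)
  have hPS : -(P * w0 * S) ≤ 22000 * δ * K * 448 :=
    (neg_le_abs _).trans (alg_m (alg_m hP hw0) hS)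
  have hv7 : (1 / 2 : ℝ) ^ 7 ≤ v ^ 7 := pow_le_pow_left₀ (by norm_num) hv1 7
  have hfin : v ^ 7 * D - δ ^ 4 * (P * w0 * S) ≤ 0 := by
    have h1 : v ^ 7 * D ≤ v ^ 7 * (δ ^ 4 * (-20 * μ)) :=
      mul_le_mul_of_nonneg_left hD3 (by positivity)
    have h2 : v ^ 7 * (-20 * μ) - P * w0 * S ≤ 0 := by
      have := mul_le_mul_of_nonneg_right hv7 hσm0
      norm_num at this
      linarith
    have h3 := mul_le_mul_of_nonneg_left h2 (show 0 ≤ δ ^ 4 by positivity)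
    linarith
  have e : ε * ((δ ^ 4 * α) ^ 6 * (P + ε * δ ^ 8 * D) * (1 + δ ^ 6 * g0) ^ 7 -
      (δ ^ 4 * α) ^ 6 * P * (1 + (δ ^ 6 * g0 + ε * (δ ^ 12 * w0))) ^ 7) =
      (ε * ε) * ((δ ^ 4 * α) ^ 6 * δ ^ 8 * (v ^ 7 * D - δ ^ 4 * (P * w0 * S))) := by
    have e1 : (v + t) ^ 7 = v ^ 7 + t * S := by rw [hSd]; ring
    rw [← add_assoc, ← hv, ← ht, e1, ht]
    ring
  rw [e, hε2, one_mul]
  exact mul_nonpos_of_nonneg_of_nonpos (by positivity) hfin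

theorem alg_P (s β δ σ α aL at' g1 g2 : ℝ) (hs0 : 0 ≤ s) (hs10 : s ≤ 1 / 10) (hβ : |β| ≤ s)
    (hδ : 0 < δ) (hδ1 : δ ≤ 1) (hσ : 0 < σ) (hσ1 : σ ≤ 1) (hα : 0 < α) (hα3 : α ≤ 3)
    (haL : |aL| ≤ 2) (hat : |at'| ≤ σ) (hg1 : |g1| ≤ 1) (hg2 : |g2| ≤ 1) :
    |alg_c1 1 β * (δ ^ 2 * (2 * α + aL)) + alg_c2 1 β * (δ ^ 4 * at') +
      alg_c3 1 β * (σ ^ 2 * δ ^ 6 * g2) + alg_c4 1 β * (-σ * δ ^ 6 * g1)| ≤ 22000 * δ := by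
  obtain ⟨a1, a2, a3, a4, -⟩ := alg_coef s 0 β hs0 hs10 (by simp; positivity) (by linarith)
  rw [add_zero] at a1 a2 a3 a4
  have hδ2 : δ ^ 2 ≤ δ := pow_le_of_le_one hδ.le hδ1 (by norm_num)
  have hδ6 : δ ^ 6 ≤ δ := pow_le_of_le_one hδ.le hδ1 (by norm_num)
  have hδ4 : δ ^ 4 ≤ δ := pow_le_of_le_one hδ.le hδ1 (by norm_num)
  have k1 : |alg_c1 1 β| ≤ 2000 := by
    have : s ^ 2 ≤ 1 / 100 := by nlinarith
    rw [abs_le] at a1 ⊢; constructor <;> linarith [a1.1, a1.2]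
  have k2 : |alg_c2 1 β| ≤ 2000 := a2.trans (by linarith)
  have k3 : |2 * α + aL| ≤ 8 := (alg_a (alg_c (by positivity)) haL).trans (by linarith)
  have k4 : |-σ * δ ^ 6| ≤ δ := by
    rw [neg_mul, abs_neg, abs_of_nonneg (by positivity)]
    exact (mul_le_of_le_one_left (by positivity) hσ1).trans hδ6
  have k5 : |σ ^ 2 * δ ^ 6| ≤ δ := by
    rw [abs_of_nonneg (by positivity)]
    exact (mul_le_of_le_one_left (by positivity) (pow_le_one₀ hσ.le hσ1)).trans hδ6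
  have k6 : |δ ^ 2| ≤ δ := (alg_c (by positivity)).trans hδ2
  have k7 : |δ ^ 4| ≤ δ := (alg_c (by positivity)).trans hδ4
  exact (alg_a (alg_a (alg_a (alg_m k1 (alg_m k6 k3)) (alg_m k2 (alg_m k7 (hat.trans hσ1))))
    (alg_m a3 (alg_m k5 hg2))) (alg_m a4 (alg_m k4 hg1))).trans (by linarith)

theorem alg : ALG := by
  intro c K hc hK
  obtain ⟨m, hm⟩ : ∃ m, m = min c 1 := ⟨_, rfl⟩
  have hm0 : 0 < m := by rw [hm]; exact lt_min hc one_pos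
  have hmc : m ≤ c := by rw [hm]; exact min_le_left _ _
  have hm1 : m ≤ 1 := by rw [hm]; exact min_le_right _ _
  have hK0 : 0 < K := by linarith
  obtain ⟨σ, hσd⟩ : ∃ σ, σ = m / (1000000 * K ^ 2) := ⟨_, rfl⟩
  have hK2 : 1 ≤ K ^ 2 := one_le_pow₀ hK
  have hσ : 0 < σ := by rw [hσd]; positivity
  have hσK : 1000000 * K ^ 2 * σ = m := by rw [hσd]; field_simp
  have hσ1 : σ ≤ 1 := by nlinarith
  obtain ⟨κ, hκd⟩ : ∃ κ, κ = σ * m / K := ⟨_, rfl⟩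
  have hκ : 0 < κ := by rw [hκd]; positivity
  have hκK : κ * K = σ * m := by rw [hκd]; field_simp
  have hσm : σ * m ≤ 1 := mul_le_one₀ hσ1 hm0.le hm1
  have hκ1 : κ ≤ 1 := by nlinarith
  refine ⟨σ, κ, σ * m / (100000000 * K), hσ, hσ1, hκ, hκ1, by positivity, ?_⟩
  intro δ α aL at' g0 g1 g2 w0 w1 x x1 x2 y' y2 ε hδ hδη hδα hα3 haL hat hg0 hg1 hg2 hw0 hw1 hw1K
    hx hx1 hx2 hy' hy2 hmain hε
  have hα : 0 < α := by linarith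
  have hδK : 100000000 * (K * δ) ≤ σ * m := by
    rw [le_div_iff₀ (by positivity)] at hδη; linarith
  have hδKδ : δ ≤ K * δ := le_mul_of_one_le_left hδ.le hK
  have hσm' : σ * m ≤ σ := mul_le_of_le_one_right hσ.le hm1
  have hδ10 : δ ≤ 1 / 100 := by linarith
  have hδσ : δ ≤ σ := by linarith
  obtain ⟨ι, hι⟩ : ∃ ι, ι = α⁻¹ := ⟨_, rfl⟩
  have hι0 : 0 < ι := by rw [hι]; positivity
  have hαι : α * ι = 1 := by rw [hι]; field_simp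
  have hι3 : 1 ≤ 3 * ι := by nlinarith
  have hδι : δ * ι ≤ 1 := by nlinarith
  have dv : ∀ (t : ℝ) (k : ℕ), t / α ^ k = t * ι ^ k := fun t k => by
    rw [hι, inv_pow, div_eq_mul_inv]
  rw [dv] at hx hx1 hx2 hy' hy2 hmain
  rw [div_eq_mul_inv, ← hι] at hmain
  have hD2 : 7 * (K * δ - 2 * κ * ι ^ 4 + κ * K) - 30 * σ * c +
      2000000 * (K * σ ^ 2 * ι ^ 4) + 24000 * (K * σ * δ * ι ^ 4) ≤ -20 * (σ * m) := by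
    have h1 : 1000000 * (K * σ ^ 2) = κ := by
      have : K * (1000000 * (K * σ ^ 2)) = K * κ := by rw [mul_comm K κ, hκK, ← hσK]; ring
      exact mul_left_cancel₀ hK0.ne' this
    have h2 : K * σ * δ ≤ K * σ * σ := mul_le_mul_of_nonneg_left hδσ (by positivity)
    have h3 : 2000000 * (K * σ ^ 2) + 24000 * (K * σ * δ) ≤ 14 * κ := by nlinarith
    have h4 := mul_le_mul_of_nonneg_right h3 (show 0 ≤ ι ^ 4 by positivity)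
    have h5 : σ * m ≤ σ * c := mul_le_mul_of_nonneg_left hmc hσ.le
    have h6 : 0 ≤ K * δ := by positivity
    rw [hκK]
    linarith
  have hε2 : ε * ε = 1 := by rcases hε with h | h <;> rw [h] <;> norm_num
  have hεa : |ε| ≤ 1 := by rcases hε with h | h <;> rw [h] <;> norm_num
  obtain ⟨s, hs⟩ : ∃ s, s = σ * δ ^ 2 * ι := ⟨_, rfl⟩
  have hs0 : 0 ≤ s := by rw [hs]; positivity
  have hsδ : s ≤ δ := by
    have h1 : σ * (δ * ι) ≤ 1 := mul_le_one₀ hσ1 (by positivity) hδι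
    have h2 := mul_le_mul_of_nonneg_left h1 hδ.le
    rw [hs]; linarith
  have hs10 : s ≤ 1 / 10 := by linarith
  have hp : |2 + aL * ι| ≤ 8 * ι :=
    (alg_a (alg_c (by norm_num : (0 : ℝ) ≤ 2)) (alg_m haL (alg_c hι0.le))).trans (by linarith)
  have hw1a : |w1| ≤ K := by rw [abs_of_pos (by linarith)]; exact hw1K
  have hy : |6 * σ * w1 + y'| ≤ 19 * K * σ * ι := by
    refine (alg_a (alg_m (alg_c (by positivity)) hw1a) hy').trans ?_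
    have h1 := le_mul_of_one_le_right (a := 6 * σ * K) (by positivity) hι3
    have h2 := mul_le_of_le_one_right (a := K * σ * ι) (by positivity) hδι
    linarith
  obtain ⟨y, hyd⟩ : ∃ y, y = 6 * σ * w1 + y' := ⟨_, rfl⟩
  obtain ⟨X, hXd⟩ : ∃ X, X = ε * (δ ^ 6 * ι) * x := ⟨_, rfl⟩
  obtain ⟨Y, hYd⟩ : ∃ Y, Y = ε * (δ ^ 8 * ι) * y := ⟨_, rfl⟩
  obtain ⟨β, hβd⟩ : ∃ β, β = -(s * g1) := ⟨_, rfl⟩
  have hδ1 : δ ≤ 1 := by linarith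
  have hβ : |β| ≤ s := by
    rw [hβd, abs_neg]
    exact (alg_m (alg_c hs0) hg1).trans (by linarith)
  have hX : |X| ≤ s ^ 2 := by
    rw [hXd]
    refine (alg_m (alg_m hεa (alg_c (by positivity))) hx).trans ?_
    have h1 : K * δ * δ ≤ σ * σ := mul_le_mul (by linarith) hδσ hδ.le hσ.le
    have h2 : K * δ * δ * (δ * ι) ≤ σ * σ :=
      (mul_le_of_le_one_right (by positivity) hδι).trans h1
    have h3 := mul_le_mul_of_nonneg_left h2 (show 0 ≤ δ ^ 4 * ι ^ 2 by positivity)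
    rw [hs]; linarith
  have hY : |Y| ≤ s := by
    rw [hYd, hyd]
    refine (alg_m (alg_m hεa (alg_c (by positivity))) hy).trans ?_
    have h1 : 19 * (K * δ) * (δ * ι) ≤ 1 := mul_le_one₀ (by linarith) (by positivity) hδι
    have h2 : 19 * (K * δ) * (δ * ι) * δ ^ 4 ≤ 1 :=
      mul_le_one₀ h1 (by positivity) (pow_le_one₀ hδ.le hδ1)
    have h3 := mul_le_of_le_one_right hs0 h2
    rw [hs] at h3 ⊢; linarith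
  have hz : |β + Y| ≤ 2 * s := (alg_a hβ hY).trans (by linarith)
  obtain ⟨b1, b2, b3, b4, b5⟩ := alg_coef s X (β + Y) hs0 hs10 hX hz
  obtain ⟨d1, e1, d2, e2, d3, e3, d4, e4, i1, i2, i3, i4, f1, f2, f3, f4, f5, f6, f7, f8⟩ :=
    alg_diff s X (β + Y) β hs0 hs10 hX hz hβ
  rw [add_sub_cancel_left] at i1 i2 i3 i4
  have hD := alg_D c K σ κ δ ι (2 + aL * ι) at' g1 g2 w1 x x1 x2 y' y2 _ _ _ _ d1 e1 d2 e2 d3 e3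
    d4 e4 hK hσ hσ1 hδ hδ1 hι3 hδι hc hp hat hg1 hg2 hw1 hx hx1 hx2 hy' hy2 hy hmain
    (hs ▸ b1) (hs ▸ b2) b3 b4 b5 (hs ▸ f1) (hs ▸ f2) (hs ▸ f3) f4 f5 f6 f7 f8
  rw [← hyd] at hD ⊢
  have hD3 := hD.trans (mul_le_mul_of_nonneg_left hD2 (by positivity))
  obtain ⟨D, hDd⟩ : ∃ D, D = alg_c1 (1 + X) (β + Y) * x1 + alg_c2 (1 + X) (β + Y) * x2 * δ ^ 2 +
      alg_c3 (1 + X) (β + Y) * y2 * δ ^ 4 + alg_c4 (1 + X) (β + Y) * y * δ ^ 4 +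
      d1 * x * (2 + aL * ι) + e1 * y * (2 + aL * ι) * δ ^ 2 + d2 * x * at' * (δ ^ 2 * ι) +
      e2 * y * at' * (δ ^ 4 * ι) + d3 * x * g2 * (σ ^ 2 * δ ^ 4 * ι) +
      e3 * y * g2 * (σ ^ 2 * δ ^ 6 * ι) + d4 * x * g1 * (σ * δ ^ 4 * ι) +
      e4 * y * g1 * (σ * δ ^ 6 * ι) := ⟨_, rfl⟩
  rw [← hDd] at hD3
  obtain ⟨P, hPd⟩ : ∃ P, P = alg_c1 1 β * (δ ^ 2 * (2 * α + aL)) + alg_c2 1 β * (δ ^ 4 * at') +
      alg_c3 1 β * (σ ^ 2 * δ ^ 6 * g2) + alg_c4 1 β * (-σ * δ ^ 6 * g1) := ⟨_, rfl⟩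
  have E0 : -σ * δ ^ 6 * g1 = δ ^ 4 * α * β := by
    rw [hβd, hs]; linear_combination (σ * δ ^ 6 * g1) * hαι
  have E1 : δ ^ 4 * α + ε * (δ ^ 10 * x) = δ ^ 4 * α * (1 + X) := by
    rw [hXd]; linear_combination (-(ε * δ ^ 10 * x)) * hαι
  have E2 : -σ * δ ^ 6 * g1 + ε * (δ ^ 12 * y) = δ ^ 4 * α * (β + Y) := by
    rw [E0, hYd]; linear_combination (-(ε * δ ^ 12 * y)) * hαι
  have P0 : Pl (δ ^ 4 * α) (-σ * δ ^ 6 * g1) (δ ^ 2 * (2 * α + aL)) (δ ^ 4 * at')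
      (σ ^ 2 * δ ^ 6 * g2) = (δ ^ 4 * α) ^ 6 * P := by
    have := alg_Pl (δ ^ 4 * α) 1 β (δ ^ 2 * (2 * α + aL)) (δ ^ 4 * at') (σ ^ 2 * δ ^ 6 * g2)
    rw [mul_one, ← E0] at this
    rw [this, hPd]
  have P1 : Pl (δ ^ 4 * α + ε * (δ ^ 10 * x)) (-σ * δ ^ 6 * g1 + ε * (δ ^ 12 * y))
      (δ ^ 2 * (2 * α + aL) + ε * (δ ^ 8 * x1)) (δ ^ 4 * at' + ε * (δ ^ 10 * x2))
      (σ ^ 2 * δ ^ 6 * g2 + ε * (δ ^ 12 * y2)) = (δ ^ 4 * α) ^ 6 * (P + ε * δ ^ 8 * D) := by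
    rw [E1, E2, alg_Pl, ← E2]
    congr 1
    rw [hPd, hDd]
    have j1 : alg_c1 1 β = alg_c1 (1 + X) (β + Y) - X * d1 - Y * e1 := by
      rw [i1]; ring
    have j2 : alg_c2 1 β = alg_c2 (1 + X) (β + Y) - X * d2 - Y * e2 := by
      rw [i2]; ring
    have j3 : alg_c3 1 β = alg_c3 (1 + X) (β + Y) - X * d3 - Y * e3 := by
      rw [i3]; ring
    have j4 : alg_c4 1 β = alg_c4 (1 + X) (β + Y) + X * d4 + Y * e4 := by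
      rw [i4]; ring
    rw [j1, j2, j3, j4]
    generalize alg_c1 (1 + X) (β + Y) = C1
    generalize alg_c2 (1 + X) (β + Y) = C2
    generalize alg_c3 (1 + X) (β + Y) = C3
    generalize alg_c4 (1 + X) (β + Y) = C4
    rw [hXd, hYd]
    linear_combination (2 * ε * δ ^ 8 * d1 * x + 2 * ε * δ ^ 10 * e1 * y) * hαι
  rw [P0, P1]
  refine alg_fin δ α K (σ * m) g0 w0 ε P D hδ hα hK0 (by positivity) hσm hδ10 hδK hg0 hw0 hε2 hεa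
    ?_ hD3
  rw [hPd]
  exact alg_P s β δ σ α aL at' g1 g2 hs0 hs10 hβ hδ hδ1 hσ hσ1 hα hα3 haL hat hg1 hg2

end Pool.Agent.H949Z.Fu
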