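import Pool.Agent.H949Z.Fu.Compare1

/-! The comparison principle. -/

set_option autoImplicit false

namespace Pool.Agent.H949Z.Fu

open MeasureTheory Filter Topology Set

theorem cmp_g_deriv (y : ℝ) : HasDerivAt (fun y : ℝ => max y 0 ^ 2) (2 * max y 0) y := by
  rcases lt_trichotomy y 0 with h | rfl | h
  · rw [max_eq_right h.le, mul_zero]
    refine (hasDerivAt_const y (0 : ℝ)).congr_of_eventuallyEq ?_
    filter_upwards [gt_mem_nhds h] with t ht
    simp [max_eq_right ht.le]
  · rw [hasDerivAt_iff_isLittleO_nhds_zero]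
    refine Asymptotics.IsBigO.trans_isLittleO (g := fun t : ℝ => t ^ 2)
      (Asymptotics.IsBigO.of_bound' (Eventually.of_forall fun t => ?_))
      (Asymptotics.isLittleO_pow_id one_lt_two)
    rcases le_total t 0 with h | h
    · simp [max_eq_right h, sq_nonneg]
    · simp [max_eq_left h]
  · rw [max_eq_left h.le]
    refine HasDerivAt.congr_of_eventuallyEq (f := fun t : ℝ => t ^ 2) (by simpa using hasDerivAt_pow 2 y) ?_
    filter_upwards [lt_mem_nhds h] with t ht
    simp [max_eq_left ht.le]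

theorem cmp_alg {v b : E → ℝ} {z : E} (hv : 0 < v z) (hb : 0 < b z) (c a : ℝ) (F F' : ℝ → ℝ)
    (ξ : E) :
    (inner ℝ ((v z * Real.exp a) ^ 7 • ph (lg v z + ξ)) (cmp_grd v b c 1 0 F F' z a ξ) +
      (v z * Real.exp a) ^ 7 * pot v z * cmp_val v b c 1 0 F z a) -
    (inner ℝ (flux b z) (cmp_grd v b c 8 (-7) F F' z a ξ) +
      dvg (flux b) z * cmp_val v b c 8 (-7) F z a) =
    (v z * Real.exp a) ^ 8 * (F (cmp_tau v b c z a) * Lb (lg v z + ξ) (lg b z) +
      F' (cmp_tau v b c z a) * inner ℝ (ph (lg v z + ξ) - ph (lg b z)) (lg v z + ξ - lg b z) +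
      F (cmp_tau v b c z a) * (pot v z - dvg (flux b) z / b z ^ 7)) := by
  have h1 : cmp_w v b 1 0 z a = v z * Real.exp a := by
    simp [cmp_w, Real.exp_add, Real.exp_log hv, mul_comm]
  have h2 : cmp_w v b 8 (-7) z a = (v z * Real.exp a) ^ 8 / b z ^ 7 := by
    have e1 : Real.exp (8 * (a + Real.log (v z))) = (v z * Real.exp a) ^ 8 := by
      rw [show (8 : ℝ) = ((8 : ℕ) : ℝ) by norm_num, Real.exp_nat_mul, Real.exp_add,
        Real.exp_log hv, mul_comm]
    have e2 : Real.exp (7 * Real.log (b z)) = b z ^ 7 := by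
      rw [show (7 : ℝ) = ((7 : ℕ) : ℝ) by norm_num, Real.exp_nat_mul, Real.exp_log hb]
    rw [cmp_w, Real.exp_add, neg_mul, Real.exp_neg, e1, e2, div_eq_mul_inv]
  have h3 : flux b z = b z ^ 7 • ph (lg b z) := by
    unfold flux ph lg
    rw [norm_smul, norm_inv, Real.norm_of_nonneg hb.le, smul_smul, smul_smul]
    congr 1
    field_simp
  have h4 : ∀ x : E, inner ℝ (ph x) x = ‖x‖ ^ 8 := fun x => by
    unfold ph
    rw [real_inner_smul_left, real_inner_self_eq_norm_sq]
    ring
  unfold cmp_grd cmp_val Lb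
  rw [h1, h2, h3]
  generalize lg v z + ξ = x
  generalize lg b z = y
  simp only [real_inner_smul_left, real_inner_smul_right, inner_add_right, inner_sub_right,
    inner_sub_left, h4]
  field_simp
  ring

theorem compare (hM : MORREY) (hP : PRATT) (hI : IBP) : COMPARE := by
  intro v C hv h0 lo hi hs h η apx hstar S K b C' c ε hS hK hKS h0S hb hε hsup hball hoff
  have H : cmp_Ctx v C h0 lo hi hs h η S K b C' c ε :=
    ⟨hv, apx, hS, hK, hKS, h0S, hb, hball, hoff⟩
  have hε2 : ε * ε = 1 := by rcases hε with rfl | rfl <;> norm_num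
  have hOm : ∀ z ∈ Om, z ∈ {z : E | z ≠ 0} := fun z hz h => by
    have : 1 < ‖z‖ := hz
    rw [h, norm_zero] at this
    linarith
  have hS0 : ∀ z ∈ S, z ∈ {z : E | z ≠ 0} := fun z hz h => h0S (h ▸ hz)
  have hhi : ∀ z, h z ≤ hi := fun z => le_of_tendsto' (apx.lim z) fun n => apx.hi n z
  let G : ℝ → ℝ := fun t => max (ε * t) 0 ^ 2
  let G' : ℝ → ℝ := fun t => 2 * max (ε * t) 0 * ε
  have hG : ∀ t, HasDerivAt G (G' t) t := fun t =>
    HasDerivAt.congr_deriv ((cmp_g_deriv (ε * t)).comp t ((hasDerivAt_id t).const_mul ε))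
      (by simp [G'])
  have hG' : Continuous G' := by fun_prop
  have hG0 : ∀ t, ε * t ≤ 0 → G t = 0 := fun t ht => by simp [G, max_eq_right ht]
  let F : ℝ → ℝ := fun t => Real.exp (4 * (ε - 1) * t) * G t
  let F' : ℝ → ℝ := fun t => Real.exp (4 * (ε - 1) * t) * (4 * (ε - 1)) * G t +
    Real.exp (4 * (ε - 1) * t) * G' t
  have hF : ∀ t, HasDerivAt F (F' t) t := fun t =>
    HasDerivAt.congr_deriv ((((hasDerivAt_id t).const_mul (4 * (ε - 1))).exp).mul (hG t))
      (by simp [F'])
  have hF' : Continuous F' := by fun_prop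
  have hF0 : ∀ t, ε * t ≤ 0 → F t = 0 := fun t ht => by simp [F, hG0 t ht]
  have hvm : AEStronglyMeasurable v (volume.restrict Om) :=
    ContinuousOn.aestronglyMeasurable
      (fun z hz => (hv.diff z (hOm z hz)).continuousAt.continuousWithinAt) cmp_Om_meas
  have hum : AEStronglyMeasurable (fun z => (v z * Real.exp (h z)) ^ 7) (volume.restrict Om) :=
    (hvm.mul (Real.continuous_exp.comp apx.cont).aestronglyMeasurable).pow 7
  obtain ⟨D, hD⟩ : ∃ D : ℝ, D = 2 * Real.exp hi * (1 + 2 * |C|) := ⟨_, rfl⟩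
  have hD0 : 0 ≤ D := by rw [hD]; positivity
  obtain ⟨i1, z1⟩ := cmp_lim hP H 1 0 hF hF' hF0
    (A := fun z => (v z * Real.exp (h z)) ^ 7 • ph (lg v z + η z))
    (Bc := fun z => (v z * Real.exp (h z)) ^ 7 * pot v z) (x := fun z => D * (‖η z‖ + ‖z‖⁻¹))
    (k := fun z => (D ^ 8 * 2 ^ 7 + Real.exp hi ^ 7 * (2 * |C|)) * (‖η z‖ ^ 8 + ‖z‖⁻¹ ^ 8))
    (hum.smul (cmp_cont_ph.comp_aestronglyMeasurable (AEStronglyMeasurable.add
      ((hvm.aemeasurable.inv.aestronglyMeasurable).smul (cmp_meas_grad v).aestronglyMeasurable)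
        apx.meas)))
    (hum.mul (((cmp_meas_dvg _).aemeasurable.div
      (hvm.aemeasurable.pow_const 7)).aestronglyMeasurable))
    (by exact (apx.inte.add cmp_int_inv).const_mul _) (fun z => by positivity)
    (fun z hz _ => by
      have h1 := hv.lo z (hS0 z hz)
      have h2 := hv.hi z (hS0 z hz)
      have h3 : Real.exp (h z) ≤ Real.exp hi := Real.exp_le_exp.2 (hhi z)
      have h4 := cmp_lg_le hv (hS0 z hz)
      have hσ : 0 ≤ ‖z‖⁻¹ := by positivity
      have hv0 : 0 < v z := by linarith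
      refine ⟨by positivity, ?_, ?_, ?_⟩
      · rw [norm_smul, cmp_norm_ph, Real.norm_of_nonneg (by positivity), ← mul_pow]
        refine pow_le_pow_left₀ (by positivity) ?_ _
        rw [hD, mul_assoc (2 * Real.exp hi)]
        refine mul_le_mul (by gcongr) ((norm_add_le _ _).trans ?_) (norm_nonneg _) (by positivity)
        nlinarith [norm_nonneg (η z), abs_nonneg C]
      · rw [mul_pow, add_mul]
        refine le_add_of_le_of_nonneg ?_ (by positivity)
        rw [mul_assoc]
        exact mul_le_mul_of_nonneg_left (add_pow_le (norm_nonneg _) hσ 8) (by positivity)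
      · have h5 : (v z * Real.exp (h z)) ^ 7 * pot v z = Real.exp (h z) ^ 7 * dvg (flux v) z := by
          unfold pot; field_simp
        have h6 : |dvg (flux v) z| ≤ 2 * |C| * ‖z‖⁻¹ ^ 8 := by
          refine (cmp_dvg_le _ _).trans ?_
          have := (hv.fbd z (hS0 z hz)).trans
            (div_le_div_of_nonneg_right (le_abs_self C) (by positivity))
          rw [inv_pow, mul_assoc, ← div_eq_mul_inv]
          linarith
        rw [h5, abs_mul, abs_of_nonneg (by positivity), add_mul]
        refine le_add_of_nonneg_of_le (by positivity) ?_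
        rw [mul_assoc]
        refine mul_le_mul (by gcongr) (h6.trans ?_) (abs_nonneg _) (by positivity)
        gcongr
        exact le_add_of_nonneg_left (by positivity))
    (fun ζ hζ _ => by
      rw [← hstar ζ hζ]
      congr 1
      ext z
      rw [real_inner_smul_left]
      ring)
  obtain ⟨i2, z2⟩ := cmp_lim hP H 8 (-7) hF hF' hF0 (A := flux b) (Bc := dvg (flux b))
    (x := fun z => |C'| * ‖z‖⁻¹) (k := fun z => (|C'| ^ 8 + 2 * |C'|) * ‖z‖⁻¹ ^ 8)
    (cmp_cont_ph.comp_aestronglyMeasurable (cmp_meas_grad b).aestronglyMeasurable)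
    (cmp_meas_dvg _).aestronglyMeasurable (by exact cmp_int_inv.const_mul _)
    (fun z => by positivity)
    (fun z hz _ => by
      refine ⟨by positivity, ?_, ?_, ?_⟩
      · unfold flux
        rw [cmp_norm_ph]
        refine pow_le_pow_left₀ (norm_nonneg _) ?_ _
        rw [← div_eq_mul_inv]
        exact (hb.grad z hz).trans (div_le_div_of_nonneg_right (le_abs_self _) (norm_nonneg _))
      · rw [mul_pow, add_mul]
        exact le_add_of_nonneg_right (by positivity)
      · rw [add_mul]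
        refine le_add_of_nonneg_of_le (by positivity) ((cmp_dvg_le _ _).trans ?_)
        have := (hb.fbd z hz).trans
          (div_le_div_of_nonneg_right (le_abs_self C') (by positivity))
        rw [inv_pow, mul_assoc, ← div_eq_mul_inv]
        linarith)
    (fun ζ hζ hK' => (hI S K b C' hS hK hKS hb ζ hζ hK').2.2)
  -- the difference has a sign
  set N1 := S.indicator fun z => inner ℝ ((v z * Real.exp (h z)) ^ 7 • ph (lg v z + η z))
    (cmp_grd v b c 1 0 F F' z (h z) (η z)) +
      (v z * Real.exp (h z)) ^ 7 * pot v z * cmp_val v b c 1 0 F z (h z) with hN1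
  set N2 := S.indicator fun z => inner ℝ (flux b z) (cmp_grd v b c 8 (-7) F F' z (h z) (η z)) +
      dvg (flux b) z * cmp_val v b c 8 (-7) F z (h z) with hN2
  have key : ∀ z, 0 ≤ ε * (N1 z - N2 z) ∧ (z ∈ S → ε * (N1 z - N2 z) = 0 →
      G' (cmp_tau v b c z (h z)) • (lg v z + η z - lg b z) = 0) := by
    intro z
    by_cases hz : z ∈ S
    · have hv0 : 0 < v z := by linarith [hv.lo z (hS0 z hz)]
      have hb0 : 0 < b z := by linarith [hb.lo z hz]
      rw [hN1, hN2, indicator_of_mem hz, indicator_of_mem hz, cmp_alg hv0 hb0]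
      have h1 : 0 ≤ ε * (pot v z - dvg (flux b) z / b z ^ 7) := by
        have : ε * (pot v z - dvg (flux b) z / b z ^ 7) =
            -(ε * (dvg (flux b) z * v z ^ 7 - dvg (flux v) z * b z ^ 7)) / (v z ^ 7 * b z ^ 7) := by
          unfold pot; field_simp; ring
        rw [this]
        exact div_nonneg (neg_nonneg.2 (hsup z hz)) (by positivity)
      generalize cmp_tau v b c z (h z) = t
      generalize pot v z - dvg (flux b) z / b z ^ 7 = r at h1 ⊢
      generalize lg v z + η z = x
      generalize lg b z = y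
      have hM8 := cmp_M x y
      generalize inner ℝ (ph x - ph y) (x - y) = M at hM8 ⊢
      have hL1 := cmp_Lb_nonneg x y
      have hL2 := cmp_Lb_nonneg y x
      have hM0 : 0 ≤ M := by linarith
      obtain ⟨L, hL, hL0, hLe⟩ : ∃ L, ε * Lb x y + 4 * (1 - ε) * M = L ∧ 0 ≤ L ∧
          (L = 0 → x = y) := by
        rcases hε with rfl | rfl
        · exact ⟨Lb x y, by ring, hL1, cmp_Lb_zero⟩
        · exact ⟨Lb y x, by linarith, hL2, fun h => (cmp_Lb_zero h).symm⟩
      have hu : 0 < (v z * Real.exp (h z)) ^ 8 * Real.exp (4 * (ε - 1) * t) := by positivity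
      have hm : 0 ≤ max (ε * t) 0 := le_max_right _ _
      have e : ε * ((v z * Real.exp (h z)) ^ 8 * (F t * Lb x y + F' t * M + F t * r)) =
          (v z * Real.exp (h z)) ^ 8 * Real.exp (4 * (ε - 1) * t) *
            (max (ε * t) 0 ^ 2 * L + 2 * max (ε * t) 0 * M + max (ε * t) 0 ^ 2 * (ε * r)) := by
        rw [← hL]
        simp only [F, F', G, G']
        linear_combination ((v z * Real.exp (h z)) ^ 8 * Real.exp (4 * (ε - 1) * t) *
          (4 * max (ε * t) 0 ^ 2 * M + 2 * max (ε * t) 0 * M)) * hε2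
      rw [e]
      refine ⟨by positivity, fun _ h2 => ?_⟩
      have h3 := (mul_eq_zero.1 h2).resolve_left hu.ne'
      have h4 : 0 ≤ max (ε * t) 0 ^ 2 * L := by positivity
      have h5 : 0 ≤ 2 * max (ε * t) 0 * M := by positivity
      have h6 : 0 ≤ max (ε * t) 0 ^ 2 * (ε * r) := by positivity
      have h7 : max (ε * t) 0 ^ 2 * L = 0 := by linarith
      rcases mul_eq_zero.1 h7 with h8 | h8
      · simp [G', pow_eq_zero_iff two_ne_zero |>.1 h8]
      · simp [hLe h8]
    · simp [hN1, hN2, hz]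
  have hae : ∀ᵐ z ∂(volume.restrict Om), ε * (N1 z - N2 z) = 0 := by
    refine (integral_eq_zero_iff_of_nonneg (fun z => (key z).1)
      (by exact (i1.sub i2).const_mul ε)).1 ?_
    rw [integral_const_mul, integral_sub i1 i2, z1, z2, sub_zero, mul_zero]
  have hGc : Continuous G := by fun_prop
  obtain ⟨B, hB0, hB⟩ := cmp_bound hv hb h0S c 0 0 lo hi hGc hG'
  let N : E → ℝ → E → ℝ := fun z a ξ => ‖S.indicator (fun z => cmp_grd v b c 0 0 G G' z a ξ) z‖ ^ 8
  have e : ∀ n z, N z (hs n z) (gradient (hs n) z) =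
      ‖gradient (S.indicator fun z => cmp_val v b c 0 0 G z (hs n z)) z‖ ^ 8 := by
    intro n z
    rw [(cmp_test H 0 0 hG hG' hG0 n).2.2]
    by_cases hz : z ∈ S <;> simp [N, hz]
  obtain ⟨-, -, h3⟩ := hP h0 lo hi hs h η apx N (fun z => B ^ 8 * 2 ^ 7 * ‖z‖⁻¹ ^ 8)
    (B ^ 8 * 2 ^ 7) (by exact cmp_int_inv.const_mul _) (fun n => by
      simp only [e]
      exact ((cmp_meas_grad _).norm.pow_const 8).aestronglyMeasurable)
    (fun z _ => by
      by_cases hz : z ∈ S
      · simp only [N, indicator_of_mem hz]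
        exact (cmp_cont_grd 0 0 hGc hG' z).norm.pow 8
      · simp only [N, indicator_of_notMem hz]
        exact continuous_const)
    (fun z _ a ha ξ => by
      rw [abs_of_nonneg (by positivity)]
      by_cases hz : z ∈ S
      · simp only [N, indicator_of_mem hz]
        refine (pow_le_pow_left₀ (norm_nonneg _) ((hB z hz a ha).2 ξ) 8).trans ?_
        rw [mul_pow, ← mul_add, mul_assoc, add_comm (‖z‖⁻¹ ^ 8)]
        exact mul_le_mul_of_nonneg_left (add_pow_le (norm_nonneg _) (by positivity) 8)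
          (by positivity)
      · simp only [N, indicator_of_notMem hz, norm_zero]
        norm_num
        positivity)
  have h4 : ∫ z in Om, N z (h z) (η z) = 0 := by
    refine integral_eq_zero_of_ae ?_
    filter_upwards [hae] with z hz
    by_cases hzS : z ∈ S
    · simp [N, hzS, cmp_grd, (key z).2 hzS hz]
    · simp [N, hzS]
  rw [h4] at h3
  simp only [e] at h3
  intro x hx
  have h5 : Tendsto (fun n => cmp_val v b c 0 0 G x (hs n x)) atTop
      (𝓝 (cmp_val v b c 0 0 G x (h x))) :=
    ((cmp_cont_val 0 0 hGc x).tendsto _).comp (apx.lim x)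
  have h6 : ∀ δ > 0, cmp_val v b c 0 0 G x (h x) ≤ δ := by
    intro δ hδ
    obtain ⟨τ, hτ, h7⟩ := hM ‖x‖ δ hδ
    refine le_of_tendsto h5 ?_
    filter_upwards [h3.eventually (ge_mem_nhds hτ)] with n hn
    have h8 := (cmp_test H 0 0 hG hG' hG0 n).1
    have h9 := h7 _ h8.diff h8.zero h8.int hn x le_rfl
    rw [indicator_of_mem hx] at h9
    exact (le_abs_self _).trans h9
  have h7 : cmp_val v b c 0 0 G x (h x) ≤ 0 := le_of_forall_pos_le_add fun δ hδ => by
    rw [zero_add]; exact h6 δ hδ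
  simp only [cmp_val, cmp_w, zero_mul, add_zero, Real.exp_zero, one_mul, G] at h7
  have h8 : max (ε * cmp_tau v b c x (h x)) 0 = 0 :=
    pow_eq_zero_iff two_ne_zero |>.1 (le_antisymm h7 (sq_nonneg _))
  exact (le_max_left _ _).trans h8.le

end Pool.Agent.H949Z.Fu
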