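import Pool.Agent.H949Z.Fu.Stm

/-! Test functions for the comparison principle. -/

set_option autoImplicit false

namespace Pool.Agent.H949Z.Fu

open MeasureTheory Filter Topology Set

theorem cmp_Lb_eq (x y : E) : Lb x y = (‖x‖ ^ 2 - ‖y‖ ^ 2) ^ 2 *
    ((‖x‖ ^ 2) ^ 2 + 2 * ‖x‖ ^ 2 * ‖y‖ ^ 2 + 3 * (‖y‖ ^ 2) ^ 2) + 4 * (‖y‖ ^ 2) ^ 3 * ‖x - y‖ ^ 2 := by
  have h1 := norm_sub_sq_real x y
  unfold Lb ph
  rw [real_inner_smul_left, inner_sub_right, real_inner_self_eq_norm_sq, real_inner_comm x y, h1]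
  ring

theorem cmp_Lb_nonneg (x y : E) : 0 ≤ Lb x y := by rw [cmp_Lb_eq]; positivity

theorem cmp_Lb_zero {x y : E} (h : Lb x y = 0) : x = y := by
  by_cases hy : y = 0
  · subst hy
    simpa [Lb, ph] using h
  · rw [cmp_Lb_eq] at h
    have h1 : 0 < ‖y‖ := norm_pos_iff.2 hy
    have h2 : 0 ≤ (‖x‖ ^ 2 - ‖y‖ ^ 2) ^ 2 *
      ((‖x‖ ^ 2) ^ 2 + 2 * ‖x‖ ^ 2 * ‖y‖ ^ 2 + 3 * (‖y‖ ^ 2) ^ 2) := by positivity
    have h3 : 0 ≤ 4 * (‖y‖ ^ 2) ^ 3 * ‖x - y‖ ^ 2 := by positivity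
    have h4 : 4 * (‖y‖ ^ 2) ^ 3 * ‖x - y‖ ^ 2 = 0 := by linarith
    have h5 : ‖x - y‖ ^ 2 = 0 := by
      rcases mul_eq_zero.1 h4 with h | h
      · exact absurd h (by positivity)
      · exact h
    exact sub_eq_zero.1 (norm_eq_zero.1 (pow_eq_zero_iff two_ne_zero |>.1 h5))

theorem cmp_M (x y : E) : 8 * inner ℝ (ph x - ph y) (x - y) = Lb x y + Lb y x := by
  unfold Lb
  rw [inner_sub_left, ← neg_sub x y, inner_neg_right]
  ring

theorem cmp_norm_ph (x : E) : ‖ph x‖ = ‖x‖ ^ 7 := by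
  unfold ph
  rw [norm_smul, norm_pow, norm_norm]
  ring

theorem cmp_cont_ph : Continuous ph := by unfold ph; fun_prop

theorem cmp_meas_grad (f : E → ℝ) : Measurable (gradient f) :=
  (InnerProductSpace.toDual ℝ E).symm.continuous.measurable.comp (measurable_fderiv ℝ f)

theorem cmp_meas_dvg (Z : E → E) : Measurable (dvg Z) := by
  refine Finset.measurable_fun_sum _ fun i _ => ?_
  exact (EuclideanSpace.proj i : E →L[ℝ] ℝ).continuous.measurable.comp
    (measurable_fderiv_apply_const ℝ Z _)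

theorem cmp_dvg_le (Z : E → E) (z : E) : |dvg Z z| ≤ 2 * ‖fderiv ℝ Z z‖ := by
  refine (Finset.abs_sum_le_sum_abs _ _).trans ?_
  refine (Finset.sum_le_card_nsmul _ _ ‖fderiv ℝ Z z‖ fun i _ => ?_).trans (by simp)
  refine (PiLp.norm_apply_le (fderiv ℝ Z z (EuclideanSpace.single i (1 : ℝ))) i).trans ?_
  simpa using (fderiv ℝ Z z).le_opNorm (EuclideanSpace.single i (1 : ℝ))

theorem cmp_Om_meas : MeasurableSet Om := (isOpen_lt continuous_const continuous_norm).measurableSet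

theorem cmp_int_inv : IntegrableOn (fun z : E => ‖z‖⁻¹ ^ 8) Om := by
  have h1 := (integrable_one_add_norm (E := E) (μ := volume) (r := 8) (by simp; norm_num)).const_mul
    (2 ^ 8)
  refine Integrable.mono' h1.integrableOn (Measurable.aestronglyMeasurable (by fun_prop))
    ((ae_restrict_iff' cmp_Om_meas).2 (ae_of_all _ fun z hz => ?_))
  have hz' : 1 < ‖z‖ := hz
  rw [Real.rpow_neg (by positivity), show (8 : ℝ) = ((8 : ℕ) : ℝ) by norm_num, Real.rpow_natCast,
    ← inv_pow, ← mul_pow, Real.norm_of_nonneg (by positivity)]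
  refine pow_le_pow_left₀ (by positivity) ?_ _
  rw [← div_eq_mul_inv, le_div_iff₀ (by positivity), inv_mul_le_iff₀ (by positivity)]
  linarith

theorem cmp_young {x y : ℝ} (hx : 0 ≤ x) (hy : 0 ≤ y) : x ^ 7 * y ≤ x ^ 8 + y ^ 8 := by
  rcases le_total x y with h | h
  · have : x ^ 7 * y ≤ y ^ 7 * y := by gcongr
    have h2 : 0 ≤ x ^ 8 := by positivity
    nlinarith
  · have : x ^ 7 * y ≤ x ^ 7 * x := by gcongr
    have h2 : 0 ≤ y ^ 8 := by positivity
    nlinarith

theorem cmp_lg_le {S : Set E} {b : E → ℝ} {C : ℝ} (hb : Reg S b C) {z : E} (hz : z ∈ S) :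
    ‖lg b z‖ ≤ 2 * |C| * ‖z‖⁻¹ := by
  have h1 := hb.lo z hz
  have h2 := (hb.grad z hz).trans (div_le_div_of_nonneg_right (le_abs_self C) (norm_nonneg _))
  unfold lg
  rw [norm_smul, norm_inv, Real.norm_of_nonneg (by linarith), mul_assoc, ← div_eq_mul_inv]
  refine mul_le_mul ?_ h2 (norm_nonneg _) (by norm_num)
  rw [inv_le_comm₀ (by linarith) (by norm_num)]
  linarith

theorem cmp_log_le {S : Set E} {b : E → ℝ} {C : ℝ} (hb : Reg S b C) {z : E} (hz : z ∈ S) :
    Real.log (b z) ∈ Icc (-1 : ℝ) 1 := by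
  have h1 := hb.lo z hz
  have h2 := hb.hi z hz
  have h3 := Real.log_le_sub_one_of_pos (show 0 < b z by linarith)
  have h4 := Real.one_sub_inv_le_log_of_pos (show 0 < b z by linarith)
  have h5 : (b z)⁻¹ ≤ 2 := by rw [inv_le_comm₀ (by linarith) (by norm_num)]; linarith
  exact ⟨by linarith, by linarith⟩

theorem cmp_fd_log {S : Set E} {b : E → ℝ} {C : ℝ} (hb : Reg S b C) {z : E} (hz : z ∈ S) :
    HasFDerivAt (fun z => Real.log (b z)) (innerSL ℝ (lg b z)) z := by
  have h1 := hb.lo z hz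
  have h2 := (hb.diff z hz).hasFDerivAt.log (by linarith)
  refine h2.congr_fderiv ?_
  ext y
  simp [lg, inner_gradient_left]

/-- The comparison variable. -/
noncomputable def cmp_tau (v b : E → ℝ) (c : ℝ) (z : E) (a : ℝ) : ℝ :=
  a + Real.log (v z) - Real.log (b z) - c

/-- The weight. -/
noncomputable def cmp_w (v b : E → ℝ) (α β : ℝ) (z : E) (a : ℝ) : ℝ :=
  Real.exp (α * (a + Real.log (v z)) + β * Real.log (b z))

/-- Value of the test function. -/
noncomputable def cmp_val (v b : E → ℝ) (c α β : ℝ) (F : ℝ → ℝ) (z : E) (a : ℝ) : ℝ :=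
  cmp_w v b α β z a * F (cmp_tau v b c z a)

/-- Gradient of the test function. -/
noncomputable def cmp_grd (v b : E → ℝ) (c α β : ℝ) (F F' : ℝ → ℝ) (z : E) (a : ℝ) (ξ : E) : E :=
  cmp_w v b α β z a • (F (cmp_tau v b c z a) • (α • (lg v z + ξ) + β • lg b z) +
    F' (cmp_tau v b c z a) • (lg v z + ξ - lg b z))

theorem cmp_bound {v b : E → ℝ} {C C' : ℝ} {S : Set E} (hv : Reg {z | z ≠ 0} v C)
    (hb : Reg S b C') (h0 : (0 : E) ∉ S) (c α β lo hi : ℝ) {F F' : ℝ → ℝ} (hF : Continuous F)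
    (hF' : Continuous F') :
    ∃ B, 0 ≤ B ∧ ∀ z ∈ S, ∀ a ∈ Icc lo hi, |cmp_val v b c α β F z a| ≤ B ∧
      ∀ ξ, ‖cmp_grd v b c α β F F' z a ξ‖ ≤ B * (‖ξ‖ + ‖z‖⁻¹) := by
  obtain ⟨B, hB⟩ := ((isCompact_Icc (a := lo - 1) (b := hi + 1)).prod
    (isCompact_Icc (a := (-1 : ℝ)) (b := 1))).exists_bound_of_continuousOn
    (f := fun p : ℝ × ℝ => Real.exp (α * p.1 + β * p.2) * (|F (p.1 - p.2 - c)| + |F' (p.1 - p.2 - c)|))
    (Continuous.continuousOn (by fun_prop))
  set D := (|α| + |β| + 2) * (1 + 2 * |C| + 2 * |C'|) with hD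
  have hD1 : 1 ≤ D := by
    have : 0 ≤ |α| + |β| := by positivity
    have : 0 ≤ 2 * |C| + 2 * |C'| := by positivity
    nlinarith
  refine ⟨|B| * D, by positivity, fun z hz a ha => ?_⟩
  have hz0 : z ∈ {z : E | z ≠ 0} := fun h => h0 (h ▸ hz)
  have h1 := cmp_log_le hv hz0
  have h2 := (le_abs_self _).trans ((hB (a + Real.log (v z), Real.log (b z))
    ⟨⟨by linarith [ha.1, h1.1], by linarith [ha.2, h1.2]⟩, cmp_log_le hb hz⟩).trans (le_abs_self B))
  change cmp_w v b α β z a * (|F (cmp_tau v b c z a)| + |F' (cmp_tau v b c z a)|) ≤ |B| at h2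
  have hw : 0 < cmp_w v b α β z a := Real.exp_pos _
  have h3 := abs_nonneg (F (cmp_tau v b c z a))
  have h4 := abs_nonneg (F' (cmp_tau v b c z a))
  refine ⟨?_, fun ξ => ?_⟩
  · unfold cmp_val
    rw [abs_mul, abs_of_pos hw]
    nlinarith [abs_nonneg B]
  · have h5 := cmp_lg_le hv hz0
    have h6 := cmp_lg_le hb hz
    have hσ : 0 ≤ ‖z‖⁻¹ := by positivity
    have hξ := norm_nonneg ξ
    set T := (1 + 2 * |C| + 2 * |C'|) * (‖ξ‖ + ‖z‖⁻¹) with hT
    have hC := abs_nonneg C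
    have hC' := abs_nonneg C'
    have h7 : ‖lg v z + ξ‖ ≤ T := (norm_add_le _ _).trans (by nlinarith)
    have h8 : ‖lg b z‖ ≤ T := by nlinarith
    have hT0 : 0 ≤ T := by positivity
    have h9 : ‖α • (lg v z + ξ) + β • lg b z‖ ≤ (|α| + |β| + 2) * T := by
      refine (norm_add_le _ _).trans ?_
      rw [norm_smul, norm_smul, Real.norm_eq_abs, Real.norm_eq_abs]
      nlinarith [abs_nonneg α, abs_nonneg β]
    have h10 : ‖lg v z + ξ - lg b z‖ ≤ (|α| + |β| + 2) * T :=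
      (norm_sub_le _ _).trans (by nlinarith [abs_nonneg α, abs_nonneg β])
    unfold cmp_grd
    rw [norm_smul, Real.norm_of_nonneg hw.le]
    calc _ ≤ cmp_w v b α β z a * (|F (cmp_tau v b c z a)| * ((|α| + |β| + 2) * T) +
          |F' (cmp_tau v b c z a)| * ((|α| + |β| + 2) * T)) := by
          refine mul_le_mul_of_nonneg_left ((norm_add_le _ _).trans ?_) hw.le
          rw [norm_smul, norm_smul, Real.norm_eq_abs, Real.norm_eq_abs]
          gcongr
      _ = (cmp_w v b α β z a * (|F (cmp_tau v b c z a)| + |F' (cmp_tau v b c z a)|)) *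
          ((|α| + |β| + 2) * T) := by ring
      _ ≤ |B| * ((|α| + |β| + 2) * T) := by gcongr
      _ = _ := by rw [hT, hD]; ring

theorem cmp_hasGrad {v b : E → ℝ} {C C' : ℝ} {S : Set E} (hv : Reg {z | z ≠ 0} v C)
    (hb : Reg S b C') (h0 : (0 : E) ∉ S) (c α β : ℝ) {F F' : ℝ → ℝ}
    (hF : ∀ t, HasDerivAt F (F' t) t) {f : E → ℝ} (hf : Differentiable ℝ f) {z : E} (hz : z ∈ S) :
    HasGradientAt (fun z => cmp_val v b c α β F z (f z))
      (cmp_grd v b c α β F F' z (f z) (gradient f z)) z := by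
  have hz0 : z ∈ {z : E | z ≠ 0} := fun h => h0 (h ▸ hz)
  have h1 := (hf z).hasFDerivAt.add (cmp_fd_log hv hz0)
  have h2 := cmp_fd_log hb hz
  have h3 := ((h1.const_mul α).add (h2.const_mul β)).exp
  have h4 := (hF _).comp_hasFDerivAt z ((h1.sub h2).sub_const c)
  rw [hasGradientAt_iff_hasFDerivAt]
  refine HasFDerivAt.congr_fderiv (h3.mul h4) ?_
  ext y
  simp [cmp_grd, cmp_w, cmp_tau]
  ring

/-- The standing assumptions. -/
structure cmp_Ctx (v : E → ℝ) (C : ℝ) (h0 : E → ℝ) (lo hi : ℝ) (hs : ℕ → E → ℝ) (h : E → ℝ)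
    (η : E → E) (S K : Set E) (b : E → ℝ) (C' c ε : ℝ) : Prop where
  hv : Reg {z | z ≠ 0} v C
  apx : Apx h0 lo hi hs h η
  op : IsOpen S
  cl : IsClosed K
  sub : K ⊆ S
  nz : (0 : E) ∉ S
  hb : Reg S b C'
  ball : ∀ z ∈ S, ‖z‖ ≤ 1 → ε * (h0 z + Real.log (v z) - Real.log (b z) - c) ≤ 0
  off : ∀ z ∈ S, z ∉ K → 1 < ‖z‖ → ∀ a ∈ Icc lo hi,
    ε * (a + Real.log (v z) - Real.log (b z) - c) ≤ 0

variable {v : E → ℝ} {C : ℝ} {h0 : E → ℝ} {lo hi : ℝ} {hs : ℕ → E → ℝ} {h : E → ℝ}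
  {η : E → E} {S K : Set E} {b : E → ℝ} {C' c ε : ℝ}

theorem cmp_test (H : cmp_Ctx v C h0 lo hi hs h η S K b C' c ε) (α β : ℝ) {F F' : ℝ → ℝ}
    (hF : ∀ t, HasDerivAt F (F' t) t) (hF' : Continuous F') (hF0 : ∀ t, ε * t ≤ 0 → F t = 0)
    (n : ℕ) :
    Adm (S.indicator fun z => cmp_val v b c α β F z (hs n z)) ∧
      (∀ z, z ∉ K → S.indicator (fun z => cmp_val v b c α β F z (hs n z)) z = 0) ∧
      ∀ z, gradient (S.indicator fun z => cmp_val v b c α β F z (hs n z)) z =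
        S.indicator (fun z => cmp_grd v b c α β F F' z (hs n z) (gradient (hs n) z)) z := by
  have hz1 : ∀ z, ‖z‖ ≤ 1 → S.indicator (fun z => cmp_val v b c α β F z (hs n z)) z = 0 := by
    intro z hz
    by_cases hS : z ∈ S
    · rw [indicator_of_mem hS, cmp_val, hF0, mul_zero]
      rw [cmp_tau, H.apx.bc n z hz]
      exact H.ball z hS hz
    · exact indicator_of_notMem hS _
  have hz2 : ∀ z, z ∉ K → S.indicator (fun z => cmp_val v b c α β F z (hs n z)) z = 0 := by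
    intro z hz
    rcases le_or_gt ‖z‖ 1 with h1 | h1
    · exact hz1 z h1
    · by_cases hS : z ∈ S
      · rw [indicator_of_mem hS, cmp_val, hF0, mul_zero]
        exact H.off z hS hz h1 _ ⟨H.apx.lo n z, H.apx.hi n z⟩
      · exact indicator_of_notMem hS _
  have hg : ∀ z, HasGradientAt (S.indicator fun z => cmp_val v b c α β F z (hs n z))
      (S.indicator (fun z => cmp_grd v b c α β F F' z (hs n z) (gradient (hs n) z)) z) z := by
    intro z
    by_cases hS : z ∈ S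
    · rw [indicator_of_mem hS]
      refine (cmp_hasGrad H.hv H.hb H.nz c α β hF (H.apx.diff n) hS).congr_of_eventuallyEq ?_
      filter_upwards [H.op.mem_nhds hS] with y hy using indicator_of_mem hy _
    · rw [indicator_of_notMem hS]
      refine (hasGradientAt_const z (0 : ℝ)).congr_of_eventuallyEq ?_
      filter_upwards [H.cl.isOpen_compl.mem_nhds (fun hK => hS (H.sub hK))] with y hy
        using hz2 y hy
  obtain ⟨B, hB0, hB⟩ := cmp_bound H.hv H.hb H.nz c α β lo hi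
    (continuous_iff_continuousAt.2 fun t => (hF t).continuousAt) hF'
  refine ⟨⟨fun z => (hg z).differentiableAt, hz1, ⟨B, fun z => ?_⟩, ?_⟩, hz2,
    fun z => (hg z).gradient⟩
  · by_cases hS : z ∈ S
    · rw [indicator_of_mem hS]
      exact (hB z hS _ ⟨H.apx.lo n z, H.apx.hi n z⟩).1
    · rw [indicator_of_notMem hS, abs_zero]; exact hB0
  · refine Integrable.mono' (((H.apx.int n).add cmp_int_inv).const_mul (B ^ 8 * 2 ^ 7))
      ((cmp_meas_grad _).norm.pow_const 8).aestronglyMeasurable (ae_of_all _ fun z => ?_)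
    rw [(hg z).gradient, Real.norm_of_nonneg (by positivity)]
    by_cases hS : z ∈ S
    · rw [indicator_of_mem hS]
      refine (pow_le_pow_left₀ (norm_nonneg _) ((hB z hS _ ⟨H.apx.lo n z, H.apx.hi n z⟩).2 _)
        8).trans ?_
      rw [mul_pow, mul_assoc]
      exact mul_le_mul_of_nonneg_left (add_pow_le (norm_nonneg _) (by positivity) 8)
        (by positivity)
    · rw [indicator_of_notMem hS]
      simp only [norm_zero, Pi.add_apply]
      norm_num
      positivity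

theorem cmp_cont_val (α β : ℝ) {F : ℝ → ℝ} (hF : Continuous F) (z : E) :
    Continuous fun a => cmp_val v b c α β F z a := by
  unfold cmp_val cmp_w cmp_tau
  fun_prop

theorem cmp_cont_grd (α β : ℝ) {F F' : ℝ → ℝ} (hF : Continuous F) (hF' : Continuous F') (z : E) :
    Continuous fun p : ℝ × E => cmp_grd v b c α β F F' z p.1 p.2 := by
  unfold cmp_grd cmp_w cmp_tau
  fun_prop

theorem cmp_lim (hP : PRATT) (H : cmp_Ctx v C h0 lo hi hs h η S K b C' c ε) (α β : ℝ)
    {F F' : ℝ → ℝ} (hF : ∀ t, HasDerivAt F (F' t) t) (hF' : Continuous F')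
    (hF0 : ∀ t, ε * t ≤ 0 → F t = 0) {A : E → E} {Bc x k : E → ℝ}
    (hA : AEStronglyMeasurable A (volume.restrict Om))
    (hBc : AEStronglyMeasurable Bc (volume.restrict Om)) (hk : IntegrableOn k Om)
    (hk0 : ∀ z, 0 ≤ k z)
    (hx : ∀ z ∈ S, z ∈ Om → 0 ≤ x z ∧ ‖A z‖ ≤ x z ^ 7 ∧ x z ^ 8 ≤ k z ∧ |Bc z| ≤ k z)
    (hz : ∀ ζ, Adm ζ → (∀ z, z ∉ K → ζ z = 0) →
      ∫ z in Om, (inner ℝ (A z) (gradient ζ z) + Bc z * ζ z) = 0) :
    IntegrableOn (S.indicator fun z => inner ℝ (A z) (cmp_grd v b c α β F F' z (h z) (η z)) +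
      Bc z * cmp_val v b c α β F z (h z)) Om ∧
    ∫ z in Om, S.indicator (fun z => inner ℝ (A z) (cmp_grd v b c α β F F' z (h z) (η z)) +
      Bc z * cmp_val v b c α β F z (h z)) z = 0 := by
  have hFc : Continuous F := continuous_iff_continuousAt.2 fun t => (hF t).continuousAt
  obtain ⟨B, hB0, hB⟩ := cmp_bound H.hv H.hb H.nz c α β lo hi hFc hF'
  let N : E → ℝ → E → ℝ := fun z a ξ => S.indicator
    (fun z => inner ℝ (A z) (cmp_grd v b c α β F F' z a ξ) + Bc z * cmp_val v b c α β F z a) z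
  have e : ∀ n z, N z (hs n z) (gradient (hs n) z) =
      inner ℝ (A z) (gradient (S.indicator fun z => cmp_val v b c α β F z (hs n z)) z) +
        Bc z * S.indicator (fun z => cmp_val v b c α β F z (hs n z)) z := by
    intro n z
    rw [(cmp_test H α β hF hF' hF0 n).2.2]
    by_cases hS : z ∈ S <;> simp [N, hS]
  have e2 : (fun z => N z (h z) (η z)) = S.indicator fun z =>
      inner ℝ (A z) (cmp_grd v b c α β F F' z (h z) (η z)) +
        Bc z * cmp_val v b c α β F z (h z) := by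
    ext z
    by_cases hS : z ∈ S <;> simp [N, hS]
  obtain ⟨-, h2, h3⟩ := hP h0 lo hi hs h η H.apx N (fun z => B * (3 * k z + ‖z‖⁻¹ ^ 8)) B
    (by exact ((hk.const_mul 3).add cmp_int_inv).const_mul B) (fun n => by
      simp only [e]
      exact (hA.inner (cmp_meas_grad _).aestronglyMeasurable).add (hBc.mul
        (cmp_test H α β hF hF' hF0 n).1.diff.continuous.aestronglyMeasurable))
    (fun z _ => by
      by_cases hS : z ∈ S
      · simp only [N, indicator_of_mem hS]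
        exact (continuous_const.inner (cmp_cont_grd α β hFc hF' z)).add
          (continuous_const.mul ((cmp_cont_val α β hFc z).comp continuous_fst))
      · simp only [N, indicator_of_notMem hS]
        exact continuous_const)
    (fun z hz a ha ξ => by
      have h4 := hk0 z
      by_cases hS : z ∈ S
      · simp only [N, indicator_of_mem hS]
        obtain ⟨h5, h6, h7, h8⟩ := hx z hS hz
        obtain ⟨h9, h10⟩ := hB z hS a ha
        have h11 := cmp_young h5 (norm_nonneg ξ)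
        have h12 := cmp_young h5 (show 0 ≤ ‖z‖⁻¹ by positivity)
        calc _ ≤ ‖A z‖ * ‖cmp_grd v b c α β F F' z a ξ‖ + |Bc z| * |cmp_val v b c α β F z a| := by
              refine (abs_add_le _ _).trans (add_le_add (abs_real_inner_le_norm _ _) ?_)
              rw [abs_mul]
          _ ≤ x z ^ 7 * (B * (‖ξ‖ + ‖z‖⁻¹)) + k z * B := by gcongr; exact h10 ξ
          _ = B * (x z ^ 7 * ‖ξ‖ + x z ^ 7 * ‖z‖⁻¹ + k z) := by ring
          _ ≤ B * (3 * k z + ‖z‖⁻¹ ^ 8 + ‖ξ‖ ^ 8) :=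
              mul_le_mul_of_nonneg_left (by linarith) hB0
          _ = _ := by ring
      · simp only [N, indicator_of_notMem hS, abs_zero]
        positivity)
  rw [e2] at h2
  refine ⟨h2, ?_⟩
  have h4 : ∀ n, ∫ z in Om, N z (hs n z) (gradient (hs n) z) = 0 := fun n => by
    simp only [e]
    exact hz _ (cmp_test H α β hF hF' hF0 n).1 (cmp_test H α β hF hF' hF0 n).2.1
  simp only [h4] at h3
  rw [← e2]
  exact (tendsto_nhds_unique tendsto_const_nhds h3).symm

end Pool.Agent.H949Z.Fu
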