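import Mathlib

/-! Definitions for the counterexample with `d = 2`, `p = 8`. -/

set_option autoImplicit false

namespace Pool.Agent.H949Z.Fu

open MeasureTheory Filter Topology Set

abbrev E := EuclideanSpace ℝ (Fin 2)

/-- exterior of the closed unit ball -/
def Om : Set E := {z | 1 < ‖z‖}

/-- the map `ξ ↦ |ξ|^6 ξ` -/
noncomputable def ph (ξ : E) : E := (‖ξ‖ ^ 6) • ξ

/-- Bregman divergence of `|ξ|^8` -/
noncomputable def Lb (ξ ζ : E) : ℝ := ‖ξ‖ ^ 8 - ‖ζ‖ ^ 8 - 8 * inner ℝ (ph ζ) (ξ - ζ)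

noncomputable def flux (b : E → ℝ) (z : E) : E := ph (gradient b z)

noncomputable def dvg (Z : E → E) (z : E) : ℝ :=
  ∑ i : Fin 2, (fderiv ℝ Z z (EuclideanSpace.single i (1 : ℝ))) i

/-- classical regularity with scale invariant bounds on a set `S` -/
structure Reg (S : Set E) (b : E → ℝ) (C : ℝ) : Prop where
  diff : ∀ z ∈ S, DifferentiableAt ℝ b z
  lo : ∀ z ∈ S, 1 / 2 ≤ b z
  hi : ∀ z ∈ S, b z ≤ 2
  grad : ∀ z ∈ S, ‖gradient b z‖ ≤ C / ‖z‖
  fdiff : ∀ z ∈ S, DifferentiableAt ℝ (flux b) z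
  fbd : ∀ z ∈ S, ‖fderiv ℝ (flux b) z‖ ≤ C / ‖z‖ ^ 8

/-- admissible test functions -/
structure Adm (ζ : E → ℝ) : Prop where
  diff : Differentiable ℝ ζ
  zero : ∀ z, ‖z‖ ≤ 1 → ζ z = 0
  bdd : ∃ B : ℝ, ∀ z, |ζ z| ≤ B
  int : IntegrableOn (fun z => ‖gradient ζ z‖ ^ 8) Om

/-- `(h, η)` is a limit of differentiable functions with boundary values `h0` -/
structure Apx (h0 : E → ℝ) (lo hi : ℝ) (hs : ℕ → E → ℝ) (h : E → ℝ) (η : E → E) : Prop where
  diff : ∀ n, Differentiable ℝ (hs n)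
  bc : ∀ n z, ‖z‖ ≤ 1 → hs n z = h0 z
  lo : ∀ n z, lo ≤ hs n z
  hi : ∀ n z, hs n z ≤ hi
  int : ∀ n, IntegrableOn (fun z => ‖gradient (hs n) z‖ ^ 8) Om
  cont : Continuous h
  lim : ∀ z, Tendsto (fun n => hs n z) atTop (𝓝 (h z))
  meas : AEStronglyMeasurable η (volume.restrict Om)
  inte : IntegrableOn (fun z => ‖η z‖ ^ 8) Om
  ae : ∀ᵐ z ∂(volume.restrict Om), Tendsto (fun n => gradient (hs n) z) atTop (𝓝 (η z))
  l8 : Tendsto (fun n => ∫ z in Om, ‖gradient (hs n) z - η z‖ ^ 8) atTop (𝓝 0)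

/-- logarithmic gradient -/
noncomputable def lg (b : E → ℝ) (z : E) : E := (b z)⁻¹ • gradient b z

/-- the potential -/
noncomputable def pot (v : E → ℝ) (z : E) : ℝ := dvg (flux v) z / v z ^ 7

/-- Euler-Lagrange equation for the ground state functional -/
def EL (v h : E → ℝ) (η : E → E) : Prop :=
  ∀ ψ, Adm ψ → ∫ z in Om, v z ^ 8 * Real.exp (8 * h z) *
    (ψ z * Lb (lg v z + η z) (lg v z) +
      inner ℝ (ph (lg v z + η z) - ph (lg v z)) (gradient ψ z)) = 0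

/-- the weak equation for `u = v e^h` against admissible test functions -/
def Star (v h : E → ℝ) (η : E → E) : Prop :=
  ∀ ζ, Adm ζ → ∫ z in Om, (v z * Real.exp (h z)) ^ 7 *
    (inner ℝ (ph (lg v z + η z)) (gradient ζ z) + pot v z * ζ z) = 0

/-- the positive weak solution predicate of the frozen statement, `d = 2`, `p = 8` -/
def Sol (V : E → ℝ) (U : Set E) (u : E → ℝ) : Prop :=
  ContinuousOn u U ∧ (∀ x ∈ U, 0 < u x) ∧
    ∃ g : E → E, LocallyIntegrableOn g U ∧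
      LocallyIntegrableOn (fun x => ‖g x‖ ^ (8 : ℝ)) U ∧
      ∀ φ : E → ℝ, ContDiff ℝ (⊤ : ℕ∞) φ → HasCompactSupport φ → tsupport φ ⊆ U →
        ((∫ x, u x • gradient φ x) = -∫ x, φ x • g x) ∧
        (∫ x, (‖g x‖ ^ ((8 : ℝ) - 2) * inner ℝ (g x) (gradient φ x)
                + V x * u x ^ ((8 : ℝ) - 1) * φ x)) = 0

/-- the polynomial giving `r^8 Δ_8` in the coordinates (angle, log radius) -/
def Pl (a b a1 a2 b2 : ℝ) : ℝ :=
  (a ^ 2 + b ^ 2) ^ 2 * ((7 * a ^ 2 + b ^ 2) * a1 + 12 * a * b * a2 + (a ^ 2 + 7 * b ^ 2) * b2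
    - 6 * (a ^ 2 + b ^ 2) * b)

/-- second order jets in two variables -/
structure Jet where
  f : ℝ
  f1 : ℝ
  f2 : ℝ
  f11 : ℝ
  f12 : ℝ
  f22 : ℝ

/-- the linear form `(x, y) ↦ a x + b y` -/
noncomputable def lin (a b : ℝ) : ℝ × ℝ →L[ℝ] ℝ :=
  a • ContinuousLinearMap.fst ℝ ℝ ℝ + b • ContinuousLinearMap.snd ℝ ℝ ℝ

/-- the field of jets `J` is the field of second order jets of its value at `q` -/
structure IsJet (J : ℝ × ℝ → Jet) (q : ℝ × ℝ) : Prop where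
  d0 : HasFDerivAt (fun p => (J p).f) (lin (J q).f1 (J q).f2) q
  d1 : HasFDerivAt (fun p => (J p).f1) (lin (J q).f11 (J q).f12) q
  d2 : HasFDerivAt (fun p => (J p).f2) (lin (J q).f12 (J q).f22) q

/-- all entries bounded by `M` -/
def Jet.Bd (j : Jet) (M : ℝ) : Prop :=
  |j.f| ≤ M ∧ |j.f1| ≤ M ∧ |j.f2| ≤ M ∧ |j.f11| ≤ M ∧ |j.f12| ≤ M ∧ |j.f22| ≤ M

/-- `r^8 Δ_8` of a function with jet `j` in the coordinates `L = log |angle|`, `t = log r` -/
noncomputable def Jet.P (j : Jet) (L : ℝ) : ℝ :=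
  Pl (Real.exp (-L) * j.f1) j.f2 (Real.exp (-L) ^ 2 * (j.f11 - j.f1)) (Real.exp (-L) * j.f12) j.f22

/-- angle from the second axis -/
noncomputable def ang (z : E) : ℝ := Real.arctan (z 0 / z 1)

/-- the coordinates `(log |angle|, log r)` -/
noncomputable def crd (z : E) : ℝ × ℝ := (Real.log (ang z), Real.log ‖z‖)

/-- the function on the plane given by a field of jets -/
noncomputable def lift (J : ℝ × ℝ → Jet) (z : E) : ℝ :=
  if ang z = 0 then 0 else (J (crd z)).f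

end Pool.Agent.H949Z.Fu
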