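import Pool.Agent.H949Z.Fu.Exist2

/-! Existence of a minimiser with its Euler-Lagrange equation. -/

set_option autoImplicit false

namespace Pool.Agent.H949Z.Fu

open MeasureTheory Filter Topology Set

theorem exi_limit (hM : MORREY) {h0 : E → ℝ} (hs : ℕ → E → ℝ) (s1 : ∀ n, exi_Cls h0 (hs n))
    (hc : ∀ N n m : ℕ, N ≤ n → N ≤ m →
      ∫ z in Om, ‖gradient (hs n) z - gradient (hs m) z‖ ^ 8 ≤ ((1 / 2 : ℝ) ^ (N + 1)) ^ 8) :
    ∃ h : E → ℝ, Continuous h ∧ ∀ z, Tendsto (fun n => hs n z) atTop (𝓝 (h z)) := by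
  have key : ∀ R δ : ℝ, 0 < δ → ∃ N : ℕ, ∀ n m : ℕ, N ≤ n → N ≤ m → ∀ x : E, ‖x‖ ≤ R →
      |hs n x - hs m x| ≤ δ := by
    intro R δ hδ
    obtain ⟨τ, hτ, hmor⟩ := hM R δ hδ
    have t1 : Tendsto (fun n : ℕ => (1 / 2 : ℝ) ^ (n + 1)) atTop (𝓝 0) :=
      (tendsto_pow_atTop_nhds_zero_of_lt_one (by norm_num) (by norm_num)).comp
        (tendsto_add_atTop_nat 1)
    have t2 : Tendsto (fun n : ℕ => ((1 / 2 : ℝ) ^ (n + 1)) ^ 8) atTop (𝓝 0) := by
      have := t1.pow 8
      simpa using this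
    obtain ⟨N, hN⟩ := (t2.eventually (gt_mem_nhds hτ)).exists
    refine ⟨N, fun n m hn hm x hx => ?_⟩
    have hg : ∀ z, gradient (fun z => 1 * hs n z + (-1) * hs m z) z =
        gradient (hs n) z - gradient (hs m) z := by
      intro z
      rw [exi_grad_lin _ _ _ _ z ((s1 n).diff z) ((s1 m).diff z), one_smul, neg_smul, one_smul,
        sub_eq_add_neg]
    have := hmor (fun z => 1 * hs n z + (-1) * hs m z)
      (((s1 n).diff.const_mul 1).add ((s1 m).diff.const_mul (-1)))
      (fun z hz => by rw [(s1 n).bc z hz, (s1 m).bc z hz]; ring)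
      (by simp only [hg]; exact exi_int_sub (s1 n).int (s1 m).int)
      (by simp only [hg]; exact (hc N n m hn hm).trans hN.le) x hx
    have e : 1 * hs n x + (-1) * hs m x = hs n x - hs m x := by ring
    rwa [e] at this
  have hcau : ∀ z, CauchySeq (fun n => hs n z) := by
    intro z
    rw [Metric.cauchySeq_iff]
    intro ε hε
    obtain ⟨N, hN⟩ := key ‖z‖ (ε / 2) (by linarith)
    refine ⟨N, fun m hm n hn => ?_⟩
    rw [Real.dist_eq]
    have := hN m n hm hn z le_rfl
    linarith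
  choose h hh using fun z => cauchySeq_tendsto_of_complete (hcau z)
  refine ⟨h, ?_, hh⟩
  rw [continuous_iff_continuousAt]
  intro x
  have hu : TendstoUniformlyOn hs h atTop (Metric.ball 0 (‖x‖ + 1)) := by
    rw [Metric.tendstoUniformlyOn_iff]
    intro ε hε
    obtain ⟨N, hN⟩ := key (‖x‖ + 1) (ε / 2) (by linarith)
    filter_upwards [eventually_ge_atTop N] with n hn y hy
    have hy' : ‖y‖ ≤ ‖x‖ + 1 := by
      rw [mem_ball_zero_iff] at hy
      exact hy.le
    have t : Tendsto (fun m => |hs m y - hs n y|) atTop (𝓝 |h y - hs n y|) :=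
      ((hh y).sub_const _).abs
    have : |h y - hs n y| ≤ ε / 2 :=
      le_of_tendsto t ((eventually_ge_atTop N).mono fun m hm => hN m n hm hn y hy')
    rw [Real.dist_eq]
    linarith
  have hco : ContinuousOn h (Metric.ball 0 (‖x‖ + 1)) :=
    hu.continuousOn (Frequently.of_forall fun n => (s1 n).diff.continuous.continuousOn)
  exact hco.continuousAt (Metric.isOpen_ball.mem_nhds (by rw [mem_ball_zero_iff]; linarith))

/-- passage to the limit in the perturbed functional -/
theorem exi_phi (hP : PRATT) {v h0 : E → ℝ} (D : exi_Dat v) {lo hi : ℝ} {hs : ℕ → E → ℝ}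
    {h : E → ℝ} {η : E → E} (hA : Apx h0 lo hi hs h η) {ψ : E → ℝ} (hψ : Adm ψ) (e : ℝ) :
    Tendsto (fun n => exi_J v (fun z => 1 * hs n z + e * ψ z)) atTop
      (𝓝 (∫ z in Om, v z ^ 8 * Real.exp (8 * (h z + e * ψ z)) *
        Lb (lg v z + (η z + e • gradient ψ z)) (lg v z))) := by
  obtain ⟨B, hB⟩ := hψ.bdd
  have hb : ∀ z, e * ψ z ≤ |e| * B := by
    intro z
    calc e * ψ z ≤ |e * ψ z| := le_abs_self _
      _ = |e| * |ψ z| := abs_mul _ _
      _ ≤ _ := mul_le_mul_of_nonneg_left (hB z) (abs_nonneg _)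
  set K : ℝ := 256 * Real.exp (8 * (hi + |e| * B)) * 136 with hK
  have hK0 : 0 ≤ K := by positivity
  have ik : IntegrableOn
      (fun z => K * (‖lg v z‖ ^ 8 + 128 * e ^ 8 * ‖gradient ψ z‖ ^ 8)) Om := by
    have i1 : Integrable (fun z => ‖lg v z‖ ^ 8 + 128 * e ^ 8 * ‖gradient ψ z‖ ^ 8)
        (volume.restrict Om) := Integrable.add D.ib (hψ.int.const_mul (128 * e ^ 8))
    exact i1.const_mul K
  refine Tendsto.congr (fun n => ?_) (hP h0 lo hi hs h η hA
    (fun z a ξ => v z ^ 8 * Real.exp (8 * (a + e * ψ z)) *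
      Lb (lg v z + (ξ + e • gradient ψ z)) (lg v z))
    (fun z => K * (‖lg v z‖ ^ 8 + 128 * e ^ 8 * ‖gradient ψ z‖ ^ 8)) (K * 128)
    ik ?_ ?_ ?_).2.2
  · unfold exi_J
    refine integral_congr_ae (Eventually.of_forall fun z => ?_)
    simp only
    rw [exi_grad_lin _ _ _ _ z (hA.diff n z) (hψ.diff z), one_smul, one_mul]
  · intro n
    have m1 : AEStronglyMeasurable (fun z => hs n z + e * ψ z) (volume.restrict Om) :=
      ((hA.diff n).continuous.add
        (continuous_const.mul hψ.diff.continuous)).aestronglyMeasurable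
    have m2 : AEStronglyMeasurable (fun z => gradient (hs n) z + e • gradient ψ z)
        (volume.restrict Om) :=
      ((exi_meas_grad _).add ((exi_meas_grad _).const_smul e)).aestronglyMeasurable
    exact exi_measJ D m1 m2
  · intro z _
    have c1 : Continuous (fun p : ℝ × E => (lg v z + (p.2 + e • gradient ψ z), lg v z)) := by
      fun_prop
    have c2 := exi_cont_Lb.comp c1
    have c3 : Continuous (fun p : ℝ × E => v z ^ 8 * Real.exp (8 * (p.1 + e * ψ z))) := by
      fun_prop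
    exact c3.mul c2
  · intro z hz a ha ξ
    obtain ⟨w1, w2⟩ := exi_wt D hz (add_le_add ha.2 (hb z))
    have a1 := exi_Lb_nonneg (lg v z) (ξ + e • gradient ψ z)
    have a2 := exi_Lb_upper (lg v z) (ξ + e • gradient ψ z)
    have a3 := exi_norm_add8 ξ (e • gradient ψ z)
    have a4 : ‖e • gradient ψ z‖ ^ 8 = e ^ 8 * ‖gradient ψ z‖ ^ 8 := by
      rw [norm_smul, mul_pow, Real.norm_eq_abs, Even.pow_abs (by norm_num)]
    rw [a4] at a3
    rw [abs_of_nonneg (mul_nonneg w1 a1)]
    calc _ ≤ 256 * Real.exp (8 * (hi + |e| * B)) *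
          (136 * (‖lg v z‖ ^ 8 + 128 * (‖ξ‖ ^ 8 + e ^ 8 * ‖gradient ψ z‖ ^ 8))) :=
          mul_le_mul w2 (by linarith) a1 (by positivity)
      _ = _ := by rw [hK]; ring

/-- derivative of the perturbed functional -/
theorem exi_deriv {v : E → ℝ} (D : exi_Dat v) {hi : ℝ} {h : E → ℝ} {η : E → E}
    (hc : Continuous h) (hh : ∀ z, h z ≤ hi) (hm : AEStronglyMeasurable η (volume.restrict Om))
    (hi8 : IntegrableOn (fun z => ‖η z‖ ^ 8) Om) {ψ : E → ℝ} (hψ : Adm ψ) :
    HasDerivAt (fun e : ℝ => ∫ z in Om, v z ^ 8 * Real.exp (8 * (h z + e * ψ z)) *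
        Lb (lg v z + (η z + e • gradient ψ z)) (lg v z))
      (∫ z in Om, 8 * (v z ^ 8 * Real.exp (8 * h z) *
        (ψ z * Lb (lg v z + η z) (lg v z) +
          inner ℝ (ph (lg v z + η z) - ph (lg v z)) (gradient ψ z)))) 0 := by
  obtain ⟨B, hB⟩ := hψ.bdd
  have hB0 : 0 ≤ B := (abs_nonneg _).trans (hB 0)
  set K : ℝ := 256 * Real.exp (8 * (hi + B)) with hK
  have hK0 : 0 ≤ K := by positivity
  have mψ : AEStronglyMeasurable ψ (volume.restrict Om) :=
    hψ.diff.continuous.aestronglyMeasurable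
  have mg : AEStronglyMeasurable (gradient ψ) (volume.restrict Om) :=
    (exi_meas_grad ψ).aestronglyMeasurable
  have m1 : ∀ e : ℝ, AEStronglyMeasurable (fun z => h z + e * ψ z) (volume.restrict Om) :=
    fun e => (hc.add (continuous_const.mul hψ.diff.continuous)).aestronglyMeasurable
  have m2 : ∀ e : ℝ, AEStronglyMeasurable (fun z => η z + e • gradient ψ z)
      (volume.restrict Om) := fun e => hm.add (mg.const_smul e)
  suffices main : HasDerivAt (fun e : ℝ => ∫ z in Om, v z ^ 8 * Real.exp (8 * (h z + e * ψ z)) *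
        Lb (lg v z + (η z + e • gradient ψ z)) (lg v z))
      (∫ z in Om, 8 * (v z ^ 8 * Real.exp (8 * (h z + 0 * ψ z)) *
        (ψ z * Lb (lg v z + (η z + (0 : ℝ) • gradient ψ z)) (lg v z) +
          inner ℝ (ph (lg v z + (η z + (0 : ℝ) • gradient ψ z)) - ph (lg v z))
            (gradient ψ z)))) 0 by
    simp only [zero_mul, add_zero, zero_smul] at main
    exact main
  refine (hasDerivAt_integral_of_dominated_loc_of_deriv_le (μ := volume.restrict Om)
    (F := fun (e : ℝ) z => v z ^ 8 * Real.exp (8 * (h z + e * ψ z)) *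
        Lb (lg v z + (η z + e • gradient ψ z)) (lg v z))
    (F' := fun (e : ℝ) z => 8 * (v z ^ 8 * Real.exp (8 * (h z + e * ψ z)) *
        (ψ z * Lb (lg v z + (η z + e • gradient ψ z)) (lg v z) +
          inner ℝ (ph (lg v z + (η z + e • gradient ψ z)) - ph (lg v z)) (gradient ψ z))))
    (x₀ := 0) (s := Icc (-1) 1)
    (bound := fun z => 8 * K * (B * 136 + 129) * 130 *
      (‖lg v z‖ ^ 8 + ‖η z‖ ^ 8 + ‖gradient ψ z‖ ^ 8))
    (Icc_mem_nhds (by norm_num) (by norm_num)) ?_ ?_ ?_ ?_ ?_ ?_).2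
  · exact Eventually.of_forall fun e => exi_measJ D (m1 e) (m2 e)
  · refine exi_intJ (B := hi) D (m1 0) (fun z => by simpa using hh z) (m2 0) ?_
    simpa using hi8
  · have q0 : AEStronglyMeasurable (fun z => lg v z + (η z + (0 : ℝ) • gradient ψ z))
        (volume.restrict Om) := D.mb.add (m2 0)
    have q1 := exi_meas_Lb q0 D.mb
    have q2 := exi_cont_ph.comp_aestronglyMeasurable q0
    have q3 := exi_cont_ph.comp_aestronglyMeasurable D.mb
    have q4 : AEStronglyMeasurable (fun z => inner ℝ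
        (ph (lg v z + (η z + (0 : ℝ) • gradient ψ z)) - ph (lg v z)) (gradient ψ z))
        (volume.restrict Om) := AEStronglyMeasurable.inner (q2.sub q3) mg
    have h3 : AEStronglyMeasurable (fun z => 8 * (h z + 0 * ψ z)) (volume.restrict Om) :=
      (m1 0).const_mul 8
    have h4 := Real.continuous_exp.comp_aestronglyMeasurable h3
    have h5 : AEStronglyMeasurable (fun z => v z ^ 8) (volume.restrict Om) := D.mv.pow 8
    exact ((h5.mul h4).mul ((mψ.mul q1).add q4)).const_mul 8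
  · filter_upwards [ae_restrict_mem exi_measOm] with z hz e he
    have he1 : |e| ≤ 1 := abs_le.2 he
    have hb : h z + e * ψ z ≤ hi + B := by
      have : e * ψ z ≤ B := by
        calc e * ψ z ≤ |e * ψ z| := le_abs_self _
          _ = |e| * |ψ z| := abs_mul _ _
          _ ≤ 1 * B := mul_le_mul he1 (hB z) (abs_nonneg _) zero_le_one
          _ = B := one_mul _
      linarith [hh z]
    obtain ⟨w1, w2⟩ := exi_wt D hz hb
    set b := lg v z
    set d := gradient ψ z
    set ξ := η z + e • d with hξ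
    have a1 := exi_Lb_nonneg b ξ
    have a2 := exi_Lb_upper b ξ
    have a3 : ‖ξ‖ ^ 8 ≤ 128 * (‖η z‖ ^ 8 + ‖d‖ ^ 8) := by
      refine (exi_norm_add8 _ _).trans ?_
      have : ‖e • d‖ ≤ ‖d‖ := by
        rw [norm_smul, Real.norm_eq_abs]
        exact mul_le_of_le_one_left (norm_nonneg _) he1
      gcongr
    have a4 := exi_abs_inner_ph (b + ξ) d
    have a5 := exi_abs_inner_ph b d
    have a6 := exi_norm_add8 b ξ
    have p1 : 0 ≤ ‖b‖ ^ 8 := by positivity
    have p2 : 0 ≤ ‖d‖ ^ 8 := by positivity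
    have p3 : 0 ≤ ‖η z‖ ^ 8 := by positivity
    have p4 : 0 ≤ ‖ξ‖ ^ 8 := by positivity
    set T := 130 * (‖b‖ ^ 8 + ‖η z‖ ^ 8 + ‖d‖ ^ 8) with hT
    have b1 : |ψ z * Lb (b + ξ) b| ≤ B * (136 * T) := by
      rw [abs_mul, abs_of_nonneg a1]
      exact mul_le_mul (hB z) (by linarith) a1 hB0
    have b2 : |inner ℝ (ph (b + ξ) - ph b) d| ≤ 129 * T := by
      rw [inner_sub_left]
      refine (abs_sub _ _).trans ?_
      linarith
    have b3 : |ψ z * Lb (b + ξ) b + inner ℝ (ph (b + ξ) - ph b) d| ≤ (B * 136 + 129) * T := by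
      refine (abs_add_le _ _).trans ?_
      linarith
    rw [Real.norm_eq_abs, abs_mul, abs_mul, abs_of_nonneg w1, abs_of_nonneg (by norm_num : (0 : ℝ) ≤ 8)]
    calc _ ≤ 8 * (K * ((B * 136 + 129) * T)) := by
          apply mul_le_mul_of_nonneg_left _ (by norm_num)
          exact mul_le_mul w2 b3 (abs_nonneg _) hK0
      _ = _ := by rw [hT]; ring
  · exact ((D.ib.add hi8).add hψ.int).const_mul _
  · refine Eventually.of_forall fun z e _ => ?_
    have d1 : HasDerivAt (fun e : ℝ => 8 * (h z + e * ψ z)) (8 * ψ z) e := by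
      have := (((hasDerivAt_id e).mul_const (ψ z)).const_add (h z)).const_mul 8
      simpa using this
    have d2 := (d1.exp.const_mul (v z ^ 8)).mul (exi_hasDeriv_Lb (lg v z) (η z) (gradient ψ z) e)
    refine HasDerivAt.congr_deriv d2 ?_
    ring

theorem exist (hM : MORREY) (hP : PRATT) : EXIST := by
  intro v C hv h0 c κ hκ hc h1 h2 h3
  have D := exi_dat v C hv
  obtain ⟨m, hs, s0, s1, s2, s3, s4⟩ := exi_seq D c κ hκ hc h3 (exi_h0 h0 c h1 h2 h3)
  obtain ⟨h, hcont, hlim⟩ := exi_limit hM hs s1 s4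
  obtain ⟨η, e1, e2, e3, e4⟩ := exi_L8 (μ := volume.restrict Om) (fun n => gradient (hs n))
    (fun n => (exi_meas_grad _).aestronglyMeasurable) (fun n => (s1 n).int) s4
  have hA : Apx h0 (-κ) (c + κ) hs h η :=
    ⟨fun n => (s1 n).diff, fun n => (s1 n).bc, fun n z => (s2 n z).1, fun n z => (s2 n z).2,
      fun n => (s1 n).int, hcont, hlim, e1, e2, e3, e4⟩
  refine ⟨hs, h, η, hA, fun ψ hψ => ?_⟩
  have hh : ∀ z, h z ≤ c + κ := fun z =>
    le_of_tendsto (hlim z) (Eventually.of_forall fun n => (s2 n z).2)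
  have hd := exi_deriv D hcont hh e1 e2 hψ
  obtain ⟨B, hB⟩ := hψ.bdd
  have hcl : ∀ (e : ℝ) (n : ℕ), exi_Cls h0 (fun z => 1 * hs n z + e * ψ z) := by
    intro e n
    refine ⟨((s1 n).diff.const_mul 1).add (hψ.diff.const_mul e), fun z hz => ?_,
      ⟨c + κ + |e| * B, fun z => ?_⟩, ?_⟩
    · rw [(s1 n).bc z hz, hψ.zero z hz]
      ring
    · have : e * ψ z ≤ |e| * B := by
        calc e * ψ z ≤ |e * ψ z| := le_abs_self _
          _ = |e| * |ψ z| := abs_mul _ _
          _ ≤ _ := mul_le_mul_of_nonneg_left (hB z) (abs_nonneg _)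
      linarith [(s2 n z).2]
    · refine exi_int_of_le (exi_meas_grad _)
        (((s1 n).int.add (hψ.int.const_mul (e ^ 8))).const_mul 128) fun z => ?_
      rw [exi_grad_lin _ _ _ _ z ((s1 n).diff z) (hψ.diff z), one_smul]
      refine (exi_norm_add8 _ _).trans (le_of_eq ?_)
      simp only [Pi.add_apply]
      rw [norm_smul, mul_pow, Real.norm_eq_abs, Even.pow_abs (by norm_num)]
  have hge : ∀ e : ℝ, m ≤ ∫ z in Om, v z ^ 8 * Real.exp (8 * (h z + e * ψ z)) *
        Lb (lg v z + (η z + e • gradient ψ z)) (lg v z) := fun e =>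
    ge_of_tendsto (exi_phi hP D hA hψ e) (Eventually.of_forall fun n => s0 _ (hcl e n))
  have h00 : ∫ z in Om, v z ^ 8 * Real.exp (8 * (h z + 0 * ψ z)) *
        Lb (lg v z + (η z + (0 : ℝ) • gradient ψ z)) (lg v z) = m := by
    refine tendsto_nhds_unique (exi_phi hP D hA hψ 0) (s3.congr fun n => ?_)
    congr 1
    funext z
    ring
  have hmin : IsLocalMin (fun e : ℝ => ∫ z in Om, v z ^ 8 * Real.exp (8 * (h z + e * ψ z)) *
        Lb (lg v z + (η z + e • gradient ψ z)) (lg v z)) 0 := by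
    refine Eventually.of_forall fun e => ?_
    simp only
    rw [h00]
    exact hge e
  have := hmin.hasDerivAt_eq_zero hd
  rw [integral_const_mul] at this
  linarith

end Pool.Agent.H949Z.Fu
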