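import Pool.Agent.H949Z.Fu.Stm

/-! Existence of a minimiser, part 1: algebra of the Bregman divergence, truncation, completeness. -/

set_option autoImplicit false

namespace Pool.Agent.H949Z.Fu

open MeasureTheory Filter Topology Set

theorem exi_inner_ph (y d : E) : inner ℝ (ph y) d = ‖y‖ ^ 6 * inner ℝ y d := by
  unfold ph
  rw [real_inner_smul_left]

theorem exi_Lb_add (y d : E) :
    Lb (y + d) y = ‖y + d‖ ^ 8 - ‖y‖ ^ 8 - 8 * inner ℝ (ph y) d := by
  unfold Lb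
  rw [add_sub_cancel_left]

theorem exi_Lb_lower (y d : E) : ‖d‖ ^ 8 / 256 ≤ Lb (y + d) y := by
  rw [exi_Lb_add, exi_inner_ph]
  have h1 : ‖y + d‖ ^ 2 = ‖y‖ ^ 2 + 2 * inner ℝ y d + ‖d‖ ^ 2 := norm_add_sq_real y d
  have h2 : ‖d‖ ^ 2 ≤ 2 * ‖y + d‖ ^ 2 + 2 * ‖y‖ ^ 2 := by
    have : ‖d‖ ≤ ‖y + d‖ + ‖y‖ := by
      calc ‖d‖ = ‖(y + d) - y‖ := by rw [add_sub_cancel_left]
        _ ≤ _ := norm_sub_le _ _
    nlinarith [norm_nonneg d, norm_nonneg (y + d), norm_nonneg y, sq_nonneg (‖y + d‖ - ‖y‖)]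
  set A := ‖y‖ ^ 2 with hA
  set N := ‖y + d‖ ^ 2 with hN
  set D := ‖d‖ ^ 2 with hD
  have hA0 : 0 ≤ A := by positivity
  have hN0 : 0 ≤ N := by positivity
  have hD0 : 0 ≤ D := by positivity
  have e1 : ‖y + d‖ ^ 8 = N ^ 4 := by rw [hN]; ring
  have e2 : ‖y‖ ^ 8 = A ^ 4 := by rw [hA]; ring
  have e3 : ‖y‖ ^ 6 = A ^ 3 := by rw [hA]; ring
  have e4 : ‖d‖ ^ 8 = D ^ 4 := by rw [hD]; ring
  have e5 : inner ℝ y d = (N - A - D) / 2 := by linarith
  rw [e1, e2, e3, e4, e5]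
  have key : N ^ 4 - A ^ 4 - 8 * (A ^ 3 * ((N - A - D) / 2)) =
      (N - A) ^ 4 + 4 * A * N * (N - A) ^ 2 + 2 * A ^ 2 * (N - A) ^ 2 + 4 * A ^ 3 * D := by ring
  rw [key]
  have p1 : 0 ≤ 4 * A * N * (N - A) ^ 2 := by positivity
  have p2 : 0 ≤ 2 * A ^ 2 * (N - A) ^ 2 := by positivity
  have p3 : 0 ≤ (N - A) ^ 4 := by positivity
  have p4 : 0 ≤ 4 * A ^ 3 * D := by positivity
  by_cases hc : D / 8 ≤ A
  · have : (D / 8) ^ 3 ≤ A ^ 3 := pow_le_pow_left₀ (by positivity) hc 3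
    have h3 : 4 * (D / 8) ^ 3 * D ≤ 4 * A ^ 3 * D := by gcongr
    have h4 : 4 * (D / 8) ^ 3 * D = D ^ 4 / 128 := by ring
    have h5 : 0 ≤ D ^ 4 := by positivity
    linarith
  · have h3 : D / 4 ≤ N - A := by linarith
    have h4 : (D / 4) ^ 4 ≤ (N - A) ^ 4 := pow_le_pow_left₀ (by positivity) h3 4
    have h5 : (D / 4) ^ 4 = D ^ 4 / 256 := by ring
    linarith

theorem exi_Lb_nonneg (y d : E) : 0 ≤ Lb (y + d) y :=
  le_trans (by positivity) (exi_Lb_lower y d)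

theorem exi_convex8 : ConvexOn ℝ univ (fun x : E => ‖x‖ ^ 8) :=
  ConvexOn.pow (convexOn_univ_norm (E := E)) (fun x _ => norm_nonneg x) 8

theorem exi_Lb_smul (y d : E) (s : ℝ) (h0 : 0 ≤ s) (h1 : s ≤ 1) :
    Lb (y + s • d) y ≤ s * Lb (y + d) y := by
  rw [exi_Lb_add, exi_Lb_add, real_inner_smul_right]
  have h := exi_convex8.2 (mem_univ y) (mem_univ (y + d)) (by linarith : 0 ≤ 1 - s) h0 (by ring)
  have e : (1 - s) • y + s • (y + d) = y + s • d := by
    rw [smul_add, sub_smul, one_smul]; abel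
  simp only [e, smul_eq_mul] at h
  nlinarith

theorem exi_Lb_mid (y e1 e2 : E) (w1 w2 : ℝ) (h1 : 0 ≤ w1) (h2 : 0 ≤ w2) (hw : w1 + w2 = 1) :
    Lb (y + (w1 • e1 + w2 • e2)) y + w1 * w2 ^ 8 * ‖e1 - e2‖ ^ 8 / 256 ≤
      w1 * Lb (y + e1) y + w2 * Lb (y + e2) y := by
  set x := y + (w1 • e1 + w2 • e2) with hx
  have hw1 : w1 = 1 - w2 := by linarith
  have a1 : y + e1 = x + w2 • (e1 - e2) := by
    rw [hx, hw1, smul_sub, sub_smul, one_smul]; abel
  have a2 : y + e2 = x + (-w1) • (e1 - e2) := by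
    rw [hx, hw1, smul_sub, sub_smul, one_smul, neg_smul, neg_smul, sub_smul, sub_smul, one_smul,
      one_smul]; abel
  have b1 := exi_Lb_lower x (w2 • (e1 - e2))
  have b2 := exi_Lb_nonneg x ((-w1) • (e1 - e2))
  rw [exi_Lb_add, ← a1, real_inner_smul_right, norm_smul, Real.norm_of_nonneg h2, mul_pow] at b1
  rw [exi_Lb_add, ← a2, real_inner_smul_right] at b2
  have c0 : Lb x y = ‖x‖ ^ 8 - ‖y‖ ^ 8 -
      8 * (w1 * inner ℝ (ph y) e1 + w2 * inner ℝ (ph y) e2) := by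
    rw [hx, exi_Lb_add, inner_add_right, real_inner_smul_right, real_inner_smul_right]
  rw [c0, exi_Lb_add, exi_Lb_add]
  have d1 := mul_le_mul_of_nonneg_left b1 h1
  have d2 := mul_le_mul_of_nonneg_left b2 h2
  have e : ‖x‖ ^ 8 = w1 * ‖x‖ ^ 8 + w2 * ‖x‖ ^ 8 := by rw [← add_mul, hw, one_mul]
  have e' : ‖y‖ ^ 8 = w1 * ‖y‖ ^ 8 + w2 * ‖y‖ ^ 8 := by rw [← add_mul, hw, one_mul]
  nlinarith

theorem exi_add8 (a b : ℝ) (ha : 0 ≤ a) (hb : 0 ≤ b) : (a + b) ^ 8 ≤ 128 * (a ^ 8 + b ^ 8) := by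
  have := add_pow_le ha hb 8
  norm_num at this
  linarith

theorem exi_norm_add8 (a b : E) : ‖a + b‖ ^ 8 ≤ 128 * (‖a‖ ^ 8 + ‖b‖ ^ 8) :=
  le_trans (pow_le_pow_left₀ (norm_nonneg _) (norm_add_le a b) 8)
    (exi_add8 _ _ (norm_nonneg _) (norm_nonneg _))

theorem exi_norm_sub8 (a b : E) : ‖a - b‖ ^ 8 ≤ 128 * (‖a‖ ^ 8 + ‖b‖ ^ 8) :=
  le_trans (pow_le_pow_left₀ (norm_nonneg _) (norm_sub_le a b) 8)
    (exi_add8 _ _ (norm_nonneg _) (norm_nonneg _))

theorem exi_young (a b : ℝ) (ha : 0 ≤ a) (hb : 0 ≤ b) : a ^ 7 * b ≤ a ^ 8 + b ^ 8 := by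
  rcases le_total a b with h | h
  · have : a ^ 7 ≤ b ^ 7 := pow_le_pow_left₀ ha h 7
    have h2 : a ^ 7 * b ≤ b ^ 7 * b := by gcongr
    have h3 : 0 ≤ a ^ 8 := by positivity
    nlinarith
  · have h2 : a ^ 7 * b ≤ a ^ 7 * a := by gcongr
    have h3 : 0 ≤ b ^ 8 := by positivity
    nlinarith

theorem exi_abs_inner_ph (y d : E) : |inner ℝ (ph y) d| ≤ ‖y‖ ^ 8 + ‖d‖ ^ 8 := by
  rw [exi_inner_ph, abs_mul, abs_of_nonneg (by positivity : 0 ≤ ‖y‖ ^ 6)]
  have h := abs_real_inner_le_norm y d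
  have h2 : ‖y‖ ^ 6 * |inner ℝ y d| ≤ ‖y‖ ^ 6 * (‖y‖ * ‖d‖) := by gcongr
  have h3 := exi_young ‖y‖ ‖d‖ (norm_nonneg _) (norm_nonneg _)
  nlinarith

theorem exi_Lb_upper (y d : E) : Lb (y + d) y ≤ 136 * (‖y‖ ^ 8 + ‖d‖ ^ 8) := by
  rw [exi_Lb_add]
  have h1 := exi_norm_add8 y d
  have h2 := exi_abs_inner_ph y d
  have h3 := neg_abs_le (inner ℝ (ph y) d)
  have h4 : 0 ≤ ‖y‖ ^ 8 := by positivity
  linarith

theorem exi_cont_ph : Continuous ph := by
  unfold ph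
  fun_prop

theorem exi_cont_Lb : Continuous (fun p : E × E => Lb p.1 p.2) := by
  unfold Lb ph
  fun_prop

theorem exi_hasDeriv8 (x d : E) (e : ℝ) :
    HasDerivAt (fun t : ℝ => ‖x + t • d‖ ^ 8) (8 * inner ℝ (ph (x + e • d)) d) e := by
  have h1 : HasDerivAt (fun t : ℝ => x + t • d) d e := by
    simpa using ((hasDerivAt_id e).smul_const d).const_add x
  have h2 := h1.norm_sq
  have h3 := h2.pow 4
  have e1 : (fun t : ℝ => ‖x + t • d‖ ^ 8) = (fun t : ℝ => ‖x + t • d‖ ^ 2) ^ 4 := by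
    funext t; simp only [Pi.pow_apply]; ring
  rw [e1, exi_inner_ph]
  refine h3.congr_deriv ?_
  norm_num
  ring

theorem exi_hasDeriv_Lb (b η d : E) (e : ℝ) :
    HasDerivAt (fun t : ℝ => Lb (b + (η + t • d)) b)
      (8 * inner ℝ (ph (b + (η + e • d)) - ph b) d) e := by
  have h1 := exi_hasDeriv8 (b + η) d e
  have h2 : HasDerivAt (fun t : ℝ => 8 * (inner ℝ (ph b) η + t * inner ℝ (ph b) d))
      (8 * inner ℝ (ph b) d) e := by
    simpa using (((hasDerivAt_id e).mul_const (inner ℝ (ph b) d)).const_add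
      (inner ℝ (ph b) η)).const_mul 8
  have h3 := (h1.sub_const (‖b‖ ^ 8)).sub h2
  have e1 : (fun t : ℝ => Lb (b + (η + t • d)) b) = (fun t : ℝ => ‖b + η + t • d‖ ^ 8 - ‖b‖ ^ 8) -
      (fun t : ℝ => 8 * (inner ℝ (ph b) η + t * inner ℝ (ph b) d)) := by
    funext t
    simp only [Pi.sub_apply]
    rw [exi_Lb_add, inner_add_right, real_inner_smul_right, add_assoc]
  rw [e1, inner_sub_left, ← add_assoc]
  refine h3.congr_deriv ?_
  ring

/-- one sided damping function -/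
theorem exi_G (k : ℝ) (hk : 0 < k) (t : ℝ) :
    HasDerivAt (fun t : ℝ => max t 0 - k * (1 - Real.exp (-(max t 0) / k)))
      (1 - Real.exp (-(max t 0) / k)) t := by
  have hs : ∀ s : ℝ, HasDerivAt (fun t : ℝ => t - k * (1 - Real.exp (-t / k)))
      (1 - Real.exp (-s / k)) s := by
    intro s
    have h1 : HasDerivAt (fun t : ℝ => -t / k) (-1 / k) s := (hasDerivAt_neg s).div_const k
    have h2 := (hasDerivAt_id s).sub ((h1.exp.const_sub 1).const_mul k)
    refine HasDerivAt.congr_deriv h2 ?_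
    field_simp
  rcases lt_trichotomy t 0 with h | h | h
  · rw [max_eq_right h.le]
    simp only [neg_zero, zero_div, Real.exp_zero, sub_self]
    refine (hasDerivAt_const t (0 : ℝ)).congr_of_eventuallyEq ?_
    filter_upwards [Iio_mem_nhds h] with s hs'
    rw [max_eq_right (le_of_lt hs')]
    simp
  · subst h
    have a1 : HasDerivWithinAt (fun t : ℝ => max t 0 - k * (1 - Real.exp (-(max t 0) / k)))
        (1 - Real.exp (-(max (0 : ℝ) 0) / k)) (Iic 0) 0 := by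
      simp only [max_self, neg_zero, zero_div, Real.exp_zero, sub_self]
      refine (hasDerivWithinAt_const (0 : ℝ) (Iic 0) (0 : ℝ)).congr ?_ (by simp)
      intro s hs'
      rw [max_eq_right hs']
      simp
    have a2 : HasDerivWithinAt (fun t : ℝ => max t 0 - k * (1 - Real.exp (-(max t 0) / k)))
        (1 - Real.exp (-(max (0 : ℝ) 0) / k)) (Ici 0) 0 := by
      rw [max_self]
      refine (hs 0).hasDerivWithinAt.congr ?_ (by simp)
      intro s hs'
      rw [max_eq_left hs']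
    have a3 := a1.union a2
    rwa [Iic_union_Ici, hasDerivWithinAt_univ] at a3
  · rw [max_eq_left h.le]
    refine (hs t).congr_of_eventuallyEq ?_
    filter_upwards [Ioi_mem_nhds h] with s hs'
    rw [max_eq_left (le_of_lt hs')]

theorem exi_trunc (c κ : ℝ) (hκ : 0 < κ) (hc : 0 ≤ c) :
    ∃ Θ θ : ℝ → ℝ, (∀ y, HasDerivAt Θ (θ y) y) ∧ (∀ y, 0 ≤ y → y ≤ c → Θ y = y) ∧
      (∀ y, -κ ≤ Θ y ∧ Θ y ≤ c + κ) ∧
      (∀ y, 0 ≤ θ y ∧ θ y ≤ 1 ∧ θ y * Real.exp (8 * Θ y) ≤ Real.exp (8 * y)) := by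
  set k : ℝ := min κ (1 / 8) with hk
  have hk0 : 0 < k := lt_min hκ (by norm_num)
  have hk1 : k ≤ κ := min_le_left _ _
  have hk2 : k ≤ 1 / 8 := min_le_right _ _
  set G : ℝ → ℝ := fun t => max t 0 - k * (1 - Real.exp (-(max t 0) / k)) with hG
  set g : ℝ → ℝ := fun t => 1 - Real.exp (-(max t 0) / k) with hg
  have hGd : ∀ t, HasDerivAt G (g t) t := exi_G k hk0
  have G0 : ∀ t, t ≤ 0 → G t = 0 := fun t ht => by simp [hG, max_eq_right ht]
  have g0 : ∀ t, t ≤ 0 → g t = 0 := fun t ht => by simp [hg, max_eq_right ht]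
  have G1 : ∀ t, 0 ≤ t → G t = t - k * (1 - Real.exp (-t / k)) := fun t ht => by
    simp [hG, max_eq_left ht]
  have g1 : ∀ t, 0 ≤ t → g t = 1 - Real.exp (-t / k) := fun t ht => by simp [hg, max_eq_left ht]
  have ex : ∀ t, 0 ≤ t → 0 < Real.exp (-t / k) ∧ Real.exp (-t / k) ≤ 1 ∧
      k * (1 - Real.exp (-t / k)) ≤ t := by
    intro t ht
    refine ⟨Real.exp_pos _, ?_, ?_⟩
    · rw [Real.exp_le_one_iff]
      exact div_nonpos_of_nonpos_of_nonneg (by linarith) hk0.le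
    · have h1 := Real.add_one_le_exp (-t / k)
      have h2 : k * (1 - Real.exp (-t / k)) ≤ k * (t / k) := by
        apply mul_le_mul_of_nonneg_left _ hk0.le
        rw [neg_div] at h1 ⊢
        linarith
      rwa [mul_div_cancel₀ _ hk0.ne'] at h2
  refine ⟨fun y => y - G (y - c) + G (-y), fun y => 1 - g (y - c) - g (-y), ?_, ?_, ?_, ?_⟩
  · intro y
    have a1 : HasDerivAt (fun y => G (y - c)) (g (y - c)) y := by
      have := (hGd (y - c)).comp y ((hasDerivAt_id y).sub_const c)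
      rw [mul_one] at this
      exact this
    have a2 : HasDerivAt (fun y => G (-y)) (-g (-y)) y := by
      exact ((hGd (-y)).comp y (hasDerivAt_neg y)).congr_deriv (by simp)
    have a3 := ((hasDerivAt_id y).sub a1).add a2
    exact HasDerivAt.congr_deriv a3 (by ring)
  · intro y h0 h1
    simp only
    rw [G0 _ (by linarith), G0 _ (by linarith)]
    ring
  · intro y
    simp only
    rcases le_total y 0 with h | h
    · obtain ⟨p1, p2, p3⟩ := ex (-y) (by linarith)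
      rw [G0 _ (by linarith), G1 _ (by linarith)]
      constructor <;> nlinarith
    · rw [G0 (-y) (by linarith)]
      rcases le_total y c with h' | h'
      · rw [G0 _ (by linarith)]
        constructor <;> linarith
      · obtain ⟨p1, p2, p3⟩ := ex (y - c) (by linarith)
        rw [G1 _ (by linarith)]
        constructor <;> nlinarith
  · intro y
    simp only
    rcases le_total y 0 with h | h
    · obtain ⟨p1, p2, p3⟩ := ex (-y) (by linarith)
      rw [G0 _ (by linarith), G1 _ (by linarith), g0 _ (by linarith), g1 _ (by linarith)]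
      refine ⟨by linarith, by linarith, ?_⟩
      have q1 : Real.exp (8 * (y - 0 + (-y - k * (1 - Real.exp (- -y / k))))) ≤ 1 := by
        rw [Real.exp_le_one_iff]
        nlinarith
      have q2 : Real.exp (- -y / k) ≤ Real.exp (8 * y) := by
        rw [Real.exp_le_exp, neg_neg, div_le_iff₀ hk0]
        nlinarith
      have q3 : 1 - 0 - (1 - Real.exp (- -y / k)) = Real.exp (- -y / k) := by ring
      rw [q3]
      calc _ ≤ Real.exp (- -y / k) * 1 := by gcongr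
        _ ≤ _ := by linarith
    · rw [G0 (-y) (by linarith), g0 (-y) (by linarith)]
      rcases le_total y c with h' | h'
      · rw [G0 _ (by linarith), g0 _ (by linarith)]
        simp
      · obtain ⟨p1, p2, p3⟩ := ex (y - c) (by linarith)
        rw [G1 _ (by linarith), g1 _ (by linarith)]
        refine ⟨by linarith, by linarith, ?_⟩
        have q1 : Real.exp (8 * (y - (y - c - k * (1 - Real.exp (-(y - c) / k))) + 0)) ≤
            Real.exp (8 * y) := by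
          rw [Real.exp_le_exp]
          linarith
        calc _ ≤ 1 * Real.exp (8 * y) := by
              apply mul_le_mul (by linarith) q1 (Real.exp_pos _).le zero_le_one
          _ = _ := one_mul _

theorem exi_memLp {μ : Measure E} {f : E → E} (hf : AEStronglyMeasurable f μ)
    (hi : Integrable (fun z => ‖f z‖ ^ 8) μ) : MemLp f 8 μ := by
  rw [← integrable_norm_rpow_iff hf (by norm_num) (by norm_num)]
  simpa using hi

theorem exi_eLp {μ : Measure E} {f : E → E} (hf : MemLp f 8 μ) :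
    eLpNorm f 8 μ = ENNReal.ofReal ((∫ z, ‖f z‖ ^ 8 ∂μ) ^ (8 : ℝ)⁻¹) := by
  rw [hf.eLpNorm_eq_integral_rpow_norm (by norm_num) (by norm_num)]
  simp

/-- completeness of `L^8` along a fast Cauchy sequence -/
theorem exi_L8 {μ : Measure E} (f : ℕ → E → E) (hm : ∀ n, AEStronglyMeasurable (f n) μ)
    (hi : ∀ n, Integrable (fun z => ‖f n z‖ ^ 8) μ)
    (hc : ∀ N n m : ℕ, N ≤ n → N ≤ m → ∫ z, ‖f n z - f m z‖ ^ 8 ∂μ ≤ ((1 / 2 : ℝ) ^ (N + 1)) ^ 8) :
    ∃ η : E → E, AEStronglyMeasurable η μ ∧ Integrable (fun z => ‖η z‖ ^ 8) μ ∧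
      (∀ᵐ z ∂μ, Tendsto (fun n => f n z) atTop (𝓝 (η z))) ∧
      Tendsto (fun n => ∫ z, ‖f n z - η z‖ ^ 8 ∂μ) atTop (𝓝 0) := by
  have hL : ∀ n, MemLp (f n) 8 μ := fun n => exi_memLp (hm n) (hi n)
  set B : ℕ → ENNReal := fun N => ENNReal.ofReal ((1 / 2 : ℝ) ^ N) with hB
  have hBs : ∑' i, B i ≠ ⊤ := by
    rw [hB, ← ENNReal.ofReal_tsum_of_nonneg (fun n => by positivity) summable_geometric_two]
    exact ENNReal.ofReal_ne_top
  have hcau : ∀ N n m : ℕ, N ≤ n → N ≤ m → eLpNorm (f n - f m) 8 μ < B N := by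
    intro N n m hn hm'
    rw [exi_eLp ((hL n).sub (hL m)), hB]
    simp only [Pi.sub_apply]
    rw [ENNReal.ofReal_lt_ofReal_iff (by positivity)]
    have h1 : (∫ z, ‖f n z - f m z‖ ^ 8 ∂μ) ^ (8 : ℝ)⁻¹ ≤
        (((1 / 2 : ℝ) ^ (N + 1)) ^ 8) ^ (8 : ℝ)⁻¹ :=
      Real.rpow_le_rpow (integral_nonneg fun z => by positivity) (hc N n m hn hm') (by norm_num)
    have h2 : (((1 / 2 : ℝ) ^ (N + 1)) ^ 8) ^ (8 : ℝ)⁻¹ = (1 / 2 : ℝ) ^ (N + 1) := by
      have := Real.pow_rpow_inv_natCast (x := (1 / 2 : ℝ) ^ (N + 1)) (n := 8) (by positivity)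
        (by norm_num)
      simpa using this
    rw [h2] at h1
    refine lt_of_le_of_lt h1 ?_
    rw [pow_succ]
    have : 0 < (1 / 2 : ℝ) ^ N := by positivity
    linarith
  obtain ⟨η, hη, hlim⟩ : ∃ η : E → E, StronglyMeasurable η ∧
      ∀ᵐ x ∂μ, Tendsto (fun n => f n x) atTop (𝓝 (η x)) :=
    exists_stronglyMeasurable_limit_of_tendsto_ae hm
      (Lp.ae_tendsto_of_cauchy_eLpNorm hm (by norm_num) hBs hcau)
  have ht := Lp.cauchy_tendsto_of_tendsto hm η hBs hcau hlim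
  have hLη : MemLp η 8 μ := Lp.memLp_of_cauchy_tendsto (by norm_num) hL η hη.aestronglyMeasurable ht
  refine ⟨η, hη.aestronglyMeasurable, by simpa using hLη.integrable_norm_pow (p := 8) (by norm_num),
    hlim, ?_⟩
  have h1 : Tendsto (fun n => (eLpNorm (f n - η) 8 μ).toReal ^ 8) atTop (𝓝 0) := by
    have := ((ENNReal.tendsto_toReal ENNReal.zero_ne_top).comp ht).pow 8
    simpa using this
  refine h1.congr fun n => ?_
  have hn : 0 ≤ ∫ z, ‖f n z - η z‖ ^ 8 ∂μ := integral_nonneg fun z => by positivity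
  rw [exi_eLp ((hL n).sub hLη)]
  simp only [Pi.sub_apply]
  rw [ENNReal.toReal_ofReal (by positivity)]
  have := Real.rpow_inv_natCast_pow (x := ∫ z, ‖f n z - η z‖ ^ 8 ∂μ) (n := 8) hn (by norm_num)
  simpa using this

end Pool.Agent.H949Z.Fu
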