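import Pool.Agent.H949Z.Fu.Exist1

/-! Existence of a minimiser, part 2: the functional and a fast minimising sequence. -/

set_option autoImplicit false

namespace Pool.Agent.H949Z.Fu

open MeasureTheory Filter Topology Set

theorem exi_measOm : MeasurableSet Om :=
  (isOpen_lt continuous_const continuous_norm).measurableSet

theorem exi_meas_grad (f : E → ℝ) : Measurable (gradient f) := by
  have : gradient f = fun x => (InnerProductSpace.toDual ℝ E).symm (fderiv ℝ f x) := rfl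
  rw [this]
  exact (InnerProductSpace.toDual ℝ E).symm.continuous.measurable.comp (measurable_fderiv ℝ f)

theorem exi_grad_comp (Θ : ℝ → ℝ) (θ : ℝ) (f : E → ℝ) (x : E) (hΘ : HasDerivAt Θ θ (f x))
    (hf : DifferentiableAt ℝ f x) : gradient (fun z => Θ (f z)) x = θ • gradient f x := by
  have h1 := hasGradientAt_iff_hasFDerivAt.1 hf.hasGradientAt
  have h2 := hΘ.comp_hasFDerivAt x h1
  apply HasGradientAt.gradient
  rw [hasGradientAt_iff_hasFDerivAt, map_smul]
  exact h2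

theorem exi_grad_lin (a b : ℝ) (f g : E → ℝ) (x : E) (hf : DifferentiableAt ℝ f x)
    (hg : DifferentiableAt ℝ g x) :
    gradient (fun z => a * f z + b * g z) x = a • gradient f x + b • gradient g x := by
  have h1 := hasGradientAt_iff_hasFDerivAt.1 hf.hasGradientAt
  have h2 := hasGradientAt_iff_hasFDerivAt.1 hg.hasGradientAt
  apply HasGradientAt.gradient
  rw [hasGradientAt_iff_hasFDerivAt, map_add, map_smul, map_smul]
  exact (h1.const_mul a).add (h2.const_mul b)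

/-- what is used about `v` -/
structure exi_Dat (v : E → ℝ) : Prop where
  mv : AEStronglyMeasurable v (volume.restrict Om)
  mb : AEStronglyMeasurable (lg v) (volume.restrict Om)
  lo : ∀ z ∈ Om, 1 / 2 ≤ v z
  hi : ∀ z ∈ Om, v z ≤ 2
  ib : IntegrableOn (fun z => ‖lg v z‖ ^ 8) Om

theorem exi_dat (v : E → ℝ) (C : ℝ) (hv : Reg {z | z ≠ 0} v C) : exi_Dat v := by
  have hne : ∀ z ∈ Om, z ∈ {z : E | z ≠ 0} := by
    intro z hz h0
    have : (1 : ℝ) < ‖z‖ := hz
    rw [h0, norm_zero] at this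
    linarith
  have mv : AEStronglyMeasurable v (volume.restrict Om) :=
    ContinuousOn.aestronglyMeasurable
      (fun z hz => (hv.diff z (hne z hz)).continuousAt.continuousWithinAt) exi_measOm
  have mb : AEStronglyMeasurable (lg v) (volume.restrict Om) := by
    have h1 : AEMeasurable (fun z => (v z)⁻¹) (volume.restrict Om) := mv.aemeasurable.inv
    exact h1.aestronglyMeasurable.smul (exi_meas_grad v).aestronglyMeasurable
  refine ⟨mv, mb, fun z hz => hv.lo z (hne z hz), fun z hz => hv.hi z (hne z hz), ?_⟩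
  have h1 : Integrable (fun x : E => (1 + ‖x‖) ^ (-(8 : ℝ))) volume :=
    integrable_one_add_norm (by simp; norm_num)
  refine Integrable.mono' ((h1.const_mul ((4 * C) ^ 8)).integrableOn)
    (mb.norm.pow 8) ?_
  filter_upwards [ae_restrict_mem exi_measOm] with z hz
  have hz1 : (1 : ℝ) < ‖z‖ := hz
  have a1 := hv.lo z (hne z hz)
  have a2 := hv.grad z (hne z hz)
  have hC : 0 ≤ C := by
    have : 0 ≤ C / ‖z‖ := le_trans (norm_nonneg _) a2
    by_contra hc
    have := div_neg_of_neg_of_pos (not_le.1 hc) (by linarith : 0 < ‖z‖)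
    linarith
  have a3 : ‖lg v z‖ ≤ 4 * C / (1 + ‖z‖) := by
    unfold lg
    rw [norm_smul, Real.norm_of_nonneg (by positivity)]
    have b1 : (v z)⁻¹ ≤ 2 := by
      rw [inv_le_comm₀ (by linarith) (by norm_num)]
      linarith
    have b2 : C / ‖z‖ ≤ 2 * C / (1 + ‖z‖) := by
      rw [div_le_div_iff₀ (by linarith) (by linarith)]
      nlinarith
    calc (v z)⁻¹ * ‖gradient v z‖ ≤ 2 * (2 * C / (1 + ‖z‖)) :=
          mul_le_mul b1 (a2.trans b2) (norm_nonneg _) (by norm_num)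
      _ = _ := by ring
  rw [Real.norm_of_nonneg (by positivity), Real.rpow_neg (by positivity)]
  have a4 : ‖lg v z‖ ^ 8 ≤ (4 * C / (1 + ‖z‖)) ^ 8 := pow_le_pow_left₀ (norm_nonneg _) a3 8
  refine a4.trans (le_of_eq ?_)
  have : (1 + ‖z‖) ^ (8 : ℝ) = (1 + ‖z‖) ^ 8 := by
    rw [← Real.rpow_natCast]; norm_num
  rw [this, div_pow, div_eq_mul_inv]

theorem exi_meas_Lb {μ : Measure E} {a b : E → E} (ha : AEStronglyMeasurable a μ)
    (hb : AEStronglyMeasurable b μ) : AEStronglyMeasurable (fun z => Lb (a z) (b z)) μ := by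
  have h1 : AEStronglyMeasurable (fun z => (a z, b z)) μ := ha.prodMk hb
  have h2 := exi_cont_Lb.comp_aestronglyMeasurable h1
  exact h2

theorem exi_measJ {v : E → ℝ} (D : exi_Dat v) {f : E → ℝ} {ξ : E → E}
    (hf : AEStronglyMeasurable f (volume.restrict Om))
    (hξ : AEStronglyMeasurable ξ (volume.restrict Om)) :
    AEStronglyMeasurable (fun z => v z ^ 8 * Real.exp (8 * f z) * Lb (lg v z + ξ z) (lg v z))
      (volume.restrict Om) := by
  have h1 : AEStronglyMeasurable (fun z => lg v z + ξ z) (volume.restrict Om) := D.mb.add hξ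
  have h2 := exi_meas_Lb h1 D.mb
  have h3 : AEStronglyMeasurable (fun z => 8 * f z) (volume.restrict Om) := hf.const_mul 8
  have h4 := Real.continuous_exp.comp_aestronglyMeasurable h3
  have h5 : AEStronglyMeasurable (fun z => v z ^ 8) (volume.restrict Om) := D.mv.pow 8
  exact (h5.mul h4).mul h2

theorem exi_wt {v : E → ℝ} (D : exi_Dat v) {z : E} (hz : z ∈ Om) {a B : ℝ} (ha : a ≤ B) :
    0 ≤ v z ^ 8 * Real.exp (8 * a) ∧ v z ^ 8 * Real.exp (8 * a) ≤ 256 * Real.exp (8 * B) := by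
  have h1 := D.lo z hz
  have h2 := D.hi z hz
  have h3 : v z ^ 8 ≤ 2 ^ 8 := pow_le_pow_left₀ (by linarith) h2 8
  refine ⟨by positivity, mul_le_mul (by linarith) ?_ (Real.exp_pos _).le (by norm_num)⟩
  rw [Real.exp_le_exp]
  linarith

theorem exi_intJ {v : E → ℝ} (D : exi_Dat v) {f : E → ℝ} {ξ : E → E} {B : ℝ}
    (hf : AEStronglyMeasurable f (volume.restrict Om)) (hB : ∀ z, f z ≤ B)
    (hξ : AEStronglyMeasurable ξ (volume.restrict Om))
    (hi : IntegrableOn (fun z => ‖ξ z‖ ^ 8) Om) :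
    IntegrableOn (fun z => v z ^ 8 * Real.exp (8 * f z) * Lb (lg v z + ξ z) (lg v z)) Om := by
  refine Integrable.mono' ((D.ib.add hi).const_mul (256 * Real.exp (8 * B) * 136))
    (exi_measJ D hf hξ) ?_
  filter_upwards [ae_restrict_mem exi_measOm] with z hz
  obtain ⟨w1, w2⟩ := exi_wt D hz (hB z)
  have a1 := exi_Lb_nonneg (lg v z) (ξ z)
  have a2 := exi_Lb_upper (lg v z) (ξ z)
  rw [Real.norm_of_nonneg (mul_nonneg w1 a1)]
  simp only [Pi.add_apply]
  calc _ ≤ 256 * Real.exp (8 * B) * (136 * (‖lg v z‖ ^ 8 + ‖ξ z‖ ^ 8)) :=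
        mul_le_mul w2 a2 a1 (by positivity)
    _ = _ := by ring

/-- the admissible class -/
structure exi_Cls (h0 f : E → ℝ) : Prop where
  diff : Differentiable ℝ f
  bc : ∀ z, ‖z‖ ≤ 1 → f z = h0 z
  bdd : ∃ B : ℝ, ∀ z, f z ≤ B
  int : IntegrableOn (fun z => ‖gradient f z‖ ^ 8) Om

/-- the functional -/
noncomputable def exi_J (v f : E → ℝ) : ℝ :=
  ∫ z in Om, v z ^ 8 * Real.exp (8 * f z) * Lb (lg v z + gradient f z) (lg v z)

theorem exi_Cls.intJ {v h0 f : E → ℝ} (D : exi_Dat v) (hf : exi_Cls h0 f) :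
    IntegrableOn (fun z => v z ^ 8 * Real.exp (8 * f z) * Lb (lg v z + gradient f z) (lg v z))
      Om := by
  obtain ⟨B, hB⟩ := hf.bdd
  exact exi_intJ D hf.diff.continuous.aestronglyMeasurable hB
    (exi_meas_grad f).aestronglyMeasurable hf.int

theorem exi_J_nonneg (v f : E → ℝ) : 0 ≤ exi_J v f := by
  refine integral_nonneg fun z => ?_
  have := exi_Lb_nonneg (lg v z) (gradient f z)
  have h2 : 0 ≤ v z ^ 8 := by positivity
  exact mul_nonneg (mul_nonneg h2 (Real.exp_pos _).le) this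

theorem exi_int_of_le {g : E → E} {k : E → ℝ} (hg : Measurable g) (hk : IntegrableOn k Om)
    (h : ∀ z, ‖g z‖ ^ 8 ≤ k z) : IntegrableOn (fun z => ‖g z‖ ^ 8) Om := by
  refine Integrable.mono' hk (hg.norm.pow_const 8).aestronglyMeasurable ?_
  refine Eventually.of_forall fun z => ?_
  rw [Real.norm_of_nonneg (by positivity)]
  exact h z

theorem exi_h0 (h0 : E → ℝ) (c : ℝ) (h1 : ContDiff ℝ 1 h0) (h2 : HasCompactSupport h0)
    (h3 : ∀ z, 0 ≤ h0 z ∧ h0 z ≤ c) : exi_Cls h0 h0 := by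
  refine ⟨h1.differentiable (by norm_num), fun _ _ => rfl, ⟨c, fun z => (h3 z).2⟩, ?_⟩
  have e : (fun z => ‖gradient h0 z‖ ^ 8) = fun z => ‖fderiv ℝ h0 z‖ ^ 8 := by
    funext z
    have : gradient h0 z = (InnerProductSpace.toDual ℝ E).symm (fderiv ℝ h0 z) := rfl
    rw [this, LinearIsometryEquiv.norm_map]
  rw [e]
  have hc : Continuous (fun z => ‖fderiv ℝ h0 z‖ ^ 8) :=
    (h1.continuous_fderiv (by norm_num)).norm.pow 8
  have hs : HasCompactSupport (fun z => ‖fderiv ℝ h0 z‖ ^ 8) :=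
    (h2.fderiv ℝ).comp_left (g := fun L => ‖L‖ ^ 8) (by simp)
  exact (hc.integrable_of_hasCompactSupport hs).integrableOn

theorem exi_trunc_step {v h0 : E → ℝ} (D : exi_Dat v) (c κ : ℝ) (hκ : 0 < κ) (hc : 0 ≤ c)
    (h3 : ∀ z, 0 ≤ h0 z ∧ h0 z ≤ c) {f : E → ℝ} (hf : exi_Cls h0 f) :
    ∃ g : E → ℝ, exi_Cls h0 g ∧ (∀ z, -κ ≤ g z ∧ g z ≤ c + κ) ∧ exi_J v g ≤ exi_J v f := by
  obtain ⟨Θ, θ, t1, t2, t3, t4⟩ := exi_trunc c κ hκ hc
  have hgr : ∀ z, gradient (fun z => Θ (f z)) z = θ (f z) • gradient f z :=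
    fun z => exi_grad_comp Θ _ f z (t1 _) (hf.diff z)
  have hg : exi_Cls h0 (fun z => Θ (f z)) := by
    refine ⟨fun z => (t1 _).differentiableAt.comp z (hf.diff z), ?_,
      ⟨c + κ, fun z => (t3 _).2⟩, ?_⟩
    · intro z hz
      rw [hf.bc z hz]
      exact t2 _ (h3 z).1 (h3 z).2
    · refine exi_int_of_le (exi_meas_grad _) hf.int fun z => ?_
      rw [hgr, norm_smul, Real.norm_of_nonneg (t4 _).1]
      apply pow_le_pow_left₀ (mul_nonneg (t4 _).1 (norm_nonneg _))
      exact mul_le_of_le_one_left (norm_nonneg _) (t4 _).2.1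
  refine ⟨_, hg, fun z => t3 _, ?_⟩
  refine integral_mono (hg.intJ D) (hf.intJ D) fun z => ?_
  simp only
  rw [hgr]
  obtain ⟨s0, s1, s2⟩ := t4 (f z)
  have a1 := exi_Lb_smul (lg v z) (gradient f z) _ s0 s1
  have a2 := exi_Lb_nonneg (lg v z) (gradient f z)
  have a3 : 0 ≤ v z ^ 8 := by positivity
  calc _ ≤ v z ^ 8 * Real.exp (8 * Θ (f z)) * (θ (f z) * Lb (lg v z + gradient f z) (lg v z)) :=
        mul_le_mul_of_nonneg_left a1 (mul_nonneg a3 (Real.exp_pos _).le)
    _ = v z ^ 8 * (θ (f z) * Real.exp (8 * Θ (f z))) * Lb (lg v z + gradient f z) (lg v z) := by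
        ring
    _ ≤ _ := by gcongr

theorem exi_int_sub {f g : E → ℝ} (hf : IntegrableOn (fun z => ‖gradient f z‖ ^ 8) Om)
    (hg : IntegrableOn (fun z => ‖gradient g z‖ ^ 8) Om) :
    IntegrableOn (fun z => ‖gradient f z - gradient g z‖ ^ 8) Om :=
  exi_int_of_le ((exi_meas_grad f).sub (exi_meas_grad g)) ((hf.add hg).const_mul 128)
    fun z => exi_norm_sub8 _ _

theorem exi_mid_step {v h0 : E → ℝ} (D : exi_Dat v) (lo hi : ℝ) :
    ∃ c0 : ℝ, 0 < c0 ∧ ∀ f g : E → ℝ, exi_Cls h0 f → exi_Cls h0 g →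
      (∀ z, lo ≤ f z ∧ f z ≤ hi) → (∀ z, lo ≤ g z ∧ g z ≤ hi) →
      ∃ m : E → ℝ, exi_Cls h0 m ∧
        exi_J v m + c0 * ∫ z in Om, ‖gradient f z - gradient g z‖ ^ 8 ≤
          (exi_J v f + exi_J v g) / 2 := by
  set w0 : ℝ := Real.exp (8 * lo) / (2 * Real.exp (8 * hi)) with hw0
  have hw0p : 0 < w0 := by positivity
  refine ⟨(1 / 2) ^ 8 * Real.exp (8 * lo) * (w0 * w0 ^ 8) / 256, by positivity, ?_⟩
  intro f g hf hg bf bg
  set r : E → ℝ := fun z => 1 / 2 * Real.exp (8 * f z) + 1 / 2 * Real.exp (8 * g z) with hr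
  have hrp : ∀ z, 0 < r z := fun z => by simp only [hr]; positivity
  have dexp : ∀ y : ℝ, HasDerivAt (fun y => Real.exp (8 * y)) (Real.exp (8 * y) * 8) y := by
    intro y
    have := ((hasDerivAt_id y).const_mul 8).exp
    simpa using this
  have df : Differentiable ℝ (fun z => Real.exp (8 * f z)) :=
    fun z => (dexp _).differentiableAt.comp z (hf.diff z)
  have dg : Differentiable ℝ (fun z => Real.exp (8 * g z)) :=
    fun z => (dexp _).differentiableAt.comp z (hg.diff z)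
  have dr : Differentiable ℝ r := (df.const_mul _).add (dg.const_mul _)
  have dlog : ∀ z, HasDerivAt (fun t => Real.log t / 8) ((r z)⁻¹ / 8) (r z) :=
    fun z => (Real.hasDerivAt_log (hrp z).ne').div_const 8
  set w1 : E → ℝ := fun z => Real.exp (8 * f z) / (2 * r z) with hw1
  set w2 : E → ℝ := fun z => Real.exp (8 * g z) / (2 * r z) with hw2
  have hgr : ∀ z, gradient (fun z => Real.log (r z) / 8) z =
      w1 z • gradient f z + w2 z • gradient g z := by
    intro z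
    rw [exi_grad_comp (fun t => Real.log t / 8) _ r z (dlog z) (dr z), hr,
      exi_grad_lin _ _ _ _ z (df z) (dg z),
      exi_grad_comp (fun y => Real.exp (8 * y)) _ f z (dexp _) (hf.diff z),
      exi_grad_comp (fun y => Real.exp (8 * y)) _ g z (dexp _) (hg.diff z),
      smul_add, smul_smul, smul_smul, smul_smul, smul_smul]
    have := hrp z
    congr 2
    · simp only [hw1, hr] at this ⊢
      field_simp
    · simp only [hw2, hr] at this ⊢
      field_simp
  have hsum : ∀ z, w1 z + w2 z = 1 := by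
    intro z
    have := hrp z
    simp only [hw1, hw2, hr] at this ⊢
    field_simp
  have rlo : ∀ z, Real.exp (8 * lo) ≤ r z := by
    intro z
    have a1 : Real.exp (8 * lo) ≤ Real.exp (8 * f z) := by
      rw [Real.exp_le_exp]; linarith [(bf z).1]
    have a2 : Real.exp (8 * lo) ≤ Real.exp (8 * g z) := by
      rw [Real.exp_le_exp]; linarith [(bg z).1]
    simp only [hr]
    linarith
  have rhi : ∀ z, r z ≤ Real.exp (8 * hi) := by
    intro z
    have a1 : Real.exp (8 * f z) ≤ Real.exp (8 * hi) := by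
      rw [Real.exp_le_exp]; linarith [(bf z).2]
    have a2 : Real.exp (8 * g z) ≤ Real.exp (8 * hi) := by
      rw [Real.exp_le_exp]; linarith [(bg z).2]
    simp only [hr]
    linarith
  have w1lo : ∀ z, w0 ≤ w1 z := by
    intro z
    have a1 : Real.exp (8 * lo) ≤ Real.exp (8 * f z) := by
      rw [Real.exp_le_exp]; linarith [(bf z).1]
    have := hrp z
    have := rhi z
    simp only [hw0, hw1]
    gcongr
  have w2lo : ∀ z, w0 ≤ w2 z := by
    intro z
    have a1 : Real.exp (8 * lo) ≤ Real.exp (8 * g z) := by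
      rw [Real.exp_le_exp]; linarith [(bg z).1]
    have := hrp z
    have := rhi z
    simp only [hw0, hw2]
    gcongr
  have hexp : ∀ z, Real.exp (8 * (Real.log (r z) / 8)) = r z := by
    intro z
    rw [mul_div_cancel₀ _ (by norm_num : (8 : ℝ) ≠ 0), Real.exp_log (hrp z)]
  have hm : exi_Cls h0 (fun z => Real.log (r z) / 8) := by
    refine ⟨fun z => (dlog z).differentiableAt.comp z (dr z), ?_, ⟨hi, fun z => ?_⟩, ?_⟩
    · intro z hz
      have : r z = Real.exp (8 * h0 z) := by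
        simp only [hr]
        rw [hf.bc z hz, hg.bc z hz]
        ring
      rw [this, Real.log_exp]
      ring
    · have := Real.log_le_log (hrp z) (rhi z)
      rw [Real.log_exp] at this
      linarith
    · refine exi_int_of_le (exi_meas_grad _) ((hf.int.add hg.int).const_mul 128) fun z => ?_
      rw [hgr]
      refine (exi_norm_add8 _ _).trans ?_
      have p1 : 0 ≤ w1 z := hw0p.le.trans (w1lo z)
      have p2 : 0 ≤ w2 z := hw0p.le.trans (w2lo z)
      have p3 := hsum z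
      have q1 : ‖w1 z • gradient f z‖ ≤ ‖gradient f z‖ := by
        rw [norm_smul, Real.norm_of_nonneg p1]
        exact mul_le_of_le_one_left (norm_nonneg _) (by linarith)
      have q2 : ‖w2 z • gradient g z‖ ≤ ‖gradient g z‖ := by
        rw [norm_smul, Real.norm_of_nonneg p2]
        exact mul_le_of_le_one_left (norm_nonneg _) (by linarith)
      simp only [Pi.add_apply]
      gcongr
  refine ⟨_, hm, ?_⟩
  have i1 := hm.intJ D
  have i2 := (exi_int_sub hf.int hg.int).const_mul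
    ((1 / 2) ^ 8 * Real.exp (8 * lo) * (w0 * w0 ^ 8) / 256)
  have i3 := hf.intJ D
  have i4 := hg.intJ D
  unfold exi_J
  rw [← integral_const_mul, ← integral_add i1 i2, ← integral_add i3 i4, ← integral_div]
  refine setIntegral_mono_on (i1.add i2) ((i3.add i4).div_const 2) exi_measOm fun z hz => ?_
  rw [hexp, hgr]
  have p1 : 0 ≤ w1 z := hw0p.le.trans (w1lo z)
  have p2 : 0 ≤ w2 z := hw0p.le.trans (w2lo z)
  have key := exi_Lb_mid (lg v z) (gradient f z) (gradient g z) _ _ p1 p2 (hsum z)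
  have e1 : Real.exp (8 * f z) = 2 * r z * w1 z := by
    have := hrp z
    simp only [hw1]
    field_simp
  have e2 : Real.exp (8 * g z) = 2 * r z * w2 z := by
    have := hrp z
    simp only [hw2]
    field_simp
  rw [e1, e2]
  have v1 := D.lo z hz
  have v2 : (1 / 2 : ℝ) ^ 8 ≤ v z ^ 8 := pow_le_pow_left₀ (by norm_num) v1 8
  have v3 : 0 ≤ v z ^ 8 * r z := mul_nonneg (by positivity) (hrp z).le
  have k1 := mul_le_mul_of_nonneg_left key v3
  have k2 : (1 / 2) ^ 8 * Real.exp (8 * lo) * (w0 * w0 ^ 8) ≤ v z ^ 8 * r z * (w1 z * w2 z ^ 8) := by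
    have := rlo z
    have := w1lo z
    have := w2lo z
    gcongr
  have k3 := mul_le_mul_of_nonneg_right k2 (by positivity : 0 ≤ ‖gradient f z - gradient g z‖ ^ 8)
  nlinarith

/-- a fast minimising sequence -/
theorem exi_seq {v h0 : E → ℝ} (D : exi_Dat v) (c κ : ℝ) (hκ : 0 < κ) (hc : 0 ≤ c)
    (h3 : ∀ z, 0 ≤ h0 z ∧ h0 z ≤ c) (hh : exi_Cls h0 h0) :
    ∃ (m : ℝ) (hs : ℕ → E → ℝ), (∀ f, exi_Cls h0 f → m ≤ exi_J v f) ∧ (∀ n, exi_Cls h0 (hs n)) ∧
      (∀ n z, -κ ≤ hs n z ∧ hs n z ≤ c + κ) ∧ Tendsto (fun n => exi_J v (hs n)) atTop (𝓝 m) ∧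
      ∀ N n m : ℕ, N ≤ n → N ≤ m →
        ∫ z in Om, ‖gradient (hs n) z - gradient (hs m) z‖ ^ 8 ≤ ((1 / 2 : ℝ) ^ (N + 1)) ^ 8 := by
  obtain ⟨c0, hc0, hmid⟩ := exi_mid_step (h0 := h0) D (-κ) (c + κ)
  set S : Set ℝ := exi_J v '' {f | exi_Cls h0 f} with hS
  have hne : S.Nonempty := ⟨_, h0, hh, rfl⟩
  have hbd : BddBelow S := ⟨0, by rintro _ ⟨f, -, rfl⟩; exact exi_J_nonneg v f⟩
  have hm : ∀ f, exi_Cls h0 f → sInf S ≤ exi_J v f := fun f hf => csInf_le hbd ⟨f, hf, rfl⟩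
  have hex : ∀ n : ℕ, ∃ g : E → ℝ, exi_Cls h0 g ∧ (∀ z, -κ ≤ g z ∧ g z ≤ c + κ) ∧
      exi_J v g ≤ sInf S + c0 * ((1 / 2 : ℝ) ^ (n + 1)) ^ 8 := by
    intro n
    have : sInf S < sInf S + c0 * ((1 / 2 : ℝ) ^ (n + 1)) ^ 8 := by
      have : 0 < c0 * ((1 / 2 : ℝ) ^ (n + 1)) ^ 8 := by positivity
      linarith
    obtain ⟨_, ⟨f, hf, rfl⟩, hlt⟩ := exists_lt_of_csInf_lt hne this
    obtain ⟨g, g1, g2, g3⟩ := exi_trunc_step D c κ hκ hc h3 hf
    exact ⟨g, g1, g2, g3.trans hlt.le⟩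
  choose hs s1 s2 s3 using hex
  refine ⟨sInf S, hs, hm, s1, s2, ?_, ?_⟩
  · have t1 : Tendsto (fun n : ℕ => (1 / 2 : ℝ) ^ (n + 1)) atTop (𝓝 0) :=
      (tendsto_pow_atTop_nhds_zero_of_lt_one (by norm_num) (by norm_num)).comp
        (tendsto_add_atTop_nat 1)
    have t2 : Tendsto (fun n : ℕ => sInf S + c0 * ((1 / 2 : ℝ) ^ (n + 1)) ^ 8) atTop
        (𝓝 (sInf S)) := by
      have := ((t1.pow 8).const_mul c0).const_add (sInf S)
      simpa using this
    exact tendsto_of_tendsto_of_tendsto_of_le_of_le tendsto_const_nhds t2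
      (fun n => hm _ (s1 n)) s3
  · intro N n m hn hm'
    obtain ⟨mid, m1, m2⟩ := hmid _ _ (s1 n) (s1 m) (s2 n) (s2 m)
    have a1 := hm _ m1
    have mono : ∀ k : ℕ, N ≤ k → ((1 / 2 : ℝ) ^ (k + 1)) ^ 8 ≤ ((1 / 2 : ℝ) ^ (N + 1)) ^ 8 := by
      intro k hk
      apply pow_le_pow_left₀ (by positivity)
      exact pow_le_pow_of_le_one (by norm_num) (by norm_num) (by omega)
    have a2 := mul_le_mul_of_nonneg_left (mono n hn) hc0.le
    have a3 := mul_le_mul_of_nonneg_left (mono m hm') hc0.le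
    have a4 := s3 n
    have a5 := s3 m
    apply le_of_mul_le_mul_left _ hc0
    linarith

end Pool.Agent.H949Z.Fu
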