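import Pool.Agent.H949Z.Fu.Stm

/-! Integration by parts against an admissible test function. -/

set_option autoImplicit false

namespace Pool.Agent.H949Z.Fu

open MeasureTheory Filter Topology Set

theorem ibp_norm_ph (ξ : E) : ‖ph ξ‖ = ‖ξ‖ ^ 7 := by
  unfold ph
  rw [norm_smul, norm_pow, norm_norm]
  ring

theorem ibp_cont_ph : Continuous ph := by
  unfold ph
  fun_prop

theorem ibp_meas_grad (f : E → ℝ) : Measurable (gradient f) :=
  (InnerProductSpace.toDual ℝ E).symm.continuous.measurable.comp (measurable_fderiv ℝ f)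

theorem ibp_meas_flux (b : E → ℝ) : Measurable (flux b) :=
  ibp_cont_ph.measurable.comp (ibp_meas_grad b)

theorem ibp_norm_grad (f : E → ℝ) (z : E) : ‖gradient f z‖ = ‖fderiv ℝ f z‖ :=
  (InnerProductSpace.toDual ℝ E).symm.norm_map _

theorem ibp_inner_grad (f : E → ℝ) (z v : E) : inner ℝ v (gradient f z) = fderiv ℝ f z v := by
  rw [real_inner_comm]
  exact InnerProductSpace.toDual_symm_apply

theorem ibp_sum (v : E) : v = ∑ i : Fin 2, v i • EuclideanSpace.single i (1 : ℝ) := by
  ext j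
  fin_cases j <;> simp [Fin.sum_univ_two]

theorem ibp_inner_sum (f : E → ℝ) (z v : E) : inner ℝ v (gradient f z) =
    ∑ i : Fin 2, v i * fderiv ℝ f z (EuclideanSpace.single i (1 : ℝ)) := by
  rw [ibp_inner_grad]
  conv_lhs => rw [ibp_sum v]
  rw [map_sum]
  simp only [map_smul, smul_eq_mul]

theorem ibp_int_k : Integrable (fun z : E => 1 / (1 + ‖z‖) ^ 3) := by
  have h := integrable_one_add_norm (E := E) (μ := volume) (r := 3) (by simp; norm_num)
  refine h.congr (Eventually.of_forall fun z => ?_)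
  have hz : 0 ≤ 1 + ‖z‖ := by positivity
  simp only
  rw [Real.rpow_neg hz, one_div]
  norm_cast

theorem ibp_k_le {z : E} (hz : 1 < ‖z‖) {n : ℕ} (hn : 3 ≤ n) :
    1 / ‖z‖ ^ n ≤ 8 * (1 / (1 + ‖z‖) ^ 3) := by
  have h1 : (1 + ‖z‖) ^ 3 ≤ 8 * ‖z‖ ^ n := by
    calc (1 + ‖z‖) ^ 3 ≤ (2 * ‖z‖) ^ 3 := by gcongr; linarith
      _ = 8 * ‖z‖ ^ 3 := by ring
      _ ≤ 8 * ‖z‖ ^ n := by gcongr; exact hz.le
  rw [mul_one_div, div_le_div_iff₀ (by positivity) (by positivity)]
  linarith

theorem ibp_young {x y : ℝ} (hx : 0 ≤ x) (hy : 0 ≤ y) : y ^ 7 * x ≤ x ^ 8 + y ^ 8 := by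
  rcases le_total x y with h | h
  · have : y ^ 7 * x ≤ y ^ 7 * y := by gcongr
    have h2 : 0 ≤ x ^ 8 := by positivity
    nlinarith
  · have : y ^ 7 * x ≤ x ^ 7 * x := by gcongr
    have h2 : 0 ≤ y ^ 8 := by positivity
    nlinarith

theorem ibp_fderiv_ball {ζ : E → ℝ} (h : Adm ζ) {z : E} (hz : ‖z‖ ≤ 1) : fderiv ℝ ζ z = 0 := by
  have hu : UniqueDiffWithinAt ℝ (Metric.closedBall (0 : E) 1) z :=
    uniqueDiffOn_convex (convex_closedBall _ _)
      ⟨0, by rw [interior_closedBall _ one_ne_zero]; simp⟩ z (by simpa using hz)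
  have h1 : HasFDerivWithinAt ζ (0 : E →L[ℝ] ℝ) (Metric.closedBall (0 : E) 1) z :=
    (hasFDerivWithinAt_const (0 : ℝ) z _).congr (fun x hx => h.zero x (by simpa using hx))
      (h.zero z hz)
  exact hu.eq (h.diff z).hasFDerivAt.hasFDerivWithinAt h1

theorem ibp : IBP := by
  intro S K b C _ hK hKS hR ζ hζ hζK
  obtain ⟨B, hB⟩ := hζ.bdd
  have hB0 : 0 ≤ B := (abs_nonneg _).trans (hB 0)
  have hOm : MeasurableSet Om := (isOpen_lt continuous_const continuous_norm).measurableSet
  have hdK : ∀ z, z ∉ K → fderiv ℝ ζ z = 0 := fun z hz => by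
    have : ζ =ᶠ[𝓝 z] fun _ => 0 :=
      Filter.mem_of_superset (hK.isOpen_compl.mem_nhds hz) fun x hx => hζK x hx
    rw [this.fderiv_eq, fderiv_const_apply]
  have hts : tsupport ζ ⊆ S :=
    (closure_minimal (s := Function.support ζ)
      (fun z hz => by_contra fun h => (Function.mem_support.1 hz) (hζK z h)) hK).trans hKS
  have hgb : ∀ z ∈ S, 1 < ‖z‖ → ∀ n : ℕ, 3 ≤ n →
      ‖gradient b z‖ ^ n ≤ |C| ^ n * (8 * (1 / (1 + ‖z‖) ^ 3)) := fun z hz hz1 n hn => by
    calc ‖gradient b z‖ ^ n ≤ (|C| / ‖z‖) ^ n := by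
          gcongr
          exact (hR.grad z hz).trans (by gcongr; exact le_abs_self C)
      _ = |C| ^ n * (1 / ‖z‖ ^ n) := by rw [div_pow, mul_one_div]
      _ ≤ _ := by gcongr; exact ibp_k_le hz1 hn
  have hcomp : ∀ (v : E) (i : Fin 2), |v i| ≤ ‖v‖ := fun v i => by
    simpa using PiLp.norm_apply_le v i
  have hmf : ∀ i : Fin 2, Measurable fun z => flux b z i := fun i =>
    (EuclideanSpace.proj i : E →L[ℝ] ℝ).continuous.measurable.comp (ibp_meas_flux b)
  have hmζ : Measurable ζ := hζ.diff.continuous.measurable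
  have hI1 : ∀ i : Fin 2, Integrable fun z => flux b z i * ζ z := fun i => by
    refine (ibp_int_k.const_mul (|C| ^ 7 * 8 * B)).mono' ((hmf i).mul hmζ).aestronglyMeasurable
      (Eventually.of_forall fun z => ?_)
    by_cases h0 : ζ z = 0
    · rw [h0, mul_zero, norm_zero]
      positivity
    · have hz : z ∈ S := hKS (by_contra fun h => h0 (hζK z h))
      have hz1 : 1 < ‖z‖ := by_contra fun h => h0 (hζ.zero z (not_lt.1 h))
      rw [Real.norm_eq_abs, abs_mul]
      calc |flux b z i| * |ζ z| ≤ (|C| ^ 7 * (8 * (1 / (1 + ‖z‖) ^ 3))) * B := by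
            gcongr
            · refine (hcomp _ i).trans ?_
              rw [flux, ibp_norm_ph]
              exact hgb z hz hz1 7 (by norm_num)
            · exact hB z
        _ = _ := by ring
  have hI2 : ∀ i : Fin 2, Integrable fun z =>
      (fderiv ℝ (flux b) z (EuclideanSpace.single i (1 : ℝ))) i * ζ z := fun i => by
    have hm : Measurable fun z => (fderiv ℝ (flux b) z (EuclideanSpace.single i (1 : ℝ))) i :=
      (EuclideanSpace.proj i : E →L[ℝ] ℝ).continuous.measurable.comp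
        (measurable_fderiv_apply_const ℝ (flux b) _)
    refine (ibp_int_k.const_mul (|C| * 8 * B)).mono' (hm.mul hmζ).aestronglyMeasurable
      (Eventually.of_forall fun z => ?_)
    by_cases h0 : ζ z = 0
    · rw [h0, mul_zero, norm_zero]
      positivity
    · have hz : z ∈ S := hKS (by_contra fun h => h0 (hζK z h))
      have hz1 : 1 < ‖z‖ := by_contra fun h => h0 (hζ.zero z (not_lt.1 h))
      rw [Real.norm_eq_abs, abs_mul]
      calc |(fderiv ℝ (flux b) z (EuclideanSpace.single i (1 : ℝ))) i| * |ζ z|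
          ≤ (|C| * (8 * (1 / (1 + ‖z‖) ^ 3))) * B := by
            gcongr
            · refine (hcomp _ i).trans ((ContinuousLinearMap.le_opNorm _ _).trans ?_)
              rw [PiLp.norm_single, norm_one, mul_one]
              calc ‖fderiv ℝ (flux b) z‖ ≤ C / ‖z‖ ^ 8 := hR.fbd z hz
                _ ≤ |C| / ‖z‖ ^ 8 := by gcongr; exact le_abs_self C
                _ = |C| * (1 / ‖z‖ ^ 8) := by rw [mul_one_div]
                _ ≤ _ := by gcongr; exact ibp_k_le hz1 (by norm_num)
            · exact hB z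
        _ = _ := by ring
  have hI3 : ∀ i : Fin 2, Integrable fun z =>
      flux b z i * fderiv ℝ ζ z (EuclideanSpace.single i (1 : ℝ)) := fun i => by
    have hint : Integrable (Om.indicator fun z => ‖gradient ζ z‖ ^ 8) :=
      (integrable_indicator_iff hOm).2 hζ.int
    refine (hint.add (ibp_int_k.const_mul (|C| ^ 8 * 8))).mono'
      ((hmf i).mul (measurable_fderiv_apply_const ℝ ζ _)).aestronglyMeasurable
      (Eventually.of_forall fun z => ?_)
    have hind : 0 ≤ Om.indicator (fun z => ‖gradient ζ z‖ ^ 8) z :=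
      Set.indicator_nonneg (fun _ _ => by positivity) z
    simp only [Pi.add_apply]
    by_cases h0 : fderiv ℝ ζ z = 0
    · rw [h0, zero_apply, mul_zero, norm_zero]
      positivity
    · have hz : z ∈ S := hKS (by_contra fun h => h0 (hdK z h))
      have hz1 : 1 < ‖z‖ := by_contra fun h => h0 (ibp_fderiv_ball hζ (not_lt.1 h))
      rw [Real.norm_eq_abs, abs_mul, Set.indicator_of_mem (show z ∈ Om from hz1)]
      calc |flux b z i| * |fderiv ℝ ζ z (EuclideanSpace.single i (1 : ℝ))|
          ≤ ‖gradient b z‖ ^ 7 * ‖gradient ζ z‖ := by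
            gcongr
            · refine (hcomp _ i).trans ?_
              rw [flux, ibp_norm_ph]
            · rw [← Real.norm_eq_abs, ibp_norm_grad]
              refine (ContinuousLinearMap.le_opNorm _ _).trans ?_
              rw [PiLp.norm_single, norm_one, mul_one]
        _ ≤ ‖gradient ζ z‖ ^ 8 + ‖gradient b z‖ ^ 8 := ibp_young (norm_nonneg _) (norm_nonneg _)
        _ ≤ _ := by
            have := hgb z hz hz1 8 (by norm_num)
            linarith
  have hP : ∀ i : Fin 2, ∫ z, flux b z i * fderiv ℝ ζ z (EuclideanSpace.single i (1 : ℝ)) =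
      -∫ z, (fderiv ℝ (flux b) z (EuclideanSpace.single i (1 : ℝ))) i * ζ z := fun i =>
    integral_bilinear_hasLineDerivAt_right_eq_neg_left_of_integrable (μ := volume)
      (B := ContinuousLinearMap.mul ℝ ℝ) (f := fun z => flux b z i)
      (f' := fun z => (fderiv ℝ (flux b) z (EuclideanSpace.single i (1 : ℝ))) i) (g := ζ)
      (g' := fun z => fderiv ℝ ζ z (EuclideanSpace.single i (1 : ℝ)))
      (v := EuclideanSpace.single i (1 : ℝ)) (hI2 i) (hI3 i) (hI1 i)
      (fun z hz => ((EuclideanSpace.proj i : E →L[ℝ] ℝ).hasFDerivAt.comp z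
        (hR.fdiff z (hts hz)).hasFDerivAt).hasLineDerivAt _)
      (fun z _ => (hζ.diff z).hasFDerivAt.hasLineDerivAt _)
  have e1 : (fun z => inner ℝ (flux b z) (gradient ζ z)) = fun z =>
      ∑ i : Fin 2, flux b z i * fderiv ℝ ζ z (EuclideanSpace.single i (1 : ℝ)) :=
    funext fun z => ibp_inner_sum ζ z _
  have e2 : (fun z => dvg (flux b) z * ζ z) = fun z =>
      ∑ i : Fin 2, (fderiv ℝ (flux b) z (EuclideanSpace.single i (1 : ℝ))) i * ζ z :=
    funext fun z => by rw [dvg, Finset.sum_mul]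
  have hJ1 : Integrable fun z => inner ℝ (flux b z) (gradient ζ z) := by
    rw [e1]
    exact integrable_finsetSum _ fun i _ => hI3 i
  have hJ2 : Integrable fun z => dvg (flux b) z * ζ z := by
    rw [e2]
    exact integrable_finsetSum _ fun i _ => hI2 i
  refine ⟨hJ1.integrableOn, hJ2.integrableOn, ?_⟩
  rw [setIntegral_eq_integral_of_forall_compl_eq_zero, integral_add hJ1 hJ2, e1, e2,
    integral_finsetSum _ fun i _ => hI3 i, integral_finsetSum _ fun i _ => hI2 i,
    ← Finset.sum_add_distrib]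
  · exact Finset.sum_eq_zero fun i _ => by rw [hP, neg_add_cancel]
  · intro z hz
    have hz1 : ‖z‖ ≤ 1 := not_lt.1 hz
    rw [ibp_inner_grad, ibp_fderiv_ball hζ hz1, hζ.zero z hz1]
    simp

end Pool.Agent.H949Z.Fu
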