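import Pool.Agent.H949Z.Fu.Stm

/-! The Morrey type estimate. -/

set_option autoImplicit false
set_option maxHeartbeats 400000

namespace Pool.Agent.H949Z.Fu

open MeasureTheory Filter Topology Set
open scoped ENNReal

theorem mor_norm (f : E → ℝ) (z : E) : ‖gradient f z‖ = ‖fderiv ℝ f z‖ := by
  unfold gradient
  exact LinearIsometryEquiv.norm_map _ _

theorem mor_meas (f : E → ℝ) : Measurable (fun z => ‖fderiv ℝ f z‖) :=
  (measurable_fderiv ℝ f).norm

theorem mor_zero (f : E → ℝ) (hf : Differentiable ℝ f) (h0 : ∀ z, ‖z‖ ≤ 1 → f z = 0) (z : E)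
    (hz : ‖z‖ ≤ 1) : fderiv ℝ f z = 0 := by
  have hU : UniqueDiffOn ℝ (Metric.closedBall (0 : E) 1) := by
    apply uniqueDiffOn_convex (convex_closedBall 0 1)
    rw [interior_closedBall _ one_ne_zero]
    exact ⟨0, Metric.mem_ball_self one_pos⟩
  have hz' : z ∈ Metric.closedBall (0 : E) 1 := by simpa using hz
  have h1 : HasFDerivWithinAt f (fderiv ℝ f z) (Metric.closedBall (0 : E) 1) z :=
    (hf z).hasFDerivAt.hasFDerivWithinAt
  have h2 : HasFDerivWithinAt f (0 : E →L[ℝ] ℝ) (Metric.closedBall (0 : E) 1) z := by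
    refine (hasFDerivWithinAt_const (0 : ℝ) z _).congr ?_ (h0 z hz)
    intro y hy
    exact h0 y (by simpa using hy)
  exact (hU z hz').eq h1 h2

theorem mor_total (f : E → ℝ) (hf : Differentiable ℝ f) (h0 : ∀ z, ‖z‖ ≤ 1 → f z = 0)
    (hi : IntegrableOn (fun z => ‖gradient f z‖ ^ 8) Om) (τ : ℝ)
    (hτ : ∫ z in Om, ‖gradient f z‖ ^ 8 ≤ τ) :
    ∫⁻ z, ENNReal.ofReal (‖fderiv ℝ f z‖ ^ 8) ≤ ENNReal.ofReal τ := by
  have hO : MeasurableSet Om := (isOpen_lt continuous_const continuous_norm).measurableSet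
  have h1 : (fun z => ENNReal.ofReal (‖fderiv ℝ f z‖ ^ 8)) =
      Om.indicator (fun z => ENNReal.ofReal (‖gradient f z‖ ^ 8)) := by
    funext z
    by_cases hz : z ∈ Om
    · rw [indicator_of_mem hz, mor_norm]
    · rw [indicator_of_notMem hz, mor_zero f hf h0 z (not_lt.1 hz)]
      simp
  rw [h1, lintegral_indicator hO, ← ofReal_integral_eq_lintegral_ofReal hi
    (Eventually.of_forall fun z => by positivity)]
  exact ENNReal.ofReal_le_ofReal hτ

theorem mor_scale (G : E → ℝ≥0∞) (hG : Measurable G) (x : E) (s : ℝ) :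
    ∫⁻ z, ENNReal.ofReal (s ^ 8) * G (x + s ^ 4 • (z - x)) ≤ ∫⁻ z, G z := by
  by_cases hs : s = 0
  · subst hs
    simp
  have hr : s ^ 4 ≠ 0 := pow_ne_zero _ hs
  have hm : Measurable fun z : E => G (x + s ^ 4 • (z - x)) := hG.comp (by fun_prop)
  rw [lintegral_const_mul _ hm]
  have h1 : ∫⁻ z, G (x + s ^ 4 • (z - x)) = ∫⁻ z, G (x + s ^ 4 • z) :=
    lintegral_sub_right_eq_self (μ := volume) (fun z : E => G (x + s ^ 4 • z)) x
  have hm2 : Measurable fun z : E => G (x + z) := hG.comp (by fun_prop)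
  have h2 : ∫⁻ z, G (x + s ^ 4 • z) =
      ∫⁻ z, G (x + z) ∂(Measure.map (fun z : E => s ^ 4 • z) volume) := by
    rw [lintegral_map hm2 (by fun_prop)]
  have h3 : ∫⁻ z, G (x + z) = ∫⁻ z, G z := lintegral_add_left_eq_self (μ := volume) G x
  rw [h1, h2, Measure.map_addHaar_smul volume hr, lintegral_smul_measure, h3, smul_eq_mul,
    ← mul_assoc, ← ENNReal.ofReal_mul (by positivity)]
  have h4 : s ^ 8 * |((s ^ 4) ^ Module.finrank ℝ E)⁻¹| = 1 := by
    have : Module.finrank ℝ E = 2 := by simp [E]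
    rw [this, abs_of_nonneg (by positivity)]
    field_simp
  rw [h4]
  simp

theorem mor_young (a T : ℝ) (ha : 0 ≤ a) (hT : 0 < T) : a ≤ T + (T ^ 7)⁻¹ * a ^ 8 := by
  rcases le_total a T with h | h
  · have : 0 ≤ (T ^ 7)⁻¹ * a ^ 8 := by positivity
    linarith
  · have h1 : T ^ 7 ≤ a ^ 7 := pow_le_pow_left₀ hT.le h 7
    have h2 : a ≤ (T ^ 7)⁻¹ * a ^ 8 := by
      rw [inv_mul_eq_div, le_div_iff₀ (by positivity)]
      calc a * T ^ 7 ≤ a * a ^ 7 := mul_le_mul_of_nonneg_left h1 ha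
        _ = a ^ 8 := by ring
    linarith

theorem mor_path (f : E → ℝ) (hf : Differentiable ℝ f) (x z : E) (D T η : ℝ) (hD : ‖z - x‖ ≤ D)
    (hT : 0 < T) (hη : 0 ≤ η)
    (h : ∫⁻ s in Icc (0 : ℝ) 1, ENNReal.ofReal (s ^ 8) *
      ENNReal.ofReal (‖fderiv ℝ f (x + s ^ 4 • (z - x))‖ ^ 8) ≤ ENNReal.ofReal η) :
    f z - f x ≤ 4 * D * (T + (T ^ 7)⁻¹ * η) := by
  have hD0 : 0 ≤ D := le_trans (norm_nonneg _) hD
  set k : ℝ → ℝ := fun s => s ^ 8 * ‖fderiv ℝ f (x + s ^ 4 • (z - x))‖ ^ 8 with hk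
  have hkm : Measurable k := by
    have h1 : Measurable fun s : ℝ => ‖fderiv ℝ f (x + s ^ 4 • (z - x))‖ :=
      (mor_meas f).comp (by fun_prop)
    exact (measurable_id.pow_const 8).mul (h1.pow_const 8)
  have hk0 : ∀ s, 0 ≤ k s := fun s => by simp only [hk]; positivity
  have h' : ∫⁻ s in Icc (0 : ℝ) 1, ENNReal.ofReal (k s) ≤ ENNReal.ofReal η := by
    refine le_trans (le_of_eq ?_) h
    refine lintegral_congr fun s => ?_
    simp only [hk]
    rw [ENNReal.ofReal_mul (by positivity)]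
  have hki : IntegrableOn k (Icc (0 : ℝ) 1) := by
    refine ⟨hkm.aestronglyMeasurable, ?_⟩
    rw [hasFiniteIntegral_iff_ofReal (Eventually.of_forall hk0)]
    exact lt_of_le_of_lt h' ENNReal.ofReal_lt_top
  have hkI : ∫ s in Icc (0 : ℝ) 1, k s ≤ η := by
    rw [← ofReal_integral_eq_lintegral_ofReal hki (Eventually.of_forall hk0)] at h'
    exact (ENNReal.ofReal_le_ofReal_iff hη).1 h'
  have hder : ∀ s : ℝ, HasDerivAt (fun s : ℝ => f (x + s ^ 4 • (z - x)))
      (fderiv ℝ f (x + s ^ 4 • (z - x)) ((4 * s ^ 3) • (z - x))) s := by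
    intro s
    have h1 : HasDerivAt (fun s : ℝ => x + s ^ 4 • (z - x)) ((4 * s ^ 3) • (z - x)) s := by
      have := ((hasDerivAt_pow 4 s).smul_const (z - x)).const_add x
      simpa using this
    exact (hf _).hasFDerivAt.comp_hasDerivAt s h1
  have hTi : Integrable (fun _ : ℝ => T) (volume.restrict (Icc (0 : ℝ) 1)) := integrable_const T
  have hφi : IntegrableOn (fun s => 4 * D * (T + (T ^ 7)⁻¹ * k s)) (Icc (0 : ℝ) 1) :=
    Integrable.const_mul (Integrable.add hTi (hki.const_mul _)) _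
  have hmain := intervalIntegral.sub_le_integral_of_hasDeriv_right_of_le
    (g := fun s : ℝ => f (x + s ^ 4 • (z - x)))
    (g' := fun s => fderiv ℝ f (x + s ^ 4 • (z - x)) ((4 * s ^ 3) • (z - x)))
    (φ := fun s => 4 * D * (T + (T ^ 7)⁻¹ * k s)) zero_le_one
    (fun s _ => (hder s).continuousAt.continuousWithinAt)
    (fun s _ => (hder s).hasDerivWithinAt) hφi (by
      intro s hs
      set A := fderiv ℝ f (x + s ^ 4 • (z - x)) with hA
      have hs0 : 0 ≤ s := hs.1.le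
      have hs1 : s ≤ 1 := hs.2.le
      have h1 : A ((4 * s ^ 3) • (z - x)) ≤ ‖A‖ * ‖(4 * s ^ 3) • (z - x)‖ :=
        le_trans (le_abs_self _) (A.le_opNorm ((4 * s ^ 3) • (z - x)))
      have h2 : ‖(4 * s ^ 3) • (z - x)‖ ≤ 4 * s * D := by
        rw [norm_smul, Real.norm_of_nonneg (by positivity)]
        have h3 : s ^ 3 ≤ s := by
          have : s ^ 2 ≤ 1 := pow_le_one₀ hs0 hs1
          nlinarith
        exact mul_le_mul (by linarith) hD (norm_nonneg _) (by positivity)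
      have h4 := mor_young (s * ‖A‖) T (by positivity) hT
      have h5 : k s = (s * ‖A‖) ^ 8 := by simp only [hk, hA]; ring
      rw [h5]
      calc A ((4 * s ^ 3) • (z - x)) ≤ ‖A‖ * (4 * s * D) :=
            le_trans h1 (mul_le_mul_of_nonneg_left h2 (norm_nonneg _))
        _ = 4 * D * (s * ‖A‖) := by ring
        _ ≤ _ := mul_le_mul_of_nonneg_left h4 (by positivity))
  have hI : ∫ s in (0 : ℝ)..1, 4 * D * (T + (T ^ 7)⁻¹ * k s) =
      4 * D * (T + (T ^ 7)⁻¹ * ∫ s in Icc (0 : ℝ) 1, k s) := by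
    rw [intervalIntegral.integral_of_le zero_le_one, ← integral_Icc_eq_integral_Ioc,
      integral_const_mul, integral_add hTi (hki.const_mul _),
      integral_const_mul]
    simp
  rw [hI] at hmain
  simp only [one_pow, one_smul, add_sub_cancel, ne_eq, OfNat.ofNat_ne_zero, not_false_eq_true,
    zero_pow, zero_smul, add_zero] at hmain
  refine le_trans hmain (mul_le_mul_of_nonneg_left ?_ (by positivity))
  have := mul_le_mul_of_nonneg_left hkI (show 0 ≤ (T ^ 7)⁻¹ by positivity)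
  linarith

theorem mor_point (f : E → ℝ) (x : E) (η τ : ℝ)
    (hτ : ENNReal.ofReal τ < ENNReal.ofReal η * volume (Metric.ball (0 : E) 1))
    (hI : ∫⁻ z, ENNReal.ofReal (‖fderiv ℝ f z‖ ^ 8) ≤ ENNReal.ofReal τ) :
    ∃ z : E, ‖z‖ ≤ 1 ∧ ∫⁻ s in Icc (0 : ℝ) 1, ENNReal.ofReal (s ^ 8) *
      ENNReal.ofReal (‖fderiv ℝ f (x + s ^ 4 • (z - x))‖ ^ 8) ≤ ENNReal.ofReal η := by
  by_contra hcon
  push Not at hcon
  set G : E → ℝ≥0∞ := fun z => ENNReal.ofReal (‖fderiv ℝ f z‖ ^ 8) with hG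
  have hGm : Measurable G := ((mor_meas f).pow_const 8).ennreal_ofReal
  have hF : Measurable (Function.uncurry fun (z : E) (s : ℝ) =>
      ENNReal.ofReal (s ^ 8) * G (x + s ^ 4 • (z - x))) := by
    have h1 : Measurable fun p : E × ℝ => ENNReal.ofReal (p.2 ^ 8) :=
      (measurable_snd.pow_const 8).ennreal_ofReal
    have h2 : Measurable fun p : E × ℝ => G (x + p.2 ^ 4 • (p.1 - x)) := hGm.comp (by fun_prop)
    exact h1.mul h2
  have h1 : ENNReal.ofReal η * volume (Metric.ball (0 : E) 1) ≤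
      ∫⁻ z in Metric.ball (0 : E) 1, ∫⁻ s in Icc (0 : ℝ) 1,
        ENNReal.ofReal (s ^ 8) * G (x + s ^ 4 • (z - x)) := by
    rw [← setLIntegral_const]
    refine setLIntegral_mono' measurableSet_ball fun z hz => (hcon z ?_).le
    exact (by simpa using hz : ‖z‖ < 1).le
  have h2 : ∫⁻ z in Metric.ball (0 : E) 1, ∫⁻ s in Icc (0 : ℝ) 1,
        ENNReal.ofReal (s ^ 8) * G (x + s ^ 4 • (z - x)) ≤ ∫⁻ z, G z := by
    refine le_trans (setLIntegral_le_lintegral _ _) ?_
    rw [lintegral_lintegral_swap hF.aemeasurable]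
    refine le_trans (lintegral_mono fun s => mor_scale G hGm x s) ?_
    simp
  exact absurd (lt_of_lt_of_le hτ (h1.trans (h2.trans hI))) (lt_irrefl _)

theorem morrey : MORREY := by
  intro R δ hδ
  set D : ℝ := |R| + 1 with hD
  have hD0 : 0 < D := by positivity
  set T : ℝ := δ / (8 * D) with hT
  have hT0 : 0 < T := by positivity
  set η : ℝ := T ^ 8 with hη
  have hη0 : 0 < η := by positivity
  have hB0 : 0 < volume (Metric.ball (0 : E) 1) := Metric.measure_ball_pos _ _ one_pos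
  have hB1 : volume (Metric.ball (0 : E) 1) ≠ ⊤ := measure_ball_lt_top.ne
  set b : ℝ := (volume (Metric.ball (0 : E) 1)).toReal with hb
  have hb0 : 0 < b := ENNReal.toReal_pos hB0.ne' hB1
  refine ⟨η * b / 2, by positivity, ?_⟩
  intro f hf h0 hi hτ x hx
  have hI := mor_total f hf h0 hi _ hτ
  have hlt : ENNReal.ofReal (η * b / 2) < ENNReal.ofReal η * volume (Metric.ball (0 : E) 1) := by
    rw [← ENNReal.ofReal_toReal hB1, ← hb, ← ENNReal.ofReal_mul hη0.le]
    rw [ENNReal.ofReal_lt_ofReal_iff (by positivity)]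
    have : 0 < η * b := by positivity
    linarith
  obtain ⟨z, hz, hz2⟩ := mor_point f x η _ hlt hI
  have hzx : ‖z - x‖ ≤ D := by
    have h1 := norm_sub_le z x
    have h2 := le_abs_self R
    linarith
  have hval : 4 * D * (T + (T ^ 7)⁻¹ * η) = δ := by
    have h1 : (T ^ 7)⁻¹ * η = T := by
      rw [hη]; field_simp
    rw [h1, hT]; field_simp; ring
  have h1 := mor_path f hf x z D T η hzx hT0 hη0.le hz2
  have h2 := mor_path (fun y => -f y) hf.neg x z D T η hzx hT0 hη0.le (by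
    simpa only [fderiv_fun_neg, norm_neg] using hz2)
  rw [hval] at h1 h2
  simp only [h0 z hz] at h1 h2
  rw [abs_le]
  constructor <;> linarith

end Pool.Agent.H949Z.Fu
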