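import Pool.Agent.H949Z.Fu.Stm

/-! The Pratt lemma along an approximating sequence. -/

set_option autoImplicit false

namespace Pool.Agent.H949Z.Fu

open MeasureTheory Filter Topology Set

theorem pra_gen {α : Type} [MeasurableSpace α] {μ : Measure α} (f r : ℕ → α → ℝ) (F G : α → ℝ)
    (hf : ∀ n, AEStronglyMeasurable (f n) μ) (hG : Integrable G μ) (hr : ∀ n, Integrable (r n) μ)
    (hr0 : ∀ n z, 0 ≤ r n z) (hb : ∀ n, ∀ᵐ z ∂μ, |f n z| ≤ G z + r n z)
    (hlim : ∀ᵐ z ∂μ, Tendsto (fun n => f n z) atTop (𝓝 (F z))) (hF : ∀ᵐ z ∂μ, |F z| ≤ G z)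
    (hrl : Tendsto (fun n => ∫ z, r n z ∂μ) atTop (𝓝 0)) :
    (∀ n, Integrable (f n) μ) ∧ Integrable F μ ∧
      Tendsto (fun n => ∫ z, f n z ∂μ) atTop (𝓝 (∫ z, F z ∂μ)) := by
  have i1 : ∀ n, Integrable (f n) μ := fun n =>
    Integrable.mono' (hG.add (hr n)) (hf n) (hb n)
  have mF : AEStronglyMeasurable F μ := aestronglyMeasurable_of_tendsto_ae atTop hf hlim
  refine ⟨i1, Integrable.mono' hG mF hF, ?_⟩
  let c : ℕ → α → ℝ := fun n z => max (-|G z|) (min (f n z) |G z|)
  have mG : AEStronglyMeasurable (fun z => |G z|) μ := hG.abs.1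
  have mc : ∀ n, AEStronglyMeasurable (c n) μ := fun n =>
    (mG.neg.aemeasurable.max ((hf n).aemeasurable.min mG.aemeasurable)).aestronglyMeasurable
  have bc : ∀ n, ∀ᵐ z ∂μ, ‖c n z‖ ≤ |G z| := fun n => Eventually.of_forall fun z => by
    rw [Real.norm_eq_abs, abs_le]
    have := abs_nonneg (G z)
    exact ⟨le_max_left _ _, max_le (by linarith) (min_le_right _ _)⟩
  have ic : ∀ n, Integrable (c n) μ := fun n => Integrable.mono' hG.abs (mc n) (bc n)
  have t1 : Tendsto (fun n => ∫ z, c n z ∂μ) atTop (𝓝 (∫ z, F z ∂μ)) := by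
    refine tendsto_integral_of_dominated_convergence (fun z => |G z|) mc hG.abs bc ?_
    filter_upwards [hlim, hF] with z h1 h2
    have h3 := (tendsto_const_nhds (x := -|G z|)).max (h1.min (tendsto_const_nhds (x := |G z|)))
    have h4 := abs_le.1 (h2.trans (le_abs_self _))
    rwa [min_eq_left h4.2, max_eq_right h4.1] at h3
  have t2 : Tendsto (fun n => ∫ z, (f n z - c n z) ∂μ) atTop (𝓝 0) := by
    refine squeeze_zero_norm (fun n => ?_) hrl
    refine norm_integral_le_of_norm_le (hr n) ?_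
    filter_upwards [hb n] with z h1
    have h2 := hr0 n z
    have h3 := le_abs_self (G z)
    have h4 := abs_le.1 h1
    have h5 := abs_nonneg (G z)
    rw [Real.norm_eq_abs, abs_le]
    simp only [c, max_def, min_def]
    split_ifs <;> constructor <;> linarith [h4.1, h4.2]
  have t3 := t1.add t2
  rw [add_zero] at t3
  refine t3.congr fun n => ?_
  rw [integral_sub (i1 n) (ic n)]
  ring

theorem pra_pow (a b : E) : ‖a‖ ^ 8 ≤ 128 * ‖b‖ ^ 8 + 128 * ‖a - b‖ ^ 8 := by
  have h1 : ‖a‖ ≤ ‖b‖ + ‖a - b‖ := by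
    simpa using norm_add_le b (a - b)
  have h2 := add_pow_le (norm_nonneg b) (norm_nonneg (a - b)) 8
  have h3 := pow_le_pow_left₀ (norm_nonneg a) h1 8
  norm_num at h2
  linarith

theorem pra_meas (f : E → ℝ) : Measurable (gradient f) :=
  (InnerProductSpace.toDual ℝ E).symm.continuous.measurable.comp (measurable_fderiv ℝ f)

theorem pratt : PRATT := by
  intro h0 lo hi hs h η A N k C hk hN hc hb
  have hOm : MeasurableSet Om := (isOpen_lt continuous_const continuous_norm).measurableSet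
  have hb' : ∀ z ∈ Om, ∀ a ∈ Icc lo hi, ∀ ξ : E, |N z a ξ| ≤ k z + |C| * ‖ξ‖ ^ 8 := by
    intro z hz a ha ξ
    have := hb z hz a ha ξ
    have h2 : C * ‖ξ‖ ^ 8 ≤ |C| * ‖ξ‖ ^ 8 :=
      mul_le_mul_of_nonneg_right (le_abs_self C) (by positivity)
    linarith
  have hC := abs_nonneg C
  have ir : ∀ n, IntegrableOn (fun z => ‖gradient (hs n) z - η z‖ ^ 8) Om := by
    intro n
    refine Integrable.mono' (((A.int n).const_mul 128).add (A.inte.const_mul 128))
      ((((pra_meas (hs n)).aestronglyMeasurable.sub A.meas).norm).pow 8) ?_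
    refine Eventually.of_forall fun z => ?_
    have := pra_pow (gradient (hs n) z - η z) (gradient (hs n) z)
    rw [sub_sub_cancel_left, norm_neg] at this
    rw [Real.norm_eq_abs, abs_of_nonneg (by positivity)]
    exact this
  refine pra_gen (μ := volume.restrict Om) (fun n z => N z (hs n z) (gradient (hs n) z))
    (fun n z => 128 * |C| * ‖gradient (hs n) z - η z‖ ^ 8) (fun z => N z (h z) (η z))
    (fun z => k z + 128 * |C| * ‖η z‖ ^ 8) hN (Integrable.add hk (A.inte.const_mul (128 * |C|)))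
    (fun n => (ir n).const_mul _) (fun n z => by positivity) (fun n => ?_) ?_ ?_ ?_
  · filter_upwards [ae_restrict_mem hOm] with z hz
    have h1 := hb' z hz (hs n z) ⟨A.lo n z, A.hi n z⟩ (gradient (hs n) z)
    have h2 := mul_le_mul_of_nonneg_left (pra_pow (gradient (hs n) z) (η z)) hC
    linarith
  · filter_upwards [ae_restrict_mem hOm, A.ae] with z hz h1
    exact ((hc z hz).tendsto (h z, η z)).comp ((A.lim z).prodMk_nhds h1)
  · filter_upwards [ae_restrict_mem hOm] with z hz
    have h1 := hb' z hz (h z) ⟨ge_of_tendsto' (A.lim z) fun n => A.lo n z,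
      le_of_tendsto' (A.lim z) fun n => A.hi n z⟩ (η z)
    have h2 : 0 ≤ |C| * ‖η z‖ ^ 8 := by positivity
    linarith
  · have := A.l8.const_mul (128 * |C|)
    rw [mul_zero] at this
    refine this.congr fun n => ?_
    rw [integral_const_mul]

end Pool.Agent.H949Z.Fu
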