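import Pool.Agent.H949Z.Fu.Stm

/-! The function `v e^h` is a weak solution in the sense of the frozen statement. -/

set_option autoImplicit false

namespace Pool.Agent.H949Z.Fu

open MeasureTheory Filter Topology Set

theorem sol_open : IsOpen Om := isOpen_lt continuous_const continuous_norm

theorem sol_ne {z : E} (hz : z ∈ Om) : z ∈ {z : E | z ≠ 0} := by
  intro h
  have : (1 : ℝ) < ‖z‖ := hz
  rw [h, norm_zero] at this
  linarith

theorem sol_grad_meas (f : E → ℝ) : Measurable (gradient f) :=
  (InnerProductSpace.toDual ℝ E).symm.continuous.measurable.comp (measurable_fderiv ℝ f)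

theorem sol_grad_cont {φ : E → ℝ} (hφ : ContDiff ℝ (⊤ : ℕ∞) φ) : Continuous (gradient φ) :=
  (InnerProductSpace.toDual ℝ E).symm.continuous.comp (hφ.continuous_fderiv (by simp))

theorem sol_ev {φ : E → ℝ} {z : E} (hz : z ∉ tsupport φ) : φ =ᶠ[𝓝 z] fun _ => 0 :=
  notMem_tsupport_iff_eventuallyEq.1 hz

theorem sol_grad_zero {φ : E → ℝ} {z : E} (hz : z ∉ tsupport φ) : gradient φ z = 0 := by
  rw [(sol_ev hz).gradient_eq, gradient_fun_const]

theorem sol_grad_supp {φ : E → ℝ} (hc : HasCompactSupport φ) : HasCompactSupport (gradient φ) :=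
  HasCompactSupport.intro hc fun _ hz => sol_grad_zero hz

theorem sol_le_pow (t : ℝ) (ht : 0 ≤ t) : t ≤ 1 + t ^ 8 := by
  rcases le_total t 1 with h | h
  · have : 0 ≤ t ^ 8 := by positivity
    linarith
  · have : t ≤ t ^ 8 := le_self_pow₀ h (by norm_num)
    linarith

theorem sol_loc {F : Type} [NormedAddCommGroup F] {f : E → F} {η : E → E}
    (hη : IntegrableOn (fun z => ‖η z‖ ^ 8) Om) (hf : AEStronglyMeasurable f (volume.restrict Om))
    (A B : ℝ) (hb : ∀ z ∈ Om, ‖f z‖ ≤ A + B * ‖η z‖ ^ 8) : LocallyIntegrableOn f Om := by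
  rw [locallyIntegrableOn_iff sol_open.isLocallyClosed]
  intro k hk hkc
  have h1 : IntegrableOn (fun z => A + B * ‖η z‖ ^ 8) k :=
    (integrableOn_const hkc.measure_lt_top.ne).add ((hη.mono_set hk).const_mul B)
  refine h1.mono' (hf.mono_measure (Measure.restrict_mono hk le_rfl)) ?_
  filter_upwards [ae_restrict_mem hkc.measurableSet] with z hz using hb z (hk hz)

theorem sol_lg {v : E → ℝ} {C : ℝ} (hv : Reg {z | z ≠ 0} v C) {z : E} (hz : z ∈ Om) :
    ‖lg v z‖ ≤ 2 * |C| := by
  have h1 := hv.lo z (sol_ne hz)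
  have h2 := hv.grad z (sol_ne hz)
  have h3 : (1 : ℝ) < ‖z‖ := hz
  have h4 : C / ‖z‖ ≤ |C| := by
    rw [div_le_iff₀ (by linarith)]
    nlinarith [le_abs_self C, abs_nonneg C]
  have h5 : (v z)⁻¹ ≤ 2 := by
    rw [inv_le_comm₀ (by linarith) (by norm_num)]; linarith
  rw [lg, norm_smul, Real.norm_eq_abs, abs_of_pos (inv_pos.2 (by linarith))]
  exact mul_le_mul h5 (h2.trans h4) (norm_nonneg _) (by norm_num)

theorem sol (hP : PRATT) : SOL := by
  intro v C hv h0 lo hi hs h η hA hS
  have hOm : MeasurableSet Om := sol_open.measurableSet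
  have hvc : ContinuousOn v Om := fun z hz =>
    (hv.diff z (sol_ne hz)).continuousAt.continuousWithinAt
  have hv0 : ∀ z ∈ Om, 0 < v z := fun z hz => by linarith [hv.lo z (sol_ne hz)]
  have huc : ContinuousOn (fun z => v z * Real.exp (h z)) Om :=
    hvc.mul (Real.continuous_exp.comp hA.cont).continuousOn
  have hhi : ∀ z, h z ≤ hi := fun z => le_of_tendsto' (hA.lim z) fun n => hA.hi n z
  set M := 2 * Real.exp hi with hM
  have hM0 : 0 < M := by positivity
  have hue : ∀ z ∈ Om, ∀ a, a ≤ hi → |v z * Real.exp a| ≤ M := by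
    intro z hz a ha
    rw [abs_of_pos (mul_pos (hv0 z hz) (Real.exp_pos _))]
    exact mul_le_mul (hv.hi z (sol_ne hz)) (Real.exp_le_exp.2 ha) (Real.exp_pos _).le (by norm_num)
  let g0 : E → E := fun z => (v z * Real.exp (h z)) • (lg v z + η z)
  have hum : AEStronglyMeasurable (fun z => v z * Real.exp (h z)) (volume.restrict Om) :=
    huc.aestronglyMeasurable hOm
  have hlgm : AEStronglyMeasurable (lg v) (volume.restrict Om) :=
    ((hvc.inv₀ fun z hz => (hv0 z hz).ne').aestronglyMeasurable hOm).smul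
      (sol_grad_meas v).aestronglyMeasurable
  have hg0m : AEStronglyMeasurable g0 (volume.restrict Om) := hum.smul (hlgm.add hA.meas)
  have hgm : AEStronglyMeasurable (Om.indicator g0) (volume.restrict Om) := hg0m.indicator hOm
  have hgb : ∀ z ∈ Om, ∀ a, a ≤ hi → ∀ ξ : E,
      ‖(v z * Real.exp a) • (lg v z + ξ)‖ ≤ M * (2 * |C| + ‖ξ‖) := by
    intro z hz a ha ξ
    rw [norm_smul, Real.norm_eq_abs]
    exact mul_le_mul (hue z hz a ha) ((norm_add_le _ _).trans (by linarith [sol_lg hv hz]))
      (norm_nonneg _) hM0.le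
  refine ⟨huc, fun z hz => mul_pos (hv0 z hz) (Real.exp_pos _), Om.indicator g0, ?_, ?_, ?_⟩
  · refine sol_loc hA.inte hgm (M * (2 * |C| + 1)) M fun z hz => ?_
    rw [indicator_of_mem hz]
    have := hgb z hz _ (hhi z) (η z)
    have h2 := sol_le_pow _ (norm_nonneg (η z))
    nlinarith
  · have e : (fun x => ‖Om.indicator g0 x‖ ^ (8 : ℝ)) = fun x => ‖Om.indicator g0 x‖ ^ 8 := by
      ext x
      rw [← Real.rpow_natCast]; norm_num
    rw [e]
    refine sol_loc hA.inte (hgm.norm.pow 8) (M ^ 8 * 2 ^ 7 * (2 * |C|) ^ 8) (M ^ 8 * 2 ^ 7)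
      fun z hz => ?_
    rw [indicator_of_mem hz, norm_pow, norm_norm]
    have h1 := pow_le_pow_left₀ (norm_nonneg _) (hgb z hz _ (hhi z) (η z)) 8
    have h2 := add_pow_le (a := 2 * |C|) (b := ‖η z‖) (by positivity) (norm_nonneg _) 8
    rw [mul_pow] at h1
    calc _ ≤ M ^ 8 * (2 * |C| + ‖η z‖) ^ 8 := h1
      _ ≤ M ^ 8 * (2 ^ (8 - 1) * ((2 * |C|) ^ 8 + ‖η z‖ ^ 8)) := by gcongr
      _ = _ := by ring
  intro φ hφ hc hsub
  have hφd : Differentiable ℝ φ := hφ.differentiable (by simp)
  have hns : ∀ z, z ∉ Om → z ∉ tsupport φ := fun z hz hz' => hz (hsub hz')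
  obtain ⟨B, hB⟩ := hφ.continuous.bounded_above_of_compact_support hc
  have hB0 : 0 ≤ B := (norm_nonneg _).trans (hB 0)
  have hgi : Integrable (fun z => ‖gradient φ z‖) :=
    ((sol_grad_cont hφ).integrable_of_hasCompactSupport (sol_grad_supp hc)).norm
  have hφi : Integrable (fun z => |φ z|) := (hφ.continuous.integrable_of_hasCompactSupport hc).abs
  constructor
  · have i1 : Integrable (fun x => (v x * Real.exp (h x)) • gradient φ x) := by
      refine IntegrableOn.integrable_of_forall_notMem_eq_zero (s := Om) ?_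
        (fun z hz => by rw [sol_grad_zero (hns z hz), smul_zero])
      refine (hgi.const_mul M).integrableOn.mono'
        (hum.smul (sol_grad_cont hφ).aestronglyMeasurable) ?_
      filter_upwards [ae_restrict_mem hOm] with z hz
      rw [norm_smul, Real.norm_eq_abs]
      exact mul_le_mul_of_nonneg_right (hue z hz _ (hhi z)) (norm_nonneg _)
    have hpb : ∀ z ∈ Om, ∀ a, a ≤ hi → ∀ ξ : E, ‖φ z • ((v z * Real.exp a) • (lg v z + ξ))‖ ≤
        M * (2 * |C| + 1) * |φ z| + M * B * ‖ξ‖ ^ 8 := by
      intro z hz a ha ξ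
      rw [norm_smul, Real.norm_eq_abs]
      have h1 := hgb z hz a ha ξ
      have h2 := sol_le_pow _ (norm_nonneg ξ)
      have h3 : |φ z| ≤ B := hB z
      have h4 := abs_nonneg (φ z)
      have h5 : 0 ≤ ‖ξ‖ ^ 8 := by positivity
      calc _ ≤ |φ z| * (M * (2 * |C| + (1 + ‖ξ‖ ^ 8))) := by
            gcongr; exact h1.trans (by gcongr)
        _ = M * (2 * |C| + 1) * |φ z| + M * |φ z| * ‖ξ‖ ^ 8 := by ring
        _ ≤ _ := by gcongr
    have i2 : Integrable (fun x => φ x • Om.indicator g0 x) := by
      refine IntegrableOn.integrable_of_forall_notMem_eq_zero (s := Om) ?_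
        (fun z hz => by rw [indicator_of_notMem hz, smul_zero])
      refine ((hφi.const_mul (M * (2 * |C| + 1))).integrableOn.add
        (hA.inte.const_mul (M * B))).mono' (hφ.continuous.aestronglyMeasurable.smul hgm) ?_
      filter_upwards [ae_restrict_mem hOm] with z hz
      rw [indicator_of_mem hz]
      exact hpb z hz _ (hhi z) _
    rw [eq_neg_iff_add_eq_zero, ← integral_add i1 i2]
    refine ext_inner_left ℝ fun w => ?_
    have i3 : Integrable (fun x => (v x * Real.exp (h x)) • gradient φ x +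
      φ x • Om.indicator g0 x) := i1.add i2
    rw [inner_zero_right, ← integral_inner i3]
    let N : E → ℝ → E → ℝ := fun z a ξ => inner ℝ w ((v z * Real.exp a) • gradient φ z +
      φ z • ((v z * Real.exp a) • (lg v z + ξ)))
    let F : ℕ → E → ℝ := fun n z => φ z * (v z * Real.exp (hs n z))
    have hF0 : ∀ n z, z ∉ tsupport φ → F n =ᶠ[𝓝 z] fun _ => 0 := by
      intro n z hz
      filter_upwards [sol_ev hz] with y hy
      simp [F, hy]
    have hFd : ∀ n z, z ∈ Om → HasFDerivAt (F n) (φ z • (v z • (Real.exp (hs n z) •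
        fderiv ℝ (hs n) z) + Real.exp (hs n z) • fderiv ℝ v z) +
        (v z * Real.exp (hs n z)) • fderiv ℝ φ z) z := fun n z hz =>
      (hφd z).hasFDerivAt.mul ((hv.diff z (sol_ne hz)).hasFDerivAt.mul
        (hA.diff n z).hasFDerivAt.exp)
    have hFN : ∀ n z, z ∈ Om → fderiv ℝ (F n) z w = N z (hs n z) (gradient (hs n) z) := by
      intro n z hz
      rw [(hFd n z hz).fderiv]
      have := (hv0 z hz).ne'
      simp only [N, lg, inner_add_right, inner_smul_right, inner_gradient_right,
        ContinuousLinearMap.add_apply, ContinuousLinearMap.smul_apply, smul_eq_mul, conj_trivial]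
      field_simp
      ring
    have hFdiff : ∀ n, Differentiable ℝ (F n) := by
      intro n z
      by_cases hz : z ∈ Om
      · exact (hFd n z hz).differentiableAt
      · exact (differentiableAt_const _).congr_of_eventuallyEq (hF0 n z (hns z hz))
    have hF1 : ∀ n z, z ∉ Om → fderiv ℝ (F n) z w = 0 := by
      intro n z hz
      rw [(hF0 n z (hns z hz)).fderiv_eq]; simp
    obtain ⟨p1, -, p3⟩ := hP h0 lo hi hs h η hA N
      (fun z => ‖w‖ * (M * ‖gradient φ z‖ + M * (2 * |C| + 1) * |φ z|)) (‖w‖ * (M * B))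
      (((hgi.const_mul M).add (hφi.const_mul _)).const_mul _).integrableOn
      (fun n => by
        refine (measurable_fderiv_apply_const ℝ (F n) w).aestronglyMeasurable.congr ?_
        filter_upwards [ae_restrict_mem hOm] with z hz using hFN n z hz)
      (fun z _ => by simp only [N]; fun_prop)
      (fun z hz a ha ξ => by
        refine (abs_real_inner_le_norm _ _).trans ?_
        rw [mul_assoc ‖w‖ (M * B), ← mul_add]
        refine mul_le_mul_of_nonneg_left ((norm_add_le _ _).trans ?_) (norm_nonneg _)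
        have h1 := hpb z hz a ha.2 ξ
        have h2 : ‖(v z * Real.exp a) • gradient φ z‖ ≤ M * ‖gradient φ z‖ := by
          rw [norm_smul, Real.norm_eq_abs]
          exact mul_le_mul_of_nonneg_right (hue z hz _ ha.2) (norm_nonneg _)
        linarith)
    have hz : ∀ n, ∫ z in Om, N z (hs n z) (gradient (hs n) z) = 0 := by
      intro n
      have j1 : IntegrableOn (fun z => fderiv ℝ (F n) z w) Om :=
        (p1 n).congr_fun (fun z hz => (hFN n z hz).symm) hOm
      have j2 := j1.integrable_of_forall_notMem_eq_zero (hF1 n)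
      have j3 : Integrable (F n) := (hFdiff n).continuous.integrable_of_hasCompactSupport
        (hc.mul_right (f' := fun z => v z * Real.exp (hs n z)))
      have j4 := integral_mul_fderiv_eq_neg_fderiv_mul_of_integrable (μ := (volume : Measure E))
        (f := fun _ => (1 : ℝ)) (g := F n) (v := w) (by simp) (by simpa using j2)
        (by simpa using j3) (fun _ _ => differentiableAt_const _) (fun z _ => hFdiff n z)
      rw [← setIntegral_congr_fun hOm (fun z hz => hFN n z hz),
        setIntegral_eq_integral_of_forall_compl_eq_zero (hF1 n)]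
      simpa using j4
    simp only [hz] at p3
    have h5 := tendsto_nhds_unique p3 tendsto_const_nhds
    rw [← h5, ← setIntegral_eq_integral_of_forall_compl_eq_zero (s := Om)]
    · refine setIntegral_congr_fun hOm fun z hz => ?_
      simp only [N, g0, indicator_of_mem hz]
    · intro z hz
      simp [sol_grad_zero (hns z hz), indicator_of_notMem hz]
  · have hAdm : Adm φ := by
      refine ⟨hφd, fun z hz => image_eq_zero_of_notMem_tsupport (hns z (not_lt.2 hz)), ⟨B, hB⟩, ?_⟩
      exact (((sol_grad_cont hφ).norm.pow 8).integrable_of_hasCompactSupport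
        (HasCompactSupport.intro hc fun z hz => by simp [sol_grad_zero hz])).integrableOn
    rw [← hS φ hAdm, ← setIntegral_eq_integral_of_forall_compl_eq_zero (s := Om)]
    · refine setIntegral_congr_fun hOm fun z hz => ?_
      have hu : 0 < v z * Real.exp (h z) := mul_pos (hv0 z hz) (Real.exp_pos _)
      have e6 : (8 : ℝ) - 2 = ((6 : ℕ) : ℝ) := by norm_num
      have e7 : (8 : ℝ) - 1 = ((7 : ℕ) : ℝ) := by norm_num
      simp only [indicator_of_mem hz, g0, e6, e7, Real.rpow_natCast, ph, norm_smul,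
        Real.norm_eq_abs, abs_of_pos hu, inner_smul_left, conj_trivial]
      ring
    · intro z hz
      simp [indicator_of_notMem hz]

end Pool.Agent.H949Z.Fu
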