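import Pool.Agent.H949Z.Fu.Star2

/-! From the Euler-Lagrange equation to the weak equation. -/

set_option autoImplicit false

namespace Pool.Agent.H949Z.Fu

open MeasureTheory Filter Topology Set

theorem sta_h_mem {h0 : E → ℝ} {lo hi : ℝ} {hs : ℕ → E → ℝ} {h : E → ℝ} {η : E → E}
    (hA : Apx h0 lo hi hs h η) (z : E) : h z ∈ Icc lo hi :=
  isClosed_Icc.mem_of_tendsto (hA.lim z) (Eventually.of_forall fun n => ⟨hA.lo n z, hA.hi n z⟩)

/-- integrand of the Euler-Lagrange equation tested with `sta_psi` -/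
noncomputable def sta_N1 (v h ζ : E → ℝ) (η : E → E) (z : E) (a : ℝ) (g : E) : ℝ :=
  v z ^ 8 * Real.exp (8 * h z) *
    (ζ z * ((v z)⁻¹ * Real.exp (-1 * a)) * Lb (lg v z + η z) (lg v z) +
      inner ℝ (ph (lg v z + η z) - ph (lg v z))
        (((v z)⁻¹ * Real.exp (-1 * a)) • (gradient ζ z - ζ z • (lg v z + g))))

/-- integrand of the integration by parts tested with `sta_phi` -/
noncomputable def sta_N2 (v ζ : E → ℝ) (z : E) (a : ℝ) (g : E) : ℝ :=
  inner ℝ (flux v z) (Real.exp (7 * a) • (gradient ζ z + (7 * ζ z) • g)) +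
    dvg (flux v) z * (ζ z * Real.exp (7 * a))

theorem sta_bound {P : ℝ} {K : ℝ} (hK : 0 ≤ K) {a b c d : ℝ} (ha : 0 ≤ a) (hb : 0 ≤ b)
    (hc : 0 ≤ c) (hd : 0 ≤ d)
    (h : ∀ M : ℝ, 0 ≤ M → a ≤ M → b ≤ M → c ≤ M → d ≤ M → P ≤ K * M ^ 8) :
    P ≤ K * (a ^ 8 + b ^ 8 + c ^ 8) + K * d ^ 8 := by
  obtain ⟨M, hM, h1, h2, h3, h4, h5⟩ := sta_max a b c d ha hb hc hd
  refine (h M hM h1 h2 h3 h4).trans ?_
  rw [← mul_add]
  exact mul_le_mul_of_nonneg_left h5 hK

theorem sta_N1_meas {v : E → ℝ} {C : ℝ} (hv : Reg {z | z ≠ 0} v C)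
    {h0 : E → ℝ} {lo hi : ℝ} {hs : ℕ → E → ℝ} {h : E → ℝ} {η : E → E}
    (hA : Apx h0 lo hi hs h η) {ζ : E → ℝ} (hζ : Adm ζ) (n : ℕ) :
    AEStronglyMeasurable (fun z => sta_N1 v h ζ η z (hs n z) (gradient (hs n) z))
      (volume.restrict Om) := by
  have mv := sta_v_aesm hv
  have mvi := sta_vinv_aesm hv
  have mlg := sta_lg_aesm hv
  have mη := hA.meas
  have mζ : AEStronglyMeasurable ζ (volume.restrict Om) := hζ.diff.continuous.aestronglyMeasurable
  have mgζ := sta_grad_aesm ζ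
  have m0 : AEStronglyMeasurable (fun z => lg v z + η z) (volume.restrict Om) := mlg.add mη
  have m1 : AEStronglyMeasurable (fun z => Real.exp (-1 * hs n z)) (volume.restrict Om) :=
    (Real.continuous_exp.comp (continuous_const.mul (hA.diff n).continuous)).aestronglyMeasurable
  have m2 : AEStronglyMeasurable (fun z => Real.exp (8 * h z)) (volume.restrict Om) :=
    (Real.continuous_exp.comp (continuous_const.mul hA.cont)).aestronglyMeasurable
  have m3 : AEStronglyMeasurable (fun z => Lb (lg v z + η z) (lg v z)) (volume.restrict Om) :=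
    sta_Lb_cont.comp_aestronglyMeasurable (f := fun z => (lg v z + η z, lg v z)) (m0.prodMk mlg)
  have m4 : AEStronglyMeasurable (fun z => ph (lg v z + η z) - ph (lg v z))
      (volume.restrict Om) :=
    (sta_ph_cont.comp_aestronglyMeasurable m0).sub (sta_ph_cont.comp_aestronglyMeasurable mlg)
  have m5 : AEStronglyMeasurable (fun z => (v z)⁻¹ * Real.exp (-1 * hs n z))
      (volume.restrict Om) := mvi.mul m1
  have m6 : AEStronglyMeasurable
      (fun z => gradient ζ z - ζ z • (lg v z + gradient (hs n) z)) (volume.restrict Om) :=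
    mgζ.sub (mζ.smul (mlg.add (sta_grad_aesm (hs n))))
  have m7 : AEStronglyMeasurable (fun z => ((v z)⁻¹ * Real.exp (-1 * hs n z)) •
      (gradient ζ z - ζ z • (lg v z + gradient (hs n) z))) (volume.restrict Om) := m5.smul m6
  have m8 : AEStronglyMeasurable (fun z => v z ^ 8 * Real.exp (8 * h z))
      (volume.restrict Om) := (mv.pow 8).mul m2
  have m9 : AEStronglyMeasurable (fun z => ζ z * ((v z)⁻¹ * Real.exp (-1 * hs n z)) *
      Lb (lg v z + η z) (lg v z)) (volume.restrict Om) := (mζ.mul m5).mul m3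
  unfold sta_N1
  exact m8.mul (m9.add (m4.inner m7))

theorem sta_N1_cont (v h ζ : E → ℝ) (η : E → E) (z : E) :
    Continuous (fun p : ℝ × E => sta_N1 v h ζ η z p.1 p.2) := by
  unfold sta_N1
  generalize Lb (lg v z + η z) (lg v z) = L
  generalize ph (lg v z + η z) - ph (lg v z) = P
  generalize gradient ζ z = G
  generalize lg v z = β
  fun_prop

theorem sta_N1_le {v : E → ℝ} {C : ℝ} (hv : Reg {z | z ≠ 0} v C)
    {h0 : E → ℝ} {lo hi : ℝ} {hs : ℕ → E → ℝ} {h : E → ℝ} {η : E → E}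
    (hA : Apx h0 lo hi hs h η) {ζ : E → ℝ} {B : ℝ} (hB : ∀ z, |ζ z| ≤ B) {z : E} (hz : z ∈ Om)
    {a : ℝ} (ha : a ∈ Icc lo hi) (g : E) {M : ℝ} (_hM : 0 ≤ M) (h1 : 2 * |C| * ‖z‖⁻¹ ≤ M)
    (h2 : ‖η z‖ ≤ M) (h3 : ‖gradient ζ z‖ ≤ M) (h4 : ‖g‖ ≤ M) :
    |sta_N1 v h ζ η z a g| ≤ 2 ^ 8 * Real.exp (8 * hi) * (B * (2 * Real.exp (-lo)) * 265 +
      129 * (2 * Real.exp (-lo) * (1 + B * 2))) * M ^ 8 := by
  have hB0 : 0 ≤ B := (abs_nonneg _).trans (hB 0)
  have hz0 : z ≠ 0 := sta_ne hz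
  have hβ : ‖lg v z‖ ≤ M := (sta_lg_le hv hz0).trans h1
  obtain ⟨i1, i2⟩ := sta_vinv_le hv hz0
  have hw : |(v z)⁻¹ * Real.exp (-1 * a)| ≤ 2 * Real.exp (-lo) := by
    rw [abs_of_pos (by positivity)]
    exact mul_le_mul i2 (Real.exp_le_exp.2 (by linarith [ha.1])) (by positivity)
      (by norm_num)
  have hv0 : 0 < v z := by linarith [hv.lo z hz0]
  have b1 : |v z ^ 8 * Real.exp (8 * h z)| ≤ 2 ^ 8 * Real.exp (8 * hi) := by
    rw [abs_of_pos (by positivity)]
    exact mul_le_mul (pow_le_pow_left₀ hv0.le (hv.hi z hz0) 8)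
      (Real.exp_le_exp.2 (by linarith [(sta_h_mem hA z).2])) (by positivity) (by positivity)
  have b2 : |ζ z * ((v z)⁻¹ * Real.exp (-1 * a)) * Lb (lg v z + η z) (lg v z)| ≤
      B * (2 * Real.exp (-lo)) * (265 * M ^ 8) := by
    rw [abs_mul, abs_mul]
    exact mul_le_mul (mul_le_mul (hB z) hw (abs_nonneg _) hB0) (sta_Lb_le hβ h2)
      (abs_nonneg _) (by positivity)
  have b3 : ‖ph (lg v z + η z) - ph (lg v z)‖ ≤ 129 * M ^ 7 := by
    refine (norm_sub_le _ _).trans ?_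
    rw [sta_ph_norm, sta_ph_norm]
    have c1 : ‖lg v z + η z‖ ^ 7 ≤ (2 * M) ^ 7 :=
      pow_le_pow_left₀ (norm_nonneg _) ((norm_add_le _ _).trans (by linarith)) 7
    have c2 : ‖lg v z‖ ^ 7 ≤ M ^ 7 := pow_le_pow_left₀ (norm_nonneg _) hβ 7
    have c3 : (2 * M) ^ 7 = 128 * M ^ 7 := by ring
    linarith
  have b4 : ‖((v z)⁻¹ * Real.exp (-1 * a)) • (gradient ζ z - ζ z • (lg v z + g))‖ ≤
      2 * Real.exp (-lo) * ((1 + B * 2) * M) := by
    rw [norm_smul, Real.norm_eq_abs]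
    refine mul_le_mul hw ?_ (norm_nonneg _) (by positivity)
    refine (norm_sub_le _ _).trans ?_
    rw [norm_smul, Real.norm_eq_abs]
    have c1 : ‖lg v z + g‖ ≤ 2 * M := (norm_add_le _ _).trans (by linarith)
    have c2 := mul_le_mul (hB z) c1 (norm_nonneg _) hB0
    linarith
  have b5 := sta_inner_le b3 b4
  unfold sta_N1
  rw [abs_mul]
  refine (mul_le_mul b1 ((abs_add_le _ _).trans (add_le_add b2 b5)) (abs_nonneg _)
    (by positivity)).trans (le_of_eq ?_)
  ring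

theorem sta_lim1 (hP : PRATT) {v : E → ℝ} {C : ℝ} (hv : Reg {z | z ≠ 0} v C)
    {h0 : E → ℝ} {lo hi : ℝ} {hs : ℕ → E → ℝ} {h : E → ℝ} {η : E → E}
    (hA : Apx h0 lo hi hs h η) (hE : EL v h η) {ζ : E → ℝ} (hζ : Adm ζ) :
    IntegrableOn (fun z => sta_N1 v h ζ η z (h z) (η z)) Om ∧
      ∫ z in Om, sta_N1 v h ζ η z (h z) (η z) = 0 := by
  obtain ⟨B, hB⟩ := hζ.bdd
  have hB0 : 0 ≤ B := (abs_nonneg _).trans (hB 0)
  obtain ⟨K, hK⟩ : ∃ K : ℝ, K = 2 ^ 8 * Real.exp (8 * hi) * (B * (2 * Real.exp (-lo)) * 265 +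
    129 * (2 * Real.exp (-lo) * (1 + B * 2))) := ⟨_, rfl⟩
  have hK0 : 0 ≤ K := by rw [hK]; positivity
  have hk : IntegrableOn
      (fun z : E => K * ((2 * |C| * ‖z‖⁻¹) ^ 8 + ‖η z‖ ^ 8 + ‖gradient ζ z‖ ^ 8)) Om := by
    refine Integrable.const_mul (Integrable.add (Integrable.add ?_ hA.inte) hζ.int) K
    simp only [mul_pow]
    exact sta_inv8.const_mul _
  obtain ⟨-, h2, h3⟩ := hP h0 lo hi hs h η hA (sta_N1 v h ζ η) _ K hk
    (sta_N1_meas hv hA hζ) (fun z _ => sta_N1_cont v h ζ η z)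
    (fun z hz a ha g => by
      refine sta_bound hK0 (by positivity) (norm_nonneg _) (norm_nonneg _) (norm_nonneg _)
        fun M hM h1 h2 h3 h4 => ?_
      rw [hK]
      exact sta_N1_le hv hA hB hz ha g hM h1 h2 h3 h4)
  refine ⟨h2, ?_⟩
  have h4 : ∀ n, ∫ z in Om, sta_N1 v h ζ η z (hs n z) (gradient (hs n) z) = 0 := by
    intro n
    rw [← hE _ (sta_psi_adm hv hζ (hA.diff n) (hA.lo n) (hA.int n))]
    refine setIntegral_congr_fun sta_Om_meas fun z hz => ?_
    have hz0 : z ≠ 0 := sta_ne hz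
    have hv0 : 0 < v z := by linarith [hv.lo z hz0]
    beta_reduce
    rw [sta_psi_grad (hv.diff z hz0) hv0.ne' (hζ.diff z) (hA.diff n z)]
    unfold sta_N1 sta_psi
    rfl
  simp only [h4] at h3
  exact (tendsto_nhds_unique tendsto_const_nhds h3).symm

theorem sta_lim2 (hI : IBP) (hP : PRATT) {v : E → ℝ} {C : ℝ} (hv : Reg {z | z ≠ 0} v C)
    {h0 : E → ℝ} {lo hi : ℝ} {hs : ℕ → E → ℝ} {h : E → ℝ} {η : E → E}
    (hA : Apx h0 lo hi hs h η) {ζ : E → ℝ} (hζ : Adm ζ) :
    IntegrableOn (fun z => sta_N2 v ζ z (h z) (η z)) Om ∧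
      ∫ z in Om, sta_N2 v ζ z (h z) (η z) = 0 := by
  obtain ⟨B, hB⟩ := hζ.bdd
  have hB0 : 0 ≤ B := (abs_nonneg _).trans (hB 0)
  set K : ℝ := |C| ^ 7 * (Real.exp (7 * hi) * (1 + 7 * B)) +
    2 * |C| * (B * Real.exp (7 * hi)) with hK
  have hK0 : 0 ≤ K := by positivity
  have hk : IntegrableOn
      (fun z : E => K * ((‖z‖⁻¹) ^ 8 + ‖η z‖ ^ 8 + ‖gradient ζ z‖ ^ 8)) Om :=
    Integrable.const_mul (Integrable.add (Integrable.add sta_inv8 hA.inte) hζ.int) K
  have mζ : AEStronglyMeasurable ζ (volume.restrict Om) := hζ.diff.continuous.aestronglyMeasurable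
  have mgζ := sta_grad_aesm ζ
  obtain ⟨-, h2, h3⟩ := hP h0 lo hi hs h η hA (sta_N2 v ζ) _ K hk (fun n => by
      have m1 : AEStronglyMeasurable (fun z => Real.exp (7 * hs n z)) (volume.restrict Om) :=
        (Real.continuous_exp.comp (continuous_const.mul (hA.diff n).continuous)).aestronglyMeasurable
      have m2 : AEStronglyMeasurable (flux v) (volume.restrict Om) :=
        sta_ph_cont.comp_aestronglyMeasurable (sta_grad_aesm v)
      exact (m2.inner (m1.smul (mgζ.add ((mζ.const_mul 7).smul (sta_grad_aesm (hs n)))))).add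
        ((sta_dvg_meas _).aestronglyMeasurable.mul (mζ.mul m1)))
    (fun z _ => by unfold sta_N2; fun_prop)
    (fun z hz a ha g => by
      have hz0 : z ≠ 0 := sta_ne hz
      refine sta_bound hK0 (by positivity) (norm_nonneg _) (norm_nonneg _) (norm_nonneg _)
        fun M hM h1 h2 h3 h4 => ?_
      have hw : |Real.exp (7 * a)| ≤ Real.exp (7 * hi) := by
        rw [abs_of_pos (by positivity)]
        exact Real.exp_le_exp.2 (by linarith [ha.2])
      have b1 : ‖flux v z‖ ≤ |C| ^ 7 * M ^ 7 := by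
        unfold flux
        rw [sta_ph_norm, ← mul_pow]
        refine pow_le_pow_left₀ (norm_nonneg _) ((hv.grad z hz0).trans ?_) 7
        rw [div_eq_mul_inv]
        exact mul_le_mul (le_abs_self C) h1 (by positivity) (abs_nonneg _)
      have b2 : ‖Real.exp (7 * a) • (gradient ζ z + (7 * ζ z) • g)‖ ≤
          Real.exp (7 * hi) * ((1 + 7 * B) * M) := by
        rw [norm_smul, Real.norm_eq_abs]
        refine mul_le_mul hw ?_ (norm_nonneg _) (by positivity)
        refine (norm_add_le _ _).trans ?_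
        rw [norm_smul, Real.norm_eq_abs, abs_mul, abs_of_pos (by norm_num : (0 : ℝ) < 7)]
        have c2 := mul_le_mul (hB z) h4 (norm_nonneg _) hB0
        linarith
      have b3 := sta_inner_le b1 b2
      have b4 : |dvg (flux v) z| ≤ 2 * (|C| * M ^ 8) := by
        refine (sta_dvg_le _ _).trans (mul_le_mul_of_nonneg_left ((hv.fbd z hz0).trans ?_)
          (by norm_num))
        rw [div_eq_mul_inv, ← inv_pow]
        exact mul_le_mul (le_abs_self C) (pow_le_pow_left₀ (by positivity) h1 8) (by positivity)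
          (abs_nonneg _)
      have b5 : |dvg (flux v) z * (ζ z * Real.exp (7 * a))| ≤
          2 * (|C| * M ^ 8) * (B * Real.exp (7 * hi)) := by
        rw [abs_mul, abs_mul]
        exact mul_le_mul b4 (mul_le_mul (hB z) hw (abs_nonneg _) hB0) (by positivity)
          (by positivity)
      unfold sta_N2
      refine ((abs_add_le _ _).trans (add_le_add b3 b5)).trans (le_of_eq ?_)
      rw [hK]
      ring)
  refine ⟨h2, ?_⟩
  have h4 : ∀ n, ∫ z in Om, sta_N2 v ζ z (hs n z) (gradient (hs n) z) = 0 := by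
    intro n
    have hadm := sta_phi_adm hζ (hA.diff n) (hA.hi n) (hA.int n)
    have := (hI {z | z ≠ 0} {z | 1 ≤ ‖z‖} v C isOpen_ne
      (isClosed_le continuous_const continuous_norm) (fun z hz h => by
        have h1 : (1 : ℝ) ≤ ‖z‖ := hz
        rw [h, norm_zero] at h1
        linarith) hv _ hadm (fun z hz => hadm.zero z (not_le.1 hz).le)).2.2
    rw [← this]
    refine setIntegral_congr_fun sta_Om_meas fun z _ => ?_
    rw [sta_phi_grad (hζ.diff z) (hA.diff n z)]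
    rfl
  simp only [h4] at h3
  exact (tendsto_nhds_unique tendsto_const_nhds h3).symm

theorem sta_alg {v h ζ : E → ℝ} {η : E → E} {z : E} (hv0 : 0 < v z) :
    (v z * Real.exp (h z)) ^ 7 *
      (inner ℝ (ph (lg v z + η z)) (gradient ζ z) + pot v z * ζ z) =
    sta_N1 v h ζ η z (h z) (η z) + sta_N2 v ζ z (h z) (η z) := by
  have e1 : flux v z = v z ^ 7 • ph (lg v z) := by
    rw [← sta_ph_smul hv0.le]
    unfold flux lg
    rw [smul_smul, mul_inv_cancel₀ hv0.ne', one_smul]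
  have e2 : Real.exp (7 * h z) = Real.exp (h z) ^ 7 := by
    rw [← Real.exp_nat_mul]; norm_num
  have e3 : Real.exp (8 * h z) = Real.exp (h z) ^ 8 := by
    rw [← Real.exp_nat_mul]; norm_num
  have e4 : Real.exp (-1 * h z) = (Real.exp (h z))⁻¹ := by
    rw [← Real.exp_neg]; norm_num
  have e5 := sta_ph_inner (lg v z + η z)
  have e6 := sta_ph_inner (lg v z)
  have e7 : (0 : ℝ) < Real.exp (h z) := Real.exp_pos _
  unfold sta_N1 sta_N2 Lb pot
  rw [e1, e2, e3, e4, ← e5, ← e6]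
  simp only [add_sub_cancel_left, inner_sub_left, inner_sub_right, inner_add_right,
    real_inner_smul_left, real_inner_smul_right]
  field_simp
  ring

theorem star (hI : IBP) (hP : PRATT) : STAR := by
  intro v C hv h0 lo hi hs h η hA hE ζ hζ
  obtain ⟨i1, e1⟩ := sta_lim1 hP hv hA hE hζ
  obtain ⟨i2, e2⟩ := sta_lim2 hI hP hv hA hζ
  have h3 := integral_add i1 i2
  rw [e1, e2, add_zero] at h3
  rw [← h3]
  refine setIntegral_congr_fun sta_Om_meas fun z hz => ?_
  exact sta_alg (by linarith [hv.lo z (sta_ne hz)])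

end Pool.Agent.H949Z.Fu
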