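import Pool.Agent.H949Z.Fu.Plane
import Pool.Agent.H949Z.Fu.Morrey
import Pool.Agent.H949Z.Fu.Pratt
import Pool.Agent.H949Z.Fu.Ibp
import Pool.Agent.H949Z.Fu.Star
import Pool.Agent.H949Z.Fu.Sol
import Pool.Agent.H949Z.Fu.Compare

/-! Two positive solutions whose ratio has no limit at infinity. -/

set_option autoImplicit false

namespace Pool.Agent.H949Z.Fu

open MeasureTheory Filter Topology Set Real

theorem Om_conn : IsConnected Om := by
  have h1 : IsConnected (Metric.sphere (0 : E) 1) :=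
    isConnected_sphere (by rw [← Module.finrank_eq_rank]; simp) _ zero_le_one
  have h2 := (isConnected_Ioi (a := (1 : ℝ))).prod h1
  have h3 := h2.image (fun p : ℝ × E => p.1 • p.2) (by fun_prop)
  convert h3 using 1
  ext z
  constructor
  · intro hz
    have hz' : 1 < ‖z‖ := hz
    have h0 : ‖z‖ ≠ 0 := by linarith
    refine ⟨(‖z‖, ‖z‖⁻¹ • z), ⟨hz', ?_⟩, ?_⟩
    · simp [norm_smul, h0]
    · simp [smul_smul, h0]
  · rintro ⟨⟨r, u⟩, ⟨hr, hu⟩, rfl⟩
    have hr' : 1 < r := hr
    have hu' : ‖u‖ = 1 := by simpa using hu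
    show 1 < ‖r • u‖
    rw [norm_smul, hu', mul_one, Real.norm_eq_abs, abs_of_pos (by linarith)]; exact hr'

theorem Om_mem : Om ∈ Bornology.cobounded E := by
  have : Om = (Metric.closedBall (0 : E) 1)ᶜ := by ext z; simp [Om]
  rw [this]
  exact Metric.isBounded_closedBall.compl

theorem apx_zero : Apx (fun _ => 0) 0 0 (fun _ _ => 0) (fun _ => 0) (fun _ => 0) := by
  refine ⟨fun _ => differentiable_const _, fun _ _ _ => rfl, fun _ _ => le_rfl, fun _ _ => le_rfl,
    fun _ => by simp, continuous_const, fun _ => tendsto_const_nhds, aestronglyMeasurable_const,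
    by simp, Eventually.of_forall fun z => by simp, by simp⟩

theorem el_zero (v : E → ℝ) : EL v (fun _ => 0) (fun _ => 0) := by
  intro ψ _
  simp [Lb]

/-- the point `(0, y)` -/
noncomputable def ax (y : ℝ) : E := EuclideanSpace.single 1 y

theorem ax0 (y : ℝ) : ax y 0 = 0 := by simp [ax]
theorem ax1 (y : ℝ) : ax y 1 = y := by simp [ax]
theorem ax_norm (y : ℝ) : ‖ax y‖ = |y| := by simp [ax]

theorem ax_tendsto {ε : ℝ} (hε : ε = 1 ∨ ε = -1) :
    Tendsto (fun y => ax (ε * y)) atTop (Bornology.cobounded E) := by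
  rw [← tendsto_norm_atTop_iff_cobounded]
  have hε1 : |ε| = 1 := by rcases hε with h | h <;> simp [h]
  simp only [ax_norm, abs_mul, hε1, one_mul]
  exact tendsto_abs_atTop_atTop

theorem pot_le {v : E → ℝ} {C : ℝ} (hv : Reg {z | z ≠ 0} v C) {z : E} (hz : z ∈ Om) :
    ‖z‖ ^ 8 * |pot v z| ≤ 256 * C := by
  have hz' : 1 < ‖z‖ := hz
  have h1 := hv.fbd z (sta_ne hz)
  have h2 := sta_dvg_le (flux v) z
  have h3 := hv.lo z (sta_ne hz)
  have h4 : (1 / 2 : ℝ) ^ 7 ≤ v z ^ 7 := by gcongr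
  have h5 : 0 < ‖z‖ ^ 8 := by positivity
  rw [le_div_iff₀ h5] at h1
  have h6 : 0 < v z ^ 7 := by linarith [show (0 : ℝ) < (1 / 2) ^ 7 by norm_num]
  have h7 : 0 ≤ ‖fderiv ℝ (flux v) z‖ * ‖z‖ ^ 8 := by positivity
  rw [pot, abs_div, abs_of_pos h6, ← mul_div_assoc, div_le_iff₀ h6]
  nlinarith

theorem main (hE : EXIST) : ∃ (V u v : E → ℝ) (c : ℝ), 0 < c ∧ AEStronglyMeasurable V volume ∧
    (∃ C : ℝ, ∀ z ∈ Om, ‖z‖ ^ 8 * |V z| ≤ C) ∧ Sol V Om u ∧ Sol V Om v ∧
    (∀ z ∈ Om, exp (-c) ≤ u z / v z) ∧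
    (∀ y : ℝ, 1 < y → u (ax (1 * y)) / v (ax (1 * y)) ≤ 1) ∧
    (∀ y : ℝ, 1 < y → exp c ≤ u (ax (-1 * y)) / v (ax (-1 * y))) := by
  obtain ⟨v, w, C, s, ω, hs, hs1, hω, hv, w0, w1, w2, hb⟩ := plane
  let bump : ContDiffBump (0 : E) := ⟨1, 2, one_pos, by norm_num⟩
  let h0 : E → ℝ := fun z => ω / 4 * smoothTransition (1 / 2 - z 1) * bump z
  have h0c : ContDiff ℝ 1 h0 := by
    refine (contDiff_const.mul (smoothTransition.contDiff.comp (contDiff_const.sub ?_))).mul
      bump.contDiff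
    exact (EuclideanSpace.proj (𝕜 := ℝ) (1 : Fin 2)).contDiff
  have h0s : HasCompactSupport h0 := bump.hasCompactSupport.mul_left
  have h0b : ∀ z, 0 ≤ h0 z ∧ h0 z ≤ ω / 4 := by
    intro z
    have a1 := smoothTransition.nonneg (1 / 2 - z 1)
    have a2 := smoothTransition.le_one (1 / 2 - z 1)
    have a3 : 0 ≤ bump z := bump.nonneg
    have a4 : bump z ≤ 1 := bump.le_one
    refine ⟨by positivity, ?_⟩
    calc h0 z ≤ ω / 4 * 1 * 1 := by simp only [h0]; gcongr
      _ = _ := by ring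
  obtain ⟨hs', h, η, hA, hEL⟩ := hE v C hv h0 (ω / 4) (ω / 4) (by positivity) (by positivity)
    h0c h0s h0b
  have hS := star ibp pratt v C hv _ _ _ _ _ _ hA hEL
  have solu := sol pratt v C hv _ _ _ _ _ _ hA hS
  have solv := sol pratt v C hv _ _ _ _ _ _ apx_zero
    (star ibp pratt v C hv _ _ _ _ _ _ apx_zero (el_zero v))
  simp only [Real.exp_zero, mul_one] at solv
  have cmp : ∀ ε c : ℝ, (ε = 1 ∧ c = 0 ∨ ε = -1 ∧ c = ω / 4) → ∀ y : ℝ, 1 < y →
      ε * (h (ax (ε * y)) - c) ≤ 0 := by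
    intro ε c hεc y hy
    have hε : ε = 1 ∨ ε = -1 := hεc.imp And.left And.left
    have hε1 : |ε| = 1 := by rcases hε with h | h <;> simp [h]
    obtain ⟨C', hR, hD⟩ := hb ε hε
    have habs : ∀ z : E, 0 ≤ ε * z 1 → |z 1| = ε * z 1 := by
      intro z hz
      rw [← abs_of_nonneg hz, abs_mul, hε1, one_mul]
    have hsub : {z : E | 1 / 2 < ε * z 1 ∧ |z 0| < s * (ε * z 1)} ⊆ Sec s := by
      rintro z ⟨h1, h2⟩
      show |z 0| < s * |z 1|
      rw [habs z (by linarith)]; exact h2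
    have hne : ∀ z ∈ {z : E | 1 / 2 < ε * z 1 ∧ |z 0| < s * (ε * z 1)}, z ≠ 0 := by
      rintro z ⟨h1, -⟩ rfl
      simp at h1; linarith
    have hlog : ∀ z ∈ {z : E | 1 / 2 < ε * z 1 ∧ |z 0| < s * (ε * z 1)},
        ε * (log (v z) - log (v z + ε * w z)) ≤ -(w z / 2) := by
      intro z hz
      have b1 := hR.lo z (hsub hz)
      have b2 := hR.hi z (hsub hz)
      have v1 := hv.lo z (hne z hz)
      have v2 := hv.hi z (hne z hz)
      have wz := w1 z (hsub hz)
      rcases hε with rfl | rfl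
      · rw [one_mul, one_mul, ← Real.log_div (by linarith) (by linarith)]
        refine (Real.log_le_sub_one_of_pos (by apply div_pos <;> linarith)).trans ?_
        rw [sub_le_iff_le_add, div_le_iff₀ (by linarith)]
        nlinarith
      · rw [neg_one_mul, neg_sub, ← Real.log_div (by linarith) (by linarith)]
        refine (Real.log_le_sub_one_of_pos (by apply div_pos <;> linarith)).trans ?_
        rw [sub_le_iff_le_add, div_le_iff₀ (by linarith)]
        nlinarith
    have hop : IsOpen {z : E | 1 / 2 < ε * z 1 ∧ |z 0| < s * (ε * z 1)} :=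
      (isOpen_lt (f := fun _ : E => (1 / 2 : ℝ)) (g := fun z : E => ε * z 1) (by fun_prop)
        (by fun_prop)).inter (isOpen_lt (f := fun z : E => |z 0|)
          (g := fun z : E => s * (ε * z 1)) (by fun_prop) (by fun_prop))
    have hcl : IsClosed {z : E | 1 ≤ ‖z‖ ∧ |z 0| ≤ s / 2 * (ε * z 1)} :=
      (isClosed_le (f := fun _ : E => (1 : ℝ)) (g := fun z : E => ‖z‖) (by fun_prop)
        (by fun_prop)).inter (isClosed_le (f := fun z : E => |z 0|)
          (g := fun z : E => s / 2 * (ε * z 1)) (by fun_prop) (by fun_prop))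
    have key := compare morrey pratt ibp v C hv _ _ _ _ _ _ hA hS
      {z : E | 1 / 2 < ε * z 1 ∧ |z 0| < s * (ε * z 1)}
      {z : E | 1 ≤ ‖z‖ ∧ |z 0| ≤ s / 2 * (ε * z 1)} (fun z => v z + ε * w z) C' c ε
      hop hcl
      ?_ (fun h => hne 0 h rfl) (hR.mono hsub) hε (fun z hz => hD z (hsub hz)) ?_ ?_
      (ax (ε * y)) ?_
    · simp only [w0 _ (ax0 _), mul_zero, add_zero] at key
      convert key using 2; ring
    · rintro z ⟨h1, h2⟩
      have h3 : 0 ≤ ε * z 1 := by
        by_contra hn; push Not at hn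
        have := abs_nonneg (z 0)
        nlinarith
      have h4 := lif_norm_le z
      rw [habs z h3] at h4
      have h5 : 1 / 2 < ε * z 1 := by nlinarith
      exact ⟨h5, by nlinarith⟩
    · intro z hz hz1
      have h1 := hlog z hz
      have h2 := w1 z (hsub hz)
      have h3 : h0 z = c := by
        rcases hεc with ⟨rfl, rfl⟩ | ⟨rfl, rfl⟩
        · simp only [h0]
          rw [smoothTransition.zero_of_nonpos (by have := hz.1; linarith)]; ring
        · simp only [h0]
          rw [smoothTransition.one_of_one_le (by have := hz.1; linarith),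
            bump.one_of_mem_closedBall (by simpa using hz1)]; ring
      rw [h3]; linarith
    · intro z hz hK hz1 a ha
      have h1 := hlog z hz
      have h2 : ω ≤ w z := by
        refine w2 z (hsub hz) ?_
        rw [habs z (by have := hz.1; linarith)]
        by_contra hn; push Not at hn
        exact hK ⟨hz1.le, hn.le⟩
      obtain ⟨a1, a2⟩ := ha
      rcases hεc with ⟨rfl, rfl⟩ | ⟨rfl, rfl⟩ <;> linarith
    · have e : ε * (ε * y) = y := by rcases hε with h | h <;> rw [h] <;> ring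
      show 1 / 2 < ε * ax (ε * y) 1 ∧ |ax (ε * y) 0| < s * (ε * ax (ε * y) 1)
      rw [ax0, ax1, e, abs_zero]
      exact ⟨by linarith, by positivity⟩
  have hq : ∀ z ∈ Om, v z * exp (h z) / v z = exp (h z) := by
    intro z hz
    have := hv.lo z (sta_ne hz)
    field_simp
  have hm : ∀ ε y : ℝ, (ε = 1 ∨ ε = -1) → 1 < y → ax (ε * y) ∈ Om := by
    intro ε y hε hy
    have hε1 : |ε| = 1 := by rcases hε with h | h <;> simp [h]
    show 1 < ‖ax (ε * y)‖
    rw [ax_norm, abs_mul, hε1, one_mul, abs_of_pos (by linarith)]; exact hy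
  refine ⟨Om.indicator (pot v), _, v, ω / 4, by positivity, ?_, ⟨256 * C, ?_⟩, solu, solv, ?_, ?_,
    ?_⟩
  · rw [aestronglyMeasurable_indicator_iff sta_Om_meas]
    exact ((sta_dvg_meas _).aemeasurable.div
      ((sta_v_aesm hv).aemeasurable.pow_const 7)).aestronglyMeasurable
  · intro z hz
    rw [indicator_of_mem hz]; exact pot_le hv hz
  · intro z hz
    rw [hq z hz]
    exact exp_le_exp.2 (ge_of_tendsto' (hA.lim z) fun n => hA.lo n z)
  · intro y hy
    rw [hq _ (hm 1 y (Or.inl rfl) hy)]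
    have := cmp 1 0 (Or.inl ⟨rfl, rfl⟩) y hy
    exact Real.exp_le_one_iff.2 (by linarith)
  · intro y hy
    rw [hq _ (hm (-1) y (Or.inr rfl) hy)]
    have := cmp (-1) (ω / 4) (Or.inr ⟨rfl, rfl⟩) y hy
    exact exp_le_exp.2 (by linarith)

end Pool.Agent.H949Z.Fu
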