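import Pool.Agent.H949Z.Fu.Stm

/-! Task GPART (helper186): the cut off version of the jet `G0`. -/

set_option autoImplicit false

namespace Pool.Agent.H949Z.Fu

open Filter Topology Set

lemma gpa_congr {f : ℝ × ℝ → ℝ} {a b a' b' : ℝ} {q : ℝ × ℝ} (h : HasFDerivAt f (lin a b) q)
    (ha : a = a') (hb : b = b') : HasFDerivAt f (lin a' b') q := by
  subst ha hb; exact h

lemma gpa_mul {f g : ℝ × ℝ → ℝ} {a b c d : ℝ} {q : ℝ × ℝ} (hf : HasFDerivAt f (lin a b) q)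
    (hg : HasFDerivAt g (lin c d) q) :
    HasFDerivAt (fun p => f p * g p) (lin (a * g q + f q * c) (b * g q + f q * d)) q := by
  refine (hf.mul hg).congr_fderiv ?_
  ext <;> simp [lin] <;> ring

lemma gpa_add {f g : ℝ × ℝ → ℝ} {a b c d : ℝ} {q : ℝ × ℝ} (hf : HasFDerivAt f (lin a b) q)
    (hg : HasFDerivAt g (lin c d) q) :
    HasFDerivAt (fun p => f p + g p) (lin (a + c) (b + d)) q := by
  refine (hf.add hg).congr_fderiv ?_
  ext <;> simp [lin]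

lemma gpa_const (c : ℝ) (q : ℝ × ℝ) : HasFDerivAt (fun _ : ℝ × ℝ => c) (lin 0 0) q := by
  refine (hasFDerivAt_const c q).congr_fderiv ?_
  ext <;> simp [lin]

lemma gpa_fst {φ : ℝ → ℝ} {φ' : ℝ} {q : ℝ × ℝ} (h : HasDerivAt φ φ' q.1) :
    HasFDerivAt (fun p : ℝ × ℝ => φ p.1) (lin φ' 0) q := by
  refine (h.comp_hasFDerivAt q (hasFDerivAt_fst (𝕜 := ℝ))).congr_fderiv ?_
  ext <;> simp [lin]

lemma gpa_s {φ : ℝ → ℝ} {φ' σ : ℝ} {q : ℝ × ℝ} (h : HasDerivAt φ φ' (q.1 - σ * q.2)) :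
    HasFDerivAt (fun p : ℝ × ℝ => φ (p.1 - σ * p.2)) (lin φ' (-σ * φ')) q := by
  have h1 : HasFDerivAt (fun p : ℝ × ℝ => p.1 - σ * p.2)
      (ContinuousLinearMap.fst ℝ ℝ ℝ - σ • ContinuousLinearMap.snd ℝ ℝ ℝ) q :=
    (hasFDerivAt_fst (𝕜 := ℝ)).sub ((hasFDerivAt_snd (𝕜 := ℝ)).const_mul σ)
  refine (HasDerivAt.comp_hasFDerivAt (h₂ := φ) q h h1).congr_fderiv ?_
  ext <;> simp [lin] <;> ring

lemma gpa_poly (σ k0 k1 k2 k3 : ℝ) (q : ℝ × ℝ) :
    HasFDerivAt (fun p : ℝ × ℝ => Real.exp p.1 ^ 3 * (k0 + k1 * Real.cos (p.1 - σ * p.2) +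
        k2 * Real.sin (p.1 - σ * p.2) + k3 * Real.exp (p.1 / 2)))
      (lin (Real.exp q.1 ^ 3 * (3 * k0 + (3 * k1 + k2) * Real.cos (q.1 - σ * q.2) +
          (3 * k2 - k1) * Real.sin (q.1 - σ * q.2) + 7 / 2 * k3 * Real.exp (q.1 / 2)))
        (-σ * Real.exp q.1 ^ 3 * (k2 * Real.cos (q.1 - σ * q.2) -
          k1 * Real.sin (q.1 - σ * q.2)))) q := by
  have h1 : HasFDerivAt (fun p : ℝ × ℝ => Real.exp p.1 ^ 3)
      (lin (3 * Real.exp q.1 ^ 3) 0) q := by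
    apply gpa_fst (φ := fun x => Real.exp x ^ 3)
    refine ((Real.hasDerivAt_exp q.1).fun_pow 3).congr_deriv ?_
    push_cast
    ring
  have h2 : HasFDerivAt (fun p : ℝ × ℝ => Real.exp (p.1 / 2))
      (lin (Real.exp (q.1 / 2) / 2) 0) q := by
    apply gpa_fst (φ := fun x => Real.exp (x / 2))
    refine (((hasDerivAt_id' q.1).div_const 2).exp).congr_deriv ?_
    ring
  have h3 := gpa_s (σ := σ) (q := q) (Real.hasDerivAt_cos (q.1 - σ * q.2))
  have h4 := gpa_s (σ := σ) (q := q) (Real.hasDerivAt_sin (q.1 - σ * q.2))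
  refine gpa_congr (gpa_mul h1 (gpa_add (gpa_add (gpa_add (gpa_const k0 q)
    (gpa_mul (gpa_const k1 q) h3)) (gpa_mul (gpa_const k2 q) h4))
    (gpa_mul (gpa_const k3 q) h2))) ?_ ?_ <;> ring

lemma gpa_G0 (σ : ℝ) (q : ℝ × ℝ) : IsJet (G0 σ) q := by
  refine ⟨?_, ?_, ?_⟩
  · have h := gpa_poly σ (1 / 3) (-3 / 10) (-1 / 10) (2 / 7) q
    refine gpa_congr (h.congr_of_eventuallyEq (Eventually.of_forall fun p => ?_)) ?_ ?_ <;>
      simp only [G0] <;> ring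
  · have h := gpa_poly σ 1 (-1) 0 1 q
    refine gpa_congr (h.congr_of_eventuallyEq (Eventually.of_forall fun p => ?_)) ?_ ?_ <;>
      simp only [G0] <;> ring
  · have h := gpa_poly σ 0 (σ / 10) (-3 * σ / 10) 0 q
    refine gpa_congr (h.congr_of_eventuallyEq (Eventually.of_forall fun p => ?_)) ?_ ?_ <;>
      simp only [G0] <;> ring

lemma gpa_abs {T x : ℝ} {k : ℝ} (hT : 0 ≤ T) (h1 : -k ≤ x) (h2 : x ≤ k) : |T * x| ≤ k * T := by
  rw [abs_mul, abs_of_nonneg hT, mul_comm]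
  exact mul_le_mul_of_nonneg_right (abs_le.mpr ⟨h1, h2⟩) hT

lemma gpa_bd {σ : ℝ} (hσ : 0 < σ) (hσ1 : σ ≤ 1) (q : ℝ × ℝ) (hq : q.1 ≤ -1) :
    (G0 σ q).Bd (12 * Real.exp (3 * q.1)) ∧ |(G0 σ q).f| ≤ 2 * Real.exp (3 * q.1) := by
  have hT : Real.exp (3 * q.1) = Real.exp q.1 ^ 3 := by
    rw [← Real.exp_nat_mul]; norm_num
  rw [hT]
  have hT0 : 0 ≤ Real.exp q.1 ^ 3 := by positivity
  have hd0 : 0 < Real.exp (q.1 / 2) := Real.exp_pos _
  have hd1 : Real.exp (q.1 / 2) ≤ 1 := Real.exp_le_one_iff.mpr (by linarith)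
  have hc1 := Real.cos_le_one (q.1 - σ * q.2)
  have hc2 := Real.neg_one_le_cos (q.1 - σ * q.2)
  have hs1 := Real.sin_le_one (q.1 - σ * q.2)
  have hs2 := Real.neg_one_le_sin (q.1 - σ * q.2)
  have hσ2 : σ ^ 2 ≤ 1 := by nlinarith
  have hσ3 : 0 ≤ σ ^ 2 := by positivity
  simp only [G0, Jet.Bd]
  generalize Real.cos (q.1 - σ * q.2) = C at *
  generalize Real.sin (q.1 - σ * q.2) = S at *
  generalize Real.exp (q.1 / 2) = δ at *
  generalize Real.exp q.1 ^ 3 = T at *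
  refine ⟨⟨gpa_abs hT0 (by linarith) (by linarith), gpa_abs hT0 (by linarith) (by linarith), ?_,
    gpa_abs hT0 (by linarith) (by linarith), gpa_abs hT0 (by nlinarith) (by nlinarith), ?_⟩,
    gpa_abs hT0 (by linarith) (by linarith)⟩
  · have e : -σ * T * ((3 * S - C) / 10) = T * (-σ * ((3 * S - C) / 10)) := by ring
    rw [e]
    exact gpa_abs hT0 (by nlinarith) (by nlinarith)
  · have e : σ ^ 2 * T * ((3 * C + S) / 10) = T * (σ ^ 2 * ((3 * C + S) / 10)) := by ring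
    rw [e]
    exact gpa_abs hT0 (by nlinarith) (by nlinarith)

/-- the cut off function -/
noncomputable def gpa_chi (L : ℝ) : ℝ := Real.smoothTransition (-1 - L)

lemma gpa_chi_smooth : ContDiff ℝ 3 gpa_chi := by
  unfold gpa_chi
  exact Real.smoothTransition.contDiff.comp (contDiff_const.sub contDiff_id)

lemma gpa_chi1 : ContDiff ℝ 2 (deriv gpa_chi) := gpa_chi_smooth.deriv'

lemma gpa_chi2 : ContDiff ℝ 1 (deriv (deriv gpa_chi)) := gpa_chi1.deriv'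

lemma gpa_loc {L c : ℝ} (h : gpa_chi =ᶠ[𝓝 L] fun _ => c) :
    gpa_chi L = c ∧ deriv gpa_chi L = 0 ∧ deriv (deriv gpa_chi) L = 0 := by
  have h1 : deriv gpa_chi =ᶠ[𝓝 L] fun _ => 0 := by
    have := h.deriv
    simpa using this
  refine ⟨h.eq_of_nhds, h1.eq_of_nhds, ?_⟩
  rw [h1.deriv_eq]
  simp

lemma gpa_left {L : ℝ} (h : L < -2) :
    gpa_chi L = 1 ∧ deriv gpa_chi L = 0 ∧ deriv (deriv gpa_chi) L = 0 := by
  apply gpa_loc
  filter_upwards [Iio_mem_nhds h] with x hx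
  have hx' : x < -2 := hx
  exact Real.smoothTransition.one_of_one_le (by linarith)

lemma gpa_right {L : ℝ} (h : -1 < L) :
    gpa_chi L = 0 ∧ deriv gpa_chi L = 0 ∧ deriv (deriv gpa_chi) L = 0 := by
  apply gpa_loc
  filter_upwards [Ioi_mem_nhds h] with x hx
  have hx' : -1 < x := hx
  exact Real.smoothTransition.zero_of_nonpos (by linarith)

lemma gpa_bound : ∃ B : ℝ, 1 ≤ B ∧ ∀ L, |deriv gpa_chi L| ≤ B ∧ |deriv (deriv gpa_chi) L| ≤ B := by
  obtain ⟨B1, h1⟩ := (isCompact_Icc (a := (-2 : ℝ)) (b := -1)).exists_bound_of_continuousOn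
    gpa_chi1.continuous.continuousOn
  obtain ⟨B2, h2⟩ := (isCompact_Icc (a := (-2 : ℝ)) (b := -1)).exists_bound_of_continuousOn
    gpa_chi2.continuous.continuousOn
  have e1 : (1 : ℝ) ≤ max 1 (max B1 B2) := le_max_left _ _
  refine ⟨max 1 (max B1 B2), e1, fun L => ?_⟩
  by_cases ha : L < -2
  · obtain ⟨_, b, c⟩ := gpa_left ha
    rw [b, c, abs_zero]
    exact ⟨by linarith, by linarith⟩
  by_cases hb : -1 < L
  · obtain ⟨_, b, c⟩ := gpa_right hb
    rw [b, c, abs_zero]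
    exact ⟨by linarith, by linarith⟩
  have hm : L ∈ Icc (-2 : ℝ) (-1) := ⟨not_lt.mp ha, not_lt.mp hb⟩
  exact ⟨(h1 L hm).trans ((le_max_left _ _).trans (le_max_right _ _)),
    (h2 L hm).trans ((le_max_right _ _).trans (le_max_right _ _))⟩

/-- the product jet -/
noncomputable def gpa_G (σ : ℝ) (q : ℝ × ℝ) : Jet :=
  ⟨gpa_chi q.1 * (G0 σ q).f,
    deriv gpa_chi q.1 * (G0 σ q).f + gpa_chi q.1 * (G0 σ q).f1,
    gpa_chi q.1 * (G0 σ q).f2,
    deriv (deriv gpa_chi) q.1 * (G0 σ q).f + deriv gpa_chi q.1 * (G0 σ q).f1 +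
      (deriv gpa_chi q.1 * (G0 σ q).f1 + gpa_chi q.1 * (G0 σ q).f11),
    deriv gpa_chi q.1 * (G0 σ q).f2 + gpa_chi q.1 * (G0 σ q).f12,
    gpa_chi q.1 * (G0 σ q).f22⟩

lemma gpa_prod {a x B M : ℝ} (ha : |a| ≤ B) (hx : |x| ≤ M) : |a * x| ≤ B * M := by
  rw [abs_mul]
  exact mul_le_mul ha hx (abs_nonneg _) ((abs_nonneg _).trans ha)

theorem gpart : GPART := by
  intro σ hσ hσ1
  obtain ⟨B, hB, hbd⟩ := gpa_bound
  have hχ : ∀ L, |gpa_chi L| ≤ 1 := fun L =>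
    abs_le.mpr ⟨by linarith [Real.smoothTransition.nonneg (-1 - L), show gpa_chi L =
      Real.smoothTransition (-1 - L) from rfl], Real.smoothTransition.le_one _⟩
  refine ⟨gpa_G σ, 48 * B, ?_, ?_, ?_, ?_, ?_⟩
  · intro q
    have h0 := gpa_fst (q := q) (gpa_chi_smooth.differentiable (by norm_num) q.1).hasDerivAt
    have h1 := gpa_fst (q := q) (gpa_chi1.differentiable (by norm_num) q.1).hasDerivAt
    obtain ⟨d0, d1, d2⟩ := gpa_G0 σ q
    refine ⟨?_, ?_, ?_⟩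
    · refine gpa_congr (gpa_mul h0 d0) ?_ ?_ <;> simp only [gpa_G] <;> ring
    · refine gpa_congr (gpa_add (gpa_mul h1 d0) (gpa_mul h0 d1)) ?_ ?_ <;>
        simp only [gpa_G] <;> ring
    · refine gpa_congr (gpa_mul h0 d2) ?_ ?_ <;> simp only [gpa_G] <;> ring
  · intro q
    have hE : 0 < Real.exp (3 * q.1) := Real.exp_pos _
    have hBE : 0 ≤ B * (12 * Real.exp (3 * q.1)) := by positivity
    have e : 48 * B * Real.exp (3 * q.1) = 4 * (B * (12 * Real.exp (3 * q.1))) := by ring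
    rw [e]
    by_cases hq : -1 < q.1
    · obtain ⟨a, b, c⟩ := gpa_right hq
      simp only [gpa_G, Jet.Bd, a, b, c, zero_mul, add_zero, abs_zero]
      refine ⟨?_, ?_, ?_, ?_, ?_, ?_⟩ <;> linarith
    · obtain ⟨⟨b0, b1, b2, b11, b12, b22⟩, _⟩ := gpa_bd hσ hσ1 q (not_lt.mp hq)
      have c0 := (hχ q.1).trans hB
      obtain ⟨c1, c2⟩ := hbd q.1
      simp only [gpa_G, Jet.Bd]
      refine ⟨?_, ?_, ?_, ?_, ?_, ?_⟩
      · linarith [gpa_prod c0 b0]
      · linarith [gpa_prod c1 b0, gpa_prod c0 b1, abs_add_le (deriv gpa_chi q.1 * (G0 σ q).f)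
          (gpa_chi q.1 * (G0 σ q).f1)]
      · linarith [gpa_prod c0 b2]
      · linarith [gpa_prod c2 b0, gpa_prod c1 b1, gpa_prod c0 b11,
          abs_add_le (deriv (deriv gpa_chi) q.1 * (G0 σ q).f + deriv gpa_chi q.1 * (G0 σ q).f1)
            (deriv gpa_chi q.1 * (G0 σ q).f1 + gpa_chi q.1 * (G0 σ q).f11),
          abs_add_le (deriv (deriv gpa_chi) q.1 * (G0 σ q).f) (deriv gpa_chi q.1 * (G0 σ q).f1),
          abs_add_le (deriv gpa_chi q.1 * (G0 σ q).f1) (gpa_chi q.1 * (G0 σ q).f11)]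
      · linarith [gpa_prod c1 b2, gpa_prod c0 b12, abs_add_le (deriv gpa_chi q.1 * (G0 σ q).f2)
          (gpa_chi q.1 * (G0 σ q).f12)]
      · linarith [gpa_prod c0 b22]
  · intro q
    by_cases hq : -1 < q.1
    · obtain ⟨a, _, _⟩ := gpa_right hq
      simp only [gpa_G, a, zero_mul, abs_zero]
      norm_num
    · have hq' := not_lt.mp hq
      have h1 := gpa_prod (hχ q.1) (gpa_bd hσ hσ1 q hq').2
      have h2 : Real.exp (3 * q.1) ≤ Real.exp (-3) := Real.exp_le_exp.mpr (by linarith)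
      have h3 : Real.exp (-3) ≤ 1 / 8 := by
        rw [Real.exp_neg, one_div]
        apply inv_anti₀ (by norm_num)
        have h4 : Real.exp 3 = Real.exp 1 ^ 3 := by rw [← Real.exp_nat_mul]; norm_num
        have h5 : (2 : ℝ) ≤ Real.exp 1 := by linarith [Real.add_one_le_exp 1]
        rw [h4]
        calc (8 : ℝ) = 2 ^ 3 := by norm_num
          _ ≤ _ := pow_le_pow_left₀ (by norm_num) h5 3
      simp only [gpa_G]
      linarith
  · intro q hq
    have : gpa_chi q.1 = 0 := Real.smoothTransition.zero_of_nonpos (by linarith)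
    simp only [gpa_G, this, zero_mul]
  · intro q hq
    obtain ⟨a, b, c⟩ := gpa_left hq
    simp only [gpa_G, a, b, c, zero_mul, one_mul, zero_add]

end Pool.Agent.H949Z.Fu
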