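import Pool.Agent.H949Z.Fu.Stm

/-! Algebra of jets. -/

set_option autoImplicit false

namespace Pool.Agent.H949Z.Fu

open Filter Topology

@[ext] theorem Jet.ext' {a b : Jet} (h0 : a.f = b.f) (h1 : a.f1 = b.f1) (h2 : a.f2 = b.f2)
    (h11 : a.f11 = b.f11) (h12 : a.f12 = b.f12) (h22 : a.f22 = b.f22) : a = b := by
  cases a; cases b; simp_all

def Jet.cst (c : ℝ) : Jet := ⟨c, 0, 0, 0, 0, 0⟩

def Jet.add (a b : Jet) : Jet :=
  ⟨a.f + b.f, a.f1 + b.f1, a.f2 + b.f2, a.f11 + b.f11, a.f12 + b.f12, a.f22 + b.f22⟩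

def Jet.smul (c : ℝ) (a : Jet) : Jet :=
  ⟨c * a.f, c * a.f1, c * a.f2, c * a.f11, c * a.f12, c * a.f22⟩

def Jet.mul (a b : Jet) : Jet :=
  ⟨a.f * b.f, a.f1 * b.f + a.f * b.f1, a.f2 * b.f + a.f * b.f2,
    a.f11 * b.f + 2 * a.f1 * b.f1 + a.f * b.f11,
    a.f12 * b.f + a.f1 * b.f2 + a.f2 * b.f1 + a.f * b.f12,
    a.f22 * b.f + 2 * a.f2 * b.f2 + a.f * b.f22⟩

def Jet.comp (a : Jet) (p0 p1 p2 : ℝ → ℝ) : Jet :=
  ⟨p0 a.f, p1 a.f * a.f1, p1 a.f * a.f2, p2 a.f * a.f1 ^ 2 + p1 a.f * a.f11,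
    p2 a.f * a.f1 * a.f2 + p1 a.f * a.f12, p2 a.f * a.f2 ^ 2 + p1 a.f * a.f22⟩

def Jet.aff (a b : ℝ) (q : ℝ × ℝ) : Jet := ⟨a * q.1 + b * q.2, a, b, 0, 0, 0⟩

theorem lin_apply (a b : ℝ) (p : ℝ × ℝ) : lin a b p = a * p.1 + b * p.2 := by
  simp [lin]

theorem hl_congr {f : ℝ × ℝ → ℝ} {q : ℝ × ℝ} {D : ℝ × ℝ →L[ℝ] ℝ} {a b : ℝ}
    (h : HasFDerivAt f D q) (e : ∀ p : ℝ × ℝ, D p = a * p.1 + b * p.2) :
    HasFDerivAt f (lin a b) q := by
  have : D = lin a b := by ext <;> simp [e, lin_apply]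
  rwa [this] at h

theorem hl_const (c : ℝ) (q : ℝ × ℝ) : HasFDerivAt (fun _ : ℝ × ℝ => c) (lin 0 0) q :=
  hl_congr (hasFDerivAt_const c q) (by simp)

theorem hl_add {f g : ℝ × ℝ → ℝ} {q : ℝ × ℝ} {a b c d : ℝ} (hf : HasFDerivAt f (lin a b) q)
    (hg : HasFDerivAt g (lin c d) q) :
    HasFDerivAt (fun p => f p + g p) (lin (a + c) (b + d)) q :=
  hl_congr (hf.add hg) (by intro p; simp [lin_apply]; ring)

theorem hl_mul {f g : ℝ × ℝ → ℝ} {q : ℝ × ℝ} {a b c d : ℝ} (hf : HasFDerivAt f (lin a b) q)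
    (hg : HasFDerivAt g (lin c d) q) :
    HasFDerivAt (fun p => f p * g p) (lin (a * g q + f q * c) (b * g q + f q * d)) q :=
  hl_congr (hf.mul hg) (by intro p; simp [lin_apply]; ring)

theorem hl_comp {f : ℝ × ℝ → ℝ} {q : ℝ × ℝ} {a b : ℝ} (hf : HasFDerivAt f (lin a b) q)
    {φ : ℝ → ℝ} {φ' : ℝ} (hφ : HasDerivAt φ φ' (f q)) :
    HasFDerivAt (fun p => φ (f p)) (lin (φ' * a) (φ' * b)) q :=
  hl_congr (hφ.comp_hasFDerivAt q hf) (by intro p; simp [lin_apply]; ring)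

theorem hl_eq {f : ℝ × ℝ → ℝ} {q : ℝ × ℝ} {a b c d : ℝ} (hf : HasFDerivAt f (lin a b) q)
    (h1 : a = c) (h2 : b = d) : HasFDerivAt f (lin c d) q := by
  rw [← h1, ← h2]; exact hf

theorem IsJet.cst (c : ℝ) (q : ℝ × ℝ) : IsJet (fun _ => Jet.cst c) q :=
  ⟨hl_const _ _, hl_const _ _, hl_const _ _⟩

theorem IsJet.aff (a b : ℝ) (q : ℝ × ℝ) : IsJet (Jet.aff a b) q := by
  refine ⟨?_, hl_const _ _, hl_const _ _⟩
  have := (lin a b).hasFDerivAt (x := q)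
  simpa [Jet.aff, funext (lin_apply a b)] using this

theorem IsJet.add {A B : ℝ × ℝ → Jet} {q : ℝ × ℝ} (hA : IsJet A q) (hB : IsJet B q) :
    IsJet (fun p => (A p).add (B p)) q :=
  ⟨hl_add hA.d0 hB.d0, hl_add hA.d1 hB.d1, hl_add hA.d2 hB.d2⟩

theorem IsJet.mul {A B : ℝ × ℝ → Jet} {q : ℝ × ℝ} (hA : IsJet A q) (hB : IsJet B q) :
    IsJet (fun p => (A p).mul (B p)) q := by
  refine ⟨hl_mul hA.d0 hB.d0, ?_, ?_⟩
  · exact hl_eq (hl_add (hl_mul hA.d1 hB.d0) (hl_mul hA.d0 hB.d1))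
      (by simp only [Jet.mul]; ring) (by simp only [Jet.mul]; ring)
  · exact hl_eq (hl_add (hl_mul hA.d2 hB.d0) (hl_mul hA.d0 hB.d2))
      (by simp only [Jet.mul]; ring) (by simp only [Jet.mul]; ring)

theorem IsJet.smul (c : ℝ) {A : ℝ × ℝ → Jet} {q : ℝ × ℝ} (hA : IsJet A q) :
    IsJet (fun p => Jet.smul c (A p)) q := by
  refine ⟨?_, ?_, ?_⟩
  · exact hl_eq (hl_mul (hl_const c q) hA.d0) (by simp [Jet.smul]) (by simp [Jet.smul])
  · exact hl_eq (hl_mul (hl_const c q) hA.d1) (by simp [Jet.smul]) (by simp [Jet.smul])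
  · exact hl_eq (hl_mul (hl_const c q) hA.d2) (by simp [Jet.smul]) (by simp [Jet.smul])

theorem IsJet.comp {A : ℝ × ℝ → Jet} {q : ℝ × ℝ} (hA : IsJet A q) {p0 p1 p2 : ℝ → ℝ}
    (h0 : HasDerivAt p0 (p1 (A q).f) (A q).f) (h1 : HasDerivAt p1 (p2 (A q).f) (A q).f) :
    IsJet (fun p => (A p).comp p0 p1 p2) q := by
  refine ⟨hl_comp hA.d0 h0, ?_, ?_⟩
  · exact hl_eq (hl_mul (hl_comp hA.d0 h1) hA.d1)
      (by simp only [Jet.comp]; ring) (by simp only [Jet.comp]; ring)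
  · exact hl_eq (hl_mul (hl_comp hA.d0 h1) hA.d2)
      (by simp only [Jet.comp]; try ring) (by simp only [Jet.comp]; ring)

theorem IsJet.congr {A B : ℝ × ℝ → Jet} {q : ℝ × ℝ} (hA : IsJet A q) (h : B =ᶠ[𝓝 q] A) :
    IsJet B q := by
  have e : B q = A q := h.self_of_nhds
  refine ⟨?_, ?_, ?_⟩
  · rw [e]; exact hA.d0.congr_of_eventuallyEq (h.mono fun p hp => by simp only [hp])
  · rw [e]; exact hA.d1.congr_of_eventuallyEq (h.mono fun p hp => by simp only [hp])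
  · rw [e]; exact hA.d2.congr_of_eventuallyEq (h.mono fun p hp => by simp only [hp])

theorem hl_ite {f : ℝ × ℝ → ℝ} {q : ℝ × ℝ} (hf : HasFDerivAt f (lin 0 0) q) (h0 : f q = 0)
    (A : ℝ × ℝ → Prop) [DecidablePred A] :
    HasFDerivAt (fun p => if A p then f p else 0) (lin 0 0) q := by
  rw [hasFDerivAt_iff_isLittleO] at hf ⊢
  refine Asymptotics.IsBigO.trans_isLittleO ?_ hf
  refine Asymptotics.IsBigO.of_bound 1 (Eventually.of_forall fun p => ?_)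
  simp only [lin_apply, h0, ite_self, zero_mul, add_zero, sub_zero, one_mul]
  split_ifs <;> simp

theorem IsJet.ite {J : ℝ × ℝ → Jet} {q : ℝ × ℝ} (hJ : IsJet J q) (h0 : J q = Jet.cst 0)
    (A : ℝ × ℝ → Prop) [DecidablePred A] :
    IsJet (fun p => if A p then J p else Jet.cst 0) q := by
  have e : (if A q then J q else Jet.cst 0) = Jet.cst 0 := by rw [h0]; simp
  have d0 := hJ.d0
  have d1 := hJ.d1
  have d2 := hJ.d2
  rw [h0] at d0 d1 d2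
  refine ⟨?_, ?_, ?_⟩
  · simp only [e]
    have := hl_ite d0 (by rw [h0]; rfl) A
    refine this.congr_of_eventuallyEq (Eventually.of_forall fun p => ?_)
    simp only; split_ifs <;> rfl
  · simp only [e]
    have := hl_ite d1 (by rw [h0]; rfl) A
    refine this.congr_of_eventuallyEq (Eventually.of_forall fun p => ?_)
    simp only; split_ifs <;> rfl
  · simp only [e]
    have := hl_ite d2 (by rw [h0]; rfl) A
    refine this.congr_of_eventuallyEq (Eventually.of_forall fun p => ?_)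
    simp only; split_ifs <;> rfl

end Pool.Agent.H949Z.Fu
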