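import Pool.Agent.H949Z.Fu.Lift1

/-! Lifting jets in the coordinates `(log |angle|, log r)` to the plane. -/

set_option autoImplicit false

namespace Pool.Agent.H949Z.Fu

open MeasureTheory Filter Topology Set

/-- partial derivatives with respect to the angle and to `log r` -/
def lif_P (f : E → ℝ) (z : E) (a b : ℝ) : Prop :=
  lif_D f z ((a * z 1 + b * z 0) / ‖z‖ ^ 2) ((-a * z 0 + b * z 1) / ‖z‖ ^ 2)

lemma lif_P.congr {f : E → ℝ} {z : E} {p q p' q' : ℝ} (h : lif_P f z p q) (e1 : p = p')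
    (e2 : q = q') : lif_P f z p' q' := by subst e1 e2; exact h

lemma lif_P.ev {f g : E → ℝ} {z : E} {p q : ℝ} (h : lif_P f z p q) (e : g =ᶠ[𝓝 z] f) :
    lif_P g z p q := lif_D.ev h e

lemma lif_P.add {f g : E → ℝ} {z : E} {p q p' q' : ℝ} (h : lif_P f z p q) (h' : lif_P g z p' q') :
    lif_P (fun w => f w + g w) z (p + p') (q + q') :=
  (lif_D.add h h').congr (by ring) (by ring)

lemma lif_P.mul {f g : E → ℝ} {z : E} {p q p' q' : ℝ} (h : lif_P f z p q) (h' : lif_P g z p' q') :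
    lif_P (fun w => f w * g w) z (p * g z + f z * p') (q * g z + f z * q') :=
  (lif_D.mul h h').congr (by ring) (by ring)

lemma lif_P.comp {f : E → ℝ} {z : E} {p q : ℝ} (h : lif_P f z p q) {g : ℝ → ℝ} {g' : ℝ}
    (hg : HasDerivAt g g' (f z)) : lif_P (fun w => g (f w)) z (g' * p) (g' * q) :=
  (lif_D.comp h hg).congr (by ring) (by ring)

lemma lif_P.pow {f : E → ℝ} {z : E} {p q : ℝ} (h : lif_P f z p q) (n : ℕ) :
    lif_P (fun w => f w ^ n) z (n * f z ^ (n - 1) * p) (n * f z ^ (n - 1) * q) :=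
  h.comp (hasDerivAt_pow n (f z))

lemma lif_P_zero {f : E → ℝ} {z : E} (h : lif_D f z 0 0) : lif_P f z 0 0 :=
  h.congr (by simp) (by simp)

lemma lif_P_ang {z : E} (h : z 1 ≠ 0) : lif_P ang z 1 0 :=
  (lif_D_ang h).congr (by ring) (by ring)

lemma lif_P_crd {z : E} (h : z 1 ≠ 0) (h0 : ang z ≠ 0) {F : ℝ × ℝ → ℝ} {a b : ℝ}
    (hF : HasFDerivAt F (lin a b) (crd z)) : lif_P (fun w => F (crd w)) z (a / ang z) b := by
  have h1 := ((lif_D_ang h).comp (Real.hasDerivAt_log h0)).comp2 (lif_D_log h) hF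
  exact h1.congr (by field_simp) (by field_simp)

noncomputable def lif_A (J : ℝ × ℝ → Jet) (z : E) : ℝ := (J (crd z)).f1 / ang z
noncomputable def lif_Bb (J : ℝ × ℝ → Jet) (z : E) : ℝ := if ang z = 0 then 0 else (J (crd z)).f2
noncomputable def lif_A1 (J : ℝ × ℝ → Jet) (z : E) : ℝ :=
  ((J (crd z)).f11 - (J (crd z)).f1) / ang z ^ 2
noncomputable def lif_A2 (J : ℝ × ℝ → Jet) (z : E) : ℝ := (J (crd z)).f12 / ang z
noncomputable def lif_B2 (J : ℝ × ℝ → Jet) (z : E) : ℝ := if ang z = 0 then 0 else (J (crd z)).f22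

/-- the region -/
def lif_S (L1 : ℝ) : Set E := {z : E | z 1 ≠ 0 ∧ |ang z| < Real.exp L1}

lemma lif_S_nhds {L1 : ℝ} {z : E} (hz : z ∈ lif_S L1) : ∀ᶠ w in 𝓝 z, w ∈ lif_S L1 := by
  have h1 : ∀ᶠ w : E in 𝓝 z, w 1 ≠ 0 :=
    (HasFDerivAt.continuousAt (lif_D_y z)).eventually_ne hz.1
  have h2 : ∀ᶠ w : E in 𝓝 z, |ang w| < Real.exp L1 :=
    (HasFDerivAt.continuousAt (lif_D_ang hz.1)).abs.eventually_lt continuousAt_const hz.2
  exact h1.and h2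

lemma lif_crd_lt {L1 : ℝ} {z : E} (hz : z ∈ lif_S L1) (h0 : ang z ≠ 0) : (crd z).1 < L1 := by
  have : (crd z).1 = Real.log |ang z| := by simp [crd]
  rw [this, Real.log_lt_iff_lt_exp (abs_pos.mpr h0)]
  exact hz.2

lemma lif_exp_crd {z : E} (h0 : ang z ≠ 0) : Real.exp (crd z).1 = |ang z| := by
  have : (crd z).1 = Real.log |ang z| := by simp [crd]
  rw [this, Real.exp_log (abs_pos.mpr h0)]

lemma lif_exp3_crd {z : E} (h0 : ang z ≠ 0) : Real.exp (3 * (crd z).1) = |ang z| ^ 3 := by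
  rw [← lif_exp_crd h0, ← Real.exp_nat_mul]; norm_num

section
variable {J : ℝ × ℝ → Jet} {L1 M : ℝ}

lemma lif_bounds (hM : 0 ≤ M)
    (hb : ∀ q : ℝ × ℝ, q.1 < L1 → (J q).Bd (M * Real.exp (3 * q.1))) {z : E}
    (hz : z ∈ lif_S L1) :
    |lift J z| ≤ 2 * M * ang z ^ 2 ∧ |lif_A J z| ≤ M * ang z ^ 2 ∧
      |lif_Bb J z| ≤ 2 * M * ang z ^ 2 ∧ |lif_A1 J z| ≤ 4 * M ∧ |lif_A2 J z| ≤ M * ang z ^ 2 ∧
      |lif_B2 J z| ≤ 2 * M * ang z ^ 2 := by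
  by_cases h0 : ang z = 0
  · simp [lift, lif_A, lif_Bb, lif_A1, lif_A2, lif_B2, h0, hM]
  have h := hb _ (lif_crd_lt hz h0)
  rw [lif_exp3_crd h0] at h
  obtain ⟨b0, b1, b2, b11, b12, b22⟩ := h
  have ht : 0 < |ang z| := abs_pos.mpr h0
  have h2 := lif_ang_le z
  have e2 : ang z ^ 2 = |ang z| ^ 2 := (sq_abs _).symm
  have k : M * |ang z| ^ 3 ≤ 2 * M * |ang z| ^ 2 := by
    have : |ang z| ^ 3 ≤ 2 * |ang z| ^ 2 := by nlinarith [sq_nonneg |ang z|]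
    nlinarith
  simp only [lift, lif_A, lif_Bb, lif_A1, lif_A2, lif_B2, h0, if_false, abs_div, e2, abs_pow,
    abs_abs]
  refine ⟨b0.trans k, ?_, b2.trans k, ?_, ?_, b22.trans k⟩
  · rw [div_le_iff₀ ht]; nlinarith
  · rw [div_le_iff₀ (by positivity)]
    have := abs_sub (J (crd z)).f11 (J (crd z)).f1
    nlinarith
  · rw [div_le_iff₀ ht]; nlinarith

lemma lif_derivs (hM : 0 ≤ M) (hJ : ∀ q : ℝ × ℝ, q.1 < L1 → IsJet J q)
    (hb : ∀ q : ℝ × ℝ, q.1 < L1 → (J q).Bd (M * Real.exp (3 * q.1))) {z : E}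
    (hz : z ∈ lif_S L1) :
    lif_P (lift J) z (lif_A J z) (lif_Bb J z) ∧ lif_P (lif_A J) z (lif_A1 J z) (lif_A2 J z) ∧
      lif_P (lif_Bb J) z (lif_A2 J z) (lif_B2 J z) := by
  by_cases h0 : ang z = 0
  · have hs := lif_S_nhds hz
    have k1 : lif_D (lift J) z 0 0 := lif_D_zero (K := 2 * M) (lif_D_ang hz.1) h0
      (hs.mono fun w hw => (lif_bounds hM hb hw).1)
    have k2 : lif_D (lif_A J) z 0 0 := lif_D_zero (K := M) (lif_D_ang hz.1) h0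
      (hs.mono fun w hw => (lif_bounds hM hb hw).2.1)
    have k3 : lif_D (lif_Bb J) z 0 0 := lif_D_zero (K := 2 * M) (lif_D_ang hz.1) h0
      (hs.mono fun w hw => (lif_bounds hM hb hw).2.2.1)
    refine ⟨(lif_P_zero k1).congr ?_ ?_, (lif_P_zero k2).congr ?_ ?_, (lif_P_zero k3).congr ?_ ?_⟩
      <;> simp [lif_A, lif_Bb, lif_A1, lif_A2, lif_B2, h0]
  have hj := hJ _ (lif_crd_lt hz h0)
  have hne : ∀ᶠ w in 𝓝 z, ang w ≠ 0 :=
    (HasFDerivAt.continuousAt (lif_D_ang hz.1)).eventually_ne h0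
  refine ⟨?_, ?_, ?_⟩
  · refine ((lif_P_crd hz.1 h0 hj.d0).congr rfl (by simp [lif_Bb, h0])).ev ?_
    filter_upwards [hne] with w hw
    simp [lift, hw]
  · have := (lif_P_crd hz.1 h0 hj.d1).mul ((lif_P_ang hz.1).comp (hasDerivAt_inv h0))
    refine (this.congr ?_ ?_).ev (Eventually.of_forall fun w => ?_)
    · simp only [lif_A1]; field_simp; ring
    · simp only [lif_A2]; field_simp; ring
    · simp [lif_A, div_eq_mul_inv]
  · refine ((lif_P_crd hz.1 h0 hj.d2).congr rfl (by simp [lif_B2, h0])).ev ?_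
    filter_upwards [hne] with w hw
    simp [lif_Bb, hw]

end

/-- the flux of a function with polar partial derivatives `a, b` -/
lemma lif_flux_eq {f : E → ℝ} {z : E} {a b : ℝ} (hz : z 1 ≠ 0) (h : lif_P f z a b) :
    flux f z = lif_v (((a ^ 2 + b ^ 2) ^ 3 * a * z 1 + (a ^ 2 + b ^ 2) ^ 3 * b * z 0) * ((‖z‖ ^ 2) ^ 4)⁻¹)
      (((a ^ 2 + b ^ 2) ^ 3 * b * z 1 - (a ^ 2 + b ^ 2) ^ 3 * a * z 0) * ((‖z‖ ^ 2) ^ 4)⁻¹) := by
  have hp := lif_norm_pos hz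
  have hn : ‖gradient f z‖ ^ 6 = (a ^ 2 + b ^ 2) ^ 3 / (‖z‖ ^ 2) ^ 3 := by
    have : ‖gradient f z‖ ^ 2 = (a ^ 2 + b ^ 2) / ‖z‖ ^ 2 := by
      rw [lif_D.grad h, lif_normsq, lif_v0, lif_v1]
      have e := lif_normsq z
      field_simp
      rw [e]; ring
    rw [← div_pow, ← this]; ring
  unfold flux ph
  rw [hn, lif_D.grad h]
  apply lif_ext
  · simp; field_simp
  · simp; field_simp; ring

lemma lif_grad_le {f : E → ℝ} {z : E} {a b : ℝ} (hz : z 1 ≠ 0) (h : lif_P f z a b) :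
    ‖gradient f z‖ ≤ 2 * (|a| + |b|) / ‖z‖ := by
  have hp := lif_norm_pos hz
  rw [lif_D.grad h]
  refine (lif_norm_le _).trans ?_
  rw [lif_v0, lif_v1, abs_div, abs_div, abs_of_pos (by positivity : (0 : ℝ) < ‖z‖ ^ 2), ← add_div,
    div_le_div_iff₀ (by positivity) hp]
  have k0 := lif_abs0 z
  have k1 := lif_abs1 z
  have t1 : |a * z 1 + b * z 0| ≤ |a| * ‖z‖ + |b| * ‖z‖ := by
    refine (abs_add_le _ _).trans ?_
    rw [abs_mul, abs_mul]; gcongr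
  have t2 : |-a * z 0 + b * z 1| ≤ |a| * ‖z‖ + |b| * ‖z‖ := by
    refine (abs_add_le _ _).trans ?_
    rw [abs_mul, abs_mul, abs_neg]; gcongr
  nlinarith

/-- the derivative of the field `(P y + Q x, Q y - P x) / r^8` -/
lemma lif_fieldPQ {P Q : E → ℝ} {z : E} {p1 p2 q1 q2 K : ℝ} (hz : z 1 ≠ 0) (hP : lif_P P z p1 p2)
    (hQ : lif_P Q z q1 q2) (hK : |P z| + |Q z| + |p1| + |p2| + |q1| + |q2| ≤ K) {Z : E → E}
    (hZ : Z =ᶠ[𝓝 z] fun w => lif_v ((P w * w 1 + Q w * w 0) * ((‖w‖ ^ 2) ^ 4)⁻¹)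
      ((Q w * w 1 - P w * w 0) * ((‖w‖ ^ 2) ^ 4)⁻¹)) :
    DifferentiableAt ℝ Z z ∧ ‖fderiv ℝ Z z‖ ≤ 96 * K / ‖z‖ ^ 8 ∧
      dvg Z z = (p1 + q2 - 6 * Q z) / ‖z‖ ^ 8 := by
  have hp := lif_norm_pos hz
  have hr := ((lif_D_rho z).pow 4).inv (by positivity)
  have hX := ((lif_D.mul hP (lif_D_y z)).add (lif_D.mul hQ (lif_D_x z))).mul hr
  have hY := ((lif_D.mul hQ (lif_D_y z)).sub (lif_D.mul hP (lif_D_x z))).mul hr
  have e := lif_normsq z
  have e10 : ‖z‖ ^ 10 = (‖z‖ ^ 2) ^ 5 := by ring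
  have e8 : ‖z‖ ^ 8 = (‖z‖ ^ 2) ^ 4 := by ring
  have hρ : z 0 ^ 2 + z 1 ^ 2 ≠ 0 := by positivity
  have key : ∀ c1 c2 c3 : ℝ, |c1| ≤ 8 * K → |c2| ≤ 8 * K → |c3| ≤ 8 * K →
      |(c1 * z 0 ^ 2 + c2 * (z 0 * z 1) + c3 * z 1 ^ 2) / ‖z‖ ^ 10| ≤ 24 * K / ‖z‖ ^ 8 := by
    intro c1 c2 c3 h1 h2 h3
    have hK0 : 0 ≤ K := by linarith [abs_nonneg c1]
    rw [abs_div, abs_of_pos (by positivity : (0 : ℝ) < ‖z‖ ^ 10),
      div_le_div_iff₀ (by positivity) (by positivity)]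
    have k0 := lif_abs0 z
    have k1 := lif_abs1 z
    have t : |c1 * z 0 ^ 2 + c2 * (z 0 * z 1) + c3 * z 1 ^ 2| ≤
        8 * K * ‖z‖ ^ 2 + 8 * K * (‖z‖ * ‖z‖) + 8 * K * ‖z‖ ^ 2 := by
      refine (abs_add_three _ _ _).trans ?_
      rw [abs_mul, abs_mul, abs_mul, abs_mul, abs_pow, abs_pow]
      gcongr
    calc _ ≤ (8 * K * ‖z‖ ^ 2 + 8 * K * (‖z‖ * ‖z‖) + 8 * K * ‖z‖ ^ 2) * ‖z‖ ^ 8 := by gcongr
      _ = _ := by ring
  have hX' := hX.congr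
    (p' := ((q2 - 7 * Q z) * z 0 ^ 2 + (p2 + q1 - 8 * P z) * (z 0 * z 1) + (p1 + Q z) * z 1 ^ 2)
      / ‖z‖ ^ 10)
    (q' := ((P z - q1) * z 0 ^ 2 + (q2 - p1 - 8 * Q z) * (z 0 * z 1) + (p2 - 7 * P z) * z 1 ^ 2)
      / ‖z‖ ^ 10) (by rw [e10, e]; push_cast; field_simp; ring)
      (by rw [e10, e]; push_cast; field_simp; ring)
  have hY' := hY.congr
    (p' := ((7 * P z - p2) * z 0 ^ 2 + (q2 - p1 - 8 * Q z) * (z 0 * z 1) + (q1 - P z) * z 1 ^ 2)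
      / ‖z‖ ^ 10)
    (q' := ((p1 + Q z) * z 0 ^ 2 + (8 * P z - p2 - q1) * (z 0 * z 1) + (q2 - 7 * Q z) * z 1 ^ 2)
      / ‖z‖ ^ 10) (by rw [e10, e]; push_cast; field_simp; ring)
      (by rw [e10, e]; push_cast; field_simp; ring)
  obtain ⟨d1, d2, d3⟩ := lif_field hX' hY' hZ
  have a1 := abs_le.mp (le_refl |P z|)
  have a2 := abs_le.mp (le_refl |Q z|)
  have a3 := abs_le.mp (le_refl |p1|)
  have a4 := abs_le.mp (le_refl |p2|)
  have a5 := abs_le.mp (le_refl |q1|)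
  have a6 := abs_le.mp (le_refl |q2|)
  have n1 := abs_nonneg (P z)
  have n2 := abs_nonneg (Q z)
  have n3 := abs_nonneg p1
  have n4 := abs_nonneg p2
  have n5 := abs_nonneg q1
  have n6 := abs_nonneg q2
  refine ⟨d1, d2.trans ?_, ?_⟩
  · have e96 : 96 * K / ‖z‖ ^ 8 = 24 * K / ‖z‖ ^ 8 + 24 * K / ‖z‖ ^ 8 + 24 * K / ‖z‖ ^ 8
        + 24 * K / ‖z‖ ^ 8 := by ring
    rw [e96]
    refine add_le_add (add_le_add (add_le_add (key _ _ _ ?_ ?_ ?_) (key _ _ _ ?_ ?_ ?_))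
      (key _ _ _ ?_ ?_ ?_)) (key _ _ _ ?_ ?_ ?_) <;>
      (rw [abs_le]; constructor <;> linarith [a1.1, a1.2, a2.1, a2.2, a3.1, a3.2, a4.1, a4.2,
        a5.1, a5.2, a6.1, a6.2])
  · rw [d3, e10, e8, e]
    field_simp
    ring

theorem lift_spec : LIFT := by
  intro J L1 M hJ hb hf
  have hM : 0 ≤ M := by
    have h := (hb (L1 - 1, 0) (by simp)).1
    have := (abs_nonneg _).trans h
    exact nonneg_of_mul_nonneg_left this (Real.exp_pos _)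
  have sq4 : ∀ z : E, ang z ^ 2 ≤ 4 := fun z => by
    have := lif_ang_le z
    nlinarith [sq_abs (ang z), abs_nonneg (ang z)]
  have mk : ∀ (g : E → ℝ) (c : ℝ), 0 ≤ c → (∀ z ∈ lif_S L1, |g z| ≤ c * ang z ^ 2) →
      lif_B (lif_S L1) g := fun g c hc h =>
    ⟨c * 4, by positivity, fun z hz => (h z hz).trans (by gcongr; exact sq4 z)⟩
  have bA : lif_B (lif_S L1) (lif_A J) := mk _ M hM fun z hz => (lif_bounds hM hb hz).2.1
  have bB : lif_B (lif_S L1) (lif_Bb J) :=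
    mk _ (2 * M) (by positivity) fun z hz => (lif_bounds hM hb hz).2.2.1
  have bA1 : lif_B (lif_S L1) (lif_A1 J) :=
    ⟨4 * M, by positivity, fun z hz => (lif_bounds hM hb hz).2.2.2.1⟩
  have bA2 : lif_B (lif_S L1) (lif_A2 J) := mk _ M hM fun z hz => (lif_bounds hM hb hz).2.2.2.2.1
  have bB2 : lif_B (lif_S L1) (lif_B2 J) :=
    mk _ (2 * M) (by positivity) fun z hz => (lif_bounds hM hb hz).2.2.2.2.2
  set A := lif_A J with hA
  set B := lif_Bb J with hB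
  set A1 := lif_A1 J with hA1
  set A2 := lif_A2 J with hA2
  set B2 := lif_B2 J with hB2
  have c2 := lif_B_const (lif_S L1) 6
  have bs := (bA.pow 2).add (bB.pow 2)
  have bW := bs.pow 3
  have bW1 := (c2.mul (bs.pow 2)).mul ((bA.mul bA1).add (bB.mul bA2))
  have bW2 := (c2.mul (bs.pow 2)).mul ((bA.mul bA2).add (bB.mul bB2))
  obtain ⟨K, hK0, hK⟩ := (((((bW.mul bA).abs.add (bW.mul bB).abs).add
    ((bW1.mul bA).add (bW.mul bA1)).abs).add ((bW2.mul bA).add (bW.mul bA2)).abs).add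
    ((bW1.mul bB).add (bW.mul bA2)).abs).add ((bW2.mul bB).add (bW.mul bB2)).abs
  obtain ⟨K', hK0', hK'⟩ := bA.abs.add bB.abs
  have hb1 : ∀ z ∈ lif_S L1, lif_P (fun z => 1 + lift J z) z (A z) (B z) := fun z hz =>
    ((lif_P_zero (lif_D_const 1 z)).add (lif_derivs hM hJ hb hz).1).congr (by simp [hA])
      (by simp [hB])
  have main : ∀ z ∈ lif_S L1, DifferentiableAt ℝ (flux fun z => 1 + lift J z) z ∧
      ‖fderiv ℝ (flux fun z => 1 + lift J z) z‖ ≤ 96 * K / ‖z‖ ^ 8 ∧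
      dvg (flux fun z => 1 + lift J z) z = Pl (A z) (B z) (A1 z) (A2 z) (B2 z) / ‖z‖ ^ 8 := by
    intro z hz
    obtain ⟨-, dA, dB⟩ := lif_derivs hM hJ hb hz
    have dW := (((dA.pow 2).add (dB.pow 2)).pow 3).congr
      (p' := 6 * (A z ^ 2 + B z ^ 2) ^ 2 * (A z * A1 z + B z * A2 z))
      (q' := 6 * (A z ^ 2 + B z ^ 2) ^ 2 * (A z * A2 z + B z * B2 z))
      (by simp only [← hA, ← hB, ← hA1, ← hA2]; push_cast; ring)
      (by simp only [← hA, ← hB, ← hA2, ← hB2]; push_cast; ring)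
    have hZ : (flux fun z => 1 + lift J z) =ᶠ[𝓝 z] fun w =>
        lif_v (((A w ^ 2 + B w ^ 2) ^ 3 * A w * w 1 + (A w ^ 2 + B w ^ 2) ^ 3 * B w * w 0)
          * ((‖w‖ ^ 2) ^ 4)⁻¹)
        (((A w ^ 2 + B w ^ 2) ^ 3 * B w * w 1 - (A w ^ 2 + B w ^ 2) ^ 3 * A w * w 0)
          * ((‖w‖ ^ 2) ^ 4)⁻¹) :=
      (lif_S_nhds hz).mono fun w hw => lif_flux_eq hw.1 (hb1 w hw)
    obtain ⟨d1, d2, d3⟩ := lif_fieldPQ (K := K) hz.1 (dW.mul dA) (dW.mul dB)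
      ((le_abs_self _).trans (hK z hz)) hZ
    refine ⟨d1, d2, ?_⟩
    rw [d3]
    congr 1
    simp only [← hA, ← hB, ← hA1, ← hA2, ← hB2, Pl]
    ring
  have half : ∀ z ∈ lif_S L1, |lift J z| ≤ 1 / 2 := by
    intro z hz
    by_cases h0 : ang z = 0
    · simp [lift, h0]
    · simpa [lift, h0] using hf _ (lif_crd_lt hz h0)
  refine ⟨96 * K + 2 * K', ⟨fun z hz => HasFDerivAt.differentiableAt (hb1 z hz), fun z hz => ?_,
    fun z hz => ?_, fun z hz => ?_, fun z hz => (main z hz).1, fun z hz => ?_⟩, fun z h1 h2 => ?_⟩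
  · have := abs_le.mp (half z hz); linarith [this.1]
  · have := abs_le.mp (half z hz); linarith [this.2]
  · refine (lif_grad_le hz.1 (hb1 z hz)).trans ?_
    have := (le_abs_self _).trans (hK' z hz)
    exact div_le_div_of_nonneg_right (by linarith) (norm_nonneg _)
  · refine (main z hz).2.1.trans ?_
    exact div_le_div_of_nonneg_right (by linarith) (by positivity)
  · rw [(main z ⟨h1, h2⟩).2.2]
    by_cases h0 : ang z = 0
    · simp [hA, hB, lif_A, lif_Bb, h0, Pl]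
    · rw [if_neg h0]
      congr 1
      simp only [hA, hB, hA1, hA2, hB2, lif_A, lif_Bb, lif_A1, lif_A2, lif_B2, h0, if_false, Jet.P,
        Real.exp_neg, lif_exp_crd h0, Pl]
      rcases lt_or_gt_of_ne h0 with h | h
      · rw [abs_of_neg h]; field_simp
      · rw [abs_of_pos h]; field_simp

end Pool.Agent.H949Z.Fu
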