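import Pool.Agent.H949Z.Fu.Stm

/-! Calculus in the plane with explicit partial derivatives. -/

set_option autoImplicit false

namespace Pool.Agent.H949Z.Fu

open MeasureTheory Filter Topology Set

/-- the linear form with coefficients `p, q` -/
noncomputable def lif_l (p q : ℝ) : E →L[ℝ] ℝ :=
  p • EuclideanSpace.proj (0 : Fin 2) + q • EuclideanSpace.proj (1 : Fin 2)

@[simp] lemma lif_l_apply (p q : ℝ) (v : E) : lif_l p q v = p * v 0 + q * v 1 := by
  simp [lif_l]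

/-- the vector with coordinates `p, q` -/
noncomputable def lif_v (p q : ℝ) : E := !₂[p, q]

@[simp] lemma lif_v0 (p q : ℝ) : lif_v p q 0 = p := by simp [lif_v]
@[simp] lemma lif_v1 (p q : ℝ) : lif_v p q 1 = q := by simp [lif_v]

lemma lif_ext {u v : E} (h0 : u 0 = v 0) (h1 : u 1 = v 1) : u = v := by
  ext i; fin_cases i
  · exact h0
  · exact h1

lemma lif_normsq (z : E) : ‖z‖ ^ 2 = z 0 ^ 2 + z 1 ^ 2 := by
  rw [EuclideanSpace.norm_sq_eq]; simp [Fin.sum_univ_two]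

lemma lif_abs0 (z : E) : |z 0| ≤ ‖z‖ := by
  have := lif_normsq z
  exact abs_le_of_sq_le_sq' (by nlinarith [sq_nonneg (z 1)]) (norm_nonneg _) |> abs_le.mpr

lemma lif_abs1 (z : E) : |z 1| ≤ ‖z‖ := by
  have := lif_normsq z
  exact abs_le_of_sq_le_sq' (by nlinarith [sq_nonneg (z 0)]) (norm_nonneg _) |> abs_le.mpr

lemma lif_norm_le (z : E) : ‖z‖ ≤ |z 0| + |z 1| := by
  have := lif_normsq z
  have h : ‖z‖ ^ 2 ≤ (|z 0| + |z 1|) ^ 2 := by
    nlinarith [sq_abs (z 0), sq_abs (z 1), mul_nonneg (abs_nonneg (z 0)) (abs_nonneg (z 1))]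
  exact (abs_le_of_sq_le_sq' h (by positivity)).2

/-- `f` has partial derivatives `p, q` at `z` -/
def lif_D (f : E → ℝ) (z : E) (p q : ℝ) : Prop := HasFDerivAt f (lif_l p q) z

lemma lif_of {f : E → ℝ} {z : E} {L : E →L[ℝ] ℝ} {p q : ℝ} (h : HasFDerivAt f L z)
    (e : ∀ v, L v = p * v 0 + q * v 1) : lif_D f z p q := by
  have : L = lif_l p q := by ext v; simp [e]
  unfold lif_D; rw [← this]; exact h

lemma lif_D.congr {f : E → ℝ} {z : E} {p q p' q' : ℝ} (h : lif_D f z p q) (e1 : p = p')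
    (e2 : q = q') : lif_D f z p' q' := by subst e1 e2; exact h

lemma lif_D.ev {f g : E → ℝ} {z : E} {p q : ℝ} (h : lif_D f z p q) (e : g =ᶠ[𝓝 z] f) :
    lif_D g z p q := HasFDerivAt.congr_of_eventuallyEq h e

lemma lif_D_x (z : E) : lif_D (fun w => w 0) z 1 0 :=
  lif_of (EuclideanSpace.proj (𝕜 := ℝ) (0 : Fin 2)).hasFDerivAt (by simp)

lemma lif_D_y (z : E) : lif_D (fun w => w 1) z 0 1 :=
  lif_of (EuclideanSpace.proj (𝕜 := ℝ) (1 : Fin 2)).hasFDerivAt (by simp)

lemma lif_D_const (c : ℝ) (z : E) : lif_D (fun _ => c) z 0 0 :=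
  lif_of (hasFDerivAt_const c z) (by simp)

lemma lif_D.add {f g : E → ℝ} {z : E} {p q p' q' : ℝ} (h : lif_D f z p q) (h' : lif_D g z p' q') :
    lif_D (fun w => f w + g w) z (p + p') (q + q') :=
  lif_of (HasFDerivAt.add h h') (by intro v; simp; ring)

lemma lif_D.sub {f g : E → ℝ} {z : E} {p q p' q' : ℝ} (h : lif_D f z p q) (h' : lif_D g z p' q') :
    lif_D (fun w => f w - g w) z (p - p') (q - q') :=
  lif_of (HasFDerivAt.sub h h') (by intro v; simp; ring)

lemma lif_D.mul {f g : E → ℝ} {z : E} {p q p' q' : ℝ} (h : lif_D f z p q) (h' : lif_D g z p' q') :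
    lif_D (fun w => f w * g w) z (p * g z + f z * p') (q * g z + f z * q') :=
  lif_of (HasFDerivAt.mul h h') (by intro v; simp; ring)

lemma lif_D.comp {f : E → ℝ} {z : E} {p q : ℝ} (h : lif_D f z p q) {g : ℝ → ℝ} {g' : ℝ}
    (hg : HasDerivAt g g' (f z)) : lif_D (fun w => g (f w)) z (g' * p) (g' * q) :=
  lif_of (hg.comp_hasFDerivAt z h) (by intro v; simp; ring)

lemma lif_D.comp2 {f g : E → ℝ} {z : E} {p q p' q' a b : ℝ} (h : lif_D f z p q)
    (h' : lif_D g z p' q') {F : ℝ × ℝ → ℝ} (hF : HasFDerivAt F (lin a b) (f z, g z)) :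
    lif_D (fun w => F (f w, g w)) z (a * p + b * p') (a * q + b * q') :=
  lif_of (hF.comp z (HasFDerivAt.prodMk h h')) (by intro v; simp [lin]; ring)

lemma lif_D.inv {f : E → ℝ} {z : E} {p q : ℝ} (h : lif_D f z p q) (h0 : f z ≠ 0) :
    lif_D (fun w => (f w)⁻¹) z (-(f z ^ 2)⁻¹ * p) (-(f z ^ 2)⁻¹ * q) :=
  h.comp (hasDerivAt_inv h0)

lemma lif_D.pow {f : E → ℝ} {z : E} {p q : ℝ} (h : lif_D f z p q) (n : ℕ) :
    lif_D (fun w => f w ^ n) z (n * f z ^ (n - 1) * p) (n * f z ^ (n - 1) * q) :=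
  h.comp (hasDerivAt_pow n (f z))

lemma lif_D.grad {f : E → ℝ} {z : E} {p q : ℝ} (h : lif_D f z p q) :
    gradient f z = lif_v p q := by
  apply HasGradientAt.gradient
  rw [hasGradientAt_iff_hasFDerivAt]
  have : (InnerProductSpace.toDual ℝ E) (lif_v p q) = lif_l p q := by
    ext v
    simp [PiLp.inner_apply, Fin.sum_univ_two]
    ring
  rw [this]; exact h

/-- a function dominated by the square of a differentiable function vanishing at the point -/
lemma lif_D_zero {f g : E → ℝ} {z : E} {p q K : ℝ} (hg : lif_D g z p q) (g0 : g z = 0)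
    (hf : ∀ᶠ w in 𝓝 z, |f w| ≤ K * g w ^ 2) : lif_D f z 0 0 := by
  have f0 : f z = 0 := by
    have := hf.self_of_nhds
    rw [g0] at this
    simpa using this
  refine lif_of (L := 0) ?_ (by simp)
  rw [hasFDerivAt_iff_isLittleO]
  have h1 : (fun w => g w) =O[𝓝 z] (fun w => w - z) := by
    have := HasFDerivAt.isBigO_sub hg
    simpa [g0] using this
  have h2 : (fun w => g w) =o[𝓝 z] (fun _ => (1 : ℝ)) := by
    rw [Asymptotics.isLittleO_one_iff]
    have := (HasFDerivAt.continuousAt hg).tendsto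
    rwa [g0] at this
  have h3 : (fun w => g w ^ 2) =o[𝓝 z] (fun w => w - z) := by
    have := h2.mul_isBigO h1.norm_right
    have h4 : (fun w => g w ^ 2) =o[𝓝 z] (fun w => ‖w - z‖) := by
      simpa [pow_two] using this
    exact h4.of_norm_right
  have h5 : (fun w => f w) =O[𝓝 z] (fun w => g w ^ 2) := by
    refine Asymptotics.IsBigO.of_bound K ?_
    filter_upwards [hf] with w hw
    simpa [abs_of_nonneg (sq_nonneg (g w))] using hw
  simpa [f0] using h5.trans_isLittleO h3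

/-- vector fields with explicit partial derivatives -/
lemma lif_field {X Y : E → ℝ} {z : E} {a b c d : ℝ} (hX : lif_D X z a b) (hY : lif_D Y z c d)
    {Z : E → E} (hZ : Z =ᶠ[𝓝 z] fun w => lif_v (X w) (Y w)) :
    DifferentiableAt ℝ Z z ∧ ‖fderiv ℝ Z z‖ ≤ |a| + |b| + |c| + |d| ∧ dvg Z z = a + d := by
  have h : HasFDerivAt Z ((lif_l a b).smulRight (lif_v 1 0) + (lif_l c d).smulRight (lif_v 0 1)) z := by
    have h1 := (HasFDerivAt.smul_const hX (lif_v 1 0)).add (HasFDerivAt.smul_const hY (lif_v 0 1))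
    refine h1.congr_of_eventuallyEq (hZ.trans (Eventually.of_forall fun w => ?_))
    apply lif_ext <;> simp
  refine ⟨h.differentiableAt, ?_, ?_⟩
  · rw [h.fderiv]
    refine ContinuousLinearMap.opNorm_le_bound _ (by positivity) fun v => ?_
    refine (lif_norm_le _).trans ?_
    have e0 : (((lif_l a b).smulRight (lif_v 1 0) + (lif_l c d).smulRight (lif_v 0 1)) v) 0
        = a * v 0 + b * v 1 := by simp
    have e1 : (((lif_l a b).smulRight (lif_v 1 0) + (lif_l c d).smulRight (lif_v 0 1)) v) 1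
        = c * v 0 + d * v 1 := by simp
    rw [e0, e1]
    have k0 := lif_abs0 v
    have k1 := lif_abs1 v
    have t1 : |a * v 0 + b * v 1| ≤ |a| * ‖v‖ + |b| * ‖v‖ := by
      refine (abs_add_le _ _).trans ?_
      rw [abs_mul, abs_mul]; gcongr
    have t2 : |c * v 0 + d * v 1| ≤ |c| * ‖v‖ + |d| * ‖v‖ := by
      refine (abs_add_le _ _).trans ?_
      rw [abs_mul, abs_mul]; gcongr
    linarith
  · unfold dvg
    rw [h.fderiv]
    simp [Fin.sum_univ_two]

/-- bounded functions on a set -/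
def lif_B (S : Set E) (g : E → ℝ) : Prop := ∃ K : ℝ, 0 ≤ K ∧ ∀ z ∈ S, |g z| ≤ K

lemma lif_B.add {S : Set E} {f g : E → ℝ} (h : lif_B S f) (h' : lif_B S g) :
    lif_B S (fun z => f z + g z) := by
  obtain ⟨K, k, h⟩ := h
  obtain ⟨K', k', h'⟩ := h'
  exact ⟨K + K', by positivity, fun z hz => (abs_add_le _ _).trans (add_le_add (h z hz) (h' z hz))⟩

lemma lif_B.sub {S : Set E} {f g : E → ℝ} (h : lif_B S f) (h' : lif_B S g) :
    lif_B S (fun z => f z - g z) := by
  obtain ⟨K, k, h⟩ := h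
  obtain ⟨K', k', h'⟩ := h'
  exact ⟨K + K', by positivity, fun z hz => (abs_sub _ _).trans (add_le_add (h z hz) (h' z hz))⟩

lemma lif_B.mul {S : Set E} {f g : E → ℝ} (h : lif_B S f) (h' : lif_B S g) :
    lif_B S (fun z => f z * g z) := by
  obtain ⟨K, k, h⟩ := h
  obtain ⟨K', k', h'⟩ := h'
  refine ⟨K * K', by positivity, fun z hz => ?_⟩
  rw [abs_mul]
  exact mul_le_mul (h z hz) (h' z hz) (abs_nonneg _) k

lemma lif_B_const (S : Set E) (c : ℝ) : lif_B S (fun _ => c) :=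
  ⟨|c|, abs_nonneg _, fun _ _ => le_rfl⟩

lemma lif_B.pow {S : Set E} {f : E → ℝ} (h : lif_B S f) (n : ℕ) :
    lif_B S (fun z => f z ^ n) := by
  obtain ⟨K, k, h⟩ := h
  refine ⟨K ^ n, by positivity, fun z hz => ?_⟩
  rw [abs_pow]
  exact pow_le_pow_left₀ (abs_nonneg _) (h z hz) n

lemma lif_B.abs {S : Set E} {f : E → ℝ} (h : lif_B S f) : lif_B S (fun z => |f z|) := by
  obtain ⟨K, k, h⟩ := h
  exact ⟨K, k, fun z hz => by simpa using h z hz⟩

lemma lif_norm_pos {z : E} (h : z 1 ≠ 0) : 0 < ‖z‖ :=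
  lt_of_lt_of_le (abs_pos.mpr h) (lif_abs1 z)

lemma lif_D_ang {z : E} (h : z 1 ≠ 0) :
    lif_D ang z (z 1 / ‖z‖ ^ 2) (-z 0 / ‖z‖ ^ 2) := by
  have h1 := ((lif_D_x z).mul ((lif_D_y z).inv h)).comp (Real.hasDerivAt_arctan _)
  have hp : z 0 ^ 2 + z 1 ^ 2 ≠ 0 := by positivity
  refine (h1.congr ?_ ?_).ev (Eventually.of_forall fun w => ?_)
  · rw [lif_normsq]; field_simp; ring
  · rw [lif_normsq]; field_simp; ring
  · simp [ang, div_eq_mul_inv]

lemma lif_D_rho (z : E) : lif_D (fun w => ‖w‖ ^ 2) z (2 * z 0) (2 * z 1) := by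
  have h1 := ((lif_D_x z).pow 2).add ((lif_D_y z).pow 2)
  refine (h1.congr ?_ ?_).ev (Eventually.of_forall fun w => ?_)
  · simp
  · simp
  · simp [lif_normsq]

lemma lif_D_log {z : E} (h : z 1 ≠ 0) :
    lif_D (fun w => Real.log ‖w‖) z (z 0 / ‖z‖ ^ 2) (z 1 / ‖z‖ ^ 2) := by
  have hp := lif_norm_pos h
  have h1 := ((lif_D_rho z).comp (Real.hasDerivAt_log (by positivity))).mul (lif_D_const (1 / 2) z)
  refine (h1.congr ?_ ?_).ev (Eventually.of_forall fun w => ?_)
  · field_simp; ring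
  · field_simp; ring
  · simp [Real.log_pow]; ring

lemma lif_ang_le (z : E) : |ang z| ≤ 2 := by
  have h1 := Real.arctan_lt_pi_div_two (z 0 / z 1)
  have h2 := Real.neg_pi_div_two_lt_arctan (z 0 / z 1)
  have h3 := Real.pi_le_four
  unfold ang
  rw [abs_le]; constructor <;> linarith

end Pool.Agent.H949Z.Fu
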