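import Pool.Agent.H949Z.Fu.Wpart
import Pool.Agent.H949Z.Fu.Lift
import Pool.Agent.H949Z.Fu.Gpart
import Pool.Agent.H949Z.Fu.Alg

/-! The barriers in the plane. -/

set_option autoImplicit false

namespace Pool.Agent.H949Z.Fu

open MeasureTheory Filter Topology Set Real

theorem Reg.mono {S T : Set E} {b : E → ℝ} {C : ℝ} (h : Reg S b C) (hT : T ⊆ S) : Reg T b C :=
  ⟨fun z hz => h.diff z (hT hz), fun z hz => h.lo z (hT hz), fun z hz => h.hi z (hT hz),
    fun z hz => h.grad z (hT hz), fun z hz => h.fdiff z (hT hz), fun z hz => h.fbd z (hT hz)⟩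

theorem abs_arctan (x : ℝ) : |arctan x| = arctan |x| := by
  rcases le_total 0 x with h | h
  · rw [abs_of_nonneg h, abs_of_nonneg (arctan_nonneg.2 h)]
  · rw [abs_of_nonpos h, ← abs_neg, ← arctan_neg, abs_of_nonneg (arctan_nonneg.2 (by linarith))]

theorem arctan_le_self' {x : ℝ} (hx : 0 ≤ x) : arctan x ≤ x := by
  have := Real.le_tan (arctan_nonneg.2 hx) (arctan_lt_pi_div_two x)
  rwa [tan_arctan] at this

theorem v_loc {G : ℝ × ℝ → Jet} (hG : ∀ q : ℝ × ℝ, -1 ≤ q.1 → (G q).f = 0) {z : E} (hz : z ≠ 0)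
    (h1 : z 1 = 0) : (fun w => 1 + lift G w) =ᶠ[𝓝 z] fun _ => 1 := by
  have h0 : z 0 ≠ 0 := by
    intro h; apply hz; ext i; fin_cases i
    · exact h
    · exact h1
  have hc : Continuous fun w : E => |w 0| - |w 1| := by fun_prop
  have hp : 0 < |z 0| - |z 1| := by rw [h1]; simpa using h0
  filter_upwards [hc.continuousAt.eventually (lt_mem_nhds hp)] with w hw
  unfold lift
  split_ifs with h
  · simp
  · have hw1 : w 1 ≠ 0 := by intro e; apply h; simp [ang, e]
    have h2 : 1 ≤ |w 0 / w 1| := by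
      rw [abs_div, le_div_iff₀ (abs_pos.2 hw1)]; linarith
    have h3 : π / 4 ≤ |ang w| := by
      rw [ang, abs_arctan, ← arctan_one]; exact arctan_strictMono.monotone h2
    have h4 : exp (-1) ≤ |ang w| := by
      have h5 : exp (-1) ≤ 1 / 2 := by
        rw [Real.exp_neg, inv_eq_one_div]
        have := Real.add_one_le_exp 1
        exact one_div_le_one_div_of_le (by norm_num) (by linarith)
      have := Real.pi_gt_three
      linarith
    rw [hG (crd w) ?_, add_zero]
    have : -1 ≤ log |ang w| := by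
      rw [Real.le_log_iff_exp_le (abs_pos.2 h)]; exact h4
    simpa [crd] using this

theorem reg_const {b : E → ℝ} {z : E} (h : b =ᶠ[𝓝 z] fun _ => 1) :
    DifferentiableAt ℝ b z ∧ b z = 1 ∧ gradient b z = 0 ∧ DifferentiableAt ℝ (flux b) z ∧
      fderiv ℝ (flux b) z = 0 := by
  have hg : gradient b =ᶠ[𝓝 z] fun _ => 0 := by
    filter_upwards [h.eventually_nhds] with w hw
    have hw' : b =ᶠ[𝓝 w] fun _ => 1 := hw
    rw [hw'.gradient_eq]; simp
  have hf : flux b =ᶠ[𝓝 z] fun _ => 0 := by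
    filter_upwards [hg] with w hw
    simp [flux, hw, ph]
  refine ⟨(differentiableAt_const _).congr_of_eventuallyEq h, h.self_of_nhds, hg.self_of_nhds,
    (differentiableAt_const _).congr_of_eventuallyEq hf, ?_⟩
  rw [hf.fderiv_eq]; simp

/-- the sector around the second axis -/
def Sec (s : ℝ) : Set E := {z | |z 0| < s * |z 1|}

theorem plane : ∃ (v w : E → ℝ) (C s ω : ℝ), 0 < s ∧ s ≤ 1 ∧ 0 < ω ∧ Reg {z | z ≠ 0} v C ∧
    (∀ z, z 0 = 0 → w z = 0) ∧ (∀ z ∈ Sec s, 0 ≤ w z) ∧
    (∀ z ∈ Sec s, s / 2 * |z 1| ≤ |z 0| → ω ≤ w z) ∧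
    ∀ ε : ℝ, (ε = 1 ∨ ε = -1) → ∃ C', Reg (Sec s) (fun z => v z + ε * w z) C' ∧
      ∀ z ∈ Sec s, ε * (dvg (flux fun z => v z + ε * w z) z * v z ^ 7 -
        dvg (flux v) z * (v z + ε * w z) ^ 7) ≤ 0 := by
  obtain ⟨G, W, L1, M, c, hL1, hc, g1, g2, g3, g4, w1, w2, w3, hineq⟩ := barrier gpart alg
  obtain ⟨C, hR, hD⟩ := lift_spec G 1 M (fun q _ => g1 q) (fun q _ => g2 q)
    (fun q _ => (g3 q).trans (by norm_num))
  have hang : ∀ z : E, |ang z| < exp 1 := fun z => by
    have := lif_ang_le z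
    have := Real.exp_one_gt_d9
    linarith
  have hs1 : exp L1 ≤ 1 := by rw [← Real.exp_zero]; exact exp_le_exp.2 (by linarith)
  have hsec : ∀ z ∈ Sec (exp L1), z 1 ≠ 0 ∧ |ang z| < exp L1 := by
    intro z hz
    have hz' : |z 0| < exp L1 * |z 1| := hz
    have h1 : z 1 ≠ 0 := by
      intro e; rw [e, abs_zero, mul_zero] at hz'; exact absurd hz' (not_lt.2 (abs_nonneg _))
    refine ⟨h1, ?_⟩
    rw [ang, abs_arctan]
    refine (arctan_le_self' (abs_nonneg _)).trans_lt ?_
    rw [abs_div, div_lt_iff₀ (abs_pos.2 h1)]; exact hz'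
  have hcrd : ∀ z ∈ Sec (exp L1), ang z ≠ 0 → (crd z).1 < L1 := by
    intro z hz h0
    have := (Real.log_lt_iff_lt_exp (abs_pos.2 h0)).2 (hsec z hz).2
    simpa [crd] using this
  have ha0 : 0 < arctan (exp L1 / 2) := arctan_pos.2 (by positivity)
  refine ⟨fun z => 1 + lift G z, lift W, max C 0, exp L1, c * arctan (exp L1 / 2) ^ 6, exp_pos _,
    hs1, by positivity, ?_, ?_, ?_, ?_, ?_⟩
  · have key : ∀ z : E, z ≠ 0 → z 1 ≠ 0 ∨ (fun w => 1 + lift G w) =ᶠ[𝓝 z] fun _ => 1 := by
      intro z hz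
      by_cases h : z 1 = 0
      · exact Or.inr (v_loc g4 hz h)
      · exact Or.inl h
    refine ⟨fun z hz => ?_, fun z hz => ?_, fun z hz => ?_, fun z hz => ?_, fun z hz => ?_,
      fun z hz => ?_⟩ <;> rcases key z hz with h | h
    · exact hR.diff z ⟨h, hang z⟩
    · exact (reg_const h).1
    · exact hR.lo z ⟨h, hang z⟩
    · rw [(reg_const h).2.1]; norm_num
    · exact hR.hi z ⟨h, hang z⟩
    · rw [(reg_const h).2.1]; norm_num
    · exact (hR.grad z ⟨h, hang z⟩).trans (by gcongr; exact le_max_left _ _)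
    · rw [(reg_const h).2.2.1, norm_zero]; exact div_nonneg (le_max_right _ _) (norm_nonneg _)
    · exact hR.fdiff z ⟨h, hang z⟩
    · exact (reg_const h).2.2.2.1
    · exact (hR.fbd z ⟨h, hang z⟩).trans (by gcongr; exact le_max_left _ _)
    · rw [(reg_const h).2.2.2.2, norm_zero]; exact div_nonneg (le_max_right _ _) (by positivity)
  · intro z hz; simp [lift, ang, hz]
  · intro z hz
    unfold lift
    split_ifs with h
    · exact le_rfl
    · exact le_trans (by positivity) (w3 _ (hcrd z hz h)).1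
  · intro z hz hle
    have h1 := (hsec z hz).1
    have h2 : arctan (exp L1 / 2) ≤ |ang z| := by
      rw [ang, abs_arctan]
      refine arctan_strictMono.monotone ?_
      rw [abs_div, le_div_iff₀ (abs_pos.2 h1)]; exact hle
    have h0 : ang z ≠ 0 := by intro e; rw [e, abs_zero] at h2; linarith
    unfold lift
    rw [if_neg h0]
    refine le_trans ?_ (w3 _ (hcrd z hz h0)).1
    have e : exp (6 * (crd z).1) = |ang z| ^ 6 := by
      rw [← lif_exp_crd h0, ← Real.exp_nat_mul]; norm_num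
    rw [e]; gcongr
  · intro ε hε
    have hε1 : |ε| = 1 := by rcases hε with h | h <;> simp [h]
    have hb : ∀ a b A : ℝ, |a| ≤ M * A → |b| ≤ M * A → |a + ε * b| ≤ 2 * M * A := by
      intro a b A ha hb
      refine (abs_add_le _ _).trans ?_
      rw [abs_mul, hε1]; linarith
    obtain ⟨C', hR', hD'⟩ := lift_spec (fun q => (G q).add (Jet.smul ε (W q))) L1 (2 * M)
      (fun q hq => (g1 q).add ((w1 q hq).smul ε))
      (fun q hq => by
        obtain ⟨a0, a1, a2, a3, a4, a5⟩ := g2 q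
        obtain ⟨b0, b1, b2, b3, b4, b5⟩ := w2 q hq
        exact ⟨hb _ _ _ a0 b0, hb _ _ _ a1 b1, hb _ _ _ a2 b2, hb _ _ _ a3 b3, hb _ _ _ a4 b4,
          hb _ _ _ a5 b5⟩)
      (fun q hq => by
        refine (abs_add_le _ _).trans ?_
        have h1 := g3 q
        have h2 := w3 q hq
        have h3 : 0 < c * exp (6 * q.1) := by positivity
        simp only [Jet.smul]
        rw [abs_mul, hε1, abs_of_nonneg (by linarith : 0 ≤ (W q).f)]; linarith)
    have e : (fun z => 1 + lift (fun q => (G q).add (Jet.smul ε (W q))) z) =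
        fun z => 1 + lift G z + ε * lift W z := by
      funext z; unfold lift; split_ifs
      · simp
      · simp only [Jet.add, Jet.smul]; ring
    rw [e] at hR' hD'
    refine ⟨C', hR'.mono hsec, fun z hz => ?_⟩
    rw [hD' z (hsec z hz).1 (hsec z hz).2, hD z (hsec z hz).1 (hang z)]
    by_cases h0 : ang z = 0
    · simp [h0]
    · have h := hineq ε hε (crd z) (hcrd z hz h0)
      have hn : 0 < ‖z‖ ^ 8 := pow_pos (lif_norm_pos (hsec z hz).1) 8
      simp only [lift, if_neg h0]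
      have h' := div_nonpos_of_nonpos_of_nonneg h hn.le
      refine le_of_eq_of_le ?_ h'
      simp only [Jet.add, Jet.smul]
      rw [add_assoc]
      ring

end Pool.Agent.H949Z.Fu
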