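import Pool.Agent.H949Z.Fu.TBd

/-! The staircase. -/

set_option autoImplicit false

namespace Pool.Agent.H949Z.Fu

open Filter Topology Real

/-- index of the period -/
noncomputable def kk (s : ℝ) : ℤ := ⌈s / (2 * π) - 1 / 2⌉

theorem kk_eq_iff (s : ℝ) (m : ℤ) :
    kk s = m ↔ -π < s - 2 * π * m ∧ s - 2 * π * m ≤ π := by
  have hp : 0 < 2 * π := by positivity
  unfold kk
  rw [Int.ceil_eq_iff]
  have e : s / (2 * π) * (2 * π) = s := by field_simp
  obtain ⟨y, hy⟩ : ∃ y, y = s / (2 * π) := ⟨_, rfl⟩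
  rw [← hy] at e ⊢
  have := Real.pi_pos
  constructor
  · rintro ⟨h1, h2⟩
    constructor <;> nlinarith
  · rintro ⟨h1, h2⟩
    constructor
    · by_contra h; push Not at h; nlinarith
    · by_contra h; push Not at h; nlinarith

theorem kk_spec (s : ℝ) : -π < s - 2 * π * kk s ∧ s - 2 * π * kk s ≤ π :=
  (kk_eq_iff s _).1 rfl

noncomputable def c0 : ℝ := 1 / (exp (12 * π) - 1)

theorem exp12 : 2 ≤ exp (12 * π) := by
  have := Real.add_one_le_exp (12 * π)
  have := Real.pi_gt_three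
  linarith

theorem c0_pos : 0 < c0 := by
  have := exp12
  unfold c0; apply div_pos <;> linarith

theorem c0_le : c0 ≤ 1 := by
  have := exp12
  unfold c0; rw [div_le_one] <;> linarith

theorem c0_eq : exp (12 * π) * c0 = c0 + 1 := by
  have := exp12
  have h : exp (12 * π) - 1 ≠ 0 := by linarith
  unfold c0; field_simp; ring

/-- profile inside a period -/
noncomputable def TT (σ : ℝ) (q : ℝ × ℝ) : Jet :=
  if sq' σ q < 0 then TJ σ (dq q) (cq σ q) (sq' σ q) else Jet.cst 1

/-- the staircase -/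
noncomputable def SJ (σ : ℝ) (q : ℝ × ℝ) : Jet :=
  Jet.smul (exp (12 * π * kk (q.1 - σ * q.2))) ((Jet.cst c0).add (TT σ q))

theorem cont_s (σ : ℝ) : Continuous fun p : ℝ × ℝ => p.1 - σ * p.2 := by fun_prop

theorem kk_loc (σ : ℝ) (q : ℝ × ℝ) (h : cq σ q ≠ -1) :
    ∀ᶠ p in 𝓝 q, kk (p.1 - σ * p.2) = kk (q.1 - σ * q.2) := by
  obtain ⟨h1, h2⟩ := kk_spec (q.1 - σ * q.2)
  have h3 : q.1 - σ * q.2 - 2 * π * kk (q.1 - σ * q.2) < π := by
    refine lt_of_le_of_ne h2 fun e => h ?_
    have : q.1 - σ * q.2 = π + (kk (q.1 - σ * q.2) : ℤ) * (2 * π) := by linarith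
    unfold cq
    rw [this, Real.cos_add_int_mul_two_pi, Real.cos_pi]
  have hc : Continuous fun p : ℝ × ℝ => p.1 - σ * p.2 - 2 * π * kk (q.1 - σ * q.2) := by fun_prop
  filter_upwards [hc.continuousAt.eventually (lt_mem_nhds h1),
    hc.continuousAt.eventually (gt_mem_nhds h3)] with p hp1 hp2
  exact (kk_eq_iff _ _).2 ⟨hp1, hp2.le⟩

theorem isJet_SJ (σ : ℝ) (q : ℝ × ℝ) : IsJet (SJ σ) q := by
  have hcs : cq σ q ^ 2 + sq' σ q ^ 2 = 1 := Real.cos_sq_add_sin_sq _
  have hS : Continuous (sq' σ) := by unfold sq'; fun_prop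
  obtain ⟨m, hm⟩ : ∃ m, m = kk (q.1 - σ * q.2) := ⟨_, rfl⟩
  rcases lt_trichotomy (sq' σ q) 0 with h | h | h
  · have hc : cq σ q ≠ -1 := by intro e; rw [e] at hcs; nlinarith
    refine (((IsJet.cst c0 q).add (isJet_T σ q)).smul (exp (12 * π * m))).congr ?_
    filter_upwards [kk_loc σ q hc, hS.continuousAt.eventually (gt_mem_nhds h)] with p h1 h2
    simp only [SJ, TT, h1, ← hm, if_pos h2]
  · have hc : cq σ q = 1 ∨ cq σ q = -1 := by
      rw [h] at hcs
      have : (cq σ q - 1) * (cq σ q + 1) = 0 := by linarith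
      rcases mul_eq_zero.1 this with h | h
      · left; linarith
      · right; linarith
    rcases hc with hc | hc
    · have h0 : (fun p => (TJ σ (dq p) (cq σ p) (sq' σ p)).add (Jet.cst (-1))) q = Jet.cst 0 := by
        simp only [h, hc]; exact TJ_top σ _ (dq_pos q)
      have hi := ((isJet_T σ q).add (IsJet.cst (-1) q)).ite h0 (fun p => sq' σ p < 0)
      refine (((IsJet.cst (c0 + 1) q).add hi).smul (exp (12 * π * m))).congr ?_
      filter_upwards [kk_loc σ q (by rw [hc]; norm_num)] with p h1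
      simp only [SJ, TT, h1, ← hm]
      split_ifs
      · ext <;> simp only [Jet.smul, Jet.add, Jet.cst] <;> ring
      · ext <;> simp only [Jet.smul, Jet.add, Jet.cst] <;> ring
    · have h0 : (fun p => TJ σ (dq p) (cq σ p) (sq' σ p)) q = Jet.cst 0 := by
        simp only [h, hc]; exact TJ_bot σ _
      have hi := (isJet_T σ q).ite h0 (fun p => sq' σ p < 0)
      obtain ⟨h1, h2⟩ := kk_spec (q.1 - σ * q.2)
      rw [← hm] at h1 h2
      have h3 : q.1 - σ * q.2 - 2 * π * m = π := by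
        have e1 : cos (q.1 - σ * q.2 - 2 * π * m) = -1 := by
          have : q.1 - σ * q.2 - 2 * π * m = q.1 - σ * q.2 - (m : ℤ) * (2 * π) := by ring
          rw [this, Real.cos_sub_int_mul_two_pi]; exact hc
        by_contra hne
        have h4 := lt_of_le_of_ne h2 hne
        have h5 : |q.1 - σ * q.2 - 2 * π * m| < π := abs_lt.2 ⟨h1, h4⟩
        have := Real.cos_lt_cos_of_nonneg_of_le_pi (abs_nonneg _) le_rfl h5
        rw [Real.cos_abs, Real.cos_pi, e1] at this
        exact lt_irrefl _ this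
      refine (((IsJet.cst c0 q).add hi).smul (exp (12 * π * ((m + 1 : ℤ) : ℝ)))).congr ?_
      have hc' : Continuous fun p : ℝ × ℝ => p.1 - σ * p.2 - 2 * π * m := by fun_prop
      have hp := Real.pi_pos
      filter_upwards [hc'.continuousAt.eventually (lt_mem_nhds (show 0 < _ by simp only [h3]; exact hp)),
        hc'.continuousAt.eventually
          (gt_mem_nhds (show _ < 2 * π by simp only [h3]; linarith))] with p hp1 hp2
      have es : sq' σ p = sin (p.1 - σ * p.2 - 2 * π * m) := by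
        have : p.1 - σ * p.2 - 2 * π * m = p.1 - σ * p.2 - (m : ℤ) * (2 * π) := by ring
        rw [this, Real.sin_sub_int_mul_two_pi]; rfl
      rcases le_or_gt (p.1 - σ * p.2 - 2 * π * m) π with hl | hl
      · have hk : kk (p.1 - σ * p.2) = m := (kk_eq_iff _ _).2 ⟨by linarith, hl⟩
        have hs : ¬ sq' σ p < 0 := by
          rw [es, not_lt]; exact Real.sin_nonneg_of_nonneg_of_le_pi hp1.le hl
        simp only [SJ, TT, hk, if_neg hs]
        have e : exp (12 * π * ((m + 1 : ℤ) : ℝ)) = exp (12 * π * m) * exp (12 * π) := by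
          rw [← Real.exp_add]; push_cast; ring_nf
        have := c0_eq
        ext <;> simp only [Jet.smul, Jet.add, Jet.cst, e]
        · linear_combination (-exp (12 * π * m)) * this
        all_goals ring
      · have hk : kk (p.1 - σ * p.2) = m + 1 :=
          (kk_eq_iff _ _).2 ⟨by push_cast; linarith, by push_cast; linarith⟩
        have hs : sq' σ p < 0 := by
          rw [es]
          have := Real.sin_pos_of_pos_of_lt_pi (x := p.1 - σ * p.2 - 2 * π * m - π)
            (by linarith) (by linarith)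
          rw [Real.sin_sub_pi] at this
          linarith
        simp only [SJ, TT, hk, if_pos hs]
  · have hc : cq σ q ≠ -1 := by intro e; rw [e] at hcs; nlinarith
    refine (((IsJet.cst c0 q).add (IsJet.cst 1 q)).smul (exp (12 * π * m))).congr ?_
    filter_upwards [kk_loc σ q hc, hS.continuousAt.eventually (lt_mem_nhds h)] with p h1 h2
    simp only [SJ, TT, h1, ← hm, if_neg (not_lt.2 h2.le)]

/-- the barrier -/
noncomputable def WJ (σ κ : ℝ) (q : ℝ × ℝ) : Jet :=
  (((Jet.aff 0 (6 * σ) q).comp exp exp exp).mul (SJ σ q)).add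
    (Jet.smul κ (((Jet.aff 8 0 q).comp exp exp exp).mul (qJ σ (dq q) (cq σ q) (sq' σ q))))

theorem isJet_WJ (σ κ : ℝ) (q : ℝ × ℝ) : IsJet (WJ σ κ) q :=
  ((isJet_exp 0 (6 * σ) q).mul (isJet_SJ σ q)).add
    (((isJet_exp 8 0 q).mul (isJet_q σ q)).smul κ)

theorem TT_facts {σ : ℝ} (hσ : 0 < σ) (q : ℝ × ℝ) (hδ1 : dq q ≤ 1) :
    (TT σ q).B σ 1 (50 * dq q / (1 - cq σ q + dq q) ^ 2) (2460 / (1 - cq σ q + dq q) ^ 2) ∧
    0 ≤ (TT σ q).f ∧
    (TT σ q).f11 + (11 + 6 * ((sq' σ q + dq q / 2) / (1 - cq σ q + dq q))) * (TT σ q).f1 ≤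
      10 ^ 21 * dq q ^ 5 := by
  have hcs : cq σ q ^ 2 + sq' σ q ^ 2 = 1 := Real.cos_sq_add_sin_sq _
  have hδ := dq_pos q
  have ha := al_pos σ q
  unfold TT
  split_ifs with h
  · exact ⟨T_B hσ hδ hδ1 hcs, T_nonneg hδ hcs, T_main hδ hδ1 hcs h.le⟩
  · refine ⟨⟨?_, ?_, ?_, ?_, ?_, ?_⟩, ?_, ?_⟩ <;> simp only [Jet.cst, abs_zero, abs_one, mul_zero,
      add_zero, le_refl] <;> positivity

end Pool.Agent.H949Z.Fu
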