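import Pool.Agent.H949Z.Fu.Stm

/-! Calculus and measurability lemmas for the step `STAR`. -/

set_option autoImplicit false

namespace Pool.Agent.H949Z.Fu

open MeasureTheory Filter Topology Set

theorem sta_Om_open : IsOpen Om := isOpen_lt continuous_const continuous_norm

theorem sta_Om_meas : MeasurableSet Om := sta_Om_open.measurableSet

theorem sta_ne {z : E} (hz : z ∈ Om) : z ∈ {z : E | z ≠ 0} := by
  intro h
  have h1 : (1 : ℝ) < ‖z‖ := hz
  rw [h, norm_zero] at h1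
  linarith

theorem sta_grad_meas (f : E → ℝ) : Measurable (gradient f) :=
  (InnerProductSpace.toDual ℝ E).symm.continuous.measurable.comp (measurable_fderiv ℝ f)

theorem sta_grad_aesm (f : E → ℝ) :
    AEStronglyMeasurable (gradient f) (volume.restrict Om) :=
  (sta_grad_meas f).aestronglyMeasurable

theorem sta_dvg_meas (Z : E → E) : Measurable (dvg Z) := by
  unfold dvg
  refine Finset.measurable_sum _ fun i _ => ?_
  exact (EuclideanSpace.proj (𝕜 := ℝ) i).continuous.measurable.comp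
    (measurable_fderiv_apply_const ℝ Z (EuclideanSpace.single i (1 : ℝ)))

theorem sta_dvg_le (Z : E → E) (z : E) : |dvg Z z| ≤ 2 * ‖fderiv ℝ Z z‖ := by
  have h : ∀ i : Fin 2, |(fderiv ℝ Z z (EuclideanSpace.single i (1 : ℝ))) i| ≤ ‖fderiv ℝ Z z‖ := by
    intro i
    have h1 := PiLp.norm_apply_le (fderiv ℝ Z z (EuclideanSpace.single i (1 : ℝ))) i
    have h2 := (fderiv ℝ Z z).le_opNorm (EuclideanSpace.single i (1 : ℝ))
    rw [Real.norm_eq_abs] at h1
    have h3 : ‖(EuclideanSpace.single i (1 : ℝ) : E)‖ = 1 := by simp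
    rw [h3, mul_one] at h2
    exact h1.trans h2
  unfold dvg
  rw [Fin.sum_univ_two]
  have := abs_add_le ((fderiv ℝ Z z (EuclideanSpace.single 0 (1 : ℝ))) 0)
    ((fderiv ℝ Z z (EuclideanSpace.single 1 (1 : ℝ))) 1)
  linarith [h 0, h 1]

theorem sta_inv8 : IntegrableOn (fun z : E => (‖z‖⁻¹) ^ 8) Om := by
  have h : Integrable (fun x : E => (1 + ‖x‖) ^ (-(8 : ℝ))) volume := by
    apply integrable_one_add_norm
    simp
    norm_num
  refine Integrable.mono' ((h.const_mul 256).integrableOn (s := Om)) ?_ ?_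
  · exact ((measurable_norm.inv).pow_const 8).aestronglyMeasurable
  · refine (ae_restrict_iff' sta_Om_meas).2 (Eventually.of_forall fun z hz => ?_)
    have h1 : (1 : ℝ) < ‖z‖ := hz
    rw [Real.norm_eq_abs, abs_of_nonneg (by positivity), Real.rpow_neg (by positivity),
      show (8 : ℝ) = ((8 : ℕ) : ℝ) by norm_num, Real.rpow_natCast, ← inv_pow,
      show (256 : ℝ) = 2 ^ 8 by norm_num, ← mul_pow]
    apply pow_le_pow_left₀ (by positivity)
    rw [← div_eq_mul_inv, inv_eq_one_div, div_le_div_iff₀ (by positivity) (by positivity)]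
    linarith

theorem sta_grad_mul {f g : E → ℝ} {z : E} (hf : DifferentiableAt ℝ f z)
    (hg : DifferentiableAt ℝ g z) :
    gradient (fun x => f x * g x) z = f z • gradient g z + g z • gradient f z := by
  unfold gradient
  rw [fderiv_fun_mul hf hg]
  simp

theorem sta_grad_exp {f : E → ℝ} {z : E} (c : ℝ) (hf : DifferentiableAt ℝ f z) :
    gradient (fun x => Real.exp (c * f x)) z = (c * Real.exp (c * f z)) • gradient f z := by
  unfold gradient
  rw [((hf.hasFDerivAt.const_mul c).exp).fderiv]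
  simp [smul_smul, mul_comm]

theorem sta_grad_inv {f : E → ℝ} {z : E} (hf : DifferentiableAt ℝ f z) (h0 : f z ≠ 0) :
    gradient (fun x => (f x)⁻¹) z = (-(f z ^ 2)⁻¹) • gradient f z := by
  unfold gradient
  have := ((hasDerivAt_inv h0).comp_hasFDerivAt z hf.hasFDerivAt).fderiv
  rw [show (fun x => (f x)⁻¹) = (fun y : ℝ => y⁻¹) ∘ f from rfl, this]
  simp

theorem sta_max (a b c d : ℝ) (ha : 0 ≤ a) (hb : 0 ≤ b) (hc : 0 ≤ c) (hd : 0 ≤ d) :
    ∃ M : ℝ, 0 ≤ M ∧ a ≤ M ∧ b ≤ M ∧ c ≤ M ∧ d ≤ M ∧ M ^ 8 ≤ a ^ 8 + b ^ 8 + c ^ 8 + d ^ 8 := by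
  have ha8 := pow_nonneg ha 8
  have hb8 := pow_nonneg hb 8
  have hc8 := pow_nonneg hc 8
  have hd8 := pow_nonneg hd 8
  refine ⟨max (max a b) (max c d), le_max_of_le_left (le_max_of_le_left ha),
    le_max_of_le_left (le_max_left _ _), le_max_of_le_left (le_max_right _ _),
    le_max_of_le_right (le_max_left _ _), le_max_of_le_right (le_max_right _ _), ?_⟩
  rcases max_choice (max a b) (max c d) with h | h <;> rw [h]
  · rcases max_choice a b with h | h <;> rw [h] <;> linarith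
  · rcases max_choice c d with h | h <;> rw [h] <;> linarith

theorem sta_ph_norm (ξ : E) : ‖ph ξ‖ = ‖ξ‖ ^ 7 := by
  unfold ph
  rw [norm_smul, Real.norm_eq_abs, abs_of_nonneg (by positivity)]
  ring

theorem sta_ph_cont : Continuous ph := by
  unfold ph
  fun_prop

theorem sta_ph_smul {c : ℝ} (hc : 0 ≤ c) (ξ : E) : ph (c • ξ) = c ^ 7 • ph ξ := by
  unfold ph
  rw [norm_smul, Real.norm_eq_abs, abs_of_nonneg hc, smul_smul, smul_smul]
  congr 1
  ring

theorem sta_ph_inner (ξ : E) : inner ℝ (ph ξ) ξ = ‖ξ‖ ^ 8 := by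
  unfold ph
  rw [real_inner_smul_left, real_inner_self_eq_norm_sq]
  ring

theorem sta_Lb_cont : Continuous (fun p : E × E => Lb p.1 p.2) := by
  unfold Lb
  have := sta_ph_cont
  fun_prop

theorem sta_inner_le {x y : E} {a b : ℝ} (hx : ‖x‖ ≤ a) (hy : ‖y‖ ≤ b) :
    |inner ℝ x y| ≤ a * b :=
  (abs_real_inner_le_norm x y).trans
    (mul_le_mul hx hy (norm_nonneg _) ((norm_nonneg _).trans hx))

theorem sta_Lb_le {β η : E} {M : ℝ} (hβ : ‖β‖ ≤ M) (hη : ‖η‖ ≤ M) :
    |Lb (β + η) β| ≤ 265 * M ^ 8 := by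
  have hM : 0 ≤ M := (norm_nonneg _).trans hβ
  have h1 : ‖β + η‖ ^ 8 ≤ (2 * M) ^ 8 :=
    pow_le_pow_left₀ (norm_nonneg _) ((norm_add_le _ _).trans (by linarith)) 8
  have h2 : ‖β‖ ^ 8 ≤ M ^ 8 := pow_le_pow_left₀ (norm_nonneg _) hβ 8
  have h3 : |inner ℝ (ph β) (β + η - β)| ≤ M ^ 7 * M := by
    apply sta_inner_le
    · rw [sta_ph_norm]; exact pow_le_pow_left₀ (norm_nonneg _) hβ 7
    · simpa using hη
  have h4 := pow_nonneg (norm_nonneg (β + η)) 8
  have h5 := pow_nonneg (norm_nonneg β) 8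
  have h6 : (2 * M) ^ 8 = 256 * M ^ 8 := by ring
  have h7 : M ^ 7 * M = M ^ 8 := by ring
  unfold Lb
  rw [abs_le] at h3 ⊢
  constructor <;> nlinarith [h3.1, h3.2]

theorem sta_v_cont {v : E → ℝ} {C : ℝ} (hv : Reg {z | z ≠ 0} v C) : ContinuousOn v Om :=
  fun z hz => (hv.diff z (sta_ne hz)).continuousAt.continuousWithinAt

theorem sta_v_aesm {v : E → ℝ} {C : ℝ} (hv : Reg {z | z ≠ 0} v C) :
    AEStronglyMeasurable v (volume.restrict Om) :=
  (sta_v_cont hv).aestronglyMeasurable sta_Om_meas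

theorem sta_vinv_aesm {v : E → ℝ} {C : ℝ} (hv : Reg {z | z ≠ 0} v C) :
    AEStronglyMeasurable (fun z => (v z)⁻¹) (volume.restrict Om) :=
  ((sta_v_aesm hv).aemeasurable.inv).aestronglyMeasurable

theorem sta_lg_aesm {v : E → ℝ} {C : ℝ} (hv : Reg {z | z ≠ 0} v C) :
    AEStronglyMeasurable (lg v) (volume.restrict Om) :=
  (sta_vinv_aesm hv).smul (sta_grad_aesm v)

theorem sta_vinv_le {v : E → ℝ} {C : ℝ} (hv : Reg {z | z ≠ 0} v C) {z : E} (hz : z ≠ 0) :
    0 < (v z)⁻¹ ∧ (v z)⁻¹ ≤ 2 := by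
  have h := hv.lo z hz
  refine ⟨by positivity, ?_⟩
  rw [inv_le_comm₀ (by linarith) (by norm_num)]
  linarith

theorem sta_lg_le {v : E → ℝ} {C : ℝ} (hv : Reg {z | z ≠ 0} v C) {z : E} (hz : z ≠ 0) :
    ‖lg v z‖ ≤ 2 * |C| * ‖z‖⁻¹ := by
  obtain ⟨h1, h2⟩ := sta_vinv_le hv hz
  have h3 := hv.grad z hz
  have h4 : C / ‖z‖ ≤ |C| * ‖z‖⁻¹ := by
    rw [div_eq_mul_inv]
    exact mul_le_mul_of_nonneg_right (le_abs_self C) (by positivity)
  unfold lg
  rw [norm_smul, Real.norm_eq_abs, abs_of_pos h1, mul_assoc]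
  exact mul_le_mul h2 (h3.trans h4) (norm_nonneg _) (by norm_num)

end Pool.Agent.H949Z.Fu
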