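import Pool.Agent.H949Z.Fu.Star1

/-! Admissibility of the test functions used in the step `STAR`. -/

set_option autoImplicit false

namespace Pool.Agent.H949Z.Fu

open MeasureTheory Filter Topology Set

/-- integrability on `Om` from a bound by the maximum of four quantities -/
theorem sta_int_of_le {F : E → E} (hF : AEStronglyMeasurable F (volume.restrict Om))
    {a b c : E → ℝ} (K : ℝ) (ha : IntegrableOn (fun z => a z ^ 8) Om)
    (hb : IntegrableOn (fun z => b z ^ 8) Om) (hc : IntegrableOn (fun z => c z ^ 8) Om)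
    (ha0 : ∀ z, 0 ≤ a z) (hb0 : ∀ z, 0 ≤ b z) (hc0 : ∀ z, 0 ≤ c z)
    (h : ∀ z ∈ Om, ∀ M : ℝ, 0 ≤ M → a z ≤ M → b z ≤ M → c z ≤ M → ‖F z‖ ≤ K * M) :
    IntegrableOn (fun z => ‖F z‖ ^ 8) Om := by
  refine Integrable.mono' (((ha.add hb).add hc).const_mul (K ^ 8)) (hF.norm.pow 8) ?_
  refine (ae_restrict_iff' sta_Om_meas).2 (Eventually.of_forall fun z hz => ?_)
  obtain ⟨M, hM, h1, h2, h3, -, h5⟩ := sta_max (a z) (b z) (c z) 0 (ha0 z) (hb0 z) (hc0 z) le_rfl
  rw [Real.norm_eq_abs, abs_of_nonneg (by positivity)]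
  have h6 := pow_le_pow_left₀ (norm_nonneg _) (h z hz M hM h1 h2 h3) 8
  rw [mul_pow] at h6
  refine h6.trans (mul_le_mul_of_nonneg_left ?_ (by positivity))
  simpa using h5

/-- the first test function -/
noncomputable def sta_psi (v ζ g : E → ℝ) (z : E) : ℝ :=
  ζ z * ((v z)⁻¹ * Real.exp (-1 * g z))

theorem sta_psi_grad {v ζ g : E → ℝ} {z : E} (hv : DifferentiableAt ℝ v z) (h0 : v z ≠ 0)
    (hζ : DifferentiableAt ℝ ζ z) (hg : DifferentiableAt ℝ g z) :
    gradient (sta_psi v ζ g) z =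
      ((v z)⁻¹ * Real.exp (-1 * g z)) • (gradient ζ z - ζ z • (lg v z + gradient g z)) := by
  have he : DifferentiableAt ℝ (fun x => Real.exp (-1 * g x)) z := (hg.const_mul _).exp
  have hi : DifferentiableAt ℝ (fun x => (v x)⁻¹) z := hv.inv h0
  unfold sta_psi
  rw [sta_grad_mul hζ (hi.fun_mul he), sta_grad_mul hi he, sta_grad_exp (-1) hg, sta_grad_inv hv h0]
  unfold lg
  simp only [smul_add, smul_sub, smul_smul]
  have e1 : ζ z * (Real.exp (-1 * g z) * -(v z ^ 2)⁻¹) =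
      -((v z)⁻¹ * Real.exp (-1 * g z) * (ζ z * (v z)⁻¹)) := by
    field_simp
  have e2 : ζ z * ((v z)⁻¹ * (-1 * Real.exp (-1 * g z))) =
      -((v z)⁻¹ * Real.exp (-1 * g z) * ζ z) := by ring
  rw [e1, e2, neg_smul, neg_smul]
  abel

theorem sta_psi_adm {v : E → ℝ} {C : ℝ} (hv : Reg {z | z ≠ 0} v C) {ζ : E → ℝ} (hζ : Adm ζ)
    {g : E → ℝ} {lo : ℝ} (hg : Differentiable ℝ g) (hlo : ∀ z, lo ≤ g z)
    (hint : IntegrableOn (fun z => ‖gradient g z‖ ^ 8) Om) : Adm (sta_psi v ζ g) := by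
  obtain ⟨B, hB⟩ := hζ.bdd
  have hB0 : 0 ≤ B := (abs_nonneg _).trans (hB 0)
  have hw : ∀ z : E, z ≠ 0 → |(v z)⁻¹ * Real.exp (-1 * g z)| ≤ 2 * Real.exp (-lo) := by
    intro z hz
    obtain ⟨h1, h2⟩ := sta_vinv_le hv hz
    rw [abs_of_pos (by positivity)]
    exact mul_le_mul h2 (Real.exp_le_exp.2 (by linarith [hlo z])) (by positivity) (by norm_num)
  refine ⟨fun z => ?_, fun z hz => ?_, ⟨B * (2 * Real.exp (-lo)), fun z => ?_⟩, ?_⟩
  · by_cases hz : z = 0
    · have : sta_psi v ζ g =ᶠ[𝓝 z] fun _ => 0 := by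
        have hb : Metric.ball (0 : E) 1 ∈ 𝓝 z := by
          rw [hz]; exact Metric.ball_mem_nhds _ one_pos
        filter_upwards [hb] with x hx
        unfold sta_psi
        rw [hζ.zero x (mem_ball_zero_iff.1 hx).le, zero_mul]
      exact (differentiableAt_const (0 : ℝ)).congr_of_eventuallyEq this
    · have h0 : v z ≠ 0 := by linarith [hv.lo z hz] |> fun (h : 0 < v z) => h.ne'
      exact (hζ.diff z).mul (((hv.diff z hz).inv h0).mul ((hg z).const_mul _).exp)
  · unfold sta_psi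
    rw [hζ.zero z hz, zero_mul]
  · unfold sta_psi
    by_cases hz : z = 0
    · rw [hζ.zero z (by simp [hz]), zero_mul, abs_zero]
      positivity
    · rw [abs_mul]
      exact mul_le_mul (hB z) (hw z hz) (abs_nonneg _) hB0
  · refine sta_int_of_le (sta_grad_aesm _) (2 * Real.exp (-lo) * (1 + B * (2 * |C| + 1)))
      hζ.int sta_inv8 hint (fun z => norm_nonneg _) (fun z => by positivity)
      (fun z => norm_nonneg _) fun z hz M hM h1 h2 h3 => ?_
    have hz0 : z ≠ 0 := sta_ne hz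
    have h0 : v z ≠ 0 := by linarith [hv.lo z hz0] |> fun (h : 0 < v z) => h.ne'
    rw [sta_psi_grad (hv.diff z hz0) h0 (hζ.diff z) (hg z), norm_smul, Real.norm_eq_abs,
      mul_assoc (2 * Real.exp (-lo))]
    refine mul_le_mul (hw z hz0) ?_ (norm_nonneg _) (by positivity)
    refine (norm_sub_le _ _).trans ?_
    rw [norm_smul, Real.norm_eq_abs]
    have h4 : ‖lg v z + gradient g z‖ ≤ (2 * |C| + 1) * M := by
      refine (norm_add_le _ _).trans ?_
      have := (sta_lg_le hv hz0).trans (mul_le_mul_of_nonneg_left h2 (by positivity))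
      linarith
    have h5 := mul_le_mul (hB z) h4 (norm_nonneg _) hB0
    linarith

/-- the second test function -/
noncomputable def sta_phi (ζ g : E → ℝ) (z : E) : ℝ := ζ z * Real.exp (7 * g z)

theorem sta_phi_grad {ζ g : E → ℝ} {z : E}
    (hζ : DifferentiableAt ℝ ζ z) (hg : DifferentiableAt ℝ g z) :
    gradient (sta_phi ζ g) z =
      Real.exp (7 * g z) • (gradient ζ z + (7 * ζ z) • gradient g z) := by
  have he : DifferentiableAt ℝ (fun x => Real.exp (7 * g x)) z := (hg.const_mul _).exp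
  unfold sta_phi
  rw [sta_grad_mul hζ he, sta_grad_exp 7 hg]
  simp only [smul_add, smul_smul]
  rw [add_comm]
  congr 2
  ring

theorem sta_phi_adm {ζ : E → ℝ} (hζ : Adm ζ)
    {g : E → ℝ} {hi : ℝ} (hg : Differentiable ℝ g) (hhi : ∀ z, g z ≤ hi)
    (hint : IntegrableOn (fun z => ‖gradient g z‖ ^ 8) Om) : Adm (sta_phi ζ g) := by
  obtain ⟨B, hB⟩ := hζ.bdd
  have hB0 : 0 ≤ B := (abs_nonneg _).trans (hB 0)
  have hw : ∀ z : E, |Real.exp (7 * g z)| ≤ Real.exp (7 * hi) := by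
    intro z
    rw [abs_of_pos (by positivity)]
    exact Real.exp_le_exp.2 (by linarith [hhi z])
  refine ⟨fun z => ?_, fun z hz => ?_, ⟨B * Real.exp (7 * hi), fun z => ?_⟩, ?_⟩
  · exact (hζ.diff z).mul ((hg z).const_mul _).exp
  · unfold sta_phi
    rw [hζ.zero z hz, zero_mul]
  · unfold sta_phi
    rw [abs_mul]
    exact mul_le_mul (hB z) (hw z) (abs_nonneg _) hB0
  · refine sta_int_of_le (sta_grad_aesm _) (Real.exp (7 * hi) * (1 + 7 * B))
      hζ.int sta_inv8 hint (fun z => norm_nonneg _) (fun z => by positivity)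
      (fun z => norm_nonneg _) fun z hz M hM h1 h2 h3 => ?_
    rw [sta_phi_grad (hζ.diff z) (hg z), norm_smul, Real.norm_eq_abs, mul_assoc]
    refine mul_le_mul (hw z) ?_ (norm_nonneg _) (by positivity)
    refine (norm_add_le _ _).trans ?_
    rw [norm_smul, Real.norm_eq_abs, abs_mul, abs_of_pos (by norm_num : (0 : ℝ) < 7)]
    have h5 := mul_le_mul (hB z) h3 (norm_nonneg _) hB0
    linarith

end Pool.Agent.H949Z.Fu
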