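import Pool.Agent.H949Z.Fu.Defs

/-! Statements of the steps, as propositions. -/

set_option autoImplicit false

namespace Pool.Agent.H949Z.Fu

open MeasureTheory Filter Topology Set

/-- Morrey type estimate. -/
def MORREY : Prop :=
  ∀ R δ : ℝ, 0 < δ → ∃ τ : ℝ, 0 < τ ∧ ∀ f : E → ℝ, Differentiable ℝ f →
    (∀ z, ‖z‖ ≤ 1 → f z = 0) → IntegrableOn (fun z => ‖gradient f z‖ ^ 8) Om →
    ∫ z in Om, ‖gradient f z‖ ^ 8 ≤ τ → ∀ x, ‖x‖ ≤ R → |f x| ≤ δ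

/-- Passage to the limit along an approximating sequence. -/
def PRATT : Prop :=
  ∀ (h0 : E → ℝ) (lo hi : ℝ) (hs : ℕ → E → ℝ) (h : E → ℝ) (η : E → E), Apx h0 lo hi hs h η →
    ∀ (N : E → ℝ → E → ℝ) (k : E → ℝ) (C : ℝ), IntegrableOn k Om →
      (∀ n, AEStronglyMeasurable (fun z => N z (hs n z) (gradient (hs n) z))
        (volume.restrict Om)) →
      (∀ z ∈ Om, Continuous (fun p : ℝ × E => N z p.1 p.2)) →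
      (∀ z ∈ Om, ∀ a ∈ Icc lo hi, ∀ ξ : E, |N z a ξ| ≤ k z + C * ‖ξ‖ ^ 8) →
      (∀ n, IntegrableOn (fun z => N z (hs n z) (gradient (hs n) z)) Om) ∧
      IntegrableOn (fun z => N z (h z) (η z)) Om ∧
      Tendsto (fun n => ∫ z in Om, N z (hs n z) (gradient (hs n) z)) atTop
        (𝓝 (∫ z in Om, N z (h z) (η z)))

/-- Integration by parts against an admissible test function. -/
def IBP : Prop :=
  ∀ (S K : Set E) (b : E → ℝ) (C : ℝ), IsOpen S → IsClosed K → K ⊆ S → Reg S b C →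
    ∀ ζ : E → ℝ, Adm ζ → (∀ z, z ∉ K → ζ z = 0) →
      IntegrableOn (fun z => inner ℝ (flux b z) (gradient ζ z)) Om ∧
      IntegrableOn (fun z => dvg (flux b) z * ζ z) Om ∧
      ∫ z in Om, (inner ℝ (flux b z) (gradient ζ z) + dvg (flux b) z * ζ z) = 0

/-- Existence of a minimiser with its Euler-Lagrange equation. -/
def EXIST : Prop :=
  ∀ (v : E → ℝ) (C : ℝ), Reg {z | z ≠ 0} v C →
    ∀ (h0 : E → ℝ) (c κ : ℝ), 0 < κ → 0 ≤ c → ContDiff ℝ 1 h0 → HasCompactSupport h0 →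
      (∀ z, 0 ≤ h0 z ∧ h0 z ≤ c) →
      ∃ (hs : ℕ → E → ℝ) (h : E → ℝ) (η : E → E), Apx h0 (-κ) (c + κ) hs h η ∧ EL v h η

/-- From the Euler-Lagrange equation to the weak equation. -/
def STAR : Prop :=
  ∀ (v : E → ℝ) (C : ℝ), Reg {z | z ≠ 0} v C →
    ∀ (h0 : E → ℝ) (lo hi : ℝ) (hs : ℕ → E → ℝ) (h : E → ℝ) (η : E → E),
      Apx h0 lo hi hs h η → EL v h η → Star v h η

/-- Both functions are solutions in the sense of the frozen statement. -/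
def SOL : Prop :=
  ∀ (v : E → ℝ) (C : ℝ), Reg {z | z ≠ 0} v C →
    ∀ (h0 : E → ℝ) (lo hi : ℝ) (hs : ℕ → E → ℝ) (h : E → ℝ) (η : E → E),
      Apx h0 lo hi hs h η → Star v h η →
      Sol (Om.indicator (pot v)) Om (fun z => v z * Real.exp (h z))

/-- Comparison with a classical super- (`ε = 1`) or subsolution (`ε = -1`). -/
def COMPARE : Prop :=
  ∀ (v : E → ℝ) (C : ℝ), Reg {z | z ≠ 0} v C →
    ∀ (h0 : E → ℝ) (lo hi : ℝ) (hs : ℕ → E → ℝ) (h : E → ℝ) (η : E → E),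
      Apx h0 lo hi hs h η → Star v h η →
      ∀ (S K : Set E) (b : E → ℝ) (C' c ε : ℝ), IsOpen S → IsClosed K → K ⊆ S → (0 : E) ∉ S →
        Reg S b C' → (ε = 1 ∨ ε = -1) →
        (∀ z ∈ S, ε * (dvg (flux b) z * v z ^ 7 - dvg (flux v) z * b z ^ 7) ≤ 0) →
        (∀ z ∈ S, ‖z‖ ≤ 1 → ε * (h0 z + Real.log (v z) - Real.log (b z) - c) ≤ 0) →
        (∀ z ∈ S, z ∉ K → 1 < ‖z‖ → ∀ a ∈ Icc lo hi,
          ε * (a + Real.log (v z) - Real.log (b z) - c) ≤ 0) →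
        ∀ z ∈ S, ε * (h z + Real.log (v z) - Real.log (b z) - c) ≤ 0

/-- Lifting jets in the coordinates `(log |angle|, log r)` to the plane. -/
def LIFT : Prop :=
  ∀ (J : ℝ × ℝ → Jet) (L1 M : ℝ), (∀ q : ℝ × ℝ, q.1 < L1 → IsJet J q) →
    (∀ q : ℝ × ℝ, q.1 < L1 → (J q).Bd (M * Real.exp (3 * q.1))) →
    (∀ q : ℝ × ℝ, q.1 < L1 → |(J q).f| ≤ 1 / 2) →
    ∃ C : ℝ, Reg {z : E | z 1 ≠ 0 ∧ |ang z| < Real.exp L1} (fun z => 1 + lift J z) C ∧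
      ∀ z : E, z 1 ≠ 0 → |ang z| < Real.exp L1 →
        dvg (flux (fun z => 1 + lift J z)) z =
          if ang z = 0 then 0 else (J (crd z)).P (crd z).1 / ‖z‖ ^ 8

/-- The barrier in the coordinates `(log |angle|, log r)`. -/
def BARRIER : Prop :=
  ∃ (G W : ℝ × ℝ → Jet) (L1 M c : ℝ), L1 < -2 ∧ 0 < c ∧
    (∀ q, IsJet G q) ∧ (∀ q : ℝ × ℝ, (G q).Bd (M * Real.exp (3 * q.1))) ∧
    (∀ q : ℝ × ℝ, |(G q).f| ≤ 1 / 4) ∧ (∀ q : ℝ × ℝ, -1 ≤ q.1 → (G q).f = 0) ∧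
    (∀ q : ℝ × ℝ, q.1 < L1 → IsJet W q) ∧
    (∀ q : ℝ × ℝ, q.1 < L1 → (W q).Bd (M * Real.exp (3 * q.1))) ∧
    (∀ q : ℝ × ℝ, q.1 < L1 → c * Real.exp (6 * q.1) ≤ (W q).f ∧ (W q).f ≤ 1 / 4) ∧
    ∀ ε : ℝ, (ε = 1 ∨ ε = -1) → ∀ q : ℝ × ℝ, q.1 < L1 →
      ε * ((Jet.mk ((G q).f + ε * (W q).f) ((G q).f1 + ε * (W q).f1) ((G q).f2 + ε * (W q).f2)
          ((G q).f11 + ε * (W q).f11) ((G q).f12 + ε * (W q).f12)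
          ((G q).f22 + ε * (W q).f22)).P q.1 * (1 + (G q).f) ^ 7
        - (G q).P q.1 * (1 + ((G q).f + ε * (W q).f)) ^ 7) ≤ 0

/-- The explicit jet of `G = θ^3 g(s) + (2/7) θ^(7/2)`, `θ = e^L`, `s = L - σ t`. -/
noncomputable def G0 (σ : ℝ) (q : ℝ × ℝ) : Jet :=
  let θ := Real.exp q.1
  let δ := Real.exp (q.1 / 2)
  let C := Real.cos (q.1 - σ * q.2)
  let S := Real.sin (q.1 - σ * q.2)
  ⟨θ ^ 3 * (1 / 3 - (3 * C + S) / 10 + 2 / 7 * δ), θ ^ 3 * (1 - C + δ),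
    -σ * θ ^ 3 * ((3 * S - C) / 10), θ ^ 3 * (3 * (1 - C + δ) + (S + δ / 2)),
    θ ^ 3 * (-σ * S), σ ^ 2 * θ ^ 3 * ((3 * C + S) / 10)⟩

/-- The cut off version of `G0`. -/
def GPART : Prop :=
  ∀ σ : ℝ, 0 < σ → σ ≤ 1 → ∃ (G : ℝ × ℝ → Jet) (M : ℝ),
    (∀ q, IsJet G q) ∧ (∀ q : ℝ × ℝ, (G q).Bd (M * Real.exp (3 * q.1))) ∧
    (∀ q : ℝ × ℝ, |(G q).f| ≤ 1 / 4) ∧ (∀ q : ℝ × ℝ, -1 ≤ q.1 → (G q).f = 0) ∧
    (∀ q : ℝ × ℝ, q.1 < -2 → G q = G0 σ q)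

/-- The algebraic core of the barrier inequality (`θ = δ^2`). -/
def ALG : Prop :=
  ∀ c K : ℝ, 0 < c → 1 ≤ K → ∃ σ κ η0 : ℝ, 0 < σ ∧ σ ≤ 1 ∧ 0 < κ ∧ κ ≤ 1 ∧ 0 < η0 ∧
    ∀ δ α aL at' g0 g1 g2 w0 w1 x x1 x2 y' y2 ε : ℝ, 0 < δ → δ ≤ η0 → δ ≤ α → α ≤ 3 →
      |aL| ≤ 2 → |at'| ≤ σ → |g0| ≤ 1 → |g1| ≤ 1 → |g2| ≤ 1 →
      |w0| ≤ K → c ≤ w1 → w1 ≤ K → |x| ≤ K * δ / α ^ 2 → |x1| ≤ K / α ^ 2 →
      |x2| ≤ K * σ / α ^ 2 → |y'| ≤ K * σ * δ / α ^ 2 → |y2| ≤ K * σ ^ 2 / α ^ 2 →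
      x1 + 6 * (2 + aL / α) * x ≤ δ ^ 4 * (K * δ - 2 * κ / α ^ 4 + κ * K) →
      (ε = 1 ∨ ε = -1) →
      ε * (Pl (δ ^ 4 * α + ε * (δ ^ 10 * x)) (-σ * δ ^ 6 * g1 + ε * (δ ^ 12 * (6 * σ * w1 + y')))
            (δ ^ 2 * (2 * α + aL) + ε * (δ ^ 8 * x1)) (δ ^ 4 * at' + ε * (δ ^ 10 * x2))
            (σ ^ 2 * δ ^ 6 * g2 + ε * (δ ^ 12 * y2)) * (1 + δ ^ 6 * g0) ^ 7
          - Pl (δ ^ 4 * α) (-σ * δ ^ 6 * g1) (δ ^ 2 * (2 * α + aL)) (δ ^ 4 * at')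
            (σ ^ 2 * δ ^ 6 * g2) * (1 + (δ ^ 6 * g0 + ε * (δ ^ 12 * w0))) ^ 7) ≤ 0

end Pool.Agent.H949Z.Fu
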