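import Pool.Agent.H949Z.Fu.TJet

/-! Bounds for the jump profile. -/

set_option autoImplicit false
set_option linter.unusedSectionVars false

namespace Pool.Agent.H949Z.Fu

/-- weighted bounds for a jet -/
structure Jet.B (σ : ℝ) (j : Jet) (a0 a1 a2 : ℝ) : Prop where
  b0 : |j.f| ≤ a0
  b1 : |j.f1| ≤ a1
  b2 : |j.f2| ≤ σ * a1
  b11 : |j.f11| ≤ a2
  b12 : |j.f12| ≤ σ * a2
  b22 : |j.f22| ≤ σ ^ 2 * a2

theorem abs_mul_le' {a b A B : ℝ} (ha : |a| ≤ A) (hb : |b| ≤ B) : |a * b| ≤ A * B := by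
  rw [abs_mul]; exact mul_le_mul ha hb (abs_nonneg _) ((abs_nonneg _).trans ha)

theorem abs_add_le' {a b A B : ℝ} (ha : |a| ≤ A) (hb : |b| ≤ B) : |a + b| ≤ A + B :=
  (abs_add_le _ _).trans (add_le_add ha hb)

theorem abs_sq_le' {a A : ℝ} (ha : |a| ≤ A) : |a ^ 2| ≤ A ^ 2 := by
  rw [pow_two, pow_two]; exact abs_mul_le' ha ha

theorem abs_two_le : |(2 : ℝ)| ≤ 2 := by norm_num

theorem Jet.B.mono {σ : ℝ} (hσ : 0 ≤ σ) {j : Jet} {a0 a1 a2 c0 c1 c2 : ℝ} (h : j.B σ a0 a1 a2)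
    (h0 : a0 ≤ c0) (h1 : a1 ≤ c1) (h2 : a2 ≤ c2) : j.B σ c0 c1 c2 :=
  ⟨h.b0.trans h0, h.b1.trans h1, h.b2.trans (by gcongr), h.b11.trans h2, h.b12.trans (by gcongr),
    h.b22.trans (by gcongr)⟩

theorem Jet.B.mul {σ : ℝ} {a b : Jet} {a0 a1 a2 c0 c1 c2 : ℝ} (ha : a.B σ a0 a1 a2)
    (hb : b.B σ c0 c1 c2) :
    (a.mul b).B σ (a0 * c0) (a1 * c0 + a0 * c1) (a2 * c0 + 2 * a1 * c1 + a0 * c2) := by
  refine ⟨abs_mul_le' ha.b0 hb.b0, abs_add_le' (abs_mul_le' ha.b1 hb.b0) (abs_mul_le' ha.b0 hb.b1),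
    ?_, ?_, ?_, ?_⟩
  · exact (abs_add_le' (abs_mul_le' ha.b2 hb.b0) (abs_mul_le' ha.b0 hb.b2)).trans_eq (by ring)
  · exact abs_add_le' (abs_add_le' (abs_mul_le' ha.b11 hb.b0)
      (abs_mul_le' (abs_mul_le' abs_two_le ha.b1) hb.b1)) (abs_mul_le' ha.b0 hb.b11)
  · exact (abs_add_le' (abs_add_le' (abs_add_le' (abs_mul_le' ha.b12 hb.b0)
      (abs_mul_le' ha.b1 hb.b2)) (abs_mul_le' ha.b2 hb.b1)) (abs_mul_le' ha.b0 hb.b12)).trans_eq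
      (by ring)
  · exact (abs_add_le' (abs_add_le' (abs_mul_le' ha.b22 hb.b0)
      (abs_mul_le' (abs_mul_le' abs_two_le ha.b2) hb.b2)) (abs_mul_le' ha.b0 hb.b22)).trans_eq
      (by ring)

theorem Jet.B.comp {σ : ℝ} {a : Jet} {a0 a1 a2 c0 c1 c2 : ℝ} (ha : a.B σ a0 a1 a2)
    {p0 p1 p2 : ℝ → ℝ} (h0 : |p0 a.f| ≤ c0) (h1 : |p1 a.f| ≤ c1) (h2 : |p2 a.f| ≤ c2) :
    (a.comp p0 p1 p2).B σ c0 (c1 * a1) (c2 * a1 ^ 2 + c1 * a2) := by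
  refine ⟨h0, abs_mul_le' h1 ha.b1, (abs_mul_le' h1 ha.b2).trans_eq (by ring), ?_, ?_, ?_⟩
  · exact abs_add_le' (abs_mul_le' h2 (abs_sq_le' ha.b1)) (abs_mul_le' h1 ha.b11)
  · exact (abs_add_le' (abs_mul_le' (abs_mul_le' h2 ha.b1) ha.b2)
      (abs_mul_le' h1 ha.b12)).trans_eq (by ring)
  · exact (abs_add_le' (abs_mul_le' h2 (abs_sq_le' ha.b2))
      (abs_mul_le' h1 ha.b22)).trans_eq (by ring)

theorem R_neg {C n ζ α : ℝ} (hC : C ≤ 1) (hα0 : 0 < α) (hs : α ≤ 1 / 1000) (hγ : 1 - C ≤ 1 / 1000)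
    (hn0 : 0 ≤ n) (hnn : n ^ 2 = (1 - C) * (1 + C)) (hζ : ζ = (1 + C) / 2) :
    (2 * ζ * n + 27 / 2 * ζ ^ 2) * ((1 - C) / 2 + n) +
      ζ ^ 2 * (-n / 2 - C) + α * (n ^ 2 + 7 * ζ * n - ζ * C / 2) ≤ 0 := by
  have hn2 : n ≤ 1 / 20 := by nlinarith
  have hz2 : 999 / 1000 ≤ ζ := by linarith
  have hz1 : ζ ≤ 1 := by linarith
  have hzn : ζ * n ≤ 1 / 20 := by nlinarith
  have hzn0 : 0 ≤ ζ * n := by positivity
  have hzz : ζ ^ 2 ≤ 1 := by nlinarith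
  have hzz' : 998 / 1000 ≤ ζ ^ 2 := by nlinarith
  have t1 : (2 * ζ * n + 27 / 2 * ζ ^ 2) * ((1 - C) / 2 + n) ≤ 14 * (51 / 1000) := by
    apply mul_le_mul <;> linarith
  have t2 : ζ ^ 2 * (-n / 2 - C) ≤ -(99 / 100) := by nlinarith
  have t3 : α * (n ^ 2 + 7 * ζ * n - ζ * C / 2) ≤ 1 / 1000 := by
    have h1 : 0 ≤ ζ * C := by apply mul_nonneg <;> linarith
    have h2 : n ^ 2 ≤ 1 / 2 := by nlinarith
    have : n ^ 2 + 7 * ζ * n - ζ * C / 2 ≤ 1 := by linarith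
    nlinarith
  linarith

theorem R_le {C n ζ α : ℝ} (hC : C ≤ 1) (hC' : -1 ≤ C) (hα0 : 0 < α) (hs : α ≤ 3)
    (hn0 : 0 ≤ n) (hn1 : n ≤ 1) (hζ : ζ = (1 + C) / 2) :
    (2 * ζ * n + 27 / 2 * ζ ^ 2) * ((1 - C) / 2 + n) +
      ζ ^ 2 * (-n / 2 - C) + α * (n ^ 2 + 7 * ζ * n - ζ * C / 2) ≤ 60 := by
  have hz0 : 0 ≤ ζ := by linarith
  have hz1 : ζ ≤ 1 := by linarith
  have hzn : ζ * n ≤ 1 := by nlinarith
  have hzn0 : 0 ≤ ζ * n := by positivity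
  have hzz : ζ ^ 2 ≤ 1 := by nlinarith
  have hzz' : 0 ≤ ζ ^ 2 := by positivity
  have t1 : (2 * ζ * n + 27 / 2 * ζ ^ 2) * ((1 - C) / 2 + n) ≤ 31 / 2 * 2 := by
    apply mul_le_mul <;> linarith
  have t2 : ζ ^ 2 * (-n / 2 - C) ≤ 1 := by nlinarith
  have t3 : α * (n ^ 2 + 7 * ζ * n - ζ * C / 2) ≤ 3 * (17 / 2) := by
    have h1 : -1 ≤ ζ * C := by nlinarith
    have h2 : n ^ 2 ≤ 1 := by nlinarith
    have : n ^ 2 + 7 * ζ * n - ζ * C / 2 ≤ 17 / 2 := by linarith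
    nlinarith
  linarith

theorem main_le {u δ α R : ℝ} (h0 : 0 ≤ u) (h1 : u ≤ 1) (h2 : u ≤ δ / α) (hδ : 0 < δ)
    (hs : 1 / 1000 ≤ α) (hR1 : R ≤ 60) :
    10 * u ^ 3 * (1 - u ^ 5) * (δ ^ 2 / α ^ 3 * R) ≤ 10 ^ 21 * δ ^ 5 := by
  have hp : 0 < α := by linarith
  have p5 : u ^ 5 ≤ 1 := pow_le_one₀ h0 h1
  have q5 : 0 ≤ u ^ 5 := by positivity
  have hw : 0 ≤ 10 * u ^ 3 * (1 - u ^ 5) := by
    have : 0 ≤ 1 - u ^ 5 := by linarith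
    positivity
  have hu3 : u ≤ 1000 * δ := by
    refine h2.trans ?_
    rw [div_le_iff₀ hp]; nlinarith
  have hd : δ ^ 2 / α ^ 3 ≤ 1000 ^ 3 * δ ^ 2 := by
    rw [div_le_iff₀ (by positivity)]
    have : (1 / 1000 : ℝ) ^ 3 ≤ α ^ 3 := by gcongr
    have : 0 < δ ^ 2 := by positivity
    nlinarith
  have t4 : δ ^ 2 / α ^ 3 * R ≤ 1000 ^ 3 * δ ^ 2 * 60 := by
    calc _ ≤ δ ^ 2 / α ^ 3 * 60 := by gcongr
      _ ≤ _ := by gcongr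
  have t5 : 10 * u ^ 3 * (1 - u ^ 5) ≤ 10 * (1000 * δ) ^ 3 := by
    have : u ^ 3 ≤ (1000 * δ) ^ 3 := by gcongr
    have : 0 ≤ u ^ 3 := by positivity
    nlinarith
  have t6 : 10 * u ^ 3 * (1 - u ^ 5) * (δ ^ 2 / α ^ 3 * R) ≤
      10 * (1000 * δ) ^ 3 * (1000 ^ 3 * δ ^ 2 * 60) := by
    calc _ ≤ 10 * u ^ 3 * (1 - u ^ 5) * (1000 ^ 3 * δ ^ 2 * 60) := by gcongr
      _ ≤ _ := by gcongr
  have h5 : 0 < δ ^ 5 := by positivity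
  have e : 10 * (1000 * δ) ^ 3 * (1000 ^ 3 * δ ^ 2 * 60) = 600 * 10 ^ 18 * δ ^ 5 := by ring
  rw [e] at t6
  linarith

section
variable {σ δ C S : ℝ} (hσ : 0 < σ) (hδ : 0 < δ) (hδ1 : δ ≤ 1) (hcs : C ^ 2 + S ^ 2 = 1)
include hcs

theorem absC : |C| ≤ 1 := by rw [abs_le]; constructor <;> nlinarith
theorem absS : |S| ≤ 1 := by rw [abs_le]; constructor <;> nlinarith

include hσ in
theorem ze_B : (zeJ σ C S).B σ 1 (1 / 2) (1 / 2) := by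
  have hC := abs_le.1 (absC hcs)
  have hS := abs_le.1 (absS hcs)
  have h2 : 0 < σ ^ 2 := by positivity
  refine ⟨?_, ?_, ?_, ?_, ?_, ?_⟩ <;> simp only [zeJ] <;> rw [abs_le] <;> constructor <;> nlinarith

include hσ hδ hδ1 in
theorem al_B : (alJ σ δ C S).B σ 3 (3 / 2) (5 / 4) := by
  have hC := abs_le.1 (absC hcs)
  have hS := abs_le.1 (absS hcs)
  have h2 : 0 < σ ^ 2 := by positivity
  refine ⟨?_, ?_, ?_, ?_, ?_, ?_⟩ <;> simp only [alJ] <;> rw [abs_le] <;> constructor <;> nlinarith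

omit hcs in
include hσ hδ in
theorem de_B : (deJ δ).B σ δ (δ / 2) (δ / 4) := by
  have h2 : 0 < σ ^ 2 := by positivity
  refine ⟨?_, ?_, ?_, ?_, ?_, ?_⟩ <;> simp only [deJ] <;> rw [abs_le] <;> constructor <;>
    nlinarith

include hδ in
theorem al_ge : δ ≤ 1 - C + δ := by
  have hC := abs_le.1 (absC hcs); linarith

include hδ1 in
theorem al_le : 1 - C + δ ≤ 3 := by
  have hC := abs_le.1 (absC hcs); linarith

include hδ in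
theorem u_range : 0 ≤ (uJ σ δ C S).f ∧ (uJ σ δ C S).f ≤ δ / (1 - C + δ) ∧
    (uJ σ δ C S).f ≤ 1 := by
  have hC := abs_le.1 (absC hcs)
  have ha := al_ge hδ hcs
  have hp : 0 < 1 - C + δ := by linarith
  have e : (uJ σ δ C S).f = δ / (1 - C + δ) * ((1 + C) / 2) := by
    simp only [uJ, deJ, zeJ, alJ, Jet.mul, Jet.comp]; field_simp
  have h1 : δ / (1 - C + δ) ≤ 1 := (div_le_one hp).2 ha
  have h0 : 0 < δ / (1 - C + δ) := by positivity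
  rw [e]
  refine ⟨by have : 0 ≤ 1 + C := by linarith
             positivity, by nlinarith, by nlinarith⟩

include hσ hδ hδ1 in
theorem u_B : (uJ σ δ C S).B σ 1 (5 * δ / (1 - C + δ) ^ 2) (21 / (1 - C + δ) ^ 2) := by
  have ha := al_ge hδ hcs
  have hb := al_le hδ1 hcs
  have hp : 0 < 1 - C + δ := by linarith
  obtain ⟨i, hi⟩ : ∃ i : ℝ, i = (1 - C + δ)⁻¹ := ⟨_, rfl⟩
  have hi0 : 0 < i := by rw [hi]; positivity
  have hi1 : δ * i ≤ 1 := by rw [hi, ← div_eq_mul_inv, div_le_one hp]; exact ha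
  have hi2 : 1 ≤ 3 * i := by rw [hi, ← div_eq_mul_inv, le_div_iff₀ hp]; linarith
  have hinv : ((alJ σ δ C S).comp (fun y => y⁻¹) (fun y => -(y ^ 2)⁻¹)
      (fun y => 2 * (y ^ 3)⁻¹)).B σ i (i ^ 2 * (3 / 2))
        (2 * i ^ 3 * (3 / 2) ^ 2 + i ^ 2 * (5 / 4)) := by
    refine (al_B hσ hδ hδ1 hcs).comp ?_ ?_ ?_
    · simp only [alJ, ← hi]; rw [abs_of_pos hi0]
    · simp only [alJ, ← inv_pow, ← hi]; rw [abs_neg, abs_of_pos (by positivity)]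
    · simp only [alJ, ← inv_pow, ← hi]; rw [abs_of_pos (by positivity)]
  have h := ((de_B hσ hδ).mul (ze_B hσ hcs)).mul hinv
  have e1 : 5 * δ / (1 - C + δ) ^ 2 = 5 * δ * i ^ 2 := by rw [hi]; field_simp
  have e2 : 21 / (1 - C + δ) ^ 2 = 21 * i ^ 2 := by rw [hi]; field_simp
  rw [e1, e2]
  have hi3 : i ≤ 3 * i ^ 2 := by nlinarith
  have hi4 : δ * i ≤ 3 * (δ * i ^ 2) := by nlinarith
  have hi5 : δ * i ^ 2 ≤ i ^ 2 := by nlinarith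
  have hi6 : δ * i ^ 3 ≤ i ^ 2 := by nlinarith
  have hi7 : 0 < δ * i ^ 2 := by positivity
  refine h.mono hσ.le (by linarith) (by nlinarith) (by nlinarith)

include hσ hδ hδ1 in
theorem T_B : (TJ σ δ C S).B σ 1 (50 * δ / (1 - C + δ) ^ 2) (2460 / (1 - C + δ) ^ 2) := by
  obtain ⟨h0, -, h1⟩ := u_range (σ := σ) hδ hcs
  have ha := al_ge hδ hcs
  have hp : 0 < 1 - C + δ := by linarith
  obtain ⟨u, hu⟩ : ∃ u, u = (uJ σ δ C S).f := ⟨_, rfl⟩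
  rw [← hu] at h0 h1
  have p3 : u ^ 3 ≤ 1 := pow_le_one₀ h0 h1
  have p4 : u ^ 4 ≤ 1 := pow_le_one₀ h0 h1
  have p5 : u ^ 5 ≤ 1 := pow_le_one₀ h0 h1
  have p8 : u ^ 8 ≤ 1 := pow_le_one₀ h0 h1
  have p9 : u ^ 9 ≤ 1 := pow_le_one₀ h0 h1
  have q3 : 0 ≤ u ^ 3 := by positivity
  have q4 : 0 ≤ u ^ 4 := by positivity
  have q5 : 0 ≤ u ^ 5 := by positivity
  have q8 : 0 ≤ u ^ 8 := by positivity
  have q9 : 0 ≤ u ^ 9 := by positivity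
  have e10 : u ^ 10 = u ^ 5 * u ^ 5 := by ring
  have h := (u_B hσ hδ hδ1 hcs).comp (p0 := fun y => 2 * y ^ 5 - y ^ 10)
    (p1 := fun y => 10 * y ^ 4 - 10 * y ^ 9) (p2 := fun y => 40 * y ^ 3 - 90 * y ^ 8)
    (c0 := 1) (c1 := 10) (c2 := 90)
    (by rw [← hu, abs_le]; constructor <;> nlinarith)
    (by rw [← hu, abs_le]; constructor <;> nlinarith)
    (by rw [← hu, abs_le]; constructor <;> nlinarith)
  refine h.mono hσ.le le_rfl (le_of_eq (by ring)) ?_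
  have h2 : δ ^ 2 ≤ (1 - C + δ) ^ 2 := by gcongr
  have : (5 * δ / (1 - C + δ) ^ 2) ^ 2 ≤ 25 / (1 - C + δ) ^ 2 := by
    rw [div_pow, div_le_div_iff₀ (by positivity) (by positivity)]
    have : 0 < (1 - C + δ) ^ 2 := by positivity
    nlinarith
  have e : 2460 / (1 - C + δ) ^ 2 = 90 * (25 / (1 - C + δ) ^ 2) + 10 * (21 / (1 - C + δ) ^ 2) := by
    ring
  rw [e]; linarith

include hδ in
theorem T_nonneg : 0 ≤ (TJ σ δ C S).f := by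
  obtain ⟨h0, -, h1⟩ := u_range (σ := σ) hδ hcs
  simp only [TJ, Jet.comp]
  have p5 := pow_le_one₀ (n := 5) h0 h1
  have q5 : 0 ≤ (uJ σ δ C S).f ^ 5 := by positivity
  have e10 : (uJ σ δ C S).f ^ 10 = (uJ σ δ C S).f ^ 5 * (uJ σ δ C S).f ^ 5 := by ring
  nlinarith

include hσ hδ hδ1 in
theorem q_B : (qJ σ δ C S).B σ (1 / (1 - C + δ) ^ 3) (5 / (1 - C + δ) ^ 4)
    (39 / (1 - C + δ) ^ 5) := by
  have ha := al_ge hδ hcs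
  have hb := al_le hδ1 hcs
  have hp : 0 < 1 - C + δ := by linarith
  obtain ⟨i, hi⟩ : ∃ i : ℝ, i = (1 - C + δ)⁻¹ := ⟨_, rfl⟩
  have hi0 : 0 < i := by rw [hi]; positivity
  have hi2 : 1 ≤ 3 * i := by rw [hi, ← div_eq_mul_inv, le_div_iff₀ hp]; linarith
  have h : (qJ σ δ C S).B σ (i ^ 3) (3 * i ^ 4 * (3 / 2))
      (12 * i ^ 5 * (3 / 2) ^ 2 + 3 * i ^ 4 * (5 / 4)) := by
    refine (al_B hσ hδ hδ1 hcs).comp ?_ ?_ ?_
    · simp only [alJ, ← inv_pow, ← hi]; rw [abs_of_pos (by positivity)]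
    · simp only [alJ, ← inv_pow, ← hi]; rw [neg_mul, abs_neg, abs_of_pos (by positivity)]
    · simp only [alJ, ← inv_pow, ← hi]; rw [abs_of_pos (by positivity)]
  have e0 : 1 / (1 - C + δ) ^ 3 = i ^ 3 := by rw [hi]; field_simp
  have e1 : 5 / (1 - C + δ) ^ 4 = 5 * i ^ 4 := by rw [hi]; field_simp
  have e2 : 39 / (1 - C + δ) ^ 5 = 39 * i ^ 5 := by rw [hi]; field_simp
  rw [e0, e1, e2]
  have h4 : 0 < i ^ 4 := by positivity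
  have h5 : i ^ 4 ≤ 3 * i ^ 5 := by nlinarith
  refine h.mono hσ.le le_rfl (by linarith) (by linarith)

include hδ hδ1 in
theorem q_main : 56 * (qJ σ δ C S).f + 15 * (qJ σ δ C S).f1 + (qJ σ δ C S).f11 +
    6 * (2 + (S + δ / 2) / (1 - C + δ)) * (8 * (qJ σ δ C S).f + (qJ σ δ C S).f1) ≤
      -2 / (1 - C + δ) ^ 4 + 201 ^ 4 := by
  have ha := al_ge hδ hcs
  have hp : 0 < 1 - C + δ := by linarith
  obtain ⟨i, hi⟩ : ∃ i : ℝ, i = (1 - C + δ)⁻¹ := ⟨_, rfl⟩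
  have hi0 : 0 < i := by rw [hi]; positivity
  have hi1 : (1 - C + δ) * i = 1 := by rw [hi]; field_simp
  have e : -2 / (1 - C + δ) ^ 4 = -2 * i ^ 4 := by rw [hi]; field_simp
  rw [e]
  simp only [qJ, alJ, Jet.comp, ← inv_pow, div_eq_mul_inv (S + δ / 2), ← hi]
  obtain ⟨a, ha1⟩ : ∃ a : ℝ, a = S + δ / 2 := ⟨_, rfl⟩
  rw [← ha1]
  have h3 : 0 < i ^ 3 := by positivity
  have h4 : 0 < i ^ 4 := by positivity
  have k1 : -33 * a * i ^ 4 - 6 * a ^ 2 * i ^ 5 ≤ 46 * i ^ 3 := by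
    have := mul_nonneg h3.le (sq_nonneg (a * i + 11 / 4))
    nlinarith
  have k2 : -3 * (C + δ / 4) * i ^ 4 ≤ -3 * i ^ 4 + 3 * i ^ 3 := by
    have : i ^ 3 = (1 - C + δ) * i ^ 4 := by
      calc i ^ 3 = ((1 - C + δ) * i) * i ^ 3 := by rw [hi1]; ring
        _ = _ := by ring
    have : 0 < δ * i ^ 4 := by positivity
    nlinarith
  have k3 : 201 * i ^ 3 ≤ i ^ 4 + 201 ^ 4 := by
    rcases le_total i 201 with h | h
    · have : i ^ 3 ≤ 201 ^ 3 := by gcongr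
      nlinarith
    · nlinarith
  nlinarith

include hδ hδ1 in
theorem T_main (hS : S ≤ 0) :
    (TJ σ δ C S).f11 + (11 + 6 * ((S + δ / 2) / (1 - C + δ))) * (TJ σ δ C S).f1 ≤
      10 ^ 21 * δ ^ 5 := by
  obtain ⟨h0, h2, h1⟩ := u_range (σ := σ) hδ hcs
  have hC := abs_le.1 (absC hcs)
  have hS1 := abs_le.1 (absS hcs)
  have ha := al_ge hδ hcs
  have hb := al_le hδ1 hcs
  have hp : 0 < 1 - C + δ := by linarith
  obtain ⟨α, hα⟩ : ∃ α : ℝ, α = 1 - C + δ := ⟨_, rfl⟩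
  obtain ⟨ζ, hζ⟩ : ∃ ζ : ℝ, ζ = (1 + C) / 2 := ⟨_, rfl⟩
  obtain ⟨n, hn⟩ : ∃ n : ℝ, n = -S := ⟨_, rfl⟩
  obtain ⟨R, hR⟩ : ∃ R : ℝ, R = (2 * ζ * n + 27 / 2 * ζ ^ 2) * ((1 - C) / 2 + n) +
    ζ ^ 2 * (-n / 2 - C) + α * (n ^ 2 + 7 * ζ * n - ζ * C / 2) := ⟨_, rfl⟩
  have eQ : 4 * (uJ σ δ C S).f1 ^ 2 + (uJ σ δ C S).f * ((uJ σ δ C S).f11 +
      (11 + 6 * ((S + δ / 2) / (1 - C + δ))) * (uJ σ δ C S).f1) = δ ^ 2 / α ^ 3 * R := by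
    rw [hR, hα, hζ, hn]
    simp only [uJ, deJ, zeJ, alJ, Jet.mul, Jet.comp]
    field_simp
    ring
  obtain ⟨u, hu⟩ : ∃ u, u = (uJ σ δ C S).f := ⟨_, rfl⟩
  have key : (TJ σ δ C S).f11 + (11 + 6 * ((S + δ / 2) / (1 - C + δ))) * (TJ σ δ C S).f1 =
      10 * u ^ 3 * (1 - u ^ 5) * (δ ^ 2 / α ^ 3 * R) - 50 * u ^ 8 * (uJ σ δ C S).f1 ^ 2 := by
    rw [← eQ, hu]; simp only [TJ, Jet.comp]; ring
  rw [key]
  rw [← hu] at h0 h1 h2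
  rw [← hα] at h2 ha hb hp
  have p5 : u ^ 5 ≤ 1 := pow_le_one₀ h0 h1
  have q5 : 0 ≤ u ^ 5 := by positivity
  have hneg : 0 ≤ 50 * u ^ 8 * (uJ σ δ C S).f1 ^ 2 := by positivity
  have hn0 : 0 ≤ n := by linarith
  have hn1 : n ≤ 1 := by linarith
  have hz0 : 0 ≤ ζ := by linarith
  have hz1 : ζ ≤ 1 := by linarith
  have hnn : n ^ 2 = (1 - C) * (1 + C) := by rw [hn]; linear_combination hcs
  have hw : 0 ≤ 10 * u ^ 3 * (1 - u ^ 5) := by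
    have : 0 ≤ 1 - u ^ 5 := by linarith
    positivity
  rcases le_total α (1 / 1000) with hs | hs
  · have hR0 : R ≤ 0 := by
      rw [hR]; exact R_neg hC.2 hp hs (by linarith) hn0 hnn hζ
    have : 10 * u ^ 3 * (1 - u ^ 5) * (δ ^ 2 / α ^ 3 * R) ≤ 0 :=
      mul_nonpos_of_nonneg_of_nonpos hw (mul_nonpos_of_nonneg_of_nonpos (by positivity) hR0)
    have : 0 ≤ (10 : ℝ) ^ 21 * δ ^ 5 := by positivity
    linarith
  · have hR1 : R ≤ 60 := by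
      rw [hR]; exact R_le hC.2 hC.1 hp hb hn0 hn1 hζ
    have := main_le h0 h1 h2 hδ hs hR1
    linarith

end

end Pool.Agent.H949Z.Fu
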