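import Pool.Agent.H949Z.Fu.JetAlg

/-! The jump profile and its jets. -/

set_option autoImplicit false

namespace Pool.Agent.H949Z.Fu

open Filter Topology

noncomputable def alJ (σ δ C S : ℝ) : Jet := ⟨1 - C + δ, S + δ / 2, -σ * S, C + δ / 4, -σ * C, σ ^ 2 * C⟩
noncomputable def zeJ (σ C S : ℝ) : Jet :=
  ⟨(1 + C) / 2, -S / 2, σ * S / 2, -C / 2, σ * C / 2, -σ ^ 2 * C / 2⟩
noncomputable def deJ (δ : ℝ) : Jet := ⟨δ, δ / 2, 0, δ / 4, 0, 0⟩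
noncomputable def uJ (σ δ C S : ℝ) : Jet :=
  ((deJ δ).mul (zeJ σ C S)).mul
    ((alJ σ δ C S).comp (fun y => y⁻¹) (fun y => -(y ^ 2)⁻¹) (fun y => 2 * (y ^ 3)⁻¹))
noncomputable def TJ (σ δ C S : ℝ) : Jet :=
  (uJ σ δ C S).comp (fun y => 2 * y ^ 5 - y ^ 10) (fun y => 10 * y ^ 4 - 10 * y ^ 9)
    (fun y => 40 * y ^ 3 - 90 * y ^ 8)
noncomputable def qJ (σ δ C S : ℝ) : Jet :=
  (alJ σ δ C S).comp (fun y => (y ^ 3)⁻¹) (fun y => -3 * (y ^ 4)⁻¹) (fun y => 12 * (y ^ 5)⁻¹)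

noncomputable def dq (q : ℝ × ℝ) : ℝ := Real.exp (q.1 / 2)
noncomputable def cq (σ : ℝ) (q : ℝ × ℝ) : ℝ := Real.cos (q.1 - σ * q.2)
noncomputable def sq' (σ : ℝ) (q : ℝ × ℝ) : ℝ := Real.sin (q.1 - σ * q.2)

theorem dq_pos (q : ℝ × ℝ) : 0 < dq q := Real.exp_pos _

theorem al_pos (σ : ℝ) (q : ℝ × ℝ) : 0 < 1 - cq σ q + dq q := by
  have := Real.cos_le_one (q.1 - σ * q.2)
  have := dq_pos q
  unfold cq; linarith

theorem isJet_cos (σ : ℝ) (q : ℝ × ℝ) :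
    IsJet (fun p => (Jet.aff 1 (-σ) p).comp Real.cos (fun y => -Real.sin y)
      (fun y => -Real.cos y)) q :=
  (IsJet.aff 1 (-σ) q).comp (Real.hasDerivAt_cos _) (Real.hasDerivAt_sin _).neg

theorem isJet_exp (a b : ℝ) (q : ℝ × ℝ) :
    IsJet (fun p => (Jet.aff a b p).comp Real.exp Real.exp Real.exp) q :=
  (IsJet.aff a b q).comp (Real.hasDerivAt_exp _) (Real.hasDerivAt_exp _)

theorem isJet_de (q : ℝ × ℝ) : IsJet (fun p => deJ (dq p)) q := by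
  refine (isJet_exp (1 / 2) 0 q).congr (Eventually.of_forall fun p => ?_)
  have e : 1 / 2 * p.1 + 0 * p.2 = p.1 / 2 := by ring
  ext <;> simp only [deJ, dq, Jet.comp, Jet.aff, e] <;> ring

theorem isJet_ze (σ : ℝ) (q : ℝ × ℝ) : IsJet (fun p => zeJ σ (cq σ p) (sq' σ p)) q := by
  refine (((IsJet.cst 1 q).add (isJet_cos σ q)).smul (1 / 2)).congr
    (Eventually.of_forall fun p => ?_)
  have e : 1 * p.1 + -σ * p.2 = p.1 - σ * p.2 := by ring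
  ext <;> simp only [zeJ, cq, sq', Jet.comp, Jet.aff, Jet.smul, Jet.add, Jet.cst, e] <;> ring

theorem isJet_al (σ : ℝ) (q : ℝ × ℝ) :
    IsJet (fun p => alJ σ (dq p) (cq σ p) (sq' σ p)) q := by
  refine (((IsJet.cst 1 q).add ((isJet_cos σ q).smul (-1))).add (isJet_de q)).congr
    (Eventually.of_forall fun p => ?_)
  have e : 1 * p.1 + -σ * p.2 = p.1 - σ * p.2 := by ring
  ext <;> simp only [alJ, deJ, cq, sq', Jet.comp, Jet.aff, Jet.smul, Jet.add, Jet.cst, e] <;> ring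

theorem hasDerivAt_inv_pow (n : ℕ) {y : ℝ} (hy : y ≠ 0) :
    HasDerivAt (fun y : ℝ => (y ^ (n + 1))⁻¹) (-(n + 1 : ℝ) * (y ^ (n + 2))⁻¹) y := by
  have h := (hasDerivAt_pow (n + 1) y).fun_inv (pow_ne_zero _ hy)
  refine h.congr_deriv ?_
  simp only [Nat.add_sub_cancel]
  push_cast
  field_simp
  ring

theorem isJet_u (σ : ℝ) (q : ℝ × ℝ) : IsJet (fun p => uJ σ (dq p) (cq σ p) (sq' σ p)) q := by
  have hne : (alJ σ (dq q) (cq σ q) (sq' σ q)).f ≠ 0 := (al_pos σ q).ne'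
  refine ((isJet_de q).mul (isJet_ze σ q)).mul ((isJet_al σ q).comp ?_ ?_)
  · exact hasDerivAt_inv hne
  · have := (hasDerivAt_inv_pow 1 hne).fun_neg
    refine this.congr_deriv ?_
    norm_num

theorem isJet_T (σ : ℝ) (q : ℝ × ℝ) : IsJet (fun p => TJ σ (dq p) (cq σ p) (sq' σ p)) q := by
  refine (isJet_u σ q).comp ?_ ?_
  · have := ((hasDerivAt_pow 5 (uJ σ (dq q) (cq σ q) (sq' σ q)).f).const_mul 2).fun_sub
      (hasDerivAt_pow 10 (uJ σ (dq q) (cq σ q) (sq' σ q)).f)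
    refine this.congr_deriv ?_
    norm_num; ring
  · have := ((hasDerivAt_pow 4 (uJ σ (dq q) (cq σ q) (sq' σ q)).f).const_mul 10).fun_sub
      ((hasDerivAt_pow 9 (uJ σ (dq q) (cq σ q) (sq' σ q)).f).const_mul 10)
    refine this.congr_deriv ?_
    norm_num; ring

theorem isJet_q (σ : ℝ) (q : ℝ × ℝ) : IsJet (fun p => qJ σ (dq p) (cq σ p) (sq' σ p)) q := by
  have hne : (alJ σ (dq q) (cq σ q) (sq' σ q)).f ≠ 0 := (al_pos σ q).ne'
  refine (isJet_al σ q).comp ?_ ?_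
  · have := hasDerivAt_inv_pow 2 hne
    refine this.congr_deriv ?_
    norm_num
  · have := (hasDerivAt_inv_pow 3 hne).const_mul (-3)
    refine this.congr_deriv ?_
    norm_num; ring

theorem TJ_top (σ δ : ℝ) (hδ : 0 < δ) : (TJ σ δ 1 0).add (Jet.cst (-1)) = Jet.cst 0 := by
  have hu : (uJ σ δ 1 0).f = 1 := by
    simp only [uJ, deJ, zeJ, alJ, Jet.mul, Jet.comp]; field_simp; ring
  have h1 : (uJ σ δ 1 0).f1 = 0 := by
    simp only [uJ, deJ, zeJ, alJ, Jet.mul, Jet.comp]; field_simp; ring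
  have h2 : (uJ σ δ 1 0).f2 = 0 := by
    simp only [uJ, deJ, zeJ, alJ, Jet.mul, Jet.comp]; field_simp; ring
  ext <;> simp only [TJ, Jet.comp, Jet.add, Jet.cst, hu, h1, h2] <;> norm_num

theorem TJ_bot (σ δ : ℝ) : TJ σ δ (-1) 0 = Jet.cst 0 := by
  have hu : (uJ σ δ (-1) 0).f = 0 := by
    simp only [uJ, deJ, zeJ, alJ, Jet.mul, Jet.comp]; ring
  ext <;> simp only [TJ, Jet.comp, Jet.cst, hu] <;> norm_num

end Pool.Agent.H949Z.Fu
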