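import Pool.Agent.H949Z.Fu.Stair

/-! Normalised bounds for the barrier. -/

set_option autoImplicit false

namespace Pool.Agent.H949Z.Fu

open Filter Topology Real

/-- the purely numerical part -/
theorem w_num {σ κ δ α a1 ρ R : ℝ} {T Q : Jet} (hσ : 0 < σ) (hσ1 : σ ≤ 1) (hκ : 0 < κ)
    (hκ1 : κ ≤ 1) (hδ : 0 < δ) (hδ1 : δ ≤ 1) (ha : δ ≤ α) (hb : α ≤ 3) (hρ : 0 < ρ) (hR : ρ ≤ R)
    (hR1 : 1 ≤ R)
    (hT : T.B σ 1 (50 * δ / α ^ 2) (2460 / α ^ 2))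
    (hQ : Q.B σ (1 / α ^ 3) (5 / α ^ 4) (39 / α ^ 5))
    (hTm : T.f11 + (11 + 6 * (a1 / α)) * T.f1 ≤ 10 ^ 21 * δ ^ 5)
    (hQm : 56 * Q.f + 15 * Q.f1 + Q.f11 + 6 * (2 + a1 / α) * (8 * Q.f + Q.f1) ≤
      -2 / α ^ 4 + 201 ^ 4) :
    |ρ * (c0 + T.f) + κ * δ ^ 4 * Q.f| ≤ 10 ^ 21 * R ∧
    ρ * (c0 + T.f) ≤ 10 ^ 21 * R ∧
    |ρ * T.f1 + κ * δ ^ 4 * (8 * Q.f + Q.f1)| ≤ 10 ^ 21 * R * δ / α ^ 2 ∧
    |ρ * (T.f11 - T.f1) + κ * δ ^ 4 * (56 * Q.f + 15 * Q.f1 + Q.f11)| ≤ 10 ^ 21 * R / α ^ 2 ∧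
    |ρ * (6 * σ * T.f1 + T.f12) + κ * δ ^ 4 * (8 * Q.f2 + Q.f12)| ≤ 10 ^ 21 * R * σ / α ^ 2 ∧
    |ρ * T.f2 + κ * δ ^ 4 * Q.f2| ≤ 10 ^ 21 * R * σ * δ / α ^ 2 ∧
    |ρ * (36 * σ ^ 2 * (c0 + T.f) + 12 * σ * T.f2 + T.f22) + κ * δ ^ 4 * Q.f22| ≤
      10 ^ 21 * R * σ ^ 2 / α ^ 2 ∧
    (ρ * (T.f11 - T.f1) + κ * δ ^ 4 * (56 * Q.f + 15 * Q.f1 + Q.f11)) + 6 * (2 + a1 / α) *
      (ρ * T.f1 + κ * δ ^ 4 * (8 * Q.f + Q.f1)) ≤
        δ ^ 4 * (10 ^ 21 * R * δ - 2 * κ / α ^ 4 + κ * (10 ^ 21 * R)) := by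
  have hp : 0 < α := by linarith
  obtain ⟨i, hi⟩ : ∃ i : ℝ, i = α⁻¹ := ⟨_, rfl⟩
  have hi0 : 0 < i := by rw [hi]; positivity
  have hi1 : δ * i ≤ 1 := by rw [hi, ← div_eq_mul_inv, div_le_one hp]; exact ha
  have hi2 : 1 ≤ 3 * i := by rw [hi, ← div_eq_mul_inv, le_div_iff₀ hp]; linarith
  simp only [div_eq_mul_inv, ← inv_pow, ← hi] at hT hQ hTm hQm ⊢
  have hc0 := c0_pos
  have hc1 := c0_le
  have aρ : |ρ| ≤ R := by rwa [abs_of_pos hρ]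
  have aκ : |κ * δ ^ 4| ≤ δ ^ 4 := by
    rw [abs_of_pos (by positivity)]; have : 0 < δ ^ 4 := by positivity
    nlinarith
  have aσ : ∀ c : ℝ, 0 ≤ c → |c * σ| ≤ c * σ := fun c hc => by
    rw [abs_of_nonneg (by positivity)]
  have aσ2 : |36 * σ ^ 2| ≤ 36 * σ ^ 2 := by rw [abs_of_nonneg (by positivity)]
  have an : ∀ c : ℝ, 0 ≤ c → |c| ≤ c := fun c hc => by rw [abs_of_nonneg hc]
  have aT : |c0 + T.f| ≤ 2 := (abs_add_le' (an c0 hc0.le) hT.b0).trans (by linarith)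
  obtain ⟨j, hj⟩ : ∃ j, j = δ * i := ⟨_, rfl⟩
  have hj0 : 0 < j := by rw [hj]; positivity
  have hj1 : j ≤ 1 := by rw [hj]; exact hi1
  have hj2 : j ^ 2 ≤ 1 := pow_le_one₀ hj0.le hj1
  have hj3 : j ^ 3 ≤ 1 := pow_le_one₀ hj0.le hj1
  have i2 : 0 < i ^ 2 := by positivity
  have i9 : 1 ≤ 9 * i ^ 2 := by nlinarith
  have di2 : 0 < δ * i ^ 2 := by positivity
  have di3 : δ * i ^ 2 ≤ i ^ 2 := by nlinarith
  -- the three basic products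
  have d3 : δ ^ 4 * i ^ 3 ≤ 9 * (δ * i ^ 2) := by
    have e : δ ^ 4 * i ^ 3 = j ^ 3 * δ := by rw [hj]; ring
    rw [e]; nlinarith
  have d4 : δ ^ 4 * i ^ 4 ≤ δ * i ^ 2 := by
    have e : δ ^ 4 * i ^ 4 = j ^ 2 * δ * (δ * i ^ 2) := by rw [hj]; ring
    have : j ^ 2 * δ ≤ 1 := by nlinarith
    rw [e]; nlinarith
  have d5 : δ ^ 4 * i ^ 5 ≤ δ * i ^ 2 := by
    have e : δ ^ 4 * i ^ 5 = j ^ 3 * (δ * i ^ 2) := by rw [hj]; ring
    rw [e]; nlinarith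
  have d0 : δ ^ 4 * i ^ 3 ≤ 1 := by
    have e : δ ^ 4 * i ^ 3 = j ^ 3 * δ := by rw [hj]; ring
    rw [e]; nlinarith
  have R1 : δ * i ^ 2 ≤ R * (δ * i ^ 2) := by nlinarith
  have R2 : R * (δ * i ^ 2) ≤ R * i ^ 2 := by nlinarith
  have R3 : R ≤ 9 * (R * i ^ 2) := by nlinarith
  have R0 : 0 < R * (δ * i ^ 2) := by positivity
  refine ⟨?_, ?_, ?_, ?_, ?_, ?_, ?_, ?_⟩
  · refine (abs_add_le' (abs_mul_le' aρ aT) (abs_mul_le' aκ hQ.b0)).trans ?_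
    linarith
  · have := (le_abs_self _).trans (abs_mul_le' aρ aT); linarith
  · refine (abs_add_le' (abs_mul_le' aρ hT.b1) (abs_mul_le' aκ
      (abs_add_le' (abs_mul_le' (an 8 (by norm_num)) hQ.b0) hQ.b1))).trans ?_
    linarith
  · refine (abs_add_le' (abs_mul_le' aρ ((abs_sub _ _).trans (add_le_add hT.b11 hT.b1)))
      (abs_mul_le' aκ (abs_add_le' (abs_add_le' (abs_mul_le' (an 56 (by norm_num)) hQ.b0)
        (abs_mul_le' (an 15 (by norm_num)) hQ.b1)) hQ.b11))).trans ?_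
    linarith
  · refine (abs_add_le' (abs_mul_le' aρ (abs_add_le' (abs_mul_le' (aσ 6 (by norm_num)) hT.b1)
      hT.b12)) (abs_mul_le' aκ (abs_add_le' (abs_mul_le' (an 8 (by norm_num)) hQ.b2)
        hQ.b12))).trans ?_
    have : R * (6 * (50 * δ * i ^ 2) + 2460 * i ^ 2) + δ ^ 4 * (8 * (5 * i ^ 4) + 39 * i ^ 5) ≤
        10 ^ 21 * R * i ^ 2 := by linarith
    have := mul_le_mul_of_nonneg_left this hσ.le
    linarith
  · refine (abs_add_le' (abs_mul_le' aρ hT.b2) (abs_mul_le' aκ hQ.b2)).trans ?_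
    have : R * (50 * δ * i ^ 2) + δ ^ 4 * (5 * i ^ 4) ≤ 10 ^ 21 * R * δ * i ^ 2 := by linarith
    have := mul_le_mul_of_nonneg_left this hσ.le
    linarith
  · refine (abs_add_le' (abs_mul_le' aρ (abs_add_le' (abs_add_le' (abs_mul_le' aσ2 aT)
      (abs_mul_le' (aσ 12 (by norm_num)) hT.b2)) hT.b22)) (abs_mul_le' aκ hQ.b22)).trans ?_
    have : R * (36 * 2 + 12 * (50 * δ * i ^ 2) + 2460 * i ^ 2) + δ ^ 4 * (39 * i ^ 5) ≤
        10 ^ 21 * R * i ^ 2 := by linarith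
    have := mul_le_mul_of_nonneg_left this (sq_nonneg σ)
    linarith
  · have h1 := mul_le_mul_of_nonneg_left hTm hρ.le
    have h2 := mul_le_mul_of_nonneg_left hQm (show 0 ≤ κ * δ ^ 4 by positivity)
    have h3 : ρ * (10 ^ 21 * δ ^ 5) ≤ R * (10 ^ 21 * δ ^ 5) := by gcongr
    have h4 : κ * δ ^ 4 * 201 ^ 4 ≤ κ * δ ^ 4 * (10 ^ 21 * R) := by
      have : (201 : ℝ) ^ 4 ≤ 10 ^ 21 * R := by linarith
      gcongr
    linarith

theorem wpart : ∃ c K : ℝ, 0 < c ∧ 1 ≤ K ∧ ∀ σ κ : ℝ, 0 < σ → σ ≤ 1 → 0 < κ → κ ≤ 1 →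
    ∀ q : ℝ × ℝ, dq q ≤ 1 → ∃ w0 w1 x x1 x2 y' y2 : ℝ,
      WJ σ κ q = ⟨dq q ^ 12 * w0, dq q ^ 12 * x, dq q ^ 12 * (6 * σ * w1 + y'),
        dq q ^ 12 * (x1 + x), dq q ^ 12 * x2, dq q ^ 12 * y2⟩ ∧
      c ≤ w0 ∧ |w0| ≤ K ∧ c ≤ w1 ∧ w1 ≤ K ∧ |x| ≤ K * dq q / (1 - cq σ q + dq q) ^ 2 ∧
      |x1| ≤ K / (1 - cq σ q + dq q) ^ 2 ∧ |x2| ≤ K * σ / (1 - cq σ q + dq q) ^ 2 ∧
      |y'| ≤ K * σ * dq q / (1 - cq σ q + dq q) ^ 2 ∧
      |y2| ≤ K * σ ^ 2 / (1 - cq σ q + dq q) ^ 2 ∧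
      x1 + 6 * (2 + (sq' σ q + dq q / 2) / (1 - cq σ q + dq q)) * x ≤
        dq q ^ 4 * (K * dq q - 2 * κ / (1 - cq σ q + dq q) ^ 4 + κ * K) := by
  have hR1 : 1 ≤ exp (6 * π) := Real.one_le_exp (by positivity)
  refine ⟨exp (-(6 * π)) * c0, 10 ^ 21 * exp (6 * π), mul_pos (exp_pos _) c0_pos, by linarith, ?_⟩
  intro σ κ hσ hσ1 hκ hκ1 q hδ1
  have hcs : cq σ q ^ 2 + sq' σ q ^ 2 = 1 := Real.cos_sq_add_sin_sq _
  have hδ := dq_pos q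
  obtain ⟨hT, hT0, hTm⟩ := TT_facts hσ q hδ1
  obtain ⟨k1, k2⟩ := kk_spec (q.1 - σ * q.2)
  obtain ⟨ρ, hρ⟩ : ∃ ρ, ρ = exp (-6 * (q.1 - σ * q.2 - 2 * π * kk (q.1 - σ * q.2))) := ⟨_, rfl⟩
  have hρ0 : 0 < ρ := by rw [hρ]; exact exp_pos _
  have hρ1 : ρ ≤ exp (6 * π) := by rw [hρ]; exact exp_le_exp.2 (by linarith)
  have hρ2 : exp (-(6 * π)) ≤ ρ := by rw [hρ]; exact exp_le_exp.2 (by linarith)
  have e1 : exp (0 * q.1 + 6 * σ * q.2) * exp (12 * π * kk (q.1 - σ * q.2)) = dq q ^ 12 * ρ := by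
    rw [hρ, dq, ← Real.exp_nat_mul, ← Real.exp_add, ← Real.exp_add]; congr 1; push_cast; ring
  have e2 : exp (8 * q.1 + 0 * q.2) = dq q ^ 12 * dq q ^ 4 := by
    rw [dq, ← Real.exp_nat_mul, ← Real.exp_nat_mul, ← Real.exp_add]; congr 1; push_cast; ring
  have hQ := q_B hσ hδ hδ1 hcs
  obtain ⟨n1, n2, n3, n4, n5, n6, n7, n8⟩ := w_num hσ hσ1 hκ hκ1 hδ hδ1 (al_ge hδ hcs)
    (al_le hδ1 hcs) hρ0 hρ1 hR1 hT hQ hTm (q_main hδ hδ1 hcs)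
  have hw1 : exp (-(6 * π)) * c0 ≤ ρ * (c0 + (TT σ q).f) :=
    mul_le_mul hρ2 (by linarith) c0_pos.le hρ0.le
  have hQ0 : 0 ≤ (qJ σ (dq q) (cq σ q) (sq' σ q)).f := by
    have := al_pos σ q
    simp only [qJ, Jet.comp, alJ]; positivity
  refine ⟨_, _, _, _, _, _, _, ?_, ?_, n1, hw1, n2, n3, n4, n5, n6, n7, n8⟩
  · obtain ⟨A, hA⟩ : ∃ A, A = exp (0 * q.1 + 6 * σ * q.2) := ⟨_, rfl⟩
    obtain ⟨B, hB⟩ : ∃ B, B = exp (12 * π * kk (q.1 - σ * q.2)) := ⟨_, rfl⟩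
    rw [← hA, ← hB] at e1
    ext <;> simp only [WJ, SJ, Jet.add, Jet.mul, Jet.smul, Jet.comp, Jet.aff, Jet.cst, e2, ← hA,
      ← hB]
    · linear_combination (c0 + (TT σ q).f) * e1
    · linear_combination ((TT σ q).f1) * e1
    · linear_combination (6 * σ * (c0 + (TT σ q).f) + (TT σ q).f2) * e1
    · linear_combination ((TT σ q).f11) * e1
    · linear_combination (6 * σ * (TT σ q).f1 + (TT σ q).f12) * e1
    · linear_combination (36 * σ ^ 2 * (c0 + (TT σ q).f) + 12 * σ * (TT σ q).f2 +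
        (TT σ q).f22) * e1
  · have : 0 ≤ κ * dq q ^ 4 * (qJ σ (dq q) (cq σ q) (sq' σ q)).f := by positivity
    linarith

theorem barrier (hG : GPART) (hA : ALG) : BARRIER := by
  obtain ⟨c, K, hc, hK, hW⟩ := wpart
  obtain ⟨σ, κ, η0, hσ, hσ1, hκ, hκ1, hη, hA⟩ := hA c K hc hK
  obtain ⟨G, M, g1, g2, g3, g4, g5⟩ := hG σ hσ hσ1
  obtain ⟨η, hη0, hη1, hη2, hη3⟩ : ∃ η : ℝ, 0 < η ∧ η ≤ η0 ∧ η ≤ 1 / (4 * K) ∧ η ≤ 1 / 4 :=
    ⟨min η0 (1 / (4 * K)), lt_min hη (by positivity), min_le_left _ _, min_le_right _ _,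
      (min_le_right _ _).trans (by rw [div_le_div_iff₀ (by positivity) (by positivity)]; linarith)⟩
  have hlt : ∀ q : ℝ × ℝ, q.1 < min (-3) (2 * log η) → dq q ≤ η := by
    intro q hq
    have := (lt_min_iff.1 hq).2
    rw [dq, ← Real.exp_log hη0]
    exact exp_le_exp.2 (by linarith)
  have e6 : ∀ q : ℝ × ℝ, exp (3 * q.1) = dq q ^ 6 := fun q => by
    rw [dq, ← Real.exp_nat_mul]; congr 1; push_cast; ring
  have e12 : ∀ q : ℝ × ℝ, exp (6 * q.1) = dq q ^ 12 := fun q => by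
    rw [dq, ← Real.exp_nat_mul]; congr 1; push_cast; ring
  refine ⟨G, WJ σ κ, min (-3) (2 * log η), max M (7 * K), c,
    (min_le_left _ _).trans_lt (by norm_num), hc, g1, ?_, g3, g4, fun q _ => isJet_WJ σ κ q,
    ?_, ?_, ?_⟩
  · intro q
    have h : M * exp (3 * q.1) ≤ max M (7 * K) * exp (3 * q.1) := by
      gcongr; exact le_max_left _ _
    obtain ⟨a0, a1, a2, a3, a4, a5⟩ := g2 q
    exact ⟨a0.trans h, a1.trans h, a2.trans h, a3.trans h, a4.trans h, a5.trans h⟩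
  · intro q hq
    have hd := hlt q hq
    have hδ := dq_pos q
    have hδ1 : dq q ≤ 1 := by linarith
    have hcs : cq σ q ^ 2 + sq' σ q ^ 2 = 1 := Real.cos_sq_add_sin_sq _
    obtain ⟨w0, w1, x, x1, x2, y', y2, e, -, b0, b1, b1', bx, bx1, bx2, by', by2, -⟩ :=
      hW σ κ hσ hσ1 hκ hκ1 q hδ1
    have ha := al_ge hδ hcs
    obtain ⟨α, hα⟩ : ∃ α, α = 1 - cq σ q + dq q := ⟨_, rfl⟩
    obtain ⟨δ, hδe⟩ : ∃ δ, δ = dq q := ⟨_, rfl⟩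
    rw [e, e6]
    rw [← hα] at bx bx1 bx2 by' by2 ha
    rw [← hδe] at bx by' ha hδ hδ1 ⊢
    have hp : 0 < α := by linarith
    have key : ∀ z t : ℝ, t ≤ 1 → |z| ≤ K * t / α ^ 2 → δ ^ 2 * |z| ≤ K := by
      intro z t ht hz
      have h1 : δ ^ 2 ≤ α ^ 2 := by gcongr
      have h2 : K * t / α ^ 2 ≤ K / α ^ 2 := by gcongr; nlinarith
      have h3 : |z| * α ^ 2 ≤ K := by rw [← le_div_iff₀ (by positivity)]; linarith
      have := abs_nonneg z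
      nlinarith
    have kx := key x δ hδ1 bx
    have kx1 := key x1 1 le_rfl (by rwa [mul_one])
    have kx2 := key x2 σ hσ1 bx2
    have ky := key y' (σ * δ) (by nlinarith) (by rwa [← mul_assoc])
    have ky2 := key y2 (σ ^ 2) (by nlinarith) by2
    have d2 : δ ^ 2 ≤ 1 := pow_le_one₀ hδ.le hδ1
    have fin : ∀ z : ℝ, δ ^ 2 * |z| ≤ 7 * K → |δ ^ 12 * z| ≤ max M (7 * K) * δ ^ 6 := by
      intro z hz
      have d4 : δ ^ 4 ≤ 1 := pow_le_one₀ hδ.le hδ1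
      have h6 : 0 < δ ^ 6 := by positivity
      rw [abs_mul, abs_of_pos (by positivity)]
      calc δ ^ 12 * |z| = δ ^ 4 * (δ ^ 2 * |z|) * δ ^ 6 := by ring
        _ ≤ 1 * (7 * K) * δ ^ 6 := by gcongr
        _ ≤ _ := by rw [one_mul]; gcongr; exact le_max_right _ _
    have hd2 : 0 < δ ^ 2 := by positivity
    refine ⟨fin _ ?_, fin _ (by linarith), fin _ ?_, fin _ ?_, fin _ (by linarith),
      fin _ (by linarith)⟩
    · have := abs_nonneg w0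
      nlinarith
    · have h1 : |6 * σ * w1 + y'| ≤ 6 * K + |y'| := by
        refine (abs_add_le _ _).trans ?_
        rw [abs_of_nonneg (by have : 0 < w1 := by linarith
                              positivity)]
        nlinarith
      have := mul_le_mul_of_nonneg_left h1 hd2.le
      nlinarith
    · have := mul_le_mul_of_nonneg_left (abs_add_le x1 x) hd2.le
      linarith
  · intro q hq
    have hd := hlt q hq
    have hδ := dq_pos q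
    have hδ1 : dq q ≤ 1 := by linarith
    obtain ⟨w0, w1, x, x1, x2, y', y2, e, b00, b0, -⟩ := hW σ κ hσ hσ1 hκ hκ1 q hδ1
    rw [e, e12]
    have h12 : 0 < dq q ^ 12 := by positivity
    refine ⟨by simp only; nlinarith, ?_⟩
    simp only
    have h1 : dq q ^ 12 ≤ dq q := by
      calc dq q ^ 12 = dq q ^ 11 * dq q := by ring
        _ ≤ 1 * dq q := by gcongr; exact pow_le_one₀ hδ.le hδ1
        _ = _ := one_mul _
    have h2 : dq q * K ≤ 1 / 4 := by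
      have := hd.trans hη2
      rw [le_div_iff₀ (by positivity)] at this
      linarith
    have h3 := (le_abs_self w0).trans b0
    nlinarith
  · intro ε hε q hq
    have hd := hlt q hq
    have hδ := dq_pos q
    have hδ1 : dq q ≤ 1 := by linarith
    have hcs : cq σ q ^ 2 + sq' σ q ^ 2 = 1 := Real.cos_sq_add_sin_sq _
    obtain ⟨w0, w1, x, x1, x2, y', y2, e, -, b0, b1, b1', bx, bx1, bx2, by', by2, bm⟩ :=
      hW σ κ hσ hσ1 hκ hκ1 q hδ1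
    have hC := abs_le.1 (absC hcs)
    have hS := abs_le.1 (absS hcs)
    have hq2 : q.1 < -2 := by have := (lt_min_iff.1 hq).1; linarith
    have h := hA (dq q) (1 - cq σ q + dq q) (sq' σ q + dq q / 2) (-σ * sq' σ q)
      (1 / 3 - (3 * cq σ q + sq' σ q) / 10 + 2 / 7 * dq q) ((3 * sq' σ q - cq σ q) / 10)
      ((3 * cq σ q + sq' σ q) / 10) w0 w1 x x1 x2 y' y2 ε hδ (hd.trans hη1) (al_ge hδ hcs)
      (al_le hδ1 hcs) (by rw [abs_le]; constructor <;> linarith)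
      (by rw [abs_le]; constructor <;> nlinarith) (by rw [abs_le]; constructor <;> linarith)
      (by rw [abs_le]; constructor <;> linarith) (by rw [abs_le]; constructor <;> linarith)
      b0 b1 b1' bx bx1 bx2 by' by2 bm hε
    have eθ : exp q.1 = dq q ^ 2 := by
      rw [dq, ← Real.exp_nat_mul]; congr 1; push_cast; ring
    have eθ' : exp (-q.1) = (dq q ^ 2)⁻¹ := by rw [Real.exp_neg, eθ]
    rw [g5 q hq2, e]
    have eG : G0 σ q = ⟨dq q ^ 6 * (1 / 3 - (3 * cq σ q + sq' σ q) / 10 + 2 / 7 * dq q),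
        dq q ^ 6 * (1 - cq σ q + dq q), -σ * dq q ^ 6 * ((3 * sq' σ q - cq σ q) / 10),
        dq q ^ 6 * (3 * (1 - cq σ q + dq q) + (sq' σ q + dq q / 2)),
        dq q ^ 6 * (-σ * sq' σ q), σ ^ 2 * dq q ^ 6 * ((3 * cq σ q + sq' σ q) / 10)⟩ := by
      have e3 : (dq q ^ 2) ^ 3 = dq q ^ 6 := by ring
      simp only [G0, eθ, e3]; rfl
    rw [eG]
    simp only [Jet.P, eθ']
    convert h using 4
    all_goals (field_simp; try ring)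

end Pool.Agent.H949Z.Fu
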